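import Mathlib

section

set_option autoImplicit false

/-! Definitions: nearest-neighbour paths in `ℤ^d` as lists of steps. -/

namespace Pool.Agent.RWO

/-- The sites. -/
abbrev V (d : ℕ) := Fin d → ℤ

/-- The `2d` steps. -/
abbrev Stp (d : ℕ) := Fin d × Bool

/-- The unit vector of a step. -/
def vec {d : ℕ} (e : Stp d) : V d := Pi.single e.1 (if e.2 then 1 else -1)

/-- The opposite step. -/
def opp {d : ℕ} (e : Stp d) : Stp d := (e.1, !e.2)

/-- The end point of the path with steps `l` from `x`. -/
def en {d : ℕ} : V d → List (Stp d) → V d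
  | x, [] => x
  | x, e :: l => en (x + vec e) l

/-- All the sites of the path with steps `l` from `x` are in `O`. -/
def Op {d : ℕ} (O : Set (V d)) : V d → List (Stp d) → Prop
  | x, [] => x ∈ O
  | x, e :: l => x ∈ O ∧ Op O (x + vec e) l

/-- The lists of steps of length `n`. -/
def LL (d : ℕ) : ℕ → Finset (List (Stp d))
  | 0 => {[]}
  | n + 1 => (Finset.univ ×ˢ LL d n).image (fun p : Stp d × List (Stp d) => p.1 :: p.2)

open scoped Classical in
/-- The number of the open paths of length `n` from `x`. -/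
noncomputable def NP {d : ℕ} (O : Set (V d)) (x : V d) (n : ℕ) : ℕ :=
  ((LL d n).filter (fun l => Op O x l)).card

open scoped Classical in
/-- The number of the open paths of length `n` from `x` to `y`. -/
noncomputable def WP {d : ℕ} (O : Set (V d)) (x y : V d) (n : ℕ) : ℕ :=
  ((LL d n).filter (fun l => Op O x l ∧ en x l = y)).card

open scoped Classical in
/-- The pairs `(l, l')`: `l` an open path of length `t` from `x` to a point of `A`, `l'` an open path of length `s` from there. -/
noncomputable def PR {d : ℕ} (O : Set (V d)) (x : V d) (A : Set (V d)) (t s : ℕ) : Finset (List (Stp d) × List (Stp d)) :=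
  ((LL d t) ×ˢ (LL d s)).filter (fun P => Op O x P.1 ∧ en x P.1 ∈ A ∧ Op O (en x P.1) P.2)

open scoped Classical in
/-- The number of the open neighbours. -/
noncomputable def dg {d : ℕ} (O : Set (V d)) (x : V d) : ℕ :=
  ((Finset.univ : Finset (Stp d)).filter (fun e => x + vec e ∈ O)).card

/-- The number of the possible insertions of a backtrack. -/
noncomputable def II {d : ℕ} (O : Set (V d)) : V d → List (Stp d) → ℕ
  | x, [] => dg O x
  | x, e :: l => dg O x + II O (x + vec e) l

/-- The number of the backtracks. -/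
def bt {d : ℕ} : List (Stp d) → ℕ
  | [] => 0
  | [_] => 0
  | e :: f :: l => (if f = opp e then 1 else 0) + bt (f :: l)

/-- The triples `(l₁, e, l₂)`. -/
abbrev Tr (d : ℕ) := List (Stp d) × Stp d × List (Stp d)

/-- The path without the backtrack. -/
def aI {d : ℕ} (u : Tr d) : List (Stp d) := u.1 ++ u.2.2

/-- The path with the backtrack. -/
def bI {d : ℕ} (u : Tr d) : List (Stp d) := u.1 ++ u.2.1 :: opp u.2.1 :: u.2.2

open scoped Classical in
/-- The triples with `|l₁| + |l₂| = n` such that the path with the backtrack is open. -/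
noncomputable def ed {d : ℕ} (O : Set (V d)) (x : V d) (n : ℕ) : Finset (Tr d) :=
  ((Finset.range (n + 1)).biUnion fun i => (LL d i) ×ˢ ((Finset.univ : Finset (Stp d)) ×ˢ (LL d (n - i)))).filter
    (fun u => Op O x (bI u))

open scoped Classical in
/-- The number of the even times `2k ≤ 2q` at which the path `l` from `x` is in `A`. -/
noncomputable def vis {d : ℕ} (A : Set (V d)) (x : V d) (l : List (Stp d)) (q : ℕ) : ℕ :=
  ((Finset.range (q + 1)).filter (fun k => en x (l.take (2 * k)) ∈ A)).card

/-- The cube of half side `r - 1` about `c`. -/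
def cube {d : ℕ} (c : V d) (r : ℕ) : Set (V d) := {y | ∀ i, |y i - c i| ≤ (r : ℤ) - 1}

end Pool.Agent.RWO
end

section

set_option autoImplicit false

/-! Basic lemmas on paths. -/

namespace Pool.Agent.RWO

variable {d : ℕ}

theorem vec_opp (e : Stp d) : vec (opp e) = -vec e := by
  unfold vec opp
  rw [← Pi.single_neg]
  congr 1
  cases e.2 <;> simp

theorem add_vec_opp (x : V d) (e : Stp d) : x + vec e + vec (opp e) = x := by
  rw [vec_opp]
  abel

theorem opp_opp (e : Stp d) : opp (opp e) = e := by
  unfold opp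
  simp

@[simp] theorem en_nil (x : V d) : en x [] = x := rfl

@[simp] theorem en_cons (x : V d) (e : Stp d) (l : List (Stp d)) : en x (e :: l) = en (x + vec e) l := rfl

@[simp] theorem Op_nil (O : Set (V d)) (x : V d) : Op O x [] ↔ x ∈ O := Iff.rfl

@[simp] theorem Op_cons (O : Set (V d)) (x : V d) (e : Stp d) (l : List (Stp d)) :
    Op O x (e :: l) ↔ x ∈ O ∧ Op O (x + vec e) l := Iff.rfl

theorem en_append (x : V d) (l₁ l₂ : List (Stp d)) : en x (l₁ ++ l₂) = en (en x l₁) l₂ := by
  induction l₁ generalizing x with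
  | nil => rfl
  | cons e l ih => simp only [List.cons_append, en_cons]; exact ih _

theorem Op_start {O : Set (V d)} {x : V d} {l : List (Stp d)} (h : Op O x l) : x ∈ O := by
  cases l with
  | nil => exact h
  | cons e l => exact h.1

theorem Op_append (O : Set (V d)) (x : V d) (l₁ l₂ : List (Stp d)) :
    Op O x (l₁ ++ l₂) ↔ Op O x l₁ ∧ Op O (en x l₁) l₂ := by
  induction l₁ generalizing x with
  | nil =>
    simp only [List.nil_append, Op_nil, en_nil]
    exact ⟨fun h => ⟨Op_start h, h⟩, fun h => h.2⟩
  | cons e l ih =>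
    simp only [List.cons_append, Op_cons, en_cons]
    rw [ih]
    tauto

theorem Op_end {O : Set (V d)} {x : V d} {l : List (Stp d)} (h : Op O x l) : en x l ∈ O := by
  induction l generalizing x with
  | nil => exact h
  | cons e l ih => exact ih h.2

theorem mem_LL {n : ℕ} {l : List (Stp d)} : l ∈ LL d n ↔ l.length = n := by
  induction n generalizing l with
  | zero => simp [LL]
  | succ n ih =>
    unfold LL
    rw [Finset.mem_image]
    constructor
    · rintro ⟨⟨e, l'⟩, h, rfl⟩
      rw [Finset.mem_product] at h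
      simp only at h ⊢
      rw [List.length_cons, ih.1 h.2]
    · intro h
      cases l with
      | nil => simp at h
      | cons e l' =>
        refine ⟨(e, l'), ?_, rfl⟩
        rw [Finset.mem_product]
        refine ⟨Finset.mem_univ _, ih.2 ?_⟩
        simpa using h

theorem card_LL (n : ℕ) : (LL d n).card = (2 * d) ^ n := by
  induction n with
  | zero => simp [LL]
  | succ n ih =>
    unfold LL
    rw [Finset.card_image_of_injective, Finset.card_product, ih]
    · simp only [Finset.card_univ, Fintype.card_prod, Fintype.card_fin, Fintype.card_bool]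
      rw [pow_succ]
      ring
    · rintro ⟨e, l⟩ ⟨e', l'⟩ h
      simp only [List.cons.injEq] at h
      rw [h.1, h.2]

theorem mem_PR {O : Set (V d)} {x : V d} {A : Set (V d)} {t s : ℕ} {P : List (Stp d) × List (Stp d)} :
    P ∈ PR O x A t s ↔ P.1.length = t ∧ P.2.length = s ∧ Op O x P.1 ∧ en x P.1 ∈ A ∧ Op O (en x P.1) P.2 := by
  classical
  unfold PR
  rw [Finset.mem_filter, Finset.mem_product, mem_LL, mem_LL]
  tauto

theorem mem_ed {O : Set (V d)} {x : V d} {n : ℕ} {u : Tr d} :
    u ∈ ed O x n ↔ u.1.length + u.2.2.length = n ∧ Op O x (bI u) := by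
  classical
  unfold ed
  rw [Finset.mem_filter, Finset.mem_biUnion]
  constructor
  · rintro ⟨⟨i, hi, h⟩, h2⟩
    rw [Finset.mem_product, Finset.mem_product, mem_LL, mem_LL] at h
    rw [Finset.mem_range] at hi
    exact ⟨by omega, h2⟩
  · rintro ⟨h1, h2⟩
    refine ⟨⟨u.1.length, ?_, ?_⟩, h2⟩
    · rw [Finset.mem_range]; omega
    · rw [Finset.mem_product, Finset.mem_product, mem_LL, mem_LL]
      exact ⟨rfl, Finset.mem_univ _, by omega⟩

/-- `N(m + n) ≤ N(m) (2d)^n`. -/
theorem NP_add_le (O : Set (V d)) (x : V d) (m n : ℕ) : NP O x (m + n) ≤ NP O x m * (2 * d) ^ n := by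
  classical
  unfold NP
  rw [← card_LL (d := d) n, ← Finset.card_product]
  refine Finset.card_le_card_of_injOn (fun l => (l.take m, l.drop m)) ?_ ?_
  · intro l hl
    rw [Finset.mem_coe, Finset.mem_filter, mem_LL] at hl
    rw [Finset.mem_coe, Finset.mem_product, Finset.mem_filter, mem_LL, mem_LL]
    simp only [List.length_take, List.length_drop]
    refine ⟨⟨by omega, ?_⟩, by omega⟩
    have h := hl.2
    rw [← List.take_append_drop m l, Op_append] at h
    exact h.1
  · intro l _ l' _ h
    simp only [Prod.mk.injEq] at h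
    rw [← List.take_append_drop m l, ← List.take_append_drop m l', h.1, h.2]

/-- The pairs are the paths cut at time `t`. -/
theorem card_PR (O : Set (V d)) (x : V d) (A : Set (V d)) (t s : ℕ) [DecidablePred fun l : List (Stp d) => Op O x l ∧ en x (l.take t) ∈ A] :
    (PR O x A t s).card = ((LL d (t + s)).filter (fun l => Op O x l ∧ en x (l.take t) ∈ A)).card := by
  classical
  refine Finset.card_bij (fun P _ => P.1 ++ P.2) ?_ ?_ ?_
  · rintro P hP
    rw [mem_PR] at hP
    obtain ⟨h1, h2, h3, h4, h5⟩ := hP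
    rw [Finset.mem_filter, mem_LL]
    refine ⟨by simp [h1, h2], (Op_append _ _ _ _).2 ⟨h3, h5⟩, ?_⟩
    rw [List.take_left' h1]
    exact h4
  · rintro P hP Q hQ h
    rw [mem_PR] at hP hQ
    obtain ⟨h1, h2⟩ := List.append_inj h (hP.1.trans hQ.1.symm)
    exact Prod.ext h1 h2
  · intro l hl
    rw [Finset.mem_filter, mem_LL] at hl
    obtain ⟨h1, h2, h3⟩ := hl
    refine ⟨(l.take t, l.drop t), ?_, List.take_append_drop t l⟩
    rw [mem_PR]
    simp only [List.length_take, List.length_drop]
    have h4 := h2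
    rw [← List.take_append_drop t l, Op_append] at h4
    exact ⟨by omega, by omega, h4.1, h3, h4.2⟩

theorem card_PR_univ (O : Set (V d)) (x : V d) (t s : ℕ) : (PR O x Set.univ t s).card = NP O x (t + s) := by
  classical
  rw [card_PR]
  unfold NP
  congr 1
  refine Finset.filter_congr fun l _ => ?_
  simp

theorem card_PR_le (O : Set (V d)) (x : V d) (A : Set (V d)) (t s : ℕ) : (PR O x A t s).card ≤ NP O x (t + s) := by
  rw [← card_PR_univ]
  refine Finset.card_le_card fun P hP => ?_
  rw [mem_PR] at hP ⊢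
  exact ⟨hP.1, hP.2.1, hP.2.2.1, trivial, hP.2.2.2.2⟩

end Pool.Agent.RWO
end

section

set_option autoImplicit false

/-! The random environment. -/

namespace Pool.Agent.RWO

open MeasureTheory
open scoped NNReal ENNReal

/-- The environments: `ω x = true` iff the site `x` is open. -/
abbrev Env (d : ℕ) := V d → Bool

/-- The law of the environment: every site is open with probability `p`, independently. -/
noncomputable def PP (d : ℕ) (p : ℝ≥0) (hp : p ≤ 1) : Measure (Env d) :=
  Measure.infinitePi (fun _ : V d => (PMF.bernoulli p hp).toMeasure)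

instance (d : ℕ) (p : ℝ≥0) (hp : p ≤ 1) : IsProbabilityMeasure (PP d p hp) := by
  unfold PP
  infer_instance

/-- The open sites. -/
def opn {d : ℕ} (ω : Env d) : Set (V d) := {x | ω x = true}

/-- The open cluster of `0` is infinite. -/
def Inf {d : ℕ} (ω : Env d) : Prop := {y : V d | ∃ l, Op (opn ω) 0 l ∧ en 0 l = y}.Infinite

/-- The event `B` depends only on the sites in `S`. -/
def dep {d : ℕ} (S : Finset (V d)) (B : Set (Env d)) : Prop :=
  ∀ ω ω' : Env d, (∀ x ∈ S, ω x = ω' x) → (ω ∈ B ↔ ω' ∈ B)

/-- The box. -/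
noncomputable def bx (d : ℕ) (R : ℕ) : Finset (V d) := Fintype.piFinset (fun _ => Finset.Icc (-(R : ℤ)) R)

/-- The event that there is a short open path from `0` to the centre of an open cube. -/
def good {d : ℕ} (r D : ℕ) (ω : Env d) : Prop :=
  ∃ l : List (Stp d), l.length ≤ D ∧ Op (opn ω) 0 l ∧ cube (en 0 l) r ⊆ opn ω

end Pool.Agent.RWO
end

section

set_option autoImplicit false

/-! Task E1: independence of disjoint sets of sites. -/

namespace Pool.Agent.RWO

open MeasureTheory
open scoped NNReal ENNReal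

variable {d : ℕ}

/-- A set which depends only on `S` is the preimage of its image under the restriction. -/
theorem E1_preimage (S : Finset (V d)) (B : Set (Env d)) (h : dep S B) :
    B = (fun (ω : Env d) (i : S) => ω i) ⁻¹' ((fun (ω : Env d) (i : S) => ω i) '' B) := by
  ext ω
  constructor
  · intro hω
    exact ⟨ω, hω, rfl⟩
  · rintro ⟨ω', hω', he⟩
    refine (h ω' ω ?_).1 hω'
    intro x hx
    exact congrFun he ⟨x, hx⟩

/-- The restriction to `S` is measurable. -/
theorem E1_measurable (S : Finset (V d)) : Measurable (fun (ω : Env d) (i : S) => ω i) :=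
  measurable_pi_lambda _ (fun i => measurable_pi_apply _)

/-- Every set of configurations on a finite set is measurable. -/
theorem E1_discrete (S : Finset (V d)) (C : Set ((i : S) → Bool)) : MeasurableSet C :=
  (Set.toFinite C).measurableSet

/-- E1a. PROOF. `B` is the preimage under the restriction to `S` (measurable) of a subset of the finite discrete space `S → Bool`. -/
theorem dep_meas (S : Finset (V d)) (B : Set (Env d)) (h : dep S B) : MeasurableSet B := by
  rw [E1_preimage S B h]
  exact E1_measurable S (E1_discrete S _)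

/-- E1b. PROOF. `iIndepFun_infinitePi` (coordinates), `iIndepFun.indepFun_finset` for the restrictions to `S` and `T`; or: `A` and `B` are finite disjoint unions of cylinders, `Measure.infinitePi_pi`. -/
theorem dep_indep (p : ℝ≥0) (hp : p ≤ 1) (S T : Finset (V d)) (hST : Disjoint S T) (A B : Set (Env d)) (hA : dep S A) (hB : dep T B) :
    PP d p hp (A ∩ B) = PP d p hp A * PP d p hp B := by
  have h1 : ProbabilityTheory.iIndepFun (fun (i : V d) (ω : Env d) => ω i) (PP d p hp) :=
    ProbabilityTheory.iIndepFun_infinitePi (P := fun _ : V d => (PMF.bernoulli p hp).toMeasure)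
      (X := fun _ (b : Bool) => b) (fun _ => measurable_id)
  have h2 := h1.indepFun_finset S T hST (fun i => measurable_pi_apply i)
  have h3 := h2.measure_inter_preimage_eq_mul _ _ (E1_discrete S ((fun (ω : Env d) (i : S) => ω i) '' A))
    (E1_discrete T ((fun (ω : Env d) (i : T) => ω i) '' B))
  rw [← E1_preimage S A hA, ← E1_preimage T B hB] at h3
  exact h3

/-- E1c. PROOF. `Measure.infinitePi_pi`. -/
theorem PP_open (p : ℝ≥0) (hp : p ≤ 1) (T : Finset (V d)) : PP d p hp {ω | ∀ x ∈ T, ω x = true} = (p : ℝ≥0∞) ^ T.card := by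
  have h1 : ({ω | ∀ x ∈ T, ω x = true} : Set (Env d)) = Set.pi T (fun _ => ({true} : Set Bool)) := by
    ext ω
    simp [Set.mem_pi]
  have h2 : (PMF.bernoulli p hp).toMeasure ({true} : Set Bool) = (p : ℝ≥0∞) := by
    rw [PMF.toMeasure_apply_singleton _ _ (MeasurableSet.singleton _)]
    rfl
  rw [h1, PP, Measure.infinitePi_pi _ (fun i _ => MeasurableSet.singleton _)]
  simp only [h2, Finset.prod_const]

end Pool.Agent.RWO
end

section

set_option autoImplicit false

/-! Task E4: survival in an open cube. -/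

namespace Pool.Agent.RWO

variable {d : ℕ}

theorem E4_NP_zero {O : Set (V d)} {y : V d} (hy : y ∈ O) : NP O y 0 = 1 := by
  classical
  unfold NP
  have h : (LL d 0).filter (fun l => Op O y l) = {[]} := by
    ext l
    simp only [LL, Finset.mem_filter, Finset.mem_singleton]
    constructor
    · exact fun h => h.1
    · rintro rfl
      exact ⟨rfl, hy⟩
  rw [h, Finset.card_singleton]

theorem E4_NP_succ {O : Set (V d)} {y : V d} (hy : y ∈ O) (n : ℕ) :
    NP O y (n + 1) = ∑ e : Stp d, NP O (y + vec e) n := by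
  classical
  unfold NP
  rw [LL, Finset.filter_image, Finset.card_image_of_injective, Finset.card_filter,
    Finset.sum_product]
  · refine Finset.sum_congr rfl fun e _ => ?_
    rw [Finset.card_filter]
    refine Finset.sum_congr rfl fun l _ => ?_
    simp only [Op_cons, hy, true_and]
  · rintro ⟨e, l⟩ ⟨e', l'⟩ h
    simp only [List.cons.injEq] at h
    rw [h.1, h.2]

/-- the one dimensional function -/
noncomputable def E4_g (r : ℕ) (k : ℤ) : ℝ := Real.cos (Real.pi * k / (2 * r))

/-- the product function -/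
noncomputable def E4_f (c : V d) (r : ℕ) (y : V d) : ℝ := ∏ i, E4_g r (y i - c i)

theorem E4_g_sum (r : ℕ) (k : ℤ) : E4_g r (k + 1) + E4_g r (k + (-1)) =
    2 * Real.cos (Real.pi / (2 * r)) * E4_g r k := by
  unfold E4_g
  have h1 : Real.pi * ((k + 1 : ℤ) : ℝ) / (2 * r) = Real.pi * k / (2 * r) + Real.pi / (2 * r) := by
    push_cast
    ring
  have h2 : Real.pi * ((k + (-1) : ℤ) : ℝ) / (2 * r) = Real.pi * k / (2 * r) - Real.pi / (2 * r) := by
    push_cast
    ring
  rw [h1, h2, Real.cos_add, Real.cos_sub]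
  ring

theorem E4_f_step (c : V d) (r : ℕ) (y : V d) (i : Fin d) (b : Bool) :
    E4_f c r (y + vec (i, b)) = E4_g r (y i - c i + (if b then 1 else -1)) *
      ∏ j ∈ Finset.univ.erase i, E4_g r (y j - c j) := by
  unfold E4_f
  rw [← Finset.mul_prod_erase Finset.univ _ (Finset.mem_univ i)]
  congr 1
  · congr 1
    simp only [vec, Pi.add_apply, Pi.single_eq_same]
    ring
  · refine Finset.prod_congr rfl fun j hj => ?_
    have hji : j ≠ i := (Finset.mem_erase.1 hj).1
    simp only [vec, Pi.add_apply, Pi.single_eq_of_ne hji, add_zero]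

theorem E4_f_sum (c : V d) (r : ℕ) (y : V d) : ∑ e : Stp d, E4_f c r (y + vec e) =
    2 * d * Real.cos (Real.pi / (2 * r)) * E4_f c r y := by
  rw [Fintype.sum_prod_type]
  have h1 : ∀ i : Fin d, ∑ b : Bool, E4_f c r (y + vec (i, b)) =
      2 * Real.cos (Real.pi / (2 * r)) * E4_f c r y := by
    intro i
    rw [Fintype.sum_bool, E4_f_step, E4_f_step]
    simp only [if_true, Bool.false_eq_true, if_false]
    rw [← add_mul, E4_g_sum, mul_assoc]
    congr 1
    exact Finset.mul_prod_erase Finset.univ (fun j => E4_g r (y j - c j)) (Finset.mem_univ i)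
  rw [Finset.sum_congr rfl fun i _ => h1 i, Finset.sum_const, Finset.card_univ, Fintype.card_fin,
    nsmul_eq_mul]
  ring

theorem E4_g_nonneg {r : ℕ} (hr : 2 ≤ r) {k : ℤ} (hk : |k| ≤ (r : ℤ)) : 0 ≤ E4_g r k := by
  unfold E4_g
  have hr0 : (0 : ℝ) < r := by
    have : 0 < r := by omega
    exact_mod_cast this
  have hk' : |(k : ℝ)| ≤ r := by exact_mod_cast hk
  have h1 := abs_le.1 hk'
  have hpi := Real.pi_pos
  refine Real.cos_nonneg_of_neg_pi_div_two_le_of_le ?_ ?_
  · rw [le_div_iff₀ (by positivity)]
    nlinarith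
  · rw [div_le_iff₀ (by positivity)]
    nlinarith

theorem E4_g_zero {r : ℕ} (hr : 2 ≤ r) {k : ℤ} (hk : |k| = (r : ℤ)) : E4_g r k = 0 := by
  unfold E4_g
  have hr0 : (0 : ℝ) < r := by
    have : 0 < r := by omega
    exact_mod_cast this
  rcases abs_eq (by positivity) |>.1 hk with h | h
  · rw [h]
    have : Real.pi * ((r : ℤ) : ℝ) / (2 * r) = Real.pi / 2 := by
      push_cast
      field_simp
    rw [this, Real.cos_pi_div_two]
  · rw [h]
    have : Real.pi * ((-(r : ℤ) : ℤ) : ℝ) / (2 * r) = -(Real.pi / 2) := by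
      push_cast
      field_simp
    rw [this, Real.cos_neg, Real.cos_pi_div_two]

theorem E4_f_nonneg {r : ℕ} (hr : 2 ≤ r) {c y : V d} (hy : ∀ i, |y i - c i| ≤ (r : ℤ)) :
    0 ≤ E4_f c r y :=
  Finset.prod_nonneg fun i _ => E4_g_nonneg hr (hy i)

theorem E4_f_le_one {r : ℕ} (hr : 2 ≤ r) {c y : V d} (hy : ∀ i, |y i - c i| ≤ (r : ℤ)) :
    E4_f c r y ≤ 1 :=
  Finset.prod_le_one (fun i _ => E4_g_nonneg hr (hy i)) fun _ _ => Real.cos_le_one _

theorem E4_near {r : ℕ} {c y : V d} (hy : y ∈ cube c r) (e : Stp d) (i : Fin d) :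
    |(y + vec e) i - c i| ≤ (r : ℤ) := by
  have h1 := hy i
  have h2 : |vec e i| ≤ 1 := by
    unfold vec
    by_cases h : i = e.1
    · subst h
      rw [Pi.single_eq_same]
      split_ifs <;> simp
    · rw [Pi.single_eq_of_ne h]
      simp
  rw [Pi.add_apply]
  have h3 : y i + vec e i - c i = (y i - c i) + vec e i := by ring
  rw [h3]
  have h4 := abs_add_le (y i - c i) (vec e i)
  omega

theorem E4_main (hd : 1 ≤ d) (O : Set (V d)) (c : V d) (r : ℕ) (hr : 2 ≤ r) (h : cube c r ⊆ O) (n : ℕ) :
    ∀ y ∈ cube c r, E4_f c r y * ((2 * d : ℝ) ^ n * Real.cos (Real.pi / (2 * r)) ^ n) ≤ NP O y n := by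
  have hr0 : (0 : ℝ) < r := by
    have : 0 < r := by omega
    exact_mod_cast this
  have hcos : 0 ≤ Real.cos (Real.pi / (2 * r)) := by
    have h1 := E4_g_nonneg hr (k := 1) (by rw [abs_one]; exact_mod_cast (by omega : 1 ≤ r))
    unfold E4_g at h1
    simpa using h1
  have hcube : ∀ y ∈ cube c r, ∀ i, |y i - c i| ≤ (r : ℤ) := fun y hy i => by
    have := hy i
    omega
  induction n with
  | zero =>
    intro y hy
    rw [E4_NP_zero (h hy)]
    simpa using E4_f_le_one hr (hcube y hy)
  | succ n ih =>
    intro y hy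
    rw [E4_NP_succ (h hy)]
    push_cast
    have h1 : ∀ e : Stp d, E4_f c r (y + vec e) * ((2 * d : ℝ) ^ n * Real.cos (Real.pi / (2 * r)) ^ n) ≤
        NP O (y + vec e) n := by
      intro e
      by_cases he : y + vec e ∈ cube c r
      · exact ih _ he
      · have h2 : E4_f c r (y + vec e) = 0 := by
          unfold cube at he
          rw [Set.mem_setOf_eq] at he
          push Not at he
          obtain ⟨i, hi⟩ := he
          have h3 := E4_near hy e i
          refine Finset.prod_eq_zero (Finset.mem_univ i) (E4_g_zero hr ?_)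
          omega
        rw [h2, zero_mul]
        positivity
    calc E4_f c r y * ((2 * d : ℝ) ^ (n + 1) * Real.cos (Real.pi / (2 * r)) ^ (n + 1))
        = (2 * d * Real.cos (Real.pi / (2 * r)) * E4_f c r y) *
          ((2 * d : ℝ) ^ n * Real.cos (Real.pi / (2 * r)) ^ n) := by ring
      _ = ∑ e : Stp d, E4_f c r (y + vec e) *
          ((2 * d : ℝ) ^ n * Real.cos (Real.pi / (2 * r)) ^ n) := by
          rw [← E4_f_sum, Finset.sum_mul]
      _ ≤ ∑ e : Stp d, (NP O (y + vec e) n : ℝ) := Finset.sum_le_sum fun e _ => h1 e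

/-- E4. PROOF. `f y = ∏ i, cos(π (y i - c i)/(2r))` on the cube, `0` outside. For `y` in the cube `∑_e f(y + vec e) = (∑_e f̃(y + vec e)) = 2 d cos(π/(2r)) f y`, where `f̃` is the product formula: a neighbour `y + vec e` outside the cube has
a coordinate with `|y i ± 1 - c i| = r`, where the product vanishes; `cos(a + b) + cos(a - b) = 2 cos a cos b`. By induction on `n`, for all `y` in the cube: `f y (2d)^n cos(π/(2r))^n ≤ NP O y n` (`NP O y (n+1) = ∑_e NP O (y + vec e) n` if `y ∈ O`,
`f ≥ 0`, `NP O y 0 = 1 ≥ f y`). `f c = 1`. -/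
theorem box_surv (hd : 1 ≤ d) (O : Set (V d)) (c : V d) (r : ℕ) (hr : 2 ≤ r) (h : cube c r ⊆ O) (n : ℕ) :
    (2 * d : ℝ) ^ n * Real.cos (Real.pi / (2 * r)) ^ n ≤ NP O c n := by
  have hc : c ∈ cube c r := by
    intro i
    rw [sub_self, abs_zero]
    omega
  have h1 := E4_main hd O c r hr h n c hc
  have h2 : E4_f c r c = 1 := by
    unfold E4_f E4_g
    simp
  rwa [h2, one_mul] at h1

/-- E4b. PROOF. `NP O x n (2d)^L ≥ NP O x (n + L) ≥ NP O (en x l) n` (`NP_add_le`; the paths `l ++ l'`), `L = l.length`. -/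
theorem NP_connect (O : Set (V d)) (x : V d) (l : List (Stp d)) (h : Op O x l) (n : ℕ) :
    NP O (en x l) n ≤ NP O x n * (2 * d) ^ l.length := by
  classical
  refine le_trans ?_ (NP_add_le O x n l.length)
  unfold NP
  refine Finset.card_le_card_of_injOn (fun l' => l ++ l') ?_ ?_
  · intro l' hl'
    rw [Finset.mem_coe, Finset.mem_filter, mem_LL] at hl' ⊢
    simp only [List.length_append]
    exact ⟨by omega, (Op_append _ _ _ _).2 ⟨h, hl'.2⟩⟩
  · intro l₁ _ l₂ _ h12
    exact List.append_cancel_left h12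

end Pool.Agent.RWO
end

section

set_option autoImplicit false

/-! Task T1: the transport inequality. -/

namespace Pool.Agent.RWO

/-- T1. PROOF. `D⁺ w = #{u : a u = w}`, `D⁻ y = #{u : b u = y}`. `#X = ∑_{x ∈ X} 1 = ∑_{x ∈ X} ∑_{u : a u = x} 1/D⁺ x = ∑_{u : a u ∈ X} 1/D⁺(a u) ≤ ∑_{u : a u ∈ X} γ/D⁻(b u) ≤
∑_{y ∈ Y} ∑_{u : b u = y} γ/D⁻ y ≤ γ #Y` (`Finset.sum_fiberwise_of_maps_to`-like). -/
theorem transport {α β E : Type*} [DecidableEq α] [DecidableEq β] (X : Finset α) (Y : Finset β) (Ed : Finset E) (a : E → α) (b : E → β)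
    (γ : ℝ) (hγ : 0 ≤ γ) (ha : ∀ x ∈ X, ∃ u ∈ Ed, a u = x) (hb : ∀ u ∈ Ed, a u ∈ X → b u ∈ Y)
    (hdeg : ∀ u ∈ Ed, a u ∈ X → ((Ed.filter (fun w => b w = b u)).card : ℝ) ≤ γ * ((Ed.filter (fun w => a w = a u)).card : ℝ)) :
    (X.card : ℝ) ≤ γ * (Y.card : ℝ) := by
  classical
  set S : Finset E := Ed.filter (fun u => a u ∈ X) with hS
  have h1 : (X.card : ℝ) = ∑ u ∈ S, 1 / ((Ed.filter (fun w => a w = a u)).card : ℝ) := by
    rw [← Finset.sum_fiberwise_of_maps_to (s := S) (t := X) (g := a)
      (fun u hu => (Finset.mem_filter.1 hu).2) (fun u => 1 / ((Ed.filter (fun w => a w = a u)).card : ℝ))]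
    rw [Finset.card_eq_sum_ones, Nat.cast_sum]
    refine Finset.sum_congr rfl fun x hx => ?_
    have h2 : S.filter (fun u => a u = x) = Ed.filter (fun u => a u = x) := by
      ext u
      simp only [hS, Finset.mem_filter]
      constructor
      · rintro ⟨⟨h3, -⟩, h4⟩
        exact ⟨h3, h4⟩
      · rintro ⟨h3, h4⟩
        exact ⟨⟨h3, h4 ▸ hx⟩, h4⟩
    rw [h2]
    have h3 : ∑ u ∈ Ed.filter (fun u => a u = x), 1 / ((Ed.filter (fun w => a w = a u)).card : ℝ) =
        ∑ u ∈ Ed.filter (fun u => a u = x), 1 / ((Ed.filter (fun w => a w = x)).card : ℝ) := by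
      refine Finset.sum_congr rfl fun u hu => ?_
      rw [(Finset.mem_filter.1 hu).2]
    rw [h3, Finset.sum_const, nsmul_eq_mul]
    obtain ⟨u, hu, hux⟩ := ha x hx
    have h4 : 0 < (Ed.filter (fun w => a w = x)).card :=
      Finset.card_pos.2 ⟨u, Finset.mem_filter.2 ⟨hu, hux⟩⟩
    have h5 : ((Ed.filter (fun w => a w = x)).card : ℝ) ≠ 0 := by positivity
    rw [mul_one_div, div_self h5, Nat.cast_one]
  set Q : Finset E := Ed.filter (fun u => b u ∈ Y) with hQ
  have hSQ : S ⊆ Q := fun u hu => by
    rw [hS, Finset.mem_filter] at hu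
    rw [hQ, Finset.mem_filter]
    exact ⟨hu.1, hb u hu.1 hu.2⟩
  have h2 : ∀ u ∈ S, 1 / ((Ed.filter (fun w => a w = a u)).card : ℝ) ≤
      γ / ((Ed.filter (fun w => b w = b u)).card : ℝ) := by
    intro u hu
    rw [hS, Finset.mem_filter] at hu
    have h3 : 0 < (Ed.filter (fun w => a w = a u)).card :=
      Finset.card_pos.2 ⟨u, Finset.mem_filter.2 ⟨hu.1, rfl⟩⟩
    have h4 : 0 < (Ed.filter (fun w => b w = b u)).card :=
      Finset.card_pos.2 ⟨u, Finset.mem_filter.2 ⟨hu.1, rfl⟩⟩
    have h3' : (0 : ℝ) < (Ed.filter (fun w => a w = a u)).card := by exact_mod_cast h3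
    have h4' : (0 : ℝ) < (Ed.filter (fun w => b w = b u)).card := by exact_mod_cast h4
    rw [div_le_div_iff₀ h3' h4', one_mul]
    exact hdeg u hu.1 hu.2
  have h3 : ∑ u ∈ Q, γ / ((Ed.filter (fun w => b w = b u)).card : ℝ) ≤ γ * (Y.card : ℝ) := by
    rw [← Finset.sum_fiberwise_of_maps_to (s := Q) (t := Y) (g := b)
      (fun u hu => (Finset.mem_filter.1 hu).2) (fun u => γ / ((Ed.filter (fun w => b w = b u)).card : ℝ))]
    have h4 : γ * (Y.card : ℝ) = ∑ _y ∈ Y, γ := by
      rw [Finset.sum_const, nsmul_eq_mul, mul_comm]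
    rw [h4]
    refine Finset.sum_le_sum fun y hy => ?_
    have h5 : Q.filter (fun u => b u = y) = Ed.filter (fun u => b u = y) := by
      ext u
      simp only [hQ, Finset.mem_filter]
      constructor
      · rintro ⟨⟨h3, -⟩, h4⟩
        exact ⟨h3, h4⟩
      · rintro ⟨h3, h4⟩
        exact ⟨⟨h3, h4 ▸ hy⟩, h4⟩
    rw [h5]
    have h6 : ∑ u ∈ Ed.filter (fun u => b u = y), γ / ((Ed.filter (fun w => b w = b u)).card : ℝ) =
        ∑ u ∈ Ed.filter (fun u => b u = y), γ / ((Ed.filter (fun w => b w = y)).card : ℝ) := by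
      refine Finset.sum_congr rfl fun u hu => ?_
      rw [(Finset.mem_filter.1 hu).2]
    rw [h6, Finset.sum_const, nsmul_eq_mul]
    rcases Nat.eq_zero_or_pos (Ed.filter (fun w => b w = y)).card with h7 | h7
    · rw [h7]
      simpa using hγ
    · have h8 : ((Ed.filter (fun w => b w = y)).card : ℝ) ≠ 0 := by positivity
      rw [mul_div_cancel₀ _ h8]
  calc (X.card : ℝ) = ∑ u ∈ S, 1 / ((Ed.filter (fun w => a w = a u)).card : ℝ) := h1
    _ ≤ ∑ u ∈ S, γ / ((Ed.filter (fun w => b w = b u)).card : ℝ) := Finset.sum_le_sum h2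
    _ ≤ ∑ u ∈ Q, γ / ((Ed.filter (fun w => b w = b u)).card : ℝ) :=
      Finset.sum_le_sum_of_subset_of_nonneg hSQ fun u _ _ => by positivity
    _ ≤ _ := h3

end Pool.Agent.RWO
end

section

set_option autoImplicit false

/-! Task T2a: the number of the insertions. -/

namespace Pool.Agent.RWO

variable {d : ℕ}

theorem T2a_mem {O : Set (V d)} {x : V d} {n : ℕ} {l : List (Stp d)} (u : Tr d) (hl : l.length = n) :
    u ∈ (ed O x n).filter (fun u => aI u = l) ↔ Op O x (bI u) ∧ u.1 ++ u.2.2 = l := by
  rw [Finset.mem_filter, mem_ed]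
  unfold aI
  constructor
  · rintro ⟨⟨-, h1⟩, h2⟩
    exact ⟨h1, h2⟩
  · rintro ⟨h1, h2⟩
    refine ⟨⟨?_, h1⟩, h2⟩
    rw [← hl, ← h2, List.length_append]

theorem T2a_first {O : Set (V d)} {x : V d} {l : List (Stp d)} (h : Op O x l) (e : Stp d) :
    Op O x (bI (([] : List (Stp d)), e, l)) ↔ x + vec e ∈ O := by
  unfold bI
  simp only [List.nil_append, Op_cons, add_vec_opp]
  exact ⟨fun h1 => h1.2.1, fun h1 => ⟨Op_start h, h1, h⟩⟩

/-- T2a. PROOF. For an open `l` and a split `l = l₁ ++ l₂` the triple `(l₁, e, l₂)` is in `ed` iff `en x l₁ + vec e ∈ O` (`Op_append`, `Op_cons`, `add_vec_opp`). Induction on `l` (general `x`): the triples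
with `l₁ = []` give `dg O x`, the others correspond to the triples of the tail (`l = e :: l'`, from `x + vec e`). Or `card = ∑_{i ≤ |l|} dg O (en x (l.take i)) = II O x l`. -/
theorem ins_a (O : Set (V d)) (x : V d) (n : ℕ) (l : List (Stp d)) (hl : l.length = n) (h : Op O x l) :
    ((ed O x n).filter (fun u => aI u = l)).card = II O x l := by
  classical
  have h0 : ∀ (x : V d) (l : List (Stp d)), (((Finset.univ : Finset (Stp d)).filter
      (fun e => x + vec e ∈ O)).image (fun e => ((([] : List (Stp d)), e, l) : Tr d))).card = dg O x := by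
    intro x l
    rw [Finset.card_image_of_injective]
    · unfold dg
      congr
    · intro e f hef
      exact (Prod.ext_iff.1 (Prod.ext_iff.1 hef).2).1
  induction l generalizing x n with
  | nil =>
    have h1 : (ed O x n).filter (fun u => aI u = []) = ((Finset.univ : Finset (Stp d)).filter
        (fun e => x + vec e ∈ O)).image (fun e => ((([] : List (Stp d)), e, []) : Tr d)) := by
      ext ⟨l₁, e, l₂⟩
      rw [T2a_mem _ hl, Finset.mem_image]
      constructor
      · rintro ⟨h2, h3⟩
        obtain ⟨h4, h5⟩ := List.append_eq_nil_iff.1 h3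
        simp only at h4 h5
        subst h4 h5
        exact ⟨e, Finset.mem_filter.2 ⟨Finset.mem_univ _, (T2a_first h e).1 h2⟩, rfl⟩
      · rintro ⟨f, hf, hfe⟩
        rw [Finset.mem_filter] at hf
        rw [← hfe]
        exact ⟨(T2a_first h f).2 hf.2, rfl⟩
    rw [h1, h0]
    rfl
  | cons a l ih =>
    cases n with
    | zero => simp at hl
    | succ n =>
      have hl' : l.length = n := by simpa using hl
      have hx : x ∈ O := h.1
      have ih' := ih (x + vec a) n hl' h.2
      have h1 : (ed O x (n + 1)).filter (fun u => aI u = a :: l) =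
          ((Finset.univ : Finset (Stp d)).filter
            (fun e => x + vec e ∈ O)).image (fun e => ((([] : List (Stp d)), e, a :: l) : Tr d)) ∪
          ((ed O (x + vec a) n).filter (fun u => aI u = l)).image
            (fun u => ((a :: u.1, u.2.1, u.2.2) : Tr d)) := by
        ext ⟨l₁, e, l₂⟩
        rw [T2a_mem _ hl, Finset.mem_union, Finset.mem_image, Finset.mem_image]
        constructor
        · rintro ⟨h2, h3⟩
          cases l₁ with
          | nil =>
            simp only [List.nil_append] at h3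
            subst h3
            exact Or.inl ⟨e, Finset.mem_filter.2 ⟨Finset.mem_univ _, (T2a_first h e).1 h2⟩, rfl⟩
          | cons b l₁ =>
            simp only [List.cons_append, List.cons.injEq] at h3
            obtain ⟨h4, h5⟩ := h3
            subst h4
            refine Or.inr ⟨(l₁, e, l₂), (T2a_mem _ hl').2 ⟨?_, h5⟩, rfl⟩
            exact h2.2
        · rintro (⟨f, hf, hfe⟩ | ⟨u, hu, hue⟩)
          · rw [Finset.mem_filter] at hf
            rw [← hfe]
            exact ⟨(T2a_first h f).2 hf.2, rfl⟩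
          · rw [T2a_mem _ hl'] at hu
            rw [← hue]
            refine ⟨⟨hx, hu.1⟩, ?_⟩
            simp only [List.cons_append, hu.2]
      rw [h1, Finset.card_union_of_disjoint, h0, Finset.card_image_of_injective, ih']
      · rfl
      · rintro ⟨u1, u2, u3⟩ ⟨v1, v2, v3⟩ huv
        simp only [Prod.mk.injEq, List.cons.injEq, true_and] at huv
        rw [huv.1, huv.2.1, huv.2.2]
      · rw [Finset.disjoint_left]
        intro u hu hu'
        rw [Finset.mem_image] at hu hu'
        obtain ⟨e, -, he⟩ := hu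
        obtain ⟨v, -, hv⟩ := hu'
        have h2 := congrArg Prod.fst (he.trans hv.symm)
        simp at h2

end Pool.Agent.RWO
end

section

set_option autoImplicit false

/-! Task T2b: the number of the backtracks. -/

namespace Pool.Agent.RWO

variable {d : ℕ}

theorem T2b_bI_nil (e : Stp d) (l : List (Stp d)) : bI (([], e, l) : Tr d) = e :: opp e :: l := rfl

theorem T2b_bI_cons (a : Stp d) (l₁ : List (Stp d)) (v : Stp d × List (Stp d)) :
    bI ((a :: l₁, v) : Tr d) = a :: bI ((l₁, v) : Tr d) := rfl

theorem T2b_bI_length (u : Tr d) : (bI u).length = u.1.length + u.2.2.length + 2 := by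
  unfold bI
  simp only [List.length_append, List.length_cons]
  omega

theorem T2b_aux (l : List (Stp d)) : ∃ S : Finset (Tr d), (∀ u, u ∈ S ↔ bI u = l) ∧ S.card = bt l := by
  classical
  induction l with
  | nil =>
    refine ⟨∅, fun u => ?_, rfl⟩
    refine ⟨fun h => absurd h (Finset.notMem_empty u), fun h => ?_⟩
    have h1 := congrArg List.length h
    rw [T2b_bI_length] at h1
    simp at h1
  | cons e l ih =>
    cases l with
    | nil =>
      refine ⟨∅, fun u => ?_, rfl⟩
      refine ⟨fun h => absurd h (Finset.notMem_empty u), fun h => ?_⟩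
      have h1 := congrArg List.length h
      rw [T2b_bI_length] at h1
      simp at h1
    | cons f l =>
      obtain ⟨S, hS, hc⟩ := ih
      have hinj : Function.Injective (fun u : Tr d => ((e :: u.1, u.2) : Tr d)) := by
        rintro ⟨a, b⟩ ⟨a', b'⟩ h
        simp only [Prod.mk.injEq, List.cons.injEq, true_and] at h
        exact Prod.ext h.1 h.2
      refine ⟨(if f = opp e then {(([], e, l) : Tr d)} else ∅) ∪
        S.image (fun u : Tr d => ((e :: u.1, u.2) : Tr d)), ?_, ?_⟩
      · rintro ⟨l₁, e', l₂⟩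
        rw [Finset.mem_union, Finset.mem_image]
        cases l₁ with
        | nil =>
          rw [T2b_bI_nil]
          constructor
          · rintro (h | ⟨u, _, h⟩)
            · split_ifs at h with hf
              · rw [Finset.mem_singleton] at h
                simp only [Prod.mk.injEq, true_and] at h
                rw [h.1, h.2, hf]
              · exact absurd h (Finset.notMem_empty _)
            · simp at h
          · intro h
            simp only [List.cons.injEq] at h
            obtain ⟨h1, h2, h3⟩ := h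
            left
            rw [if_pos (by rw [← h2, h1]), Finset.mem_singleton, h1, h3]
        | cons a l₁ =>
          rw [T2b_bI_cons]
          constructor
          · rintro (h | ⟨u, hu, h⟩)
            · split_ifs at h with hf
              · rw [Finset.mem_singleton] at h
                simp at h
              · exact absurd h (Finset.notMem_empty _)
            · have h1 := (hS u).1 hu
              obtain ⟨u1, u2⟩ := u
              simp only [Prod.mk.injEq, List.cons.injEq] at h
              obtain ⟨⟨h2, h3⟩, h4⟩ := h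
              rw [← h2, ← h3, ← h4, h1]
          · intro h
            simp only [List.cons.injEq] at h
            obtain ⟨h1, h2⟩ := h
            right
            exact ⟨(l₁, e', l₂), (hS _).2 h2, by rw [h1]⟩
      · rw [Finset.card_union_of_disjoint, Finset.card_image_of_injective _ hinj, hc]
        · show _ = (if f = opp e then 1 else 0) + bt (f :: l)
          split_ifs <;> simp
        · rw [Finset.disjoint_left]
          intro u hu hu2
          rw [Finset.mem_image] at hu2
          obtain ⟨w, _, rfl⟩ := hu2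
          split_ifs at hu with hf
          · rw [Finset.mem_singleton] at hu
            simp at hu
          · exact absurd hu (Finset.notMem_empty _)

/-- T2b. PROOF. The triples with `l₁ ++ e :: opp e :: l₂ = l` correspond to the positions `i` with `l[i+1] = opp l[i]`. Induction on `l` as in the definition of `bt`: `l₁ = []` or `l₁ = e₀ :: l₁'`.
(State a helper without openness: the number of the triples `u` with `bI u = l`; then openness is automatic from `h`.) -/
theorem ins_b (O : Set (V d)) (x : V d) (n : ℕ) (l : List (Stp d)) (hl : l.length = n + 2) (h : Op O x l) :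
    ((ed O x n).filter (fun u => bI u = l)).card = bt l := by
  obtain ⟨S, hS, hc⟩ := T2b_aux l
  rw [← hc]
  congr 1
  ext u
  rw [Finset.mem_filter, mem_ed, hS]
  constructor
  · exact fun h1 => h1.2
  · intro h1
    refine ⟨⟨?_, ?_⟩, h1⟩
    · have h2 := T2b_bI_length u
      rw [h1, hl] at h2
      omega
    · rw [h1]
      exact h

end Pool.Agent.RWO
end

section

set_option autoImplicit false

/-! Task T2c: the effect of an insertion on `bt` and `II`. -/

namespace Pool.Agent.RWO

variable {d : ℕ}

theorem T2c_bt_cons (a : Stp d) (l : List (Stp d)) : bt l ≤ bt (a :: l) ∧ bt (a :: l) ≤ bt l + 1 := by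
  cases l with
  | nil => simp [bt]
  | cons f l =>
    have h : bt (a :: f :: l) = (if f = opp a then 1 else 0) + bt (f :: l) := rfl
    rw [h]
    split_ifs <;> omega

theorem T2c_bt_two (e : Stp d) (l : List (Stp d)) :
    bt l + 1 ≤ bt (e :: opp e :: l) ∧ bt (e :: opp e :: l) ≤ bt l + 2 := by
  have h : bt (e :: opp e :: l) = (if opp e = opp e then 1 else 0) + bt (opp e :: l) := rfl
  rw [if_pos rfl] at h
  have h2 := T2c_bt_cons (opp e) l
  omega

theorem T2c_bt (e : Stp d) (l₂ : List (Stp d)) (l₁ : List (Stp d)) :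
    bt (l₁ ++ l₂) ≤ bt (l₁ ++ e :: opp e :: l₂) ∧ bt (l₁ ++ e :: opp e :: l₂) ≤ bt (l₁ ++ l₂) + 3 := by
  induction l₁ with
  | nil =>
    have h := T2c_bt_two e l₂
    simp only [List.nil_append]
    omega
  | cons f l ih =>
    cases l with
    | nil =>
      have h := T2c_bt_two e l₂
      have h1 := T2c_bt_cons f l₂
      have h2 := T2c_bt_cons f (e :: opp e :: l₂)
      simp only [List.cons_append, List.nil_append]
      omega
    | cons g l =>
      have h1 : bt ((f :: g :: l) ++ l₂) = (if g = opp f then 1 else 0) + bt ((g :: l) ++ l₂) := rfl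
      have h2 : bt ((f :: g :: l) ++ e :: opp e :: l₂) =
          (if g = opp f then 1 else 0) + bt ((g :: l) ++ e :: opp e :: l₂) := rfl
      rw [h1, h2]
      omega

/-- T2c1. PROOF. `bt (l₁ ++ l₂) = bt l₁ + bt l₂ + [junction]`; with `f` the last of `l₁` and `g` the first of `l₂`: `bt (bI u) = bt (aI u) - [g = opp f] + [e = opp f] + 1 + [g = e]` (`opp_opp`). -/
theorem bt_ins (u : Tr d) : bt (aI u) ≤ bt (bI u) ∧ bt (bI u) ≤ bt (aI u) + 3 := by
  exact T2c_bt u.2.1 u.2.2 u.1

theorem T2c_dg_le (O : Set (V d)) (x : V d) : dg O x ≤ 2 * d := by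
  classical
  unfold dg
  refine (Finset.card_filter_le _ _).trans ?_
  rw [Finset.card_univ, Fintype.card_prod, Fintype.card_fin, Fintype.card_bool]
  omega

theorem T2c_dg_pos (O : Set (V d)) (x : V d) (e : Stp d) (h : x + vec e ∈ O) : 1 ≤ dg O x := by
  classical
  unfold dg
  exact Finset.card_pos.2 ⟨e, by rw [Finset.mem_filter]; exact ⟨Finset.mem_univ _, h⟩⟩

theorem T2c_II (O : Set (V d)) (e : Stp d) (l₂ : List (Stp d)) (l₁ : List (Stp d)) (x : V d) :
    II O x (l₁ ++ l₂) ≤ II O x (l₁ ++ e :: opp e :: l₂) ∧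
      II O x (l₁ ++ e :: opp e :: l₂) ≤ II O x (l₁ ++ l₂) + 4 * d := by
  induction l₁ generalizing x with
  | nil =>
    have h : II O x (e :: opp e :: l₂) = dg O x + (dg O (x + vec e) + II O (x + vec e + vec (opp e)) l₂) := rfl
    rw [add_vec_opp] at h
    have h1 := T2c_dg_le O x
    have h2 := T2c_dg_le O (x + vec e)
    simp only [List.nil_append]
    omega
  | cons f l ih =>
    have h1 : II O x ((f :: l) ++ l₂) = dg O x + II O (x + vec f) (l ++ l₂) := rfl
    have h2 : II O x ((f :: l) ++ e :: opp e :: l₂) = dg O x + II O (x + vec f) (l ++ e :: opp e :: l₂) := rfl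
    have h3 := ih (x + vec f)
    rw [h1, h2]
    omega

/-- T2c2. PROOF. `II O x (l₁ ++ e :: opp e :: l₂) = II O x (l₁ ++ l₂) + dg O (y + vec e) + dg O y`, `y = en x l₁`, `dg ≤ 2d`. Induction on `l₁`. -/
theorem II_ins (O : Set (V d)) (x : V d) (u : Tr d) : II O x (aI u) ≤ II O x (bI u) ∧ II O x (bI u) ≤ II O x (aI u) + 4 * d := by
  exact T2c_II O u.2.1 u.2.2 u.1 x

theorem Op_ins (O : Set (V d)) (x : V d) (u : Tr d) (h : Op O x (bI u)) : Op O x (aI u) := by
  unfold bI at h
  unfold aI
  rw [Op_append] at h ⊢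
  refine ⟨h.1, ?_⟩
  have h2 := h.2.2.2
  rw [add_vec_opp] at h2
  exact h2

theorem en_ins (x : V d) (u : Tr d) : en x (aI u) = en x (bI u) := by
  unfold aI bI
  rw [en_append, en_append, en_cons, en_cons, add_vec_opp]

/-- T2c3. PROOF. Every site of an open path of positive length has an open neighbour on the path (`x = x + vec e + vec (opp e)`). Induction on `l`. -/
theorem II_ge (O : Set (V d)) (x : V d) (l : List (Stp d)) (hl : l ≠ []) (h : Op O x l) : l.length + 1 ≤ II O x l := by
  induction l generalizing x with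
  | nil => exact absurd rfl hl
  | cons e l ih =>
    have h1 : II O x (e :: l) = dg O x + II O (x + vec e) l := rfl
    have h2 : 1 ≤ dg O x := T2c_dg_pos O x e (Op_start h.2)
    rw [h1, List.length_cons]
    by_cases hl' : l = []
    · subst hl'
      have h3 : II O (x + vec e) ([] : List (Stp d)) = dg O (x + vec e) := rfl
      have h4 : 1 ≤ dg O (x + vec e) := T2c_dg_pos O (x + vec e) (opp e) (by rw [add_vec_opp]; exact h.1)
      rw [h3, List.length_nil]
      omega
    · have h3 := ih (x + vec e) hl' h.2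
      omega

theorem II_le (O : Set (V d)) (x : V d) (l : List (Stp d)) : II O x l ≤ 2 * d * (l.length + 1) := by
  induction l generalizing x with
  | nil =>
    have h3 : II O x ([] : List (Stp d)) = dg O x := rfl
    rw [h3, List.length_nil]
    have := T2c_dg_le O x
    omega
  | cons e l ih =>
    have h1 : II O x (e :: l) = dg O x + II O (x + vec e) l := rfl
    have h2 := T2c_dg_le O x
    have h3 := ih (x + vec e)
    rw [h1, List.length_cons]
    calc dg O x + II O (x + vec e) l ≤ 2 * d + 2 * d * (l.length + 1) := Nat.add_le_add h2 h3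
      _ = 2 * d * (l.length + 1 + 1) := by ring

end Pool.Agent.RWO
end

section

set_option autoImplicit false

/-! Definitions for the time shift. -/

namespace Pool.Agent.RWO

variable {d : ℕ}

/-- The number of the forward moves: an insertion before, a removal after. -/
noncomputable def Dp (O : Set (V d)) (x : V d) (P : List (Stp d) × List (Stp d)) : ℝ := (II O x P.1 : ℝ) * (bt P.2 : ℝ)

/-- The number of the backward moves. -/
noncomputable def Dm (O : Set (V d)) (x : V d) (P : List (Stp d) × List (Stp d)) : ℝ := (bt P.1 : ℝ) * (II O (en x P.1) P.2 : ℝ)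

open scoped Classical in
/-- Pairs with many forward moves. -/
noncomputable def GS (O : Set (V d)) (x : V d) (A : Set (V d)) (t s : ℕ) (B₁ B₂ ρ : ℝ) : Finset (List (Stp d) × List (Stp d)) :=
  (PR O x A t s).filter (fun P => B₁ ≤ (bt P.1 : ℝ) ∧ B₂ ≤ (bt P.2 : ℝ) ∧ ρ * Dm O x P ≤ Dp O x P)

open scoped Classical in
/-- Pairs with many backward moves. -/
noncomputable def GT (O : Set (V d)) (x : V d) (A : Set (V d)) (t s : ℕ) (B₁ B₂ ρ : ℝ) : Finset (List (Stp d) × List (Stp d)) :=
  (PR O x A t s).filter (fun P => B₁ ≤ (bt P.1 : ℝ) ∧ B₂ ≤ (bt P.2 : ℝ) ∧ ρ * Dp O x P ≤ Dm O x P)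

open scoped Classical in
/-- Paths with many insertions. -/
noncomputable def GN (O : Set (V d)) (x : V d) (n : ℕ) (B ρ : ℝ) : Finset (List (Stp d)) :=
  (LL d n).filter (fun l => Op O x l ∧ B ≤ (bt l : ℝ) ∧ ρ * (bt l : ℝ) ≤ (II O x l : ℝ))

open scoped Classical in
/-- Paths with few insertions. -/
noncomputable def GM (O : Set (V d)) (x : V d) (n : ℕ) (B ρ : ℝ) : Finset (List (Stp d)) :=
  (LL d n).filter (fun l => Op O x l ∧ B ≤ (bt l : ℝ) ∧ (II O x l : ℝ) ≤ ρ * (bt l : ℝ))

end Pool.Agent.RWO
end
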