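import Pool.Agent.Lib.MP_c35813_pr.Mg.G001

section

set_option autoImplicit false

/-! Task H0: one step up, one step down. -/

namespace Pool.Agent.RWO

variable {d : ℕ}

theorem H0_mem_GN {O : Set (V d)} {x : V d} {n : ℕ} {B ρ : ℝ} {l : List (Stp d)} :
    l ∈ GN O x n B ρ ↔ l.length = n ∧ Op O x l ∧ B ≤ (bt l : ℝ) ∧ ρ * (bt l : ℝ) ≤ (II O x l : ℝ) := by
  classical
  unfold GN
  rw [Finset.mem_filter, mem_LL]

theorem H0_mem_GM {O : Set (V d)} {x : V d} {n : ℕ} {B ρ : ℝ} {l : List (Stp d)} :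
    l ∈ GM O x n B ρ ↔ l.length = n ∧ Op O x l ∧ B ≤ (bt l : ℝ) ∧ (II O x l : ℝ) ≤ ρ * (bt l : ℝ) := by
  classical
  unfold GM
  rw [Finset.mem_filter, mem_LL]

theorem H0_len_b {n : ℕ} {u : Tr d} (h : u.1.length + u.2.2.length = n) : (bI u).length = n + 2 := by
  unfold bI
  simp only [List.length_append, List.length_cons]
  omega

theorem H0_len_a {n : ℕ} {u : Tr d} (h : u.1.length + u.2.2.length = n) : (aI u).length = n := by
  unfold aI
  simp only [List.length_append]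
  omega

theorem H0_a [DecidableEq (List (Stp d))] (O : Set (V d)) (x : V d) (n : ℕ) (l : List (Stp d)) (hl : l.length = n) (h : Op O x l) :
    ((ed O x n).filter (fun u => aI u = l)).card = II O x l := by
  have h1 := ins_a O x n l hl h
  convert h1

theorem H0_b [DecidableEq (List (Stp d))] (O : Set (V d)) (x : V d) (n : ℕ) (l : List (Stp d)) (hl : l.length = n + 2) (h : Op O x l) :
    ((ed O x n).filter (fun u => bI u = l)).card = bt l := by
  have h1 := ins_b O x n l hl h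
  convert h1

/-- H0a. PROOF. `transport` with the edges `ed O x n`, `a = aI`, `b = bI`: out-degree `II O x l` (`ins_a`, positive by `II_ge`), in-degree `bt (bI u) ≤ bt l + 3 ≤ (1 + 3/B) bt l ≤ (1 + 3/B)/ρ II O x l`.
`II O x (bI u) ≥ II O x l ≥ ρ bt l ≥ ρ (1 - 3/B) (bt l + 3) ≥ ρ (1 - 3/B) bt (bI u)` as `(1 - 3/B)(1 + 3/B) ≤ 1`. -/
theorem step_up (O : Set (V d)) (x : V d) (n : ℕ) (hn : 1 ≤ n) (B ρ : ℝ) (hB : 3 ≤ B) (hρ : 0 < ρ) :
    ((GN O x n B ρ).card : ℝ) ≤ (1 + 3 / B) / ρ * ((GN O x (n + 2) B (ρ * (1 - 3 / B))).card : ℝ) := by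
  classical
  have hB0 : 0 < B := by linarith
  have h3B : 3 / B ≤ 1 := by rw [div_le_one hB0]; exact hB
  have h3B0 : 0 < 3 / B := by positivity
  have hBB : 3 / B * B = 3 := by field_simp
  refine transport (GN O x n B ρ) (GN O x (n + 2) B (ρ * (1 - 3 / B))) (ed O x n) aI bI ((1 + 3 / B) / ρ) (by positivity) ?_ ?_ ?_
  · intro l hl
    rw [H0_mem_GN] at hl
    obtain ⟨h1, h2, -, -⟩ := hl
    have hne : l ≠ [] := by
      rintro rfl
      simp at h1
      omega
    have h5 := II_ge O x l hne h2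
    rw [← H0_a O x n l h1 h2] at h5
    have h6 : 0 < ((ed O x n).filter (fun u => aI u = l)).card := by omega
    obtain ⟨w, hw⟩ := Finset.card_pos.1 h6
    rw [Finset.mem_filter] at hw
    exact ⟨w, hw.1, hw.2⟩
  · intro u hu hl
    rw [mem_ed] at hu
    rw [H0_mem_GN] at hl ⊢
    obtain ⟨h1, h2⟩ := hu
    obtain ⟨-, -, h5, h6⟩ := hl
    obtain ⟨h7, h8⟩ := bt_ins u
    have h9 : (bt (aI u) : ℝ) ≤ (bt (bI u) : ℝ) := by exact_mod_cast h7
    have h10 : (bt (bI u) : ℝ) ≤ (bt (aI u) : ℝ) + 3 := by exact_mod_cast h8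
    have h11 : (II O x (aI u) : ℝ) ≤ (II O x (bI u) : ℝ) := by exact_mod_cast (II_ins O x u).1
    refine ⟨H0_len_b h1, h2, h5.trans h9, ?_⟩
    have h12 : (1 - 3 / B) * (bt (bI u) : ℝ) ≤ (bt (aI u) : ℝ) := by
      have h13 : (1 - 3 / B) * (bt (bI u) : ℝ) ≤ (1 - 3 / B) * ((bt (aI u) : ℝ) + 3) :=
        mul_le_mul_of_nonneg_left h10 (by linarith)
      have h14 : 3 / B * B ≤ 3 / B * (bt (aI u) : ℝ) := mul_le_mul_of_nonneg_left h5 h3B0.le
      nlinarith
    calc ρ * (1 - 3 / B) * (bt (bI u) : ℝ) = ρ * ((1 - 3 / B) * (bt (bI u) : ℝ)) := by ring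
      _ ≤ ρ * (bt (aI u) : ℝ) := mul_le_mul_of_nonneg_left h12 hρ.le
      _ ≤ (II O x (aI u) : ℝ) := h6
      _ ≤ _ := h11
  · intro u hu hl
    rw [mem_ed] at hu
    rw [H0_mem_GN] at hl
    obtain ⟨h1, h2⟩ := hu
    obtain ⟨h3, h4, h5, h6⟩ := hl
    have h8 : (bt (bI u) : ℝ) ≤ (bt (aI u) : ℝ) + 3 := by exact_mod_cast (bt_ins u).2
    rw [H0_b O x n (bI u) (H0_len_b h1) h2, H0_a O x n (aI u) h3 h4]
    have h14 : 3 / B * B ≤ 3 / B * (bt (aI u) : ℝ) := mul_le_mul_of_nonneg_left h5 h3B0.le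
    have h15 : (bt (bI u) : ℝ) ≤ (1 + 3 / B) * (bt (aI u) : ℝ) := by nlinarith
    calc (bt (bI u) : ℝ) ≤ (1 + 3 / B) * (bt (aI u) : ℝ) := h15
      _ = (1 + 3 / B) / ρ * (ρ * (bt (aI u) : ℝ)) := by field_simp
      _ ≤ (1 + 3 / B) / ρ * (II O x (aI u) : ℝ) := mul_le_mul_of_nonneg_left h6 (by positivity)

/-- H0b. PROOF. `transport` with the edges `ed O x (n - 2)`, `a = bI`, `b = aI`: out-degree `bt l > 0` (`ins_b`), in-degree `II O x (aI u) ≤ II O x l ≤ ρ bt l`. `II O x (aI u) ≤ ρ bt l ≤ ρ (bt (aI u) + 3) ≤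
ρ (1 + 3/(B - 3)) bt (aI u)` and `3/(B-3) ≤ 6/B`. -/
theorem step_down (O : Set (V d)) (x : V d) (n : ℕ) (hn : 2 ≤ n) (B ρ : ℝ) (hB : 6 ≤ B) (hρ : 0 < ρ) :
    ((GM O x n B ρ).card : ℝ) ≤ ρ * ((GM O x (n - 2) (B - 3) (ρ * (1 + 6 / B))).card : ℝ) := by
  classical
  have hB0 : 0 < B := by linarith
  have h6B0 : 0 < 6 / B := by positivity
  have hBB : 6 / B * B = 6 := by field_simp
  have hn2 : n - 2 + 2 = n := by omega
  refine transport (GM O x n B ρ) (GM O x (n - 2) (B - 3) (ρ * (1 + 6 / B))) (ed O x (n - 2)) bI aI ρ hρ.le ?_ ?_ ?_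
  · intro l hl
    rw [H0_mem_GM] at hl
    obtain ⟨h1, h2, h3, -⟩ := hl
    have h6 : 0 < ((ed O x (n - 2)).filter (fun u => bI u = l)).card := by
      rw [H0_b O x (n - 2) l (by omega) h2]
      have h4 : (0 : ℝ) < (bt l : ℝ) := by linarith
      exact_mod_cast h4
    obtain ⟨w, hw⟩ := Finset.card_pos.1 h6
    rw [Finset.mem_filter] at hw
    exact ⟨w, hw.1, hw.2⟩
  · intro u hu hl
    rw [mem_ed] at hu
    rw [H0_mem_GM] at hl ⊢
    obtain ⟨h1, h2⟩ := hu
    obtain ⟨-, -, h5, h6⟩ := hl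
    have h10 : (bt (bI u) : ℝ) ≤ (bt (aI u) : ℝ) + 3 := by exact_mod_cast (bt_ins u).2
    have h11 : (II O x (aI u) : ℝ) ≤ (II O x (bI u) : ℝ) := by exact_mod_cast (II_ins O x u).1
    refine ⟨H0_len_a h1, Op_ins O x u h2, by linarith, ?_⟩
    have h12 : (bt (aI u) : ℝ) + 3 ≤ (1 + 6 / B) * (bt (aI u) : ℝ) := by
      have h14 : 6 / B * (B / 2) ≤ 6 / B * (bt (aI u) : ℝ) := mul_le_mul_of_nonneg_left (by linarith) h6B0.le
      nlinarith
    calc (II O x (aI u) : ℝ) ≤ (II O x (bI u) : ℝ) := h11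
      _ ≤ ρ * (bt (bI u) : ℝ) := h6
      _ ≤ ρ * ((bt (aI u) : ℝ) + 3) := mul_le_mul_of_nonneg_left h10 hρ.le
      _ ≤ ρ * ((1 + 6 / B) * (bt (aI u) : ℝ)) := mul_le_mul_of_nonneg_left h12 hρ.le
      _ = ρ * (1 + 6 / B) * (bt (aI u) : ℝ) := by ring
  · intro u hu hl
    rw [mem_ed] at hu
    rw [H0_mem_GM] at hl
    obtain ⟨h1, h2⟩ := hu
    obtain ⟨-, -, -, h6⟩ := hl
    have h11 : (II O x (aI u) : ℝ) ≤ (II O x (bI u) : ℝ) := by exact_mod_cast (II_ins O x u).1
    rw [H0_b O x (n - 2) (bI u) (H0_len_b h1) h2, H0_a O x (n - 2) (aI u) (H0_len_a h1) (Op_ins O x u h2)]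
    exact h11.trans h6

end Pool.Agent.RWO
end

section

set_option autoImplicit false

/-! Task T3: few backtracks are rare. -/

namespace Pool.Agent.RWO

variable {d : ℕ}

/-- The pairs with few backtracks in the first path, after `j` insertions. -/
noncomputable def T3_G (O : Set (V d)) (x : V d) (t s j : ℕ) : Finset (List (Stp d) × List (Stp d)) :=
  (PR O x Set.univ (t + 2 * j) s).filter (fun P => 16 * d ^ 2 * bt P.1 ≤ t + 48 * d ^ 2 * j)

theorem T3_mem_G {O : Set (V d)} {x : V d} {t s j : ℕ} {P : List (Stp d) × List (Stp d)} :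
    P ∈ T3_G O x t s j ↔ (P.1.length = t + 2 * j ∧ P.2.length = s ∧ Op O x P.1 ∧ Op O (en x P.1) P.2) ∧
      16 * d ^ 2 * bt P.1 ≤ t + 48 * d ^ 2 * j := by
  unfold T3_G
  rw [Finset.mem_filter, mem_PR]
  simp only [Set.mem_univ, true_and]

theorem T3_step (hd : 1 ≤ d) (O : Set (V d)) (x : V d) (t s j : ℕ) (ht : 1 ≤ t) (hj : 48 * d ^ 2 * (j + 1) ≤ t) :
    ((T3_G O x t s j).card : ℝ) ≤ 1 / (8 * (d : ℝ) ^ 2) * ((T3_G O x t s (j + 1)).card : ℝ) := by
  classical
  have hd0 : (0 : ℝ) < d := by exact_mod_cast hd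
  refine transport (T3_G O x t s j) (T3_G O x t s (j + 1))
    (((ed O x (t + 2 * j)) ×ˢ (LL d s)).filter (fun w : Tr d × List (Stp d) => Op O (en x (aI w.1)) w.2))
    (fun w => (aI w.1, w.2)) (fun w => (bI w.1, w.2)) _ (by positivity) ?_ ?_ ?_
  · rintro ⟨l, l'⟩ hP
    rw [T3_mem_G] at hP
    obtain ⟨⟨h1, h2, h3, h5⟩, -⟩ := hP
    simp only at h1 h2 h3 h5
    have hne : l ≠ [] := by
      rintro rfl
      simp at h1
      omega
    have hc := ins_a O x (t + 2 * j) l h1 h3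
    have hII := II_ge O x l hne h3
    have hpos : 0 < ((ed O x (t + 2 * j)).filter (fun u => aI u = l)).card := by
      rw [hc]
      omega
    obtain ⟨u, hu⟩ := Finset.card_pos.1 hpos
    rw [Finset.mem_filter] at hu
    refine ⟨(u, l'), ?_, by simp only [hu.2]⟩
    rw [Finset.mem_filter, Finset.mem_product, mem_LL]
    refine ⟨⟨hu.1, h2⟩, ?_⟩
    simp only [hu.2]
    exact h5
  · rintro ⟨u, l'⟩ hu hX
    rw [Finset.mem_filter, Finset.mem_product, mem_LL, mem_ed] at hu
    obtain ⟨⟨⟨h1, h2⟩, h3⟩, h4⟩ := hu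
    simp only at h1 h2 h3 h4
    rw [T3_mem_G] at hX ⊢
    obtain ⟨-, h6⟩ := hX
    simp only at h6 ⊢
    refine ⟨⟨?_, h3, h2, ?_⟩, ?_⟩
    · unfold bI
      simp only [List.length_append, List.length_cons]
      omega
    · rw [← en_ins]
      exact h4
    · have h7 := (bt_ins u).2
      calc 16 * d ^ 2 * bt (bI u) ≤ 16 * d ^ 2 * (bt (aI u) + 3) := Nat.mul_le_mul_left _ h7
        _ = 16 * d ^ 2 * bt (aI u) + 48 * d ^ 2 := by ring
        _ ≤ (t + 48 * d ^ 2 * j) + 48 * d ^ 2 := Nat.add_le_add_right h6 _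
        _ = t + 48 * d ^ 2 * (j + 1) := by ring
  · rintro ⟨u, l'⟩ hu hX
    rw [Finset.mem_filter, Finset.mem_product, mem_LL, mem_ed] at hu
    obtain ⟨⟨⟨h1, h2⟩, h3⟩, h4⟩ := hu
    simp only at h1 h2 h3 h4
    rw [T3_mem_G] at hX
    obtain ⟨⟨h8, -, h9, -⟩, h6⟩ := hX
    simp only at h6 h8 h9
    -- the in-degree
    have hin : ((((ed O x (t + 2 * j)) ×ˢ (LL d s)).filter
        (fun w : Tr d × List (Stp d) => Op O (en x (aI w.1)) w.2)).filter
        (fun w => (bI w.1, w.2) = (bI u, l'))).card ≤ bt (bI u) := by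
      have hlen : (bI u).length = t + 2 * j + 2 := by
        unfold bI
        simp only [List.length_append, List.length_cons]
        omega
      rw [← ins_b O x (t + 2 * j) (bI u) hlen h2]
      refine Finset.card_le_card_of_injOn Prod.fst ?_ ?_
      · rintro ⟨w, m⟩ hw
        rw [Finset.mem_coe, Finset.mem_filter, Finset.mem_filter, Finset.mem_product] at hw
        rw [Finset.mem_coe, Finset.mem_filter]
        exact ⟨hw.1.1.1, (Prod.ext_iff.1 hw.2).1⟩
      · rintro ⟨w, m⟩ hw ⟨w', m'⟩ hw' hww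
        rw [Finset.mem_coe, Finset.mem_filter] at hw hw'
        have e1 : m = l' := (Prod.ext_iff.1 hw.2).2
        have e2 : m' = l' := (Prod.ext_iff.1 hw'.2).2
        have e3 : w = w' := hww
        rw [e1, e2, e3]
    -- the out-degree
    have hout : II O x (aI u) ≤ ((((ed O x (t + 2 * j)) ×ˢ (LL d s)).filter
        (fun w : Tr d × List (Stp d) => Op O (en x (aI w.1)) w.2)).filter
        (fun w => (aI w.1, w.2) = (aI u, l'))).card := by
      rw [← ins_a O x (t + 2 * j) (aI u) h8 h9]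
      refine Finset.card_le_card_of_injOn (fun v => (v, l')) ?_ ?_
      · intro v hv
        rw [Finset.mem_coe, Finset.mem_filter] at hv
        rw [Finset.mem_coe, Finset.mem_filter, Finset.mem_filter, Finset.mem_product, mem_LL]
        refine ⟨⟨⟨hv.1, h3⟩, ?_⟩, ?_⟩
        · simp only [hv.2]
          exact h4
        · simp only [hv.2]
      · intro v _ v' _ hvv
        exact (Prod.ext_iff.1 hvv).1
    have hne : aI u ≠ [] := by
      intro h0
      rw [h0] at h8
      simp at h8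
      omega
    have hII := II_ge O x (aI u) hne h9
    have hbt := (bt_ins u).2
    have hbt2 : 8 * d ^ 2 * bt (bI u) ≤ II O x (aI u) := by
      have e1 : 16 * d ^ 2 * bt (bI u) ≤ 2 * t := by
        calc 16 * d ^ 2 * bt (bI u) ≤ 16 * d ^ 2 * (bt (aI u) + 3) := Nat.mul_le_mul_left _ hbt
          _ = 16 * d ^ 2 * bt (aI u) + 48 * d ^ 2 := by ring
          _ ≤ (t + 48 * d ^ 2 * j) + 48 * d ^ 2 := Nat.add_le_add_right h6 _
          _ = t + 48 * d ^ 2 * (j + 1) := by ring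
          _ ≤ 2 * t := by omega
      have e2 : 8 * d ^ 2 * bt (bI u) ≤ t := by
        have e3 : 16 * d ^ 2 * bt (bI u) = 2 * (8 * d ^ 2 * bt (bI u)) := by ring
        omega
      omega
    have hbt3 : (8 * (d : ℝ) ^ 2) * (bt (bI u) : ℝ) ≤ (II O x (aI u) : ℝ) := by exact_mod_cast hbt2
    have hin' : (((((ed O x (t + 2 * j)) ×ˢ (LL d s)).filter
        (fun w : Tr d × List (Stp d) => Op O (en x (aI w.1)) w.2)).filter
        (fun w => (bI w.1, w.2) = (bI u, l'))).card : ℝ) ≤ bt (bI u) := by exact_mod_cast hin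
    have hout' : (II O x (aI u) : ℝ) ≤ ((((ed O x (t + 2 * j)) ×ˢ (LL d s)).filter
        (fun w : Tr d × List (Stp d) => Op O (en x (aI w.1)) w.2)).filter
        (fun w => (aI w.1, w.2) = (aI u, l'))).card := by exact_mod_cast hout
    have hγ : (bt (bI u) : ℝ) ≤ 1 / (8 * (d : ℝ) ^ 2) * (II O x (aI u) : ℝ) := by
      rw [one_div, inv_mul_eq_div, le_div_iff₀ (by positivity)]
      linarith
    calc _ ≤ (bt (bI u) : ℝ) := hin'
      _ ≤ 1 / (8 * (d : ℝ) ^ 2) * (II O x (aI u) : ℝ) := hγ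
      _ ≤ _ := mul_le_mul_of_nonneg_left hout' (by positivity)

theorem T3_iter (hd : 1 ≤ d) (O : Set (V d)) (x : V d) (t s : ℕ) (ht : 1 ≤ t) (j : ℕ) (hj : 48 * d ^ 2 * j ≤ t) :
    ((T3_G O x t s 0).card : ℝ) ≤ (1 / (8 * (d : ℝ) ^ 2)) ^ j * ((T3_G O x t s j).card : ℝ) := by
  induction j with
  | zero => simp
  | succ j ih =>
    have h1 : 48 * d ^ 2 * j ≤ t := le_trans (Nat.mul_le_mul_left _ (Nat.le_succ j)) hj
    calc ((T3_G O x t s 0).card : ℝ) ≤ (1 / (8 * (d : ℝ) ^ 2)) ^ j * ((T3_G O x t s j).card : ℝ) := ih h1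
      _ ≤ (1 / (8 * (d : ℝ) ^ 2)) ^ j * (1 / (8 * (d : ℝ) ^ 2) * ((T3_G O x t s (j + 1)).card : ℝ)) :=
        mul_le_mul_of_nonneg_left (T3_step hd O x t s j ht hj) (by positivity)
      _ = (1 / (8 * (d : ℝ) ^ 2)) ^ (j + 1) * ((T3_G O x t s (j + 1)).card : ℝ) := by
        rw [pow_succ]
        ring

open scoped Classical in
/-- T3a. PROOF. `J = t/(48 d²)` (so `3J ≤ t/(16 d²)`). `G_j = {(l, l') ∈ PR O x univ (t + 2j) s : 16 d² bt l ≤ t + 48 d² j}`, `j ≤ J`. `transport` from `G_j` to `G_{j+1}` with the edges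
`(u, l')`, `u ∈ ed O x (t + 2j)`, `l'` open from `en x (aI u)`, `|l'| = s`; `a = (aI u, l')`, `b = (bI u, l')`; out-degree `II O x l ≥ t` (`ins_a`, `II_ge`), in-degree `bt (bI u)` (`ins_b`)
`≤ t/(16 d²) + 3(j+1) ≤ t/(8d²)`: `γ = 1/(8d²)`. So `#G_0 ≤ (8d²)^(-J) #G_J ≤ (8d²)^(-J) NP (t + s + 2J) ≤ (8d²)^(-J) (2d)^(2J) NP (t + s) = 2^(-J) NP (t+s)` (`card_PR_univ`, `NP_add_le`). -/
theorem few_minus (hd : 1 ≤ d) (O : Set (V d)) (x : V d) (t s : ℕ) (ht : 1 ≤ t) :
    (((PR O x Set.univ t s).filter (fun P => 16 * d ^ 2 * bt P.1 ≤ t)).card : ℝ) * 2 ^ (t / (48 * d ^ 2)) ≤ NP O x (t + s) := by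
  have hd0 : (0 : ℝ) < d := by exact_mod_cast hd
  set J := t / (48 * d ^ 2) with hJ
  have hJ1 : 48 * d ^ 2 * J ≤ t := Nat.mul_div_le _ _
  have h1 := T3_iter hd O x t s ht J hJ1
  have h2 : (PR O x Set.univ t s).filter (fun P => 16 * d ^ 2 * bt P.1 ≤ t) = T3_G O x t s 0 := by
    ext P
    rw [T3_mem_G, Finset.mem_filter, mem_PR]
    simp
  have h3 : (T3_G O x t s J).card ≤ NP O x (t + s) * (2 * d) ^ (2 * J) := by
    calc (T3_G O x t s J).card ≤ (PR O x Set.univ (t + 2 * J) s).card :=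
          Finset.card_le_card (Finset.filter_subset _ _)
      _ = NP O x (t + 2 * J + s) := card_PR_univ _ _ _ _
      _ = NP O x ((t + s) + 2 * J) := by
          congr 1
          ring
      _ ≤ _ := NP_add_le _ _ _ _
  have h3' : ((T3_G O x t s J).card : ℝ) ≤ (NP O x (t + s) : ℝ) * (2 * d) ^ (2 * J) := by exact_mod_cast h3
  rw [h2]
  calc ((T3_G O x t s 0).card : ℝ) * 2 ^ J
      ≤ ((1 / (8 * (d : ℝ) ^ 2)) ^ J * ((T3_G O x t s J).card : ℝ)) * 2 ^ J :=
        mul_le_mul_of_nonneg_right h1 (by positivity)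
    _ ≤ ((1 / (8 * (d : ℝ) ^ 2)) ^ J * ((NP O x (t + s) : ℝ) * (2 * d) ^ (2 * J))) * 2 ^ J :=
        mul_le_mul_of_nonneg_right (mul_le_mul_of_nonneg_left h3' (by positivity)) (by positivity)
    _ = ((1 / (8 * (d : ℝ) ^ 2)) * (2 * d) ^ 2 * 2) ^ J * (NP O x (t + s) : ℝ) := by
        have e : ((1 / (8 * (d : ℝ) ^ 2)) * (2 * d) ^ 2 * 2) ^ J
            = (1 / (8 * (d : ℝ) ^ 2)) ^ J * ((2 * (d : ℝ)) ^ 2) ^ J * 2 ^ J := by
          rw [mul_pow _ (2 : ℝ), mul_pow _ ((2 * (d : ℝ)) ^ 2)]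
        rw [e, pow_mul (2 * (d : ℝ)) 2 J]
        ring
    _ = (NP O x (t + s) : ℝ) := by
        have h4 : (1 / (8 * (d : ℝ) ^ 2)) * (2 * d) ^ 2 * 2 = 1 := by
          field_simp
          norm_num
        rw [h4, one_pow, one_mul]

end Pool.Agent.RWO
end

section

set_option autoImplicit false

/-! Task T5: reversal and Cauchy-Schwarz. -/

namespace Pool.Agent.RWO

variable {d : ℕ}

/-- The reversed path. -/
def T5_rev (l : List (Stp d)) : List (Stp d) := (l.map opp).reverse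

theorem T5_rev_cons (e : Stp d) (l : List (Stp d)) : T5_rev (e :: l) = T5_rev l ++ [opp e] := by
  unfold T5_rev
  simp

theorem T5_en (x : V d) (l : List (Stp d)) : en (en x l) (T5_rev l) = x := by
  induction l generalizing x with
  | nil => rfl
  | cons e l ih =>
    rw [T5_rev_cons, en_append, en_cons x e l, ih (x + vec e), en_cons, en_nil, add_vec_opp]

theorem T5_op (O : Set (V d)) (x : V d) (l : List (Stp d)) (h : Op O x l) : Op O (en x l) (T5_rev l) := by
  induction l generalizing x with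
  | nil => exact h
  | cons e l ih =>
    rw [T5_rev_cons, en_cons, Op_append, T5_en]
    refine ⟨ih _ h.2, ?_⟩
    rw [Op_cons, Op_nil, add_vec_opp]
    exact ⟨Op_start h.2, h.1⟩

theorem T5_inj : Function.Injective (T5_rev (d := d)) := by
  intro l l' h
  unfold T5_rev at h
  have h1 := List.reverse_injective h
  refine List.map_injective_iff.2 ?_ h1
  intro e f hef
  have := congrArg opp hef
  rwa [opp_opp, opp_opp] at this

theorem T5_le (O : Set (V d)) (x y : V d) (n : ℕ) : WP O x y n ≤ WP O y x n := by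
  classical
  unfold WP
  refine Finset.card_le_card_of_injOn T5_rev ?_ T5_inj.injOn
  intro l hl
  rw [Finset.mem_coe, Finset.mem_filter, mem_LL] at hl ⊢
  obtain ⟨h1, h2, h3⟩ := hl
  refine ⟨?_, ?_, ?_⟩
  · unfold T5_rev
    simpa using h1
  · rw [← h3]
    exact T5_op O x l h2
  · rw [← h3]
    exact T5_en x l

/-- T5a. PROOF. The reversed path: `l ↦ (l.map opp).reverse`. -/
theorem WP_symm (O : Set (V d)) (x y : V d) (n : ℕ) : WP O x y n = WP O y x n :=
  le_antisymm (T5_le O x y n) (T5_le O y x n)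

theorem T5_split (O : Set (V d)) (x y : V d) (a b : ℕ) (Z : Finset (V d)) (hZ : ∀ l : List (Stp d), l.length = a → en x l ∈ Z) :
    WP O x y (a + b) = ∑ z ∈ Z, WP O x z a * WP O z y b := by
  classical
  unfold WP
  rw [Finset.card_eq_sum_card_fiberwise (f := fun l => en x (l.take a)) (t := Z)]
  · refine Finset.sum_congr rfl fun z _ => ?_
    rw [← Finset.card_product]
    refine Finset.card_bij (fun l _ => (l.take a, l.drop a)) ?_ ?_ ?_
    · intro l hl
      rw [Finset.mem_filter, Finset.mem_filter, mem_LL] at hl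
      obtain ⟨⟨h1, h2, h3⟩, h4⟩ := hl
      rw [Finset.mem_product, Finset.mem_filter, Finset.mem_filter, mem_LL, mem_LL]
      rw [← List.take_append_drop a l, Op_append] at h2
      rw [← List.take_append_drop a l, en_append] at h3
      simp only [List.length_take, List.length_drop]
      rw [h4] at h2 h3
      exact ⟨⟨by omega, h2.1, h4⟩, ⟨by omega, h2.2, h3⟩⟩
    · intro l _ l' _ h
      simp only [Prod.mk.injEq] at h
      rw [← List.take_append_drop a l, ← List.take_append_drop a l', h.1, h.2]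
    · rintro ⟨l, l'⟩ hl
      rw [Finset.mem_product, Finset.mem_filter, Finset.mem_filter, mem_LL, mem_LL] at hl
      obtain ⟨⟨h1, h2, h3⟩, h4, h5, h6⟩ := hl
      simp only at h1 h2 h3 h4 h5 h6
      refine ⟨l ++ l', ?_, ?_⟩
      · rw [Finset.mem_filter, Finset.mem_filter, mem_LL, Op_append, en_append, List.take_left' h1, h3]
        exact ⟨⟨by rw [List.length_append, h1, h4], ⟨h2, h5⟩, h6⟩, rfl⟩
      · rw [List.take_left' h1, List.drop_left' h1]
  · intro l hl
    rw [Finset.mem_coe, Finset.mem_filter, mem_LL] at hl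
    refine hZ _ ?_
    rw [List.length_take]
    omega

/-- T5b. PROOF. `WP O x y (2q) = ∑_{z ∈ Z} WP O x z q * WP O z y q`, `Z` the (finite) set of the end points of the paths of length `q` from `x` (cut at time `q`), `WP_symm`, Cauchy-Schwarz
(`Finset.sum_mul_sq_le_sq_mul_sq`), `∑_{z ∈ Z} (WP O x z q)^2 = ∑_z WP O x z q * WP O z x q = WP O x x (2q)`, `∑_{z ∈ Z} (WP O z y q)^2 ≤ WP O y y (2q)`. -/
theorem cs (O : Set (V d)) (x y : V d) (q : ℕ) : (WP O x y (2 * q)) ^ 2 ≤ WP O x x (2 * q) * WP O y y (2 * q) := by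
  classical
  obtain ⟨Z, hZ⟩ : ∃ Z : Finset (V d), Z = (LL d q).image (en x) ∪ (LL d q).image (en y) := ⟨_, rfl⟩
  have hx : ∀ l : List (Stp d), l.length = q → en x l ∈ Z := by
    intro l hl
    rw [hZ, Finset.mem_union, Finset.mem_image]
    exact Or.inl ⟨l, mem_LL.2 hl, rfl⟩
  have hy : ∀ l : List (Stp d), l.length = q → en y l ∈ Z := by
    intro l hl
    rw [hZ, Finset.mem_union, Finset.mem_image, Finset.mem_image]
    exact Or.inr ⟨l, mem_LL.2 hl, rfl⟩
  have h1 : WP O x y (2 * q) = ∑ z ∈ Z, WP O x z q * WP O z y q := by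
    rw [two_mul]
    exact T5_split O x y q q Z hx
  have h2 : WP O x x (2 * q) = ∑ z ∈ Z, WP O x z q ^ 2 := by
    rw [two_mul, T5_split O x x q q Z hx]
    refine Finset.sum_congr rfl fun z _ => ?_
    rw [WP_symm O z x, sq]
  have h3 : WP O y y (2 * q) = ∑ z ∈ Z, WP O z y q ^ 2 := by
    rw [two_mul, T5_split O y y q q Z hy]
    refine Finset.sum_congr rfl fun z _ => ?_
    rw [WP_symm O y z, sq]
  rw [h1, h2, h3]
  exact Finset.sum_mul_sq_le_sq_mul_sq _ _ _

end Pool.Agent.RWO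
end

section

set_option autoImplicit false

/-! Task T6: the paths which see only bad places. -/

namespace Pool.Agent.RWO

variable {d : ℕ}

theorem T6_abs_vec (e : Stp d) (i : Fin d) : |vec e i| ≤ 1 := by
  unfold vec
  rw [Pi.single_apply]
  split_ifs <;> simp

/-- A path of length `n` stays in the box of half side `n`. -/
theorem T6_abs_en (x : V d) (l : List (Stp d)) (i : Fin d) : |en x l i - x i| ≤ l.length := by
  induction l generalizing x with
  | nil => simp
  | cons e l ih =>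
    rw [en_cons, List.length_cons]
    have h1 := ih (x + vec e)
    have h2 := T6_abs_vec e i
    have h3 : en (x + vec e) l i - x i = (en (x + vec e) l i - (x + vec e) i) + vec e i := by
      rw [Pi.add_apply]
      ring
    rw [h3]
    refine (abs_add_le _ _).trans ?_
    push_cast
    exact add_le_add h1 h2

/-- The number of the end points. -/
theorem T6_card_ends [DecidableEq (V d)] (x : V d) (m : ℕ) :
    ((LL d m).image (en x)).card ≤ (2 * m + 1) ^ d := by
  have h1 : (LL d m).image (en x) ⊆ Finset.Icc (fun i => x i - m) (fun i => x i + m) := by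
    intro z hz
    rw [Finset.mem_image] at hz
    obtain ⟨l, hl, rfl⟩ := hz
    rw [mem_LL] at hl
    rw [Finset.mem_Icc]
    have h2 : ∀ i, |en x l i - x i| ≤ m := fun i => by
      rw [← hl]
      exact T6_abs_en x l i
    constructor
    · intro i
      have := (abs_le.1 (h2 i)).1
      show x i - m ≤ en x l i
      linarith
    · intro i
      have := (abs_le.1 (h2 i)).2
      show en x l i ≤ x i + m
      linarith
  refine (Finset.card_le_card h1).trans ?_
  rw [Pi.card_Icc]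
  refine (Finset.prod_le_pow_card _ _ (2 * m + 1) fun i _ => ?_).trans ?_
  · rw [Int.card_Icc]
    have : x i + m + 1 - (x i - m) = ((2 * m + 1 : ℕ) : ℤ) := by
      push_cast
      ring
    rw [this, Int.toNat_natCast]
  · simp

/-- Cauchy-Schwarz for two bad places. -/
theorem T6_WP_le (O : Set (V d)) (x z : V d) (q : ℕ) (θ : ℝ) (hθ : 0 ≤ θ)
    (hx : (WP O x x (2 * q) : ℝ) ≤ θ) (hz : (WP O z z (2 * q) : ℝ) ≤ θ) :
    (WP O x z (2 * q) : ℝ) ≤ θ := by
  have h1 : ((WP O x z (2 * q) : ℝ)) ^ 2 ≤ (WP O x x (2 * q) : ℝ) * (WP O z z (2 * q) : ℝ) := by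
    exact_mod_cast cs O x z q
  have h2 : (WP O x x (2 * q) : ℝ) * (WP O z z (2 * q) : ℝ) ≤ θ * θ :=
    mul_le_mul hx hz (Nat.cast_nonneg _) hθ
  refine le_of_sq_le_sq ?_ hθ
  rw [sq θ]
  exact h1.trans h2

open scoped Classical in
/-- T6. PROOF. Induction on `J` (cut off the first `2q` steps: `l = c ++ l'`, `z = en x c`): if `x` and `z` are bad (`WP x x, WP z z ≤ θ`), then `WP O x z (2q) ≤ θ` (`cs`), and `z` is one of the at most
`(4q+1)^d` sites with `|z i - x i| ≤ 2q`. `J = 0`: `≤ (2d)^n` (`card_LL`). -/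
theorem exc (O : Set (V d)) (x : V d) (q J n : ℕ) (θ : ℝ) (hθ : 0 ≤ θ) :
    (((LL d (2 * q * J + n)).filter (fun l => Op O x l ∧
      ∀ j ≤ J, (WP O (en x (l.take (2 * q * j))) (en x (l.take (2 * q * j))) (2 * q) : ℝ) ≤ θ)).card : ℝ) ≤
      ((4 * q + 1 : ℝ) ^ d * θ) ^ J * (2 * d : ℝ) ^ n := by
  induction J generalizing x with
  | zero =>
    rw [pow_zero, one_mul]
    refine (Nat.cast_le.2 (Finset.card_filter_le _ _)).trans ?_
    rw [card_LL, mul_zero, zero_add]
    push_cast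
    exact le_rfl
  | succ J ih =>
    have hR : 0 ≤ ((4 * q + 1 : ℝ) ^ d * θ) ^ J * (2 * d : ℝ) ^ n := by positivity
    by_cases hx : (WP O x x (2 * q) : ℝ) ≤ θ
    · -- the paths of length `2q` from `x` to `z`, the bad paths from `z`
      let Z : Finset (V d) := (LL d (2 * q)).image (en x)
      let C : V d → Finset (List (Stp d)) := fun z =>
        (LL d (2 * q)).filter (fun l => Op O x l ∧ en x l = z)
      let F : V d → Finset (List (Stp d)) := fun z => (LL d (2 * q * J + n)).filter (fun l => Op O z l ∧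
        ∀ j ≤ J, (WP O (en z (l.take (2 * q * j))) (en z (l.take (2 * q * j))) (2 * q) : ℝ) ≤ θ)
      have h1 : ((LL d (2 * q * (J + 1) + n)).filter (fun l => Op O x l ∧
          ∀ j ≤ J + 1, (WP O (en x (l.take (2 * q * j))) (en x (l.take (2 * q * j))) (2 * q) : ℝ) ≤ θ)).card ≤
          (Z.biUnion fun z => C z ×ˢ F z).card := by
        refine Finset.card_le_card_of_injOn (fun l => (l.take (2 * q), l.drop (2 * q))) ?_ ?_
        · intro l hl
          rw [Finset.mem_coe, Finset.mem_filter, mem_LL] at hl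
          obtain ⟨hlen, hop, hbad⟩ := hl
          have hlen' : l.length = 2 * q + (2 * q * J + n) := by rw [hlen]; ring
          have hsplit := hop
          rw [← List.take_append_drop (2 * q) l, Op_append] at hsplit
          have ht : (l.take (2 * q)).length = 2 * q := by rw [List.length_take]; omega
          rw [Finset.mem_coe, Finset.mem_biUnion]
          refine ⟨en x (l.take (2 * q)), Finset.mem_image_of_mem _ (mem_LL.2 ht), ?_⟩
          rw [Finset.mem_product]
          refine ⟨Finset.mem_filter.2 ⟨mem_LL.2 ht, hsplit.1, rfl⟩, Finset.mem_filter.2 ⟨mem_LL.2 ?_, hsplit.2, ?_⟩⟩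
          · show (l.drop (2 * q)).length = _
            rw [List.length_drop]
            omega
          · intro j hj
            have h2 := hbad (j + 1) (by omega)
            have h3 : l.take (2 * q * (j + 1)) = l.take (2 * q) ++ (l.drop (2 * q)).take (2 * q * j) := by
              rw [mul_add, mul_one, add_comm (2 * q * j), List.take_add]
            rw [h3, en_append] at h2
            exact h2
        · intro l _ l' _ h
          simp only [Prod.mk.injEq] at h
          rw [← List.take_append_drop (2 * q) l, ← List.take_append_drop (2 * q) l', h.1, h.2]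
      have h2 : (Z.biUnion fun z => C z ×ˢ F z).card ≤ ∑ z ∈ Z, (C z).card * (F z).card := by
        refine Finset.card_biUnion_le.trans (Finset.sum_le_sum fun z _ => ?_)
        rw [Finset.card_product]
      have h3 : ∀ z ∈ Z, ((C z).card : ℝ) * ((F z).card : ℝ) ≤
          θ * (((4 * q + 1 : ℝ) ^ d * θ) ^ J * (2 * d : ℝ) ^ n) := by
        intro z _
        by_cases hz : (WP O z z (2 * q) : ℝ) ≤ θ
        · refine mul_le_mul ?_ (ih z) (Nat.cast_nonneg _) hθ
          exact T6_WP_le O x z q θ hθ hx hz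
        · have h4 : F z = ∅ := by
            refine Finset.filter_eq_empty_iff.2 fun l _ h => hz ?_
            have := h.2 0 (Nat.zero_le _)
            simpa using this
          rw [h4, Finset.card_empty, Nat.cast_zero, mul_zero]
          positivity
      have h5 : (Z.card : ℝ) ≤ (4 * q + 1 : ℝ) ^ d := by
        have h6 : Z.card ≤ (2 * (2 * q) + 1) ^ d := T6_card_ends x (2 * q)
        have h7 : (2 * (2 * q) + 1 : ℕ) = 4 * q + 1 := by ring
        rw [h7] at h6
        exact_mod_cast h6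
      calc (((LL d (2 * q * (J + 1) + n)).filter (fun l => Op O x l ∧
          ∀ j ≤ J + 1, (WP O (en x (l.take (2 * q * j))) (en x (l.take (2 * q * j))) (2 * q) : ℝ) ≤ θ)).card : ℝ)
          ≤ ∑ z ∈ Z, ((C z).card : ℝ) * ((F z).card : ℝ) := by exact_mod_cast h1.trans h2
        _ ≤ ∑ _z ∈ Z, θ * (((4 * q + 1 : ℝ) ^ d * θ) ^ J * (2 * d : ℝ) ^ n) := Finset.sum_le_sum h3
        _ = (Z.card : ℝ) * (θ * (((4 * q + 1 : ℝ) ^ d * θ) ^ J * (2 * d : ℝ) ^ n)) := by
          rw [Finset.sum_const, nsmul_eq_mul]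
        _ ≤ (4 * q + 1 : ℝ) ^ d * (θ * (((4 * q + 1 : ℝ) ^ d * θ) ^ J * (2 * d : ℝ) ^ n)) :=
          mul_le_mul_of_nonneg_right h5 (by positivity)
        _ = ((4 * q + 1 : ℝ) ^ d * θ) ^ (J + 1) * (2 * d : ℝ) ^ n := by ring
    · have h4 : (LL d (2 * q * (J + 1) + n)).filter (fun l => Op O x l ∧
          ∀ j ≤ J + 1, (WP O (en x (l.take (2 * q * j))) (en x (l.take (2 * q * j))) (2 * q) : ℝ) ≤ θ) = ∅ := by
        refine Finset.filter_eq_empty_iff.2 fun l _ h => hx ?_
        have := h.2 0 (Nat.zero_le _)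
        simpa using this
      rw [h4, Finset.card_empty, Nat.cast_zero]
      positivity

end Pool.Agent.RWO
end

section

set_option autoImplicit false

/-! Task T7a: insertion of a loop at a good place. -/

namespace Pool.Agent.RWO

variable {d : ℕ}

open scoped Classical in
/-- The insertion of the loops at the chosen places is injective. -/
theorem T7a_count (O : Set (V d)) (x : V d) (q J n : ℕ) (hn : 2 * q * J ≤ n) (jf : List (Stp d) → ℕ) (hj : ∀ l, jf l ≤ J)
    (G : Finset (List (Stp d))) (hG : ∀ l ∈ G, l.length = n ∧ Op O x l) :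
    ∑ l ∈ G, WP O (en x (l.take (2 * q * jf l))) (en x (l.take (2 * q * jf l))) (2 * q) ≤ (J + 1) * NP O x (n + 2 * q) := by
  have h1 : ∑ l ∈ G, WP O (en x (l.take (2 * q * jf l))) (en x (l.take (2 * q * jf l))) (2 * q) =
      (G.sigma fun l => (LL d (2 * q)).filter (fun c => Op O (en x (l.take (2 * q * jf l))) c ∧
        en (en x (l.take (2 * q * jf l))) c = en x (l.take (2 * q * jf l)))).card := by
    rw [Finset.card_sigma]
    rfl
  have h2 : (J + 1) * NP O x (n + 2 * q) = ((Finset.range (J + 1)) ×ˢ ((LL d (n + 2 * q)).filter (fun l => Op O x l))).card := by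
    rw [Finset.card_product, Finset.card_range]
    rfl
  rw [h1, h2]
  have hle : ∀ l, 2 * q * jf l ≤ n := fun l => (Nat.mul_le_mul_left _ (hj l)).trans hn
  refine Finset.card_le_card_of_injOn
    (fun s => (jf s.1, s.1.take (2 * q * jf s.1) ++ (s.2 ++ s.1.drop (2 * q * jf s.1)))) ?_ ?_
  · rintro ⟨l, c⟩ hs
    rw [Finset.mem_coe, Finset.mem_sigma, Finset.mem_filter, mem_LL] at hs
    simp only at hs
    obtain ⟨hl, hc, hop, hen⟩ := hs
    obtain ⟨hlen, hlop⟩ := hG l hl
    rw [Finset.mem_coe, Finset.mem_product, Finset.mem_range, Finset.mem_filter, mem_LL]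
    simp only [List.length_append, List.length_take, List.length_drop]
    have hle' := hle l
    refine ⟨Nat.lt_succ_of_le (hj l), by rw [hc, hlen, min_eq_left hle']; omega, ?_⟩
    have h3 := hlop
    rw [← List.take_append_drop (2 * q * jf l) l, Op_append] at h3
    rw [Op_append, Op_append, hen]
    exact ⟨h3.1, hop, h3.2⟩
  · rintro ⟨l, c⟩ hs ⟨l', c'⟩ hs' h
    rw [Finset.mem_coe, Finset.mem_sigma, Finset.mem_filter, mem_LL] at hs hs'
    simp only at hs hs'
    obtain ⟨hl, hc, -, -⟩ := hs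
    obtain ⟨hl', hc', -, -⟩ := hs'
    have hlen := (hG l hl).1
    have hlen' := (hG l' hl').1
    simp only [Prod.mk.injEq] at h
    obtain ⟨hj1, h⟩ := h
    rw [← hj1] at h
    have hle1 := hle l
    have e1 : (l.take (2 * q * jf l)).length = (l'.take (2 * q * jf l)).length := by
      rw [List.length_take, List.length_take, hlen, hlen']
    obtain ⟨h3, h4⟩ := List.append_inj h e1
    obtain ⟨h5, h6⟩ := List.append_inj h4 (hc.trans hc'.symm)
    have h7 : l = l' := by
      rw [← List.take_append_drop (2 * q * jf l) l, ← List.take_append_drop (2 * q * jf l) l', h6]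
      rw [h3]
    subst h7
    subst h5
    rfl

open scoped Classical in
/-- T7a. PROOF. The open paths `l` of length `n` for which not all the places `z_j = en x (l.take (2qj))`, `j ≤ J`, are bad: at least `NP O x n - exc` of them (`exc` with `n - 2qJ`). For each, let `j` be the first
good place (`θ < WP z_j z_j (2q)`); insert any of the open loops `c` of length `2q` at `z_j`: `l.take (2qj) ++ c ++ l.drop (2qj)`, an open path of length `n + 2q`. The map `(l, c) ↦ (j, new path)` is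
injective. So `θ (NP O x n - exc) ≤ (J+1) NP O x (n + 2q)`. -/
theorem ratio_raw (O : Set (V d)) (x : V d) (q J n : ℕ) (hn : 2 * q * J ≤ n) (θ : ℝ) (hθ : 0 < θ) :
    θ * ((NP O x n : ℝ) - ((4 * q + 1 : ℝ) ^ d * θ) ^ J * (2 * d : ℝ) ^ (n - 2 * q * J)) ≤ (J + 1 : ℝ) * NP O x (n + 2 * q) := by
  have hexc := exc O x q J (n - 2 * q * J) θ hθ.le
  rw [show 2 * q * J + (n - 2 * q * J) = n by omega] at hexc
  set B := (LL d n).filter (fun l => Op O x l ∧
      ∀ j ≤ J, (WP O (en x (l.take (2 * q * j))) (en x (l.take (2 * q * j))) (2 * q) : ℝ) ≤ θ) with hB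
  set S := (LL d n).filter (fun l => Op O x l) with hS
  have hBS : B ⊆ S := by
    intro l hl
    rw [hB, Finset.mem_filter] at hl
    rw [hS, Finset.mem_filter]
    exact ⟨hl.1, hl.2.1⟩
  set jf : List (Stp d) → ℕ := fun l =>
    if h : ∃ j, j ≤ J ∧ θ < (WP O (en x (l.take (2 * q * j))) (en x (l.take (2 * q * j))) (2 * q) : ℝ) then h.choose else 0 with hjf
  have hj : ∀ l, jf l ≤ J := by
    intro l
    rw [hjf]
    dsimp only
    split_ifs with h
    · exact h.choose_spec.1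
    · exact Nat.zero_le _
  have hG : ∀ l ∈ S \ B, l.length = n ∧ Op O x l := by
    intro l hl
    rw [Finset.mem_sdiff, hS, Finset.mem_filter, mem_LL] at hl
    exact hl.1
  have hgood : ∀ l ∈ S \ B, θ ≤ (WP O (en x (l.take (2 * q * jf l))) (en x (l.take (2 * q * jf l))) (2 * q) : ℝ) := by
    intro l hl
    rw [Finset.mem_sdiff, hS, hB, Finset.mem_filter, Finset.mem_filter] at hl
    obtain ⟨⟨h1, h2⟩, h3⟩ := hl
    have h : ∃ j, j ≤ J ∧ θ < (WP O (en x (l.take (2 * q * j))) (en x (l.take (2 * q * j))) (2 * q) : ℝ) := by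
      by_contra hcon
      push Not at hcon
      exact h3 ⟨h1, h2, hcon⟩
    have h4 : jf l = h.choose := by
      rw [hjf]
      dsimp only
      rw [dif_pos h]
    rw [h4]
    exact h.choose_spec.2.le
  have hcount := T7a_count O x q J n hn jf hj (S \ B) hG
  have hcard : ((S \ B).card : ℝ) = (NP O x n : ℝ) - (B.card : ℝ) := by
    rw [Finset.card_sdiff_of_subset hBS, Nat.cast_sub (Finset.card_le_card hBS)]
    rfl
  have hsum : ((S \ B).card : ℝ) * θ ≤ ∑ l ∈ S \ B, (WP O (en x (l.take (2 * q * jf l))) (en x (l.take (2 * q * jf l))) (2 * q) : ℝ) := by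
    have := Finset.card_nsmul_le_sum (S \ B) (fun l => (WP O (en x (l.take (2 * q * jf l))) (en x (l.take (2 * q * jf l))) (2 * q) : ℝ)) θ hgood
    rwa [nsmul_eq_mul] at this
  have hcount' : ∑ l ∈ S \ B, (WP O (en x (l.take (2 * q * jf l))) (en x (l.take (2 * q * jf l))) (2 * q) : ℝ) ≤ (J + 1 : ℝ) * NP O x (n + 2 * q) := by
    exact_mod_cast hcount
  have h5 : θ * ((NP O x n : ℝ) - ((4 * q + 1 : ℝ) ^ d * θ) ^ J * (2 * d : ℝ) ^ (n - 2 * q * J)) ≤ θ * ((NP O x n : ℝ) - (B.card : ℝ)) :=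
    mul_le_mul_of_nonneg_left (by linarith) hθ.le
  calc θ * ((NP O x n : ℝ) - ((4 * q + 1 : ℝ) ^ d * θ) ^ J * (2 * d : ℝ) ^ (n - 2 * q * J)) ≤ θ * ((NP O x n : ℝ) - (B.card : ℝ)) := h5
    _ = ((S \ B).card : ℝ) * θ := by rw [hcard]; ring
    _ ≤ _ := hsum
    _ ≤ _ := hcount'

end Pool.Agent.RWO
end

section

set_option autoImplicit false

/-! Task T7b: the ratio of the numbers of the paths. -/

namespace Pool.Agent.RWO

variable {d : ℕ}

/-- T7b. PROOF. `ratio_raw` with `θ = (2d)^(2q) exp(-16hq)`, `J = n/(2q)`. `(4q+1)^d θ ≤ (2d)^(2q) exp(-8hq)`, so the exceptional term is `≤ (2d)^n exp(-8hqJ) ≤ (2d)^n exp(-3hn)` (`2qJ ≥ n - 2q ≥ 3n/4`);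
`NP O x n ≥ NP O x (n+2q)/(2d)^(2q) ≥ (2d)^n exp(-h(n+2q)) ≥ (2d)^n exp(-(5/4)hn)` (`NP_add_le`), `exp(-(7/4)hn) ≤ 1/2`. So `θ NP/2 ≤ (J+1) NP(n+2q)`, `J + 1 ≤ n + 1`. -/
theorem ratio (hd : 1 ≤ d) (O : Set (V d)) (x : V d) (q n : ℕ) (h : ℝ) (hh : 0 < h) (hq : 1 ≤ q) (h8 : 8 * q ≤ n) (hln : 1 ≤ h * n)
    (hqd : (4 * q + 1 : ℝ) ^ d ≤ Real.exp (8 * h * q))
    (hN : (2 * d : ℝ) ^ (n + 2 * q) * Real.exp (-(h * (n + 2 * q))) ≤ NP O x (n + 2 * q)) :
    (NP O x n : ℝ) * (2 * d : ℝ) ^ (2 * q) ≤ 2 * (n + 1) * Real.exp (16 * h * q) * NP O x (n + 2 * q) := by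
  have hd0 : (0 : ℝ) < 2 * d := by
    have : (0 : ℝ) < d := by exact_mod_cast hd
    linarith
  have hq0 : (0 : ℝ) < q := by exact_mod_cast hq
  set J : ℕ := n / (2 * q) with hJ
  have hJn : 2 * q * J ≤ n := Nat.mul_div_le n (2 * q)
  have hJn2 : n < 2 * q * (J + 1) := by
    rw [hJ]
    exact Nat.lt_mul_div_succ n (by omega)
  have hJle : J ≤ n := Nat.div_le_self _ _
  set D : ℝ := 2 * d with hD
  set M : ℝ := D ^ (2 * q) with hM
  have hM0 : 0 < M := pow_pos hd0 _
  set θ : ℝ := M * Real.exp (-(16 * h * q)) with hθ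
  have hθ0 : 0 < θ := mul_pos hM0 (Real.exp_pos _)
  have hraw := ratio_raw O x q J n hJn θ hθ0
  -- the exceptional term
  have hE1 : (4 * q + 1 : ℝ) ^ d * θ ≤ M * Real.exp (-(8 * h * q)) := by
    have h1 : (4 * q + 1 : ℝ) ^ d * θ ≤ Real.exp (8 * h * q) * θ := mul_le_mul_of_nonneg_right hqd hθ0.le
    refine h1.trans (le_of_eq ?_)
    rw [hθ, mul_left_comm, ← Real.exp_add]
    congr 2
    ring
  have hE2 : ((4 * q + 1 : ℝ) ^ d * θ) ^ J * D ^ (n - 2 * q * J) ≤ D ^ n * Real.exp (-(3 * (h * n))) := by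
    have h1 : ((4 * q + 1 : ℝ) ^ d * θ) ^ J ≤ (M * Real.exp (-(8 * h * q))) ^ J :=
      pow_le_pow_left₀ (by positivity) hE1 J
    have h2 : (M * Real.exp (-(8 * h * q))) ^ J = D ^ (2 * q * J) * Real.exp (-(8 * h * q) * J) := by
      rw [mul_pow, hM, ← pow_mul, ← Real.exp_nat_mul]
      congr 2
      ring
    have h3 : Real.exp (-(8 * h * q) * J) ≤ Real.exp (-(3 * (h * n))) := by
      rw [Real.exp_le_exp]
      have h4 : (n : ℝ) ≤ 2 * q * (J + 1) := by exact_mod_cast hJn2.le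
      have h5 : 8 * (q : ℝ) ≤ n := by exact_mod_cast h8
      have h6 : 3 * (n : ℝ) ≤ 8 * (q * J) := by linarith
      have h7 := mul_le_mul_of_nonneg_left h6 hh.le
      have h8' : -(8 * h * q) * J = -(h * (8 * (q * J))) := by ring
      have h9 : 3 * (h * n) = h * (3 * n) := by ring
      rw [h8', h9]
      linarith
    calc ((4 * q + 1 : ℝ) ^ d * θ) ^ J * D ^ (n - 2 * q * J)
        ≤ (D ^ (2 * q * J) * Real.exp (-(3 * (h * n)))) * D ^ (n - 2 * q * J) := by
          refine mul_le_mul_of_nonneg_right ?_ (pow_pos hd0 _).le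
          rw [h2] at h1
          exact h1.trans (mul_le_mul_of_nonneg_left h3 (pow_pos hd0 _).le)
      _ = D ^ n * Real.exp (-(3 * (h * n))) := by
          rw [mul_right_comm, ← pow_add, Nat.add_sub_cancel' hJn]
  -- the lower bound of the number of the paths
  have hNle : (NP O x (n + 2 * q) : ℝ) ≤ NP O x n * M := by
    have h1 := NP_add_le O x n (2 * q)
    have h2 : ((NP O x (n + 2 * q) : ℕ) : ℝ) ≤ ((NP O x n * (2 * d) ^ (2 * q) : ℕ) : ℝ) := by exact_mod_cast h1
    push_cast at h2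
    exact h2
  have hNlow : D ^ n * Real.exp (-(5 / 4 * (h * n))) ≤ NP O x n := by
    have h1 : D ^ (n + 2 * q) * Real.exp (-(h * (n + 2 * q))) ≤ NP O x n * M := hN.trans hNle
    rw [pow_add, mul_right_comm] at h1
    have h2 : D ^ n * Real.exp (-(h * (n + 2 * q))) ≤ NP O x n := le_of_mul_le_mul_right h1 hM0
    refine le_trans (mul_le_mul_of_nonneg_left ?_ (pow_pos hd0 n).le) h2
    rw [Real.exp_le_exp]
    have h5 : 8 * (q : ℝ) ≤ n := by exact_mod_cast h8
    have h6 := mul_le_mul_of_nonneg_left h5 hh.le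
    have h7 : h * ((n : ℝ) + 2 * q) = h * n + (h * (8 * q)) / 4 := by ring
    rw [h7]
    linarith
  have hhalf : D ^ n * Real.exp (-(3 * (h * n))) ≤ (NP O x n : ℝ) / 2 := by
    have h1 : Real.exp (-(3 * (h * n))) ≤ Real.exp (-(5 / 4 * (h * n))) / 2 := by
      have h2 : Real.exp (-(3 * (h * n))) = Real.exp (-(5 / 4 * (h * n))) * Real.exp (-(7 / 4 * (h * n))) := by
        rw [← Real.exp_add]
        congr 1
        ring
      have h3 : Real.exp (-(7 / 4 * (h * n))) ≤ 1 / 2 := by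
        have h4 : 2 ≤ Real.exp (7 / 4 * (h * n)) := by
          have := Real.add_one_le_exp (7 / 4 * (h * n))
          linarith
        rw [Real.exp_neg, one_div]
        exact inv_anti₀ (by norm_num) h4
      rw [h2]
      have h5 := mul_le_mul_of_nonneg_left h3 (Real.exp_pos (-(5 / 4 * (h * n)))).le
      linarith
    have h6 := mul_le_mul_of_nonneg_left h1 (pow_pos hd0 n).le
    have h7 : D ^ n * (Real.exp (-(5 / 4 * (h * n))) / 2) = D ^ n * Real.exp (-(5 / 4 * (h * n))) / 2 := by ring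
    rw [h7] at h6
    linarith
  have hmain : θ * ((NP O x n : ℝ) / 2) ≤ (J + 1 : ℝ) * NP O x (n + 2 * q) := by
    refine le_trans (mul_le_mul_of_nonneg_left ?_ hθ0.le) hraw
    linarith
  have hJ1 : (J : ℝ) + 1 ≤ n + 1 := by
    have : (J : ℝ) ≤ n := by exact_mod_cast hJle
    linarith
  have h1 : θ * ((NP O x n : ℝ) / 2) ≤ ((n : ℝ) + 1) * NP O x (n + 2 * q) :=
    hmain.trans (mul_le_mul_of_nonneg_right hJ1 (Nat.cast_nonneg _))
  have h2 := mul_le_mul_of_nonneg_left h1 (show 0 ≤ 2 * Real.exp (16 * h * q) by positivity)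
  have h3 : 2 * Real.exp (16 * h * q) * (θ * ((NP O x n : ℝ) / 2)) = NP O x n * M := by
    have h4 : Real.exp (16 * h * q) * Real.exp (-(16 * h * q)) = 1 := by
      rw [← Real.exp_add, add_neg_cancel, Real.exp_zero]
    rw [hθ]
    calc 2 * Real.exp (16 * h * q) * (M * Real.exp (-(16 * h * q)) * ((NP O x n : ℝ) / 2))
        = (NP O x n * M) * (Real.exp (16 * h * q) * Real.exp (-(16 * h * q))) := by ring
      _ = NP O x n * M := by rw [h4, mul_one]
  rw [h3] at h2
  calc (NP O x n : ℝ) * M ≤ 2 * Real.exp (16 * h * q) * (((n : ℝ) + 1) * NP O x (n + 2 * q)) := h2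
    _ = 2 * (n + 1) * Real.exp (16 * h * q) * NP O x (n + 2 * q) := by ring

end Pool.Agent.RWO
end
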