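import Pool.Agent.Lib.MP_c35813_pr.Mg.G001
import Pool.Agent.Lib.MP_c35813_pr.Mg.G003

section

set_option autoImplicit false

/-! Task T9: many visits to a small set are unlikely. -/

namespace Pool.Agent.RWO

variable {d : ℕ}

theorem T9_sum_append (a b : ℕ) (f : List (Stp d) → ℝ) :
    ∑ l ∈ LL d (a + b), f l = ∑ l₁ ∈ LL d a, ∑ l₂ ∈ LL d b, f (l₁ ++ l₂) := by
  rw [← Finset.sum_product' (LL d a) (LL d b) (fun l₁ l₂ => f (l₁ ++ l₂))]
  symm
  refine Finset.sum_bij (fun P _ => P.1 ++ P.2) ?_ ?_ ?_ ?_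
  · intro P hP
    rw [Finset.mem_product, mem_LL, mem_LL] at hP
    rw [mem_LL, List.length_append, hP.1, hP.2]
  · intro P hP Q hQ h
    rw [Finset.mem_product, mem_LL, mem_LL] at hP hQ
    obtain ⟨h1, h2⟩ := List.append_inj h (hP.1.trans hQ.1.symm)
    exact Prod.ext h1 h2
  · intro l hl
    rw [mem_LL] at hl
    refine ⟨(l.take a, l.drop a), ?_, List.take_append_drop a l⟩
    rw [Finset.mem_product, mem_LL, mem_LL]
    simp only [List.length_take, List.length_drop]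
    omega
  · intro P _
    rfl

open scoped Classical in
/-- The number of the visits at the times `2mj`, `mj ≤ q`. -/
noncomputable def T9_Y (A : Set (V d)) (m : ℕ) (x : V d) (l : List (Stp d)) (q : ℕ) : ℕ :=
  ((Finset.range (q / m + 1)).filter (fun j => en x (l.take (2 * m * j)) ∈ A)).card

open scoped Classical in
/-- The indicator of `A`. -/
noncomputable def T9_ind (A : Set (V d)) (x : V d) : ℕ := if x ∈ A then 1 else 0

theorem T9_Y_lt (A : Set (V d)) (m q : ℕ) (h : q < m) (x : V d) (l : List (Stp d)) :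
    T9_Y A m x l q = T9_ind A x := by
  classical
  unfold T9_Y T9_ind
  rw [Nat.div_eq_of_lt h, Finset.card_filter, zero_add, Finset.sum_range_one, mul_zero, List.take_zero, en_nil]

theorem T9_Y_step (A : Set (V d)) (m q : ℕ) (hm : 1 ≤ m) (h : m ≤ q) (x : V d) (l₁ l₂ : List (Stp d))
    (hl : l₁.length = 2 * m) :
    T9_Y A m x (l₁ ++ l₂) q = T9_ind A x + T9_Y A m (en x l₁) l₂ (q - m) := by
  classical
  unfold T9_Y T9_ind
  have hq : q / m = (q - m) / m + 1 := Nat.div_eq_sub_div hm h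
  rw [hq, Finset.card_filter, Finset.card_filter, Finset.sum_range_succ', mul_zero, List.take_zero, en_nil, add_comm]
  congr 1
  refine Finset.sum_congr rfl fun j _ => ?_
  have ht : (l₁ ++ l₂).take (2 * m * (j + 1)) = l₁ ++ l₂.take (2 * m * j) := by
    rw [List.take_append, List.take_of_length_le (by rw [hl]; nlinarith), hl]
    congr 2
    rw [mul_add, mul_one, Nat.add_sub_cancel]
  rw [ht, en_append]

open scoped Classical in
theorem T9_block (A : Set (V d)) (m : ℕ) (hm : 1 ≤ m) (ρ Λ : ℝ)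
    (hρ : ∀ x : V d, (((LL d (2 * m)).filter (fun l => en x l ∈ A)).card : ℝ) ≤ ρ * (2 * d : ℝ) ^ (2 * m))
    (hΛ : 0 ≤ Λ) (hΛρ : Real.exp Λ * ρ ≤ 1) (q : ℕ) :
    ∀ x : V d, ∑ l ∈ LL d (2 * q), Real.exp (Λ * (T9_Y A m x l q : ℝ)) ≤
      Real.exp (Λ * (T9_ind A x : ℝ)) * 2 ^ (q / m) * (2 * d : ℝ) ^ (2 * q) := by
  classical
  induction q using Nat.strong_induction_on with
  | _ q ih =>
    intro x
    rcases Nat.lt_or_ge q m with h | h
    · rw [Finset.sum_congr rfl fun l _ => by rw [T9_Y_lt A m q h x l], Finset.sum_const, card_LL,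
        nsmul_eq_mul, Nat.div_eq_of_lt h]
      push_cast
      rw [pow_zero, mul_one, mul_comm]
    · have hq : 2 * q = 2 * m + 2 * (q - m) := by omega
      have hqd : q / m = (q - m) / m + 1 := Nat.div_eq_sub_div hm h
      have h1 : ∑ l ∈ LL d (2 * q), Real.exp (Λ * (T9_Y A m x l q : ℝ)) =
          Real.exp (Λ * (T9_ind A x : ℝ)) * ∑ l₁ ∈ LL d (2 * m), ∑ l₂ ∈ LL d (2 * (q - m)),
            Real.exp (Λ * (T9_Y A m (en x l₁) l₂ (q - m) : ℝ)) := by
        rw [hq, T9_sum_append, Finset.mul_sum]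
        refine Finset.sum_congr rfl fun l₁ hl₁ => ?_
        rw [Finset.mul_sum]
        refine Finset.sum_congr rfl fun l₂ _ => ?_
        rw [T9_Y_step A m q hm h x l₁ l₂ (mem_LL.1 hl₁), Nat.cast_add, mul_add, Real.exp_add]
      have h2 : ∀ y : V d, Real.exp (Λ * (T9_ind A y : ℝ)) ≤ 1 + (if y ∈ A then Real.exp Λ else 0) := by
        intro y
        unfold T9_ind
        by_cases hy : y ∈ A
        · rw [if_pos hy, if_pos hy, Nat.cast_one, mul_one]
          linarith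
        · rw [if_neg hy, if_neg hy, Nat.cast_zero, mul_zero, Real.exp_zero, add_zero]
      have h3 : ∑ l₁ ∈ LL d (2 * m), Real.exp (Λ * (T9_ind A (en x l₁) : ℝ)) ≤ 2 * (2 * d : ℝ) ^ (2 * m) := by
        calc ∑ l₁ ∈ LL d (2 * m), Real.exp (Λ * (T9_ind A (en x l₁) : ℝ))
            ≤ ∑ l₁ ∈ LL d (2 * m), (1 + (if en x l₁ ∈ A then Real.exp Λ else 0)) :=
              Finset.sum_le_sum fun l₁ _ => h2 _
          _ = (2 * d : ℝ) ^ (2 * m) +
              (((LL d (2 * m)).filter (fun l => en x l ∈ A)).card : ℝ) * Real.exp Λ := by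
            rw [Finset.sum_add_distrib, Finset.sum_const, card_LL, nsmul_eq_mul, mul_one, ← Finset.sum_filter,
              Finset.sum_const, nsmul_eq_mul]
            push_cast
            rfl
          _ ≤ (2 * d : ℝ) ^ (2 * m) + (ρ * (2 * d : ℝ) ^ (2 * m)) * Real.exp Λ := by
            have := mul_le_mul_of_nonneg_right (hρ x) (Real.exp_pos Λ).le
            linarith
          _ = (2 * d : ℝ) ^ (2 * m) + (Real.exp Λ * ρ) * (2 * d : ℝ) ^ (2 * m) := by ring
          _ ≤ (2 * d : ℝ) ^ (2 * m) + 1 * (2 * d : ℝ) ^ (2 * m) := by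
            have := mul_le_mul_of_nonneg_right hΛρ (show (0 : ℝ) ≤ (2 * d : ℝ) ^ (2 * m) by positivity)
            linarith
          _ = 2 * (2 * d : ℝ) ^ (2 * m) := by ring
      have h4 : ∑ l₁ ∈ LL d (2 * m), ∑ l₂ ∈ LL d (2 * (q - m)),
            Real.exp (Λ * (T9_Y A m (en x l₁) l₂ (q - m) : ℝ)) ≤
          (2 * (2 * d : ℝ) ^ (2 * m)) * (2 ^ ((q - m) / m) * (2 * d : ℝ) ^ (2 * (q - m))) := by
        calc ∑ l₁ ∈ LL d (2 * m), ∑ l₂ ∈ LL d (2 * (q - m)),
            Real.exp (Λ * (T9_Y A m (en x l₁) l₂ (q - m) : ℝ))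
            ≤ ∑ l₁ ∈ LL d (2 * m), Real.exp (Λ * (T9_ind A (en x l₁) : ℝ)) *
              (2 ^ ((q - m) / m) * (2 * d : ℝ) ^ (2 * (q - m))) := by
              refine Finset.sum_le_sum fun l₁ _ => ?_
              have := ih (q - m) (by omega) (en x l₁)
              rw [mul_assoc] at this
              exact this
          _ = (∑ l₁ ∈ LL d (2 * m), Real.exp (Λ * (T9_ind A (en x l₁) : ℝ))) *
              (2 ^ ((q - m) / m) * (2 * d : ℝ) ^ (2 * (q - m))) := by rw [Finset.sum_mul]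
          _ ≤ _ := mul_le_mul_of_nonneg_right h3 (by positivity)
      rw [h1]
      calc Real.exp (Λ * (T9_ind A x : ℝ)) * ∑ l₁ ∈ LL d (2 * m), ∑ l₂ ∈ LL d (2 * (q - m)),
            Real.exp (Λ * (T9_Y A m (en x l₁) l₂ (q - m) : ℝ))
          ≤ Real.exp (Λ * (T9_ind A x : ℝ)) *
            ((2 * (2 * d : ℝ) ^ (2 * m)) * (2 ^ ((q - m) / m) * (2 * d : ℝ) ^ (2 * (q - m)))) :=
            mul_le_mul_of_nonneg_left h4 (Real.exp_pos _).le
        _ = Real.exp (Λ * (T9_ind A x : ℝ)) * 2 ^ (q / m) * (2 * d : ℝ) ^ (2 * q) := by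
            rw [hqd, hq, pow_succ, pow_add]
            ring

open scoped Classical in
/-- The number of the visits at the times `2(c + mj)`, `c + mj ≤ q`. -/
noncomputable def T9_Z (A : Set (V d)) (m c : ℕ) (x : V d) (l : List (Stp d)) (q : ℕ) : ℕ :=
  ((Finset.range (q / m + 1)).filter (fun j => c + m * j ≤ q ∧ en x (l.take (2 * (c + m * j))) ∈ A)).card

theorem T9_vis_le (A : Set (V d)) (m : ℕ) (hm : 1 ≤ m) (x : V d) (l : List (Stp d)) (q : ℕ) :
    vis A x l q ≤ ∑ c ∈ Finset.range m, T9_Z A m c x l q := by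
  classical
  unfold vis
  have hsub : (Finset.range (q + 1)).filter (fun k => en x (l.take (2 * k)) ∈ A) ⊆
      (Finset.range m).biUnion (fun c =>
        ((Finset.range (q / m + 1)).filter
          (fun j => c + m * j ≤ q ∧ en x (l.take (2 * (c + m * j))) ∈ A)).image (fun j => c + m * j)) := by
    intro k hk
    rw [Finset.mem_filter, Finset.mem_range] at hk
    rw [Finset.mem_biUnion]
    refine ⟨k % m, Finset.mem_range.2 (Nat.mod_lt _ hm), ?_⟩
    rw [Finset.mem_image]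
    have hk2 : k % m + m * (k / m) = k := Nat.mod_add_div k m
    refine ⟨k / m, ?_, hk2⟩
    rw [Finset.mem_filter, Finset.mem_range, hk2]
    refine ⟨?_, by omega, hk.2⟩
    have := Nat.div_le_div_right (c := m) (show k ≤ q by omega)
    omega
  refine (Finset.card_le_card hsub).trans (Finset.card_biUnion_le.trans ?_)
  refine Finset.sum_le_sum fun c _ => ?_
  unfold T9_Z
  exact Finset.card_image_le

theorem T9_Z_le (A : Set (V d)) (m c q : ℕ) (hm : 1 ≤ m) (hc : c ≤ q) (x : V d) (l₀ l' : List (Stp d))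
    (hl : l₀.length = 2 * c) : T9_Z A m c x (l₀ ++ l') q ≤ T9_Y A m (en x l₀) l' (q - c) := by
  classical
  unfold T9_Z T9_Y
  refine Finset.card_le_card fun j hj => ?_
  rw [Finset.mem_filter, Finset.mem_range] at hj
  obtain ⟨h1, h2, h3⟩ := hj
  rw [Finset.mem_filter, Finset.mem_range]
  refine ⟨?_, ?_⟩
  · have : j ≤ (q - c) / m := by
      rw [Nat.le_div_iff_mul_le hm, mul_comm]
      omega
    omega
  · have ht : (l₀ ++ l').take (2 * (c + m * j)) = l₀ ++ l'.take (2 * m * j) := by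
      rw [List.take_append, List.take_of_length_le (by rw [hl]; nlinarith [Nat.zero_le (m * j)]), hl]
      congr 2
      rw [mul_add, Nat.add_sub_cancel_left, mul_assoc]
    rw [ht, en_append] at h3
    exact h3

theorem T9_Z_gt (A : Set (V d)) (m c q : ℕ) (hc : q < c) (x : V d) (l : List (Stp d)) :
    T9_Z A m c x l q = 0 := by
  classical
  unfold T9_Z
  rw [Finset.card_eq_zero, Finset.filter_eq_empty_iff]
  rintro j _ ⟨h1, _⟩
  omega

theorem T9_two_pow (a q m : ℕ) (hm : 1 ≤ m) (ha : a ≤ q) :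
    (2 : ℝ) ^ (a / m) ≤ Real.exp ((q : ℝ) / m) := by
  have h2 : (2 : ℝ) ≤ Real.exp 1 := by
    have := Real.add_one_le_exp (1 : ℝ)
    linarith
  calc (2 : ℝ) ^ (a / m) ≤ (Real.exp 1) ^ (a / m) := pow_le_pow_left₀ zero_le_two h2 _
    _ = Real.exp ((a / m : ℕ) : ℝ) := by rw [← Real.exp_nat_mul, mul_one]
    _ ≤ Real.exp ((q : ℝ) / m) := by
      refine Real.exp_le_exp.2 ((Nat.cast_div_le (α := ℝ)).trans ?_)
      have : (0 : ℝ) < m := by exact_mod_cast hm
      exact div_le_div_of_nonneg_right (by exact_mod_cast ha) this.le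

open scoped Classical in
theorem T9_class (A : Set (V d)) (m : ℕ) (hm : 1 ≤ m) (ρ Λ : ℝ)
    (hρ : ∀ x : V d, (((LL d (2 * m)).filter (fun l => en x l ∈ A)).card : ℝ) ≤ ρ * (2 * d : ℝ) ^ (2 * m))
    (hΛ : 0 ≤ Λ) (hΛρ : Real.exp Λ * ρ ≤ 1) (c q : ℕ) (x : V d) :
    ∑ l ∈ LL d (2 * q), Real.exp (Λ * (T9_Z A m c x l q : ℝ)) ≤
      Real.exp Λ * Real.exp ((q : ℝ) / m) * (2 * d : ℝ) ^ (2 * q) := by
  classical
  have hE1 : 1 ≤ Real.exp Λ := Real.one_le_exp hΛ
  have hE2 : 1 ≤ Real.exp ((q : ℝ) / m) := Real.one_le_exp (by positivity)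
  have hE : 1 ≤ Real.exp Λ * Real.exp ((q : ℝ) / m) := one_le_mul_of_one_le_of_one_le hE1 hE2
  rcases Nat.lt_or_ge q c with h | h
  · rw [Finset.sum_congr rfl fun l _ => by rw [T9_Z_gt A m c q h x l], Finset.sum_const, card_LL,
      nsmul_eq_mul, Nat.cast_zero, mul_zero, Real.exp_zero, mul_one]
    push_cast
    exact le_mul_of_one_le_left (by positivity) hE
  · have hq : 2 * q = 2 * c + 2 * (q - c) := by omega
    have hI : ∀ y : V d, Real.exp (Λ * (T9_ind A y : ℝ)) ≤ Real.exp Λ := by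
      intro y
      refine Real.exp_le_exp.2 ?_
      have : (T9_ind A y : ℝ) ≤ 1 := by
        unfold T9_ind
        split_ifs <;> norm_num
      calc Λ * (T9_ind A y : ℝ) ≤ Λ * 1 := mul_le_mul_of_nonneg_left this hΛ
        _ = Λ := mul_one _
    rw [hq, T9_sum_append]
    calc ∑ l₁ ∈ LL d (2 * c), ∑ l₂ ∈ LL d (2 * (q - c)), Real.exp (Λ * (T9_Z A m c x (l₁ ++ l₂) q : ℝ))
        ≤ ∑ l₁ ∈ LL d (2 * c), ∑ l₂ ∈ LL d (2 * (q - c)),
            Real.exp (Λ * (T9_Y A m (en x l₁) l₂ (q - c) : ℝ)) := by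
          refine Finset.sum_le_sum fun l₁ hl₁ => Finset.sum_le_sum fun l₂ _ => Real.exp_le_exp.2 ?_
          refine mul_le_mul_of_nonneg_left ?_ hΛ
          exact_mod_cast T9_Z_le A m c q hm h x l₁ l₂ (mem_LL.1 hl₁)
      _ ≤ ∑ l₁ ∈ LL d (2 * c), Real.exp Λ * Real.exp ((q : ℝ) / m) * (2 * d : ℝ) ^ (2 * (q - c)) := by
          refine Finset.sum_le_sum fun l₁ _ => ?_
          refine (T9_block A m hm ρ Λ hρ hΛ hΛρ (q - c) (en x l₁)).trans ?_
          refine mul_le_mul_of_nonneg_right ?_ (by positivity)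
          exact mul_le_mul (hI _) (T9_two_pow (q - c) q m hm (by omega)) (by positivity) (Real.exp_pos _).le
      _ = Real.exp Λ * Real.exp ((q : ℝ) / m) * (2 * d : ℝ) ^ (2 * c + 2 * (q - c)) := by
          rw [Finset.sum_const, card_LL, nsmul_eq_mul, pow_add]
          push_cast
          ring

open scoped Classical in
/-- T9. PROOF. For a residue class `c < m` let `X_c l = #{k ≤ q : k ≡ c mod m, en x (l.take (2k)) ∈ A}`; `vis = ∑_{c<m} X_c`, so `vis ≥ κq` gives `X_c ≥ κq/m` for some `c`. Claim: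
`∑_{l ∈ LL d (2q)} exp(Λ X_c l) ≤ exp Λ (1 + exp Λ ρ)^(q/m) (2d)^(2q)`: backward recursion over the blocks of length `2m` (`∑_{l ∈ LL d (2m)} exp(Λ 1_A(en x l)) ≤ (1 + exp Λ ρ)(2d)^(2m)` by `hρ`), the first time `c` costs
`exp Λ`. (E.g. prove by strong induction on `q`, for all `x`, with `X` the number of visits at the times `2mj`, `1 ≤ j`, `mj ≤ q`: `∑ exp(Λ X) ≤ (1 + exp Λ ρ)^(q/m) (2d)^(2q)`; then the shift by `c`.)
`(1 + exp Λ ρ) ≤ 2 ≤ exp 1`; Markov. -/
theorem visits_ld (A : Set (V d)) (m q : ℕ) (hm : 1 ≤ m) (ρ Λ κ : ℝ)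
    (hρ : ∀ x : V d, (((LL d (2 * m)).filter (fun l => en x l ∈ A)).card : ℝ) ≤ ρ * (2 * d : ℝ) ^ (2 * m))
    (hΛ : 0 ≤ Λ) (hΛρ : Real.exp Λ * ρ ≤ 1) (hκ : 0 ≤ κ) (x : V d) :
    (((LL d (2 * q)).filter (fun l => κ * q ≤ (vis A x l q : ℝ))).card : ℝ) ≤
      m * Real.exp (Λ + 1) * Real.exp (-((Λ * κ - 1) * q / m)) * (2 * d : ℝ) ^ (2 * q) := by
  have hm0 : (0 : ℝ) < m := by exact_mod_cast hm
  have hne : (Finset.range m).Nonempty := ⟨0, Finset.mem_range.2 hm⟩
  have hterm : ∀ l ∈ (LL d (2 * q)).filter (fun l => κ * q ≤ (vis A x l q : ℝ)),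
      (1 : ℝ) ≤ ∑ c ∈ Finset.range m, Real.exp (-(Λ * (κ * q / m))) * Real.exp (Λ * (T9_Z A m c x l q : ℝ)) := by
    intro l hl
    rw [Finset.mem_filter] at hl
    have h1 : ∑ c ∈ Finset.range m, κ * q / m ≤ ∑ c ∈ Finset.range m, (T9_Z A m c x l q : ℝ) := by
      rw [Finset.sum_const, Finset.card_range, nsmul_eq_mul, mul_div_cancel₀ _ hm0.ne']
      refine hl.2.trans ?_
      exact_mod_cast T9_vis_le A m hm x l q
    obtain ⟨c, hc, hcl⟩ := Finset.exists_le_of_sum_le hne h1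
    refine le_trans ?_ (Finset.single_le_sum (f := fun c => Real.exp (-(Λ * (κ * q / m))) *
      Real.exp (Λ * (T9_Z A m c x l q : ℝ))) (fun c _ => by positivity) hc)
    rw [← Real.exp_add]
    refine Real.one_le_exp ?_
    have := mul_le_mul_of_nonneg_left hcl hΛ
    linarith
  calc (((LL d (2 * q)).filter (fun l => κ * q ≤ (vis A x l q : ℝ))).card : ℝ)
      = ∑ l ∈ (LL d (2 * q)).filter (fun l => κ * q ≤ (vis A x l q : ℝ)), (1 : ℝ) := by
        rw [Finset.sum_const, nsmul_eq_mul, mul_one]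
    _ ≤ ∑ l ∈ (LL d (2 * q)).filter (fun l => κ * q ≤ (vis A x l q : ℝ)),
        ∑ c ∈ Finset.range m, Real.exp (-(Λ * (κ * q / m))) * Real.exp (Λ * (T9_Z A m c x l q : ℝ)) :=
        Finset.sum_le_sum hterm
    _ ≤ ∑ l ∈ LL d (2 * q),
        ∑ c ∈ Finset.range m, Real.exp (-(Λ * (κ * q / m))) * Real.exp (Λ * (T9_Z A m c x l q : ℝ)) :=
        Finset.sum_le_sum_of_subset_of_nonneg (Finset.filter_subset _ _)
          (fun l _ _ => Finset.sum_nonneg fun c _ => by positivity)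
    _ = ∑ c ∈ Finset.range m, Real.exp (-(Λ * (κ * q / m))) *
        ∑ l ∈ LL d (2 * q), Real.exp (Λ * (T9_Z A m c x l q : ℝ)) := by
        rw [Finset.sum_comm]
        refine Finset.sum_congr rfl fun c _ => ?_
        rw [Finset.mul_sum]
    _ ≤ ∑ c ∈ Finset.range m, Real.exp (-(Λ * (κ * q / m))) *
        (Real.exp Λ * Real.exp ((q : ℝ) / m) * (2 * d : ℝ) ^ (2 * q)) :=
        Finset.sum_le_sum fun c _ => mul_le_mul_of_nonneg_left
          (T9_class A m hm ρ Λ hρ hΛ hΛρ c q x) (Real.exp_pos _).le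
    _ = m * (Real.exp Λ * Real.exp (-((Λ * κ - 1) * q / m))) * (2 * d : ℝ) ^ (2 * q) := by
        rw [Finset.sum_const, Finset.card_range, nsmul_eq_mul]
        have : Real.exp (-((Λ * κ - 1) * q / m)) = Real.exp (-(Λ * (κ * q / m))) * Real.exp ((q : ℝ) / m) := by
          rw [← Real.exp_add]
          congr 1
          ring
        rw [this]
        ring
    _ ≤ m * Real.exp (Λ + 1) * Real.exp (-((Λ * κ - 1) * q / m)) * (2 * d : ℝ) ^ (2 * q) := by
        refine mul_le_mul_of_nonneg_right ?_ (by positivity)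
        rw [mul_assoc]
        refine mul_le_mul_of_nonneg_left ?_ hm0.le
        refine mul_le_mul_of_nonneg_right ?_ (Real.exp_pos _).le
        exact Real.exp_le_exp.2 (by linarith)

end Pool.Agent.RWO
end

section

set_option autoImplicit false

/-! Definitions for the middle zone. -/

namespace Pool.Agent.RWO

variable {d : ℕ}

/-- `b (b - 3) (b - 6) ...`, `k` factors. -/
def Pk : ℕ → ℕ → ℕ
  | 0, _ => 1
  | k + 1, b => b * Pk k (b - 3)

/-- `(b + 3) (b + 6) ... (b + 3 k)`. -/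
def Rk : ℕ → ℕ → ℕ
  | 0, _ => 1
  | k + 1, b => (b + 3) * Rk k (b + 3)

open scoped Classical in
/-- The open paths of length `n` from `x` to a point of `Z`. -/
noncomputable def PZ (O : Set (V d)) (x : V d) (Z : Set (V d)) (n : ℕ) : Finset (List (Stp d)) :=
  (LL d n).filter (fun l => Op O x l ∧ en x l ∈ Z)

/-- The normalised ratio of the numbers of the insertions and the removals. -/
noncomputable def xx (O : Set (V d)) (x : V d) (l : List (Stp d)) : ℝ := (II O x l : ℝ) / ((2 * d : ℝ) ^ 2 * (bt l : ℝ))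

/-- The cube of side `2 L + 1` about `z`. -/
noncomputable def bxc (z : V d) (L : ℕ) : Finset (V d) := Fintype.piFinset (fun i => Finset.Icc (z i - (L : ℤ)) (z i + (L : ℤ)))

theorem mem_PZ {O : Set (V d)} {x : V d} {Z : Set (V d)} {n : ℕ} {l : List (Stp d)} :
    l ∈ PZ O x Z n ↔ l.length = n ∧ Op O x l ∧ en x l ∈ Z := by
  classical
  unfold PZ
  rw [Finset.mem_filter, mem_LL]

theorem card_PZ_univ (O : Set (V d)) (x : V d) (n : ℕ) : (PZ O x Set.univ n).card = NP O x n := by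
  classical
  unfold NP
  congr 1
  ext l
  rw [mem_PZ, Finset.mem_filter, mem_LL]
  simp

theorem card_PZ_single (O : Set (V d)) (x z : V d) (n : ℕ) : (PZ O x {z} n).card = WP O x z n := by
  classical
  unfold WP
  congr 1
  ext l
  rw [mem_PZ, Finset.mem_filter, mem_LL, Set.mem_singleton_iff]

theorem mem_bxc {z u : V d} {L : ℕ} : u ∈ bxc z L ↔ ∀ i, |u i - z i| ≤ (L : ℤ) := by
  unfold bxc
  rw [Fintype.mem_piFinset]
  refine forall_congr' fun i => ?_
  rw [Finset.mem_Icc, abs_le]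
  constructor <;> intro h <;> constructor <;> linarith [h.1, h.2]

theorem card_bxc (z : V d) (L : ℕ) : (bxc z L).card = (2 * L + 1) ^ d := by
  unfold bxc
  rw [Fintype.card_piFinset]
  simp only [Int.card_Icc]
  have h : ∀ i : Fin d, (z i + (L : ℤ) + 1 - (z i - (L : ℤ))).toNat = 2 * L + 1 := fun i => by omega
  simp only [h, Finset.prod_const, Finset.card_univ, Fintype.card_fin]

theorem Pk_mono (k : ℕ) {b c : ℕ} (h : b ≤ c) : Pk k b ≤ Pk k c := by
  induction k generalizing b c with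
  | zero => exact le_rfl
  | succ k ih => exact Nat.mul_le_mul h (ih (by omega))

theorem Rk_mono (k : ℕ) {b c : ℕ} (h : b ≤ c) : Rk k b ≤ Rk k c := by
  induction k generalizing b c with
  | zero => exact le_rfl
  | succ k ih => exact Nat.mul_le_mul (by omega) (ih (by omega))

theorem Rk_pos (k b : ℕ) : 0 < Rk k b := by
  induction k generalizing b with
  | zero => exact Nat.one_pos
  | succ k ih => exact Nat.mul_pos (by omega) (ih _)

/-- A step changes every coordinate by at most `1`. -/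
theorem vec_abs (e : Stp d) (i : Fin d) : |vec e i| ≤ 1 := by
  unfold vec
  by_cases h : i = e.1
  · subst h
    rw [Pi.single_eq_same]
    split_ifs <;> simp
  · rw [Pi.single_eq_of_ne h]
    simp

theorem en_abs (x : V d) (l : List (Stp d)) (i : Fin d) : |en x l i - x i| ≤ (l.length : ℤ) := by
  induction l generalizing x with
  | nil => simp
  | cons e l ih =>
    rw [en_cons, List.length_cons]
    have h1 := ih (x + vec e)
    have h2 := vec_abs e i
    have h3 : en (x + vec e) l i - x i = (en (x + vec e) l i - (x + vec e) i) + vec e i := by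
      rw [Pi.add_apply]; ring
    rw [h3]
    push_cast
    exact (abs_add_le _ _).trans (add_le_add h1 h2)

end Pool.Agent.RWO
end

section

set_option autoImplicit false

/-! Task M1: the moment inequality of the insertions. -/

namespace Pool.Agent.RWO

variable {d : ℕ}

theorem M1_aI_mem {O : Set (V d)} {x : V d} {t : ℕ} {u : Tr d} (hu : u ∈ ed O x t) :
    aI u ∈ PZ O x Set.univ t := by
  rw [mem_ed] at hu
  rw [mem_PZ]
  refine ⟨?_, Op_ins O x u hu.2, Set.mem_univ _⟩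
  unfold aI
  rw [List.length_append]
  exact hu.1

theorem M1_bI_mem {O : Set (V d)} {x : V d} {t : ℕ} {u : Tr d} (hu : u ∈ ed O x t) :
    bI u ∈ PZ O x Set.univ (t + 2) := by
  rw [mem_ed] at hu
  rw [mem_PZ]
  refine ⟨?_, hu.2, Set.mem_univ _⟩
  unfold bI
  rw [List.length_append, List.length_cons, List.length_cons]
  have := hu.1
  omega

theorem M1_bt_pos {O : Set (V d)} {x : V d} {t : ℕ} {u : Tr d} (hu : u ∈ ed O x t) : 0 < bt (bI u) := by
  classical
  have h1 := M1_bI_mem hu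
  rw [mem_PZ] at h1
  have h2 := ins_b O x t (bI u) h1.1 h1.2.1
  rw [← h2, Finset.card_pos]
  exact ⟨u, Finset.mem_filter.2 ⟨hu, rfl⟩⟩

/-- M1. PROOF. Induction on `k`, for all `t`. `k + 1`: with `b = bt l`, `Rk (k+1) b = (b+3) Rk k (b+3)`: `∑_l II(l) * [II(l)^k / ((b+3) Rk k (b+3))] = ∑_{u ∈ ed O x t} II(aI u)^k / ((bt(aI u)+3) Rk k (bt(aI u)+3))`
(fibres of `aI` over `l`, `ins_a`: the number of the `u` with `aI u = l` is `II O x l`; `Op_ins`, `aI u` has length `t`) `≤ ∑_u II(bI u)^k / (bt(bI u) Rk k (bt(bI u)))` (`1 ≤ bt (bI u) ≤ bt (aI u) + 3` by `bt_ins`, and `1 ≤ bt (bI u)`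
as `bI u` contains a backtrack, e.g. `ins_b` for `l = bI u` gives a nonempty set; `II_ins`, `Rk_mono`) `= ∑_{l' ∈ PZ O x univ (t+2)} bt(l') * II(l')^k / (bt(l') Rk k (bt l'))` (fibres of `bI`, `ins_b`) `≤ ∑_{l'} II(l')^k / Rk k (bt l')`. -/
theorem mom_up (O : Set (V d)) (x : V d) (t k : ℕ) :
    ∑ l ∈ PZ O x Set.univ t, (II O x l : ℝ) ^ k / (Rk k (bt l) : ℝ) ≤ (NP O x (t + 2 * k) : ℝ) := by
  classical
  induction k generalizing t with
  | zero =>
    have h : ∀ l ∈ PZ O x Set.univ t, (II O x l : ℝ) ^ 0 / (Rk 0 (bt l) : ℝ) = 1 := by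
      intro l _
      simp [Rk]
    rw [Finset.sum_congr rfl h, Finset.sum_const, nsmul_eq_mul, mul_one, card_PZ_univ]
    simp
  | succ k ih =>
    set g : List (Stp d) → ℝ := fun l => (II O x l : ℝ) ^ k / (((bt l + 3 : ℕ) : ℝ) * (Rk k (bt l + 3) : ℝ)) with hg
    set h : List (Stp d) → ℝ := fun l => (II O x l : ℝ) ^ k / ((bt l : ℝ) * (Rk k (bt l) : ℝ)) with hh
    have e1 : ∑ l ∈ PZ O x Set.univ t, (II O x l : ℝ) ^ (k + 1) / (Rk (k + 1) (bt l) : ℝ) =
        ∑ u ∈ ed O x t, g (aI u) := by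
      rw [← Finset.sum_fiberwise_of_maps_to (fun u hu => M1_aI_mem hu)]
      refine Finset.sum_congr rfl fun l hl => ?_
      rw [mem_PZ] at hl
      have h1 : ∀ u ∈ (ed O x t).filter (fun u => aI u = l), g (aI u) = g l := by
        intro u hu
        rw [(Finset.mem_filter.1 hu).2]
      rw [Finset.sum_congr rfl h1, Finset.sum_const, ins_a O x t l hl.1 hl.2.1, nsmul_eq_mul, hg]
      simp only [Rk]
      push_cast
      rw [pow_succ, mul_comm ((II O x l : ℝ) ^ k), mul_div_assoc]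
    have e2 : ∑ l ∈ PZ O x Set.univ (t + 2), (bt l : ℝ) * h l = ∑ u ∈ ed O x t, h (bI u) := by
      rw [← Finset.sum_fiberwise_of_maps_to (fun u hu => M1_bI_mem hu)]
      refine Finset.sum_congr rfl fun l hl => ?_
      rw [mem_PZ] at hl
      have h1 : ∀ u ∈ (ed O x t).filter (fun u => bI u = l), h (bI u) = h l := by
        intro u hu
        rw [(Finset.mem_filter.1 hu).2]
      rw [Finset.sum_congr rfl h1, Finset.sum_const, ins_b O x t l hl.1 hl.2.1, nsmul_eq_mul]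
    have e3 : ∑ u ∈ ed O x t, g (aI u) ≤ ∑ u ∈ ed O x t, h (bI u) := by
      refine Finset.sum_le_sum fun u hu => ?_
      have hb := M1_bt_pos hu
      have h1 := (bt_ins u).2
      have h2 := (II_ins O x u).1
      have h3 := Rk_pos k (bt (bI u))
      have h4 := Rk_mono k h1
      rw [hg, hh]
      simp only
      refine div_le_div₀ (by positivity) ?_ ?_ ?_
      · exact pow_le_pow_left₀ (by positivity) (by exact_mod_cast h2) k
      · have : (0 : ℝ) < (bt (bI u) : ℝ) := by exact_mod_cast hb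
        have : (0 : ℝ) < (Rk k (bt (bI u)) : ℝ) := by exact_mod_cast h3
        positivity
      · refine mul_le_mul ?_ ?_ (by positivity) (by positivity)
        · exact_mod_cast h1
        · exact_mod_cast h4
    have e4 : ∑ l ∈ PZ O x Set.univ (t + 2), (bt l : ℝ) * h l ≤
        ∑ l ∈ PZ O x Set.univ (t + 2), (II O x l : ℝ) ^ k / (Rk k (bt l) : ℝ) := by
      refine Finset.sum_le_sum fun l _ => ?_
      rw [hh]
      simp only
      have h3 := Rk_pos k (bt l)
      have h3' : (0 : ℝ) < (Rk k (bt l) : ℝ) := by exact_mod_cast h3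
      rcases Nat.eq_zero_or_pos (bt l) with h0 | h0
      · rw [h0]
        simp only [Nat.cast_zero, zero_mul]
        positivity
      · have h0' : (0 : ℝ) < (bt l : ℝ) := by exact_mod_cast h0
        refine le_of_eq ?_
        field_simp
    calc ∑ l ∈ PZ O x Set.univ t, (II O x l : ℝ) ^ (k + 1) / (Rk (k + 1) (bt l) : ℝ)
        = ∑ u ∈ ed O x t, g (aI u) := e1
      _ ≤ ∑ u ∈ ed O x t, h (bI u) := e3
      _ = ∑ l ∈ PZ O x Set.univ (t + 2), (bt l : ℝ) * h l := e2.symm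
      _ ≤ ∑ l ∈ PZ O x Set.univ (t + 2), (II O x l : ℝ) ^ k / (Rk k (bt l) : ℝ) := e4
      _ ≤ (NP O x (t + 2 + 2 * k) : ℝ) := ih (t + 2)
      _ = (NP O x (t + 2 * (k + 1)) : ℝ) := by
        rw [show t + 2 + 2 * k = t + 2 * (k + 1) by ring]

end Pool.Agent.RWO
end

section

set_option autoImplicit false

/-! Task M2: the moment inequality of the removals, the end point is kept. -/

namespace Pool.Agent.RWO

variable {d : ℕ}

private theorem M2_fib {E β : Type*} [DecidableEq β] (S : Finset E) (T : Finset β) (g : E → β) (hg : ∀ u ∈ S, g u ∈ T)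
    (c : β → ℕ) (hc : ∀ y ∈ T, (S.filter (fun u => g u = y)).card = c y) (f : β → ℝ) :
    ∑ u ∈ S, f (g u) = ∑ y ∈ T, (c y : ℝ) * f y := by
  rw [← Finset.sum_fiberwise_of_maps_to hg]
  refine Finset.sum_congr rfl fun y hy => ?_
  rw [← hc y hy]
  have h1 : ∑ u ∈ S.filter (fun u => g u = y), f (g u) = ∑ _u ∈ S.filter (fun u => g u = y), f y :=
    Finset.sum_congr rfl fun u hu => by rw [(Finset.mem_filter.1 hu).2]
  rw [h1, Finset.sum_const, nsmul_eq_mul]

private theorem M2_step (O : Set (V d)) (x : V d) (Z : Set (V d)) (n k : ℕ) :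
    ∑ l ∈ PZ O x Z (n + 2), (Pk (k + 1) (bt l) : ℝ) / (II O x l : ℝ) ^ (k + 1)
      ≤ ∑ l ∈ PZ O x Z n, (Pk k (bt l) : ℝ) / (II O x l : ℝ) ^ k := by
  classical
  set S : Finset (Tr d) := (ed O x n).filter (fun u => en x (bI u) ∈ Z) with hS
  have hSb : ∀ u ∈ S, bI u ∈ PZ O x Z (n + 2) := by
    intro u hu
    rw [hS, Finset.mem_filter, mem_ed] at hu
    rw [mem_PZ]
    refine ⟨?_, hu.1.2, hu.2⟩
    unfold bI
    simp only [List.length_append, List.length_cons]
    have := hu.1.1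
    omega
  have hSa : ∀ u ∈ S, aI u ∈ PZ O x Z n := by
    intro u hu
    rw [hS, Finset.mem_filter, mem_ed] at hu
    rw [mem_PZ]
    refine ⟨?_, Op_ins O x u hu.1.2, ?_⟩
    · unfold aI
      rw [List.length_append]
      exact hu.1.1
    · rw [en_ins]
      exact hu.2
  have hfb : ∀ l ∈ PZ O x Z (n + 2), (S.filter (fun u => bI u = l)).card = bt l := by
    intro l hl
    rw [mem_PZ] at hl
    rw [← ins_b O x n l hl.1 hl.2.1]
    congr 1
    ext u
    simp only [hS, Finset.mem_filter]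
    constructor
    · rintro ⟨⟨h1, _⟩, h3⟩
      exact ⟨h1, h3⟩
    · rintro ⟨h1, h3⟩
      refine ⟨⟨h1, ?_⟩, h3⟩
      rw [h3]
      exact hl.2.2
  have hfa : ∀ l ∈ PZ O x Z n, (S.filter (fun u => aI u = l)).card = II O x l := by
    intro l hl
    rw [mem_PZ] at hl
    rw [← ins_a O x n l hl.1 hl.2.1]
    congr 1
    ext u
    simp only [hS, Finset.mem_filter]
    constructor
    · rintro ⟨⟨h1, _⟩, h3⟩
      exact ⟨h1, h3⟩
    · rintro ⟨h1, h3⟩
      refine ⟨⟨h1, ?_⟩, h3⟩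
      rw [← en_ins, h3]
      exact hl.2.2
  have e1 : ∑ l ∈ PZ O x Z (n + 2), (Pk (k + 1) (bt l) : ℝ) / (II O x l : ℝ) ^ (k + 1)
      = ∑ u ∈ S, (Pk k (bt (bI u) - 3) : ℝ) / (II O x (bI u) : ℝ) ^ (k + 1) := by
    rw [M2_fib S (PZ O x Z (n + 2)) bI hSb bt hfb
      (fun l => (Pk k (bt l - 3) : ℝ) / (II O x l : ℝ) ^ (k + 1))]
    refine Finset.sum_congr rfl fun l _ => ?_
    have : Pk (k + 1) (bt l) = bt l * Pk k (bt l - 3) := rfl
    rw [this]
    push_cast
    ring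
  have e2 : ∑ u ∈ S, (Pk k (bt (aI u)) : ℝ) / (II O x (aI u) : ℝ) ^ (k + 1)
      = ∑ l ∈ PZ O x Z n, (II O x l : ℝ) * ((Pk k (bt l) : ℝ) / (II O x l : ℝ) ^ (k + 1)) :=
    M2_fib S (PZ O x Z n) aI hSa (fun l => II O x l) hfa
      (fun l => (Pk k (bt l) : ℝ) / (II O x l : ℝ) ^ (k + 1))
  rw [e1]
  refine le_trans (b := ∑ u ∈ S, (Pk k (bt (aI u)) : ℝ) / (II O x (aI u) : ℝ) ^ (k + 1)) ?_ ?_
  · refine Finset.sum_le_sum fun u hu => ?_
    have hpos : 0 < II O x (aI u) := by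
      rw [← hfa (aI u) (hSa u hu), Finset.card_pos]
      exact ⟨u, Finset.mem_filter.2 ⟨hu, rfl⟩⟩
    have hposR : (0 : ℝ) < (II O x (aI u) : ℝ) := by exact_mod_cast hpos
    have h1 : Pk k (bt (bI u) - 3) ≤ Pk k (bt (aI u)) := Pk_mono k (by have := (bt_ins u).2; omega)
    have h2 : (II O x (aI u) : ℝ) ≤ (II O x (bI u) : ℝ) := by exact_mod_cast (II_ins O x u).1
    refine div_le_div₀ (Nat.cast_nonneg _) (by exact_mod_cast h1) (pow_pos hposR _) ?_
    exact pow_le_pow_left₀ hposR.le h2 _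
  · rw [e2]
    refine Finset.sum_le_sum fun l _ => ?_
    rcases Nat.eq_zero_or_pos (II O x l) with h0 | h0
    · rw [h0]
      simp only [Nat.cast_zero, zero_mul]
      exact div_nonneg (Nat.cast_nonneg _) (pow_nonneg le_rfl _)
    · have h0R : (II O x l : ℝ) ≠ 0 := by exact_mod_cast h0.ne'
      rw [pow_succ, ← mul_div_assoc, mul_comm ((II O x l : ℝ) ^ k) (II O x l : ℝ), mul_div_mul_left _ _ h0R]

/-- M2. PROOF. Induction on `k`, for all `t`. `k + 1`: `Pk (k+1) b = b Pk k (b-3)`. `∑_{l' ∈ PZ (t + 2k + 2)} bt(l') * [Pk k (bt l' - 3) / II(l')^(k+1)] = ∑_u Pk k (bt (bI u) - 3) / II(bI u)^(k+1)` (over the `u ∈ ed O x (t + 2k)` with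
`en x (bI u) ∈ Z`; fibres of `bI`, `ins_b`) `≤ ∑_u Pk k (bt (aI u)) / II(aI u)^(k+1)` (`bt_ins`, `II_ins`, `Pk_mono`; if `II (aI u) = 0` the fibre below is empty, so it does not occur) `= ∑_{l ∈ PZ (t + 2k)} II(l) * Pk k (bt l) / II(l)^(k+1)`
(fibres of `aI`, `ins_a`, `en_ins`, `Op_ins`) `≤ ∑_l Pk k (bt l) / II(l)^k`. -/
theorem mom_down (O : Set (V d)) (x : V d) (Z : Set (V d)) (t k : ℕ) :
    ∑ l ∈ PZ O x Z (t + 2 * k), (Pk k (bt l) : ℝ) / (II O x l : ℝ) ^ k ≤ ((PZ O x Z t).card : ℝ) := by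
  induction k with
  | zero =>
    simp [Pk]
  | succ k ih =>
    have h := M2_step O x Z (t + 2 * k) k
    exact h.trans ih

end Pool.Agent.RWO
end

section

set_option autoImplicit false

/-! Task M3: the number of the loops at the end point. -/

namespace Pool.Agent.RWO

variable {d : ℕ}

/-- M3a. PROOF. `bt (l ++ c) ≥ bt l`, `II O x (l ++ c) ≤ II O x l + 2 d |c|`. Induction on `l`. -/
theorem bt_append (l c : List (Stp d)) : bt l ≤ bt (l ++ c) := by
  induction l with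
  | nil => exact Nat.zero_le _
  | cons e l ih =>
    cases l with
    | nil => exact Nat.zero_le _
    | cons f l =>
      simp only [List.cons_append, bt] at ih ⊢
      exact Nat.add_le_add_left ih _

theorem M3_dg_le (O : Set (V d)) (x : V d) : dg O x ≤ 2 * d := by
  classical
  unfold dg
  refine (Finset.card_le_univ _).trans ?_
  rw [Fintype.card_prod, Fintype.card_fin, Fintype.card_bool, mul_comm]

theorem M3_II_le (O : Set (V d)) (x : V d) (c : List (Stp d)) : II O x c ≤ dg O x + 2 * d * c.length := by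
  induction c generalizing x with
  | nil => exact Nat.le_add_right _ _
  | cons e c ih =>
    have h1 := ih (x + vec e)
    have h2 := M3_dg_le O (x + vec e)
    simp only [II, List.length_cons]
    have h3 : 2 * d * (c.length + 1) = 2 * d * c.length + 2 * d := by ring
    omega

theorem II_append (O : Set (V d)) (x : V d) (l c : List (Stp d)) : II O x (l ++ c) ≤ II O x l + 2 * d * c.length := by
  induction l generalizing x with
  | nil => exact M3_II_le O x c
  | cons e l ih =>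
    have h1 := ih (x + vec e)
    simp only [List.cons_append, II]
    omega

/-- M3b. PROOF. `mom_down` with `Z = {z}`; the paths `l ++ c`, `l ∈ PZ O x {z} t`, `c ∈ PZ O z {z} (2k)` are distinct elements of `PZ O x {z} (t + 2k)`, and
`Pk k (bt (l ++ c)) / II(l ++ c)^k ≥ Pk k (bt l) / (II l + 4 d k)^k` (`bt_append`, `II_append`, `|c| = 2k`; for `k = 0` both are `1`; for `k ≥ 1`, `II (l ++ c) > 0` by `II_ge`). -/
theorem loops_down (O : Set (V d)) (x z : V d) (t k : ℕ) :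
    (WP O z z (2 * k) : ℝ) * ∑ l ∈ PZ O x {z} t, (Pk k (bt l) : ℝ) / ((II O x l : ℝ) + 4 * d * k) ^ k ≤ (WP O x z t : ℝ) := by
  classical
  have h0 := mom_down O x {z} t k
  rw [card_PZ_single] at h0
  refine le_trans ?_ h0
  have h1 : (WP O z z (2 * k) : ℝ) * ∑ l ∈ PZ O x {z} t, (Pk k (bt l) : ℝ) / ((II O x l : ℝ) + 4 * d * k) ^ k =
      ∑ P ∈ (PZ O x {z} t) ×ˢ (PZ O z {z} (2 * k)), (Pk k (bt P.1) : ℝ) / ((II O x P.1 : ℝ) + 4 * d * k) ^ k := by
    rw [Finset.sum_product, ← card_PZ_single, Finset.mul_sum]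
    refine Finset.sum_congr rfl fun l _ => ?_
    simp only [Finset.sum_const, nsmul_eq_mul]
  rw [h1]
  have hinj : Set.InjOn (fun P : List (Stp d) × List (Stp d) => P.1 ++ P.2)
      ((PZ O x {z} t) ×ˢ (PZ O z {z} (2 * k)) : Finset (List (Stp d) × List (Stp d))) := by
    intro P hP Q hQ h
    rw [Finset.mem_coe, Finset.mem_product, mem_PZ, mem_PZ] at hP hQ
    obtain ⟨h2, h3⟩ := List.append_inj h (hP.1.1.trans hQ.1.1.symm)
    exact Prod.ext h2 h3
  have hmem : ∀ P ∈ (PZ O x {z} t) ×ˢ (PZ O z {z} (2 * k)), P.1 ++ P.2 ∈ PZ O x {z} (t + 2 * k) := by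
    intro P hP
    rw [Finset.mem_product, mem_PZ, mem_PZ] at hP
    obtain ⟨⟨a1, a2, a3⟩, b1, b2, b3⟩ := hP
    rw [Set.mem_singleton_iff] at a3 b3
    rw [mem_PZ, Op_append, en_append, a3, Set.mem_singleton_iff, List.length_append, a1, b1]
    exact ⟨rfl, ⟨a2, b2⟩, b3⟩
  calc ∑ P ∈ (PZ O x {z} t) ×ˢ (PZ O z {z} (2 * k)), (Pk k (bt P.1) : ℝ) / ((II O x P.1 : ℝ) + 4 * d * k) ^ k
      ≤ ∑ P ∈ (PZ O x {z} t) ×ˢ (PZ O z {z} (2 * k)),
          (Pk k (bt (P.1 ++ P.2)) : ℝ) / (II O x (P.1 ++ P.2) : ℝ) ^ k := by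
        refine Finset.sum_le_sum fun P hP => ?_
        rcases Nat.eq_zero_or_pos k with hk | hk
        · subst hk
          simp [Pk]
        have hm := hmem P hP
        rw [mem_PZ] at hm
        rw [Finset.mem_product, mem_PZ, mem_PZ] at hP
        obtain ⟨⟨a1, a2, a3⟩, b1, b2, b3⟩ := hP
        have hne : P.1 ++ P.2 ≠ [] := by
          intro h
          have h2 := congrArg List.length h
          rw [List.length_append, b1, List.length_nil] at h2
          omega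
        have h2 := II_ge O x (P.1 ++ P.2) hne hm.2.1
        have h3 : (0 : ℝ) < (II O x (P.1 ++ P.2) : ℝ) := by
          have : 0 < II O x (P.1 ++ P.2) := by omega
          exact_mod_cast this
        have h4 : (II O x (P.1 ++ P.2) : ℝ) ≤ (II O x P.1 : ℝ) + 4 * d * k := by
          have h5 := II_append O x P.1 P.2
          rw [b1] at h5
          have h6 : ((II O x (P.1 ++ P.2) : ℕ) : ℝ) ≤ ((II O x P.1 + 2 * d * (2 * k) : ℕ) : ℝ) := by
            exact_mod_cast h5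
          push_cast at h6
          linarith
        have h7 : (Pk k (bt P.1) : ℝ) ≤ (Pk k (bt (P.1 ++ P.2)) : ℝ) := by
          exact_mod_cast Pk_mono k (bt_append P.1 P.2)
        exact div_le_div₀ (Nat.cast_nonneg _) h7 (pow_pos h3 k) (pow_le_pow_left₀ h3.le h4 k)
    _ = ∑ l ∈ ((PZ O x {z} t) ×ˢ (PZ O z {z} (2 * k))).image (fun P => P.1 ++ P.2),
          (Pk k (bt l) : ℝ) / (II O x l : ℝ) ^ k := by
        rw [Finset.sum_image hinj]
    _ ≤ ∑ l ∈ PZ O x {z} (t + 2 * k), (Pk k (bt l) : ℝ) / (II O x l : ℝ) ^ k := by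
        refine Finset.sum_le_sum_of_subset_of_nonneg ?_ fun l _ _ => by positivity
        intro l hl
        rw [Finset.mem_image] at hl
        obtain ⟨P, hP, rfl⟩ := hl
        exact hmem P hP

end Pool.Agent.RWO
end

section

set_option autoImplicit false

/-! Task M4: the moment inequalities in terms of `xx`. -/

namespace Pool.Agent.RWO

variable {d : ℕ}

theorem M4_Pk_nat (k b : ℕ) : (b - 3 * k) ^ k ≤ Pk k b := by
  induction k generalizing b with
  | zero => exact le_rfl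
  | succ k ih =>
    have h1 := ih (b - 3)
    have h2 : b - 3 - 3 * k = b - 3 * (k + 1) := by omega
    rw [h2] at h1
    calc (b - 3 * (k + 1)) ^ (k + 1) = (b - 3 * (k + 1)) * (b - 3 * (k + 1)) ^ k := by ring
      _ ≤ b * Pk k (b - 3) := Nat.mul_le_mul (Nat.sub_le _ _) h1

theorem M4_Rk_nat (k b : ℕ) : Rk k b ≤ (b + 3 * k) ^ k := by
  induction k generalizing b with
  | zero => exact le_rfl
  | succ k ih =>
    have h1 := ih (b + 3)
    have h2 : b + 3 + 3 * k = b + 3 * (k + 1) := by omega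
    rw [h2] at h1
    calc Rk (k + 1) b = (b + 3) * Rk k (b + 3) := rfl
      _ ≤ (b + 3 * (k + 1)) * (b + 3 * (k + 1)) ^ k := Nat.mul_le_mul (by omega) h1
      _ = (b + 3 * (k + 1)) ^ (k + 1) := by ring

/-- M4a. PROOF. `Pk k b ≥ (b - 3k)^k = b^k (1 - 3k/b)^k ≥ b^k (1 - 3k²/b) ≥ b^k/2` (Bernoulli). -/
theorem Pk_ge (k b : ℕ) (h : 6 * k ^ 2 ≤ b) : (b : ℝ) ^ k / 2 ≤ (Pk k b : ℝ) := by
  rcases Nat.eq_zero_or_pos k with rfl | hk
  · simp [Pk]
    norm_num
  · have hkk : k ≤ k ^ 2 := by nlinarith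
    have hb : 0 < b := by nlinarith
    have hbR : (0 : ℝ) < b := by exact_mod_cast hb
    have h3 : 3 * k ≤ b := by omega
    have h1 : ((b - 3 * k : ℕ) : ℝ) ^ k ≤ (Pk k b : ℝ) := by exact_mod_cast M4_Pk_nat k b
    rw [Nat.cast_sub h3] at h1
    push_cast at h1
    have h6 : (6 : ℝ) * k ^ 2 ≤ b := by exact_mod_cast h
    have h3R : (3 : ℝ) * k ≤ b := by exact_mod_cast h3
    have e1 : (b : ℝ) - 3 * k = b * (1 + (-(3 * k / b))) := by
      field_simp
      ring
    have e2 := one_add_mul_le_pow (a := (-(3 * k / b) : ℝ)) (by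
      have : 3 * (k : ℝ) / b ≤ 1 := by
        rw [div_le_one hbR]; exact h3R
      linarith) k
    have e3 : (1 : ℝ) / 2 ≤ 1 + k * (-(3 * k / b)) := by
      have : (k : ℝ) * (3 * k / b) ≤ 1 / 2 := by
        rw [← mul_div_assoc, div_le_iff₀ hbR]
        nlinarith
      linarith
    have e4 : (b : ℝ) ^ k / 2 ≤ (b * (1 + (-(3 * k / b)))) ^ k := by
      rw [mul_pow, div_eq_mul_one_div]
      exact mul_le_mul_of_nonneg_left (e3.trans e2) (by positivity)
    rw [← e1] at e4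
    exact e4.trans h1

/-- M4b. PROOF. `Rk k b ≤ (b + 3k)^k = b^k (1 + 3k/b)^k ≤ b^k exp(3k²/b) ≤ b^k exp(1/2) ≤ 2 b^k`. (`b = 0` forces `k = 0`.) -/
theorem Rk_le (k b : ℕ) (h : 6 * k ^ 2 ≤ b) : (Rk k b : ℝ) ≤ 2 * (b : ℝ) ^ k := by
  rcases Nat.eq_zero_or_pos k with rfl | hk
  · simp [Rk]
  · have hkk : k ≤ k ^ 2 := by nlinarith
    have hb : 0 < b := by nlinarith
    have hbR : (0 : ℝ) < b := by exact_mod_cast hb
    have h1 : (Rk k b : ℝ) ≤ ((b : ℝ) + 3 * k) ^ k := by exact_mod_cast M4_Rk_nat k b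
    have h6 : (6 : ℝ) * k ^ 2 ≤ b := by exact_mod_cast h
    have e1 : (b : ℝ) + 3 * k = b * (3 * k / b + 1) := by
      field_simp
      ring
    have e2 : (3 * (k : ℝ) / b + 1) ^ k ≤ 2 := by
      calc (3 * (k : ℝ) / b + 1) ^ k ≤ (Real.exp (3 * k / b)) ^ k :=
            pow_le_pow_left₀ (by positivity) (Real.add_one_le_exp _) k
        _ = Real.exp (k * (3 * k / b)) := by rw [← Real.exp_nat_mul]
        _ ≤ Real.exp (1 / 2) := by
            apply Real.exp_le_exp.2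
            rw [← mul_div_assoc, div_le_iff₀ hbR]
            nlinarith
        _ ≤ 2 := by
            have h7 : Real.exp (1 / 2) * Real.exp (1 / 2) = Real.exp 1 := by
              rw [← Real.exp_add]; norm_num
            have h8 := Real.exp_one_lt_d9
            by_contra h9
            push Not at h9
            have h10 : (2 : ℝ) * 2 < Real.exp (1 / 2) * Real.exp (1 / 2) :=
              mul_lt_mul'' h9 h9 (by norm_num) (by norm_num)
            rw [h7] at h10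
            norm_num at h8 h10
            linarith
    calc (Rk k b : ℝ) ≤ ((b : ℝ) + 3 * k) ^ k := h1
      _ = (b : ℝ) ^ k * (3 * k / b + 1) ^ k := by rw [e1, mul_pow]
      _ ≤ (b : ℝ) ^ k * 2 := mul_le_mul_of_nonneg_left e2 (by positivity)
      _ = 2 * (b : ℝ) ^ k := by ring

open scoped Classical in
/-- M4c. PROOF. `mom_up` restricted to the `l` with `B ≤ bt l`; `II^k / Rk k b ≥ (II/b)^k/2` (`Rk_le`) and `II/b = (2d)² xx`. -/
theorem xx_up (hd : 1 ≤ d) (O : Set (V d)) (x : V d) (t k B : ℕ) (hB : 1 ≤ B) (h : 6 * k ^ 2 ≤ B) :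
    (2 * d : ℝ) ^ (2 * k) * ∑ l ∈ (PZ O x Set.univ t).filter (fun l => B ≤ bt l), xx O x l ^ k ≤ 2 * (NP O x (t + 2 * k) : ℝ) := by
  have hd' : (1 : ℝ) ≤ d := by exact_mod_cast hd
  have h2d : (0 : ℝ) < 2 * d := by linarith
  have key : ∀ l ∈ (PZ O x Set.univ t).filter (fun l => B ≤ bt l),
      (2 * d : ℝ) ^ (2 * k) * xx O x l ^ k ≤ 2 * ((II O x l : ℝ) ^ k / (Rk k (bt l) : ℝ)) := by
    intro l hl
    have hb : B ≤ bt l := (Finset.mem_filter.1 hl).2
    have hb0 : (0 : ℝ) < bt l := by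
      have : 0 < bt l := by omega
      exact_mod_cast this
    have hR := Rk_le k (bt l) (h.trans hb)
    have hR0 : (0 : ℝ) < Rk k (bt l) := by exact_mod_cast Rk_pos k (bt l)
    have e1 : (2 * d : ℝ) ^ (2 * k) * xx O x l ^ k = (II O x l : ℝ) ^ k / (bt l : ℝ) ^ k := by
      have e0 : (2 * d : ℝ) ^ (2 * k) = ((2 * d : ℝ) ^ 2) ^ k := pow_mul _ _ _
      unfold xx
      rw [e0, ← mul_pow, ← div_pow]
      congr 1
      field_simp
    rw [e1, ← mul_div_assoc, div_le_div_iff₀ (by positivity) hR0]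
    calc (II O x l : ℝ) ^ k * (Rk k (bt l) : ℝ) ≤ (II O x l : ℝ) ^ k * (2 * (bt l : ℝ) ^ k) :=
          mul_le_mul_of_nonneg_left hR (by positivity)
      _ = 2 * (II O x l : ℝ) ^ k * (bt l : ℝ) ^ k := by ring
  rw [Finset.mul_sum]
  calc ∑ l ∈ (PZ O x Set.univ t).filter (fun l => B ≤ bt l), (2 * d : ℝ) ^ (2 * k) * xx O x l ^ k
      ≤ ∑ l ∈ (PZ O x Set.univ t).filter (fun l => B ≤ bt l),
          2 * ((II O x l : ℝ) ^ k / (Rk k (bt l) : ℝ)) := Finset.sum_le_sum key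
    _ ≤ ∑ l ∈ PZ O x Set.univ t, 2 * ((II O x l : ℝ) ^ k / (Rk k (bt l) : ℝ)) :=
        Finset.sum_le_sum_of_subset_of_nonneg (Finset.filter_subset _ _)
          (fun l _ _ => by positivity)
    _ = 2 * ∑ l ∈ PZ O x Set.univ t, (II O x l : ℝ) ^ k / (Rk k (bt l) : ℝ) := by
        rw [Finset.mul_sum]
    _ ≤ 2 * (NP O x (t + 2 * k) : ℝ) := by
        have := mom_up O x t k
        linarith

theorem M4x_Pk_pow (k b : ℕ) : (b - 3 * k) ^ k ≤ Pk k b := by
  induction k generalizing b with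
  | zero => simp [Pk]
  | succ k ih =>
    show (b - 3 * (k + 1)) ^ (k + 1) ≤ b * Pk k (b - 3)
    rw [pow_succ, mul_comm]
    refine Nat.mul_le_mul (by omega) ?_
    refine le_trans ?_ (ih (b - 3))
    exact Nat.pow_le_pow_left (by omega) k

theorem M4x_Pk_ge (k b : ℕ) (h : 6 * k ^ 2 ≤ b) : (b : ℝ) ^ k / 2 ≤ (Pk k b : ℝ) := by
  rcases Nat.eq_zero_or_pos k with rfl | hk
  · simp only [pow_zero, Pk, Nat.cast_one]
    norm_num
  have h3 : 3 * k ≤ b := by nlinarith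
  have hb : (0 : ℝ) < b := by
    have : 0 < b := by nlinarith
    exact_mod_cast this
  have h1 : (((b - 3 * k : ℕ) : ℝ)) ^ k ≤ (Pk k b : ℝ) := by exact_mod_cast M4x_Pk_pow k b
  refine le_trans ?_ h1
  rw [Nat.cast_sub h3]
  push_cast
  have h4 : (b : ℝ) - 3 * k = b * (1 + -(3 * k / b)) := by
    field_simp
    ring
  rw [h4, mul_pow]
  have h5 : (6 : ℝ) * k ^ 2 ≤ b := by exact_mod_cast h
  have h6 : (1 : ℝ) / 2 ≤ 1 + (k : ℝ) * -(3 * k / b) := by
    have h7 : (k : ℝ) * (3 * k / b) ≤ 1 / 2 := by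
      rw [← mul_div_assoc, div_le_iff₀ hb]
      nlinarith
    linarith
  have h8 : (-2 : ℝ) ≤ -(3 * k / b) := by
    have h9 : (3 * k / b : ℝ) ≤ 1 := by
      rw [div_le_one hb]
      exact_mod_cast h3
    linarith
  have h10 := one_add_mul_le_pow h8 k
  calc (b : ℝ) ^ k / 2 = (b : ℝ) ^ k * (1 / 2) := by ring
    _ ≤ (b : ℝ) ^ k * (1 + -(3 * k / b)) ^ k :=
      mul_le_mul_of_nonneg_left (h6.trans h10) (by positivity)

theorem M4x_xx_inv (O : Set (V d)) (x : V d) (l : List (Stp d)) (k : ℕ) :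
    (xx O x l ^ k)⁻¹ = (2 * d : ℝ) ^ (2 * k) * ((bt l : ℝ) ^ k / (II O x l : ℝ) ^ k) := by
  unfold xx
  rw [← inv_pow, inv_div, div_pow, mul_pow, ← pow_mul, mul_div_assoc]

open scoped Classical in
/-- M4d. PROOF. `mom_down` with `Z = univ` restricted to the `l` with `B ≤ bt l` (`Pk_ge`): `Pk k b / II^k ≥ (b/II)^k/2 = (2d)^(-2k) (xx)^(-k)/2` (`II > 0` by `II_ge` as `1 ≤ bt l` gives `l ≠ []`). -/
theorem xx_down (hd : 1 ≤ d) (O : Set (V d)) (x : V d) (t k B : ℕ) (hB : 1 ≤ B) (h : 6 * k ^ 2 ≤ B) :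
    ∑ l ∈ (PZ O x Set.univ (t + 2 * k)).filter (fun l => B ≤ bt l), (xx O x l ^ k)⁻¹ ≤ 2 * (2 * d : ℝ) ^ (2 * k) * (NP O x t : ℝ) := by
  have h1 := mom_down O x Set.univ t k
  rw [card_PZ_univ] at h1
  have h2 : ∑ l ∈ (PZ O x Set.univ (t + 2 * k)).filter (fun l => B ≤ bt l), (xx O x l ^ k)⁻¹ ≤
      ∑ l ∈ (PZ O x Set.univ (t + 2 * k)).filter (fun l => B ≤ bt l),
        2 * (2 * d : ℝ) ^ (2 * k) * ((Pk k (bt l) : ℝ) / (II O x l : ℝ) ^ k) := by
    refine Finset.sum_le_sum fun l hl => ?_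
    have h3 : B ≤ bt l := (Finset.mem_filter.1 hl).2
    have h4 := M4x_Pk_ge k (bt l) (h.trans h3)
    have h5 : (bt l : ℝ) ^ k ≤ 2 * (Pk k (bt l) : ℝ) := by linarith
    rw [M4x_xx_inv]
    have h6 : (bt l : ℝ) ^ k / (II O x l : ℝ) ^ k ≤ (2 * (Pk k (bt l) : ℝ)) / (II O x l : ℝ) ^ k :=
      div_le_div_of_nonneg_right h5 (by positivity)
    calc _ ≤ (2 * d : ℝ) ^ (2 * k) * ((2 * (Pk k (bt l) : ℝ)) / (II O x l : ℝ) ^ k) :=
          mul_le_mul_of_nonneg_left h6 (by positivity)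
      _ = _ := by ring
  refine h2.trans ?_
  rw [← Finset.mul_sum]
  refine mul_le_mul_of_nonneg_left (le_trans ?_ h1) (by positivity)
  refine Finset.sum_le_sum_of_subset_of_nonneg (Finset.filter_subset _ _) fun l _ _ => ?_
  positivity

theorem M4x_add_pow (a b : ℝ) (ha : 0 < a) (hb : 0 ≤ b) (k : ℕ) (h : k * b ≤ a / 2) : (a + b) ^ k ≤ 2 * a ^ k := by
  have h1 : a + b = a * (1 + b / a) := by
    field_simp
  have h2 : (1 + b / a) ^ k ≤ 2 := by
    have h3 : 1 + b / a ≤ Real.exp (b / a) := by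
      have := Real.add_one_le_exp (b / a)
      linarith
    have h4 : (0 : ℝ) ≤ 1 + b / a := by positivity
    have h5 : (1 + b / a) ^ k ≤ Real.exp (b / a) ^ k := pow_le_pow_left₀ h4 h3 k
    rw [← Real.exp_nat_mul] at h5
    have h6 : (k : ℝ) * (b / a) ≤ 1 / 2 := by
      rw [← mul_div_assoc, div_le_iff₀ ha]
      linarith
    have h7 : Real.exp (1 / 2) ≤ 2 := by
      have h8 : Real.exp (1 / 2) ^ 2 = Real.exp 1 := by
        rw [← Real.exp_nat_mul]
        norm_num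
      have h9 : Real.exp 1 < 4 := by
        have := Real.exp_one_lt_d9
        linarith
      have h10 : Real.exp (1 / 2) ^ 2 ≤ 2 ^ 2 := by
        rw [h8]
        linarith
      exact le_of_sq_le_sq h10 (by norm_num)
    exact h5.trans ((Real.exp_le_exp.2 h6).trans h7)
  rw [h1, mul_pow, mul_comm (2 : ℝ)]
  exact mul_le_mul_of_nonneg_left h2 (by positivity)

open scoped Classical in
/-- M4e. PROOF. `loops_down` restricted to the `l` with `B ≤ bt l`: `Pk k b ≥ b^k/2`, `(II + 4dk)^k = II^k (1 + 4dk/II)^k ≤ II^k exp(4dk²/II) ≤ 2 II^k` (`II ≥ t + 1`, `8 d k² ≤ t`, `II_ge`). So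
`Pk k b/(II + 4dk)^k ≥ (b/II)^k/4 = (2d)^(-2k) xx^(-k)/4`. -/
theorem xx_loops (hd : 1 ≤ d) (O : Set (V d)) (x z : V d) (t k B : ℕ) (hB : 1 ≤ B) (h : 6 * k ^ 2 ≤ B) (ht : 8 * d * k ^ 2 ≤ t) :
    (WP O z z (2 * k) : ℝ) / (2 * d : ℝ) ^ (2 * k) * ∑ l ∈ (PZ O x {z} t).filter (fun l => B ≤ bt l), (xx O x l ^ k)⁻¹ ≤ 4 * (WP O x z t : ℝ) := by
  have h1 := loops_down O x z t k
  have hd0 : (0 : ℝ) < d := by exact_mod_cast hd
  have h2 : ∑ l ∈ (PZ O x {z} t).filter (fun l => B ≤ bt l), (xx O x l ^ k)⁻¹ ≤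
      ∑ l ∈ (PZ O x {z} t).filter (fun l => B ≤ bt l),
        4 * (2 * d : ℝ) ^ (2 * k) * ((Pk k (bt l) : ℝ) / ((II O x l : ℝ) + 4 * d * k) ^ k) := by
    refine Finset.sum_le_sum fun l hl => ?_
    obtain ⟨hl1, hl2⟩ := Finset.mem_filter.1 hl
    rw [mem_PZ] at hl1
    have hne : l ≠ [] := by
      rintro rfl
      have : bt ([] : List (Stp d)) = 0 := rfl
      omega
    have h3 := II_ge O x l hne hl1.2.1
    rw [hl1.1] at h3
    have hII : (t : ℝ) + 1 ≤ (II O x l : ℝ) := by exact_mod_cast h3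
    have ht0 : (0 : ℝ) ≤ t := Nat.cast_nonneg t
    have hII0 : (0 : ℝ) < (II O x l : ℝ) := by linarith
    have h4 := M4x_Pk_ge k (bt l) (h.trans hl2)
    have h5 : (bt l : ℝ) ^ k ≤ 2 * (Pk k (bt l) : ℝ) := by linarith
    have h6 : ((II O x l : ℝ) + 4 * d * k) ^ k ≤ 2 * (II O x l : ℝ) ^ k := by
      refine M4x_add_pow _ _ hII0 (by positivity) k ?_
      have h7 : (8 : ℝ) * d * k ^ 2 ≤ t := by exact_mod_cast ht
      nlinarith
    have h8 : (0 : ℝ) < ((II O x l : ℝ) + 4 * d * k) ^ k := by positivity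
    rw [M4x_xx_inv]
    have h9 : (bt l : ℝ) ^ k / (II O x l : ℝ) ^ k ≤
        4 * ((Pk k (bt l) : ℝ) / ((II O x l : ℝ) + 4 * d * k) ^ k) := by
      rw [div_le_iff₀ (by positivity), mul_assoc, div_mul_eq_mul_div, ← mul_div_assoc, le_div_iff₀ h8]
      calc (bt l : ℝ) ^ k * ((II O x l : ℝ) + 4 * d * k) ^ k
          ≤ (2 * (Pk k (bt l) : ℝ)) * (2 * (II O x l : ℝ) ^ k) :=
            mul_le_mul h5 h6 h8.le (by positivity)
        _ = _ := by ring
    calc _ ≤ (2 * d : ℝ) ^ (2 * k) * (4 * ((Pk k (bt l) : ℝ) / ((II O x l : ℝ) + 4 * d * k) ^ k)) :=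
          mul_le_mul_of_nonneg_left h9 (by positivity)
      _ = _ := by ring
  rw [← Finset.mul_sum] at h2
  have hdp : (0 : ℝ) < (2 * d : ℝ) ^ (2 * k) := by positivity
  have h10 : ∑ l ∈ (PZ O x {z} t).filter (fun l => B ≤ bt l), (Pk k (bt l) : ℝ) / ((II O x l : ℝ) + 4 * d * k) ^ k ≤
      ∑ l ∈ PZ O x {z} t, (Pk k (bt l) : ℝ) / ((II O x l : ℝ) + 4 * d * k) ^ k := by
    refine Finset.sum_le_sum_of_subset_of_nonneg (Finset.filter_subset _ _) fun l _ _ => ?_
    positivity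
  have hW : (0 : ℝ) ≤ (WP O z z (2 * k) : ℝ) := Nat.cast_nonneg _
  calc (WP O z z (2 * k) : ℝ) / (2 * d : ℝ) ^ (2 * k) * ∑ l ∈ (PZ O x {z} t).filter (fun l => B ≤ bt l), (xx O x l ^ k)⁻¹
      ≤ (WP O z z (2 * k) : ℝ) / (2 * d : ℝ) ^ (2 * k) * (4 * (2 * d : ℝ) ^ (2 * k) *
        ∑ l ∈ (PZ O x {z} t).filter (fun l => B ≤ bt l), (Pk k (bt l) : ℝ) / ((II O x l : ℝ) + 4 * d * k) ^ k) :=
        mul_le_mul_of_nonneg_left h2 (by positivity)
    _ = 4 * ((WP O z z (2 * k) : ℝ) *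
        ∑ l ∈ (PZ O x {z} t).filter (fun l => B ≤ bt l), (Pk k (bt l) : ℝ) / ((II O x l : ℝ) + 4 * d * k) ^ k) := by
        field_simp
    _ ≤ 4 * ((WP O z z (2 * k) : ℝ) *
        ∑ l ∈ PZ O x {z} t, (Pk k (bt l) : ℝ) / ((II O x l : ℝ) + 4 * d * k) ^ k) :=
        mul_le_mul_of_nonneg_left (mul_le_mul_of_nonneg_left h10 hW) (by norm_num)
    _ ≤ 4 * (WP O x z t : ℝ) := mul_le_mul_of_nonneg_left h1 (by norm_num)

end Pool.Agent.RWO
end

section

set_option autoImplicit false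

/-! Definitions for the environment part of the middle zone. -/

namespace Pool.Agent.RWO

variable {d : ℕ}

/-- The index of the cell of side `b` of the site `v`. -/
def cel (b : ℕ) (v : V d) : V d := fun i => v i / (b : ℤ)

/-- The sites of the cell `w`. -/
noncomputable def csit (b : ℕ) (w : V d) : Finset (V d) := Fintype.piFinset (fun i => Finset.Ico (w i * (b : ℤ)) (w i * (b : ℤ) + b))

/-- The sites whose cell is completely open. -/
def EE (b : ℕ) (O : Set (V d)) : Set (V d) := {v | ∀ v' : V d, cel b v' = cel b v → v' ∈ O}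

theorem mem_csit {b : ℕ} (hb : 1 ≤ b) {v w : V d} : v ∈ csit b w ↔ cel b v = w := by
  unfold csit cel
  rw [Fintype.mem_piFinset, funext_iff]
  refine forall_congr' fun i => ?_
  have hb' : (0 : ℤ) < (b : ℤ) := by exact_mod_cast hb
  rw [Finset.mem_Ico]
  constructor
  · rintro ⟨h1, h2⟩
    refine le_antisymm ?_ ?_
    · have : v i / (b : ℤ) < w i + 1 := by
        rw [Int.ediv_lt_iff_lt_mul hb']
        linarith [add_mul (w i) 1 (b : ℤ)]
      omega
    · rw [Int.le_ediv_iff_mul_le hb']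
      exact h1
  · intro h
    rw [← h]
    refine ⟨Int.ediv_mul_le _ hb'.ne', ?_⟩
    have := Int.lt_ediv_add_one_mul_self (v i) hb'
    linarith [add_mul (v i / (b : ℤ)) 1 (b : ℤ)]

theorem card_csit (b : ℕ) (w : V d) : (csit b w).card = b ^ d := by
  unfold csit
  rw [Fintype.card_piFinset]
  simp only [Int.card_Ico]
  have h : ∀ i : Fin d, (w i * (b : ℤ) + b - w i * (b : ℤ)).toNat = b := fun i => by
    rw [add_sub_cancel_left]; simp
  simp only [h, Finset.prod_const, Finset.card_univ, Fintype.card_fin]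

/-- The time scale. -/
noncomputable def kf (d n : ℕ) : ℕ := ⌈(Real.log n) ^ (2 / d : ℝ)⌉₊

/-- The size of the neighbourhoods. -/
noncomputable def Lf (n : ℕ) : ℕ := ⌈(Real.log n) ^ 8⌉₊

end Pool.Agent.RWO
end

section

set_option autoImplicit false

/-! Task M13a: parameters, first part. -/

namespace Pool.Agent.RWO

theorem M13a_real (d : ℕ) (hd : 2 ≤ d) (C₀ : ℝ) (hC : 0 < C₀) (L : ℝ)
    (hL0 : (2 : ℝ) ^ d + 12 * d + 4 ≤ L) (s m K k : ℕ) (hk : k = ⌈L ^ (2 / d : ℝ)⌉₊)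
    (hs1 : 3 * L ^ (2 / d : ℝ) ≤ s) (hs2 : (s : ℝ) ≤ L ^ 7) (hm1 : k ≤ m) (hm2 : m ≤ k + 1)
    (hK : K = ⌈L ^ 16⌉₊) (θ : ℝ) (hθ : θ = ((s : ℝ) / 2 - k) / ((K : ℝ) - k)) :
    1 ≤ L ∧ 1 ≤ k ∧ L ≤ (k : ℝ) ^ ((d : ℝ) / 2) ∧ 2 * k ≤ s ∧ s < K ∧ 0 ≤ θ ∧ θ ≤ 1 ∧
      L ^ θ ≤ 2 ∧ ((2 * d : ℝ) ^ (2 * (s + m))) ^ θ ≤ 2 ∧
      ((K + s + m : ℕ) : ℝ) * θ ≤ ((s : ℝ) + m) / 2 ∧
      ((s : ℝ) + m) / 2 - ((K + s + m : ℕ) : ℝ) * θ ≤ 2 * (k : ℝ) + 1 ∧
      Real.exp (80 * (C₀ * L ^ (-(2 / d : ℝ))) * (2 * (k : ℝ) + 1)) ≤ Real.exp (400 * C₀) := by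
  have hd0 : (0 : ℝ) < d := by
    have : 0 < d := by omega
    exact_mod_cast this
  have hd2 : (2 : ℝ) ≤ d := by exact_mod_cast hd
  have h2d : (0 : ℝ) < (2 : ℝ) ^ d := by positivity
  have hL4 : 4 ≤ L := by linarith
  have hL12 : 12 * (d : ℝ) ≤ L := by linarith
  have hL2 : (2 : ℝ) ^ d ≤ L := by linarith
  have hLpos : 0 < L := by linarith
  have hα1 : (2 / d : ℝ) ≤ 1 := by rw [div_le_one hd0]; exact hd2
  -- the power P
  obtain ⟨P, hP⟩ : ∃ P : ℝ, P = L ^ (2 / d : ℝ) := ⟨_, rfl⟩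
  have hP4 : 4 ≤ P := by
    have h1 : ((2 : ℝ) ^ d) ^ (2 / d : ℝ) = 4 := by
      rw [← Real.rpow_natCast, ← Real.rpow_mul (by norm_num), mul_div_cancel₀ _ hd0.ne']
      norm_num
    rw [hP, ← h1]
    exact Real.rpow_le_rpow h2d.le hL2 (by positivity)
  have hPL : P ≤ L := by
    rw [hP]
    calc L ^ (2 / d : ℝ) ≤ L ^ (1 : ℝ) :=
          Real.rpow_le_rpow_of_exponent_le (by linarith) hα1
      _ = L := Real.rpow_one L
  rw [← hP] at hs1 hk
  have hk1 : P ≤ k := by rw [hk]; exact Nat.le_ceil P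
  have hk2 : (k : ℝ) < P + 1 := by rw [hk]; exact Nat.ceil_lt_add_one (by linarith)
  have hKL : L ^ 16 ≤ K := by rw [hK]; exact Nat.le_ceil _
  have hm1' : (k : ℝ) ≤ m := by exact_mod_cast hm1
  have hm2' : (m : ℝ) ≤ k + 1 := by exact_mod_cast hm2
  -- powers of L
  have p2 : 16 ≤ L ^ 2 := by nlinarith
  have p6 : 4096 ≤ L ^ 6 := by
    have : L ^ 6 = L ^ 2 * L ^ 2 * L ^ 2 := by ring
    rw [this]
    have h4 : 256 ≤ L ^ 2 * L ^ 2 := by nlinarith
    nlinarith
  have p7 : 4096 * L ≤ L ^ 7 := by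
    have : L ^ 7 = L ^ 6 * L := by ring
    rw [this]
    exact mul_le_mul_of_nonneg_right p6 hLpos.le
  have p8 : 1 ≤ L ^ 8 := one_le_pow₀ (by linarith)
  have p9 : 4096 * L ≤ L ^ 9 := by
    have : L ^ 9 = L ^ 7 * L ^ 2 := by ring
    rw [this]
    have : 0 ≤ L ^ 7 := by positivity
    nlinarith
  have p16 : 4096 * L ^ 7 ≤ L ^ 16 := by
    have : L ^ 16 = L ^ 9 * L ^ 7 := by ring
    rw [this]
    apply mul_le_mul_of_nonneg_right _ (by positivity)
    linarith
  have hkk : (k : ℝ) + m ≤ L ^ 7 := by linarith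
  have hKk : L ^ 16 / 2 ≤ (K : ℝ) - k := by linarith
  have hKk0 : 0 < (K : ℝ) - k := by
    have : 0 < L ^ 16 := by positivity
    linarith
  have hθK : θ * ((K : ℝ) - k) = (s : ℝ) / 2 - k := by
    rw [hθ]; exact div_mul_cancel₀ _ hKk0.ne'
  have hnum : 0 ≤ (s : ℝ) / 2 - k := by linarith
  have hθ0 : 0 ≤ θ := by rw [hθ]; exact div_nonneg hnum hKk0.le
  have hθ9 : θ * L ^ 9 ≤ 1 := by
    have h1 : θ * (L ^ 16 / 2) ≤ L ^ 7 / 2 := by
      calc θ * (L ^ 16 / 2) ≤ θ * ((K : ℝ) - k) := mul_le_mul_of_nonneg_left hKk hθ0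
        _ = (s : ℝ) / 2 - k := hθK
        _ ≤ L ^ 7 / 2 := by
            have : (0 : ℝ) ≤ k := Nat.cast_nonneg k
            linarith
    have h2 : (θ * L ^ 9) * L ^ 7 ≤ 1 * L ^ 7 := by
      have : (θ * L ^ 9) * L ^ 7 = 2 * (θ * (L ^ 16 / 2)) := by ring
      rw [this]; linarith
    exact le_of_mul_le_mul_right h2 (by positivity)
  have hθ1 : θ * (4096 * L) ≤ 1 := (mul_le_mul_of_nonneg_left p9 hθ0).trans hθ9
  have hθ7 : θ * (16 * L ^ 7) ≤ 1 := by
    have h1 : 16 * L ^ 7 ≤ L ^ 9 := by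
      have : L ^ 9 = L ^ 2 * L ^ 7 := by ring
      rw [this]
      exact mul_le_mul_of_nonneg_right p2 (by positivity)
    exact (mul_le_mul_of_nonneg_left h1 hθ0).trans hθ9
  have hθ8 : θ * (4 * L ^ 8) ≤ 1 := by
    have h1 : 4 * L ^ 8 ≤ L ^ 9 := by
      have : L ^ 9 = L * L ^ 8 := by ring
      rw [this]
      exact mul_le_mul_of_nonneg_right hL4 (by positivity)
    exact (mul_le_mul_of_nonneg_left h1 hθ0).trans hθ9
  have hlog2 : (1 : ℝ) / 2 ≤ Real.log 2 := by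
    have := Real.log_two_gt_d9
    linarith
  refine ⟨by linarith, ?_, ?_, ?_, ?_, hθ0, ?_, ?_, ?_, ?_, ?_, ?_⟩
  · have : (1 : ℝ) ≤ k := by linarith
    exact_mod_cast this
  · have h1 : (L ^ (2 / d : ℝ)) ^ ((d : ℝ) / 2) = L := by
      rw [← Real.rpow_mul hLpos.le]
      have : (2 / d : ℝ) * ((d : ℝ) / 2) = 1 := by field_simp
      rw [this, Real.rpow_one]
    calc L = (L ^ (2 / d : ℝ)) ^ ((d : ℝ) / 2) := h1.symm
      _ ≤ (k : ℝ) ^ ((d : ℝ) / 2) := by
          apply Real.rpow_le_rpow (by positivity) _ (by positivity)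
          rw [← hP]; exact hk1
  · have : (2 : ℝ) * k ≤ s := by linarith
    exact_mod_cast this
  · have : (s : ℝ) < K := by
      have : 0 < L ^ 7 := by positivity
      linarith
    exact_mod_cast this
  · nlinarith
  · rw [Real.rpow_def_of_pos hLpos]
    have h1 : Real.log L * θ ≤ Real.log 2 := by
      have h2 : Real.log L ≤ L := (Real.log_le_sub_one_of_pos hLpos).trans (by linarith)
      have h3 : Real.log L * θ ≤ L * θ := mul_le_mul_of_nonneg_right h2 hθ0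
      nlinarith
    calc Real.exp (Real.log L * θ) ≤ Real.exp (Real.log 2) := Real.exp_le_exp.2 h1
      _ = 2 := Real.exp_log (by norm_num)
  · have h0 : (0 : ℝ) < (2 * d : ℝ) ^ (2 * (s + m)) := by positivity
    rw [Real.rpow_def_of_pos h0, Real.log_pow]
    push_cast
    have h1 : 2 * ((s : ℝ) + m) * Real.log (2 * d) * θ ≤ Real.log 2 := by
      have h2 : Real.log (2 * (d : ℝ)) ≤ 2 * d :=
        (Real.log_le_sub_one_of_pos (by positivity)).trans (by linarith)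
      have h3 : (s : ℝ) + m ≤ 2 * L ^ 7 := by
        have : (0 : ℝ) ≤ k := Nat.cast_nonneg k
        linarith
      have h4 : 2 * ((s : ℝ) + m) * Real.log (2 * d) ≤ 2 * (2 * L ^ 7) * (2 * d) := by
        apply mul_le_mul (by linarith) h2 _ (by positivity)
        apply Real.log_nonneg
        linarith
      have h5 : 2 * (2 * L ^ 7) * (2 * d) ≤ L ^ 8 := by
        have : L ^ 8 = L ^ 7 * L := by ring
        rw [this]
        have h6 : 8 * (d : ℝ) ≤ L := by linarith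
        have h7 := mul_le_mul_of_nonneg_left h6 (by positivity : (0 : ℝ) ≤ L ^ 7)
        linarith
      have h8 : 2 * ((s : ℝ) + m) * Real.log (2 * d) * θ ≤ L ^ 8 * θ :=
        mul_le_mul_of_nonneg_right (h4.trans h5) hθ0
      linarith
    calc Real.exp (2 * ((s : ℝ) + m) * Real.log (2 * d) * θ) ≤ Real.exp (Real.log 2) :=
          Real.exp_le_exp.2 h1
      _ = 2 := Real.exp_log (by norm_num)
  · push_cast
    have h1 : ((K : ℝ) + s + m) * θ = ((s : ℝ) / 2 - k) + ((s : ℝ) + m + k) * θ := by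
      rw [← hθK]; ring
    have h2 : ((s : ℝ) + m + k) * θ ≤ (2 * L ^ 7) * θ :=
      mul_le_mul_of_nonneg_right (by linarith) hθ0
    rw [h1]
    linarith
  · push_cast
    have h1 : ((K : ℝ) + s + m) * θ = ((s : ℝ) / 2 - k) + ((s : ℝ) + m + k) * θ := by
      rw [← hθK]; ring
    have h2 : 0 ≤ ((s : ℝ) + m + k) * θ := by positivity
    rw [h1]
    linarith
  · apply Real.exp_le_exp.2
    rw [Real.rpow_neg hLpos.le, ← hP]
    have hP0 : 0 < P := by linarith
    have h1 : P⁻¹ * (2 * (k : ℝ) + 1) ≤ 5 := by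
      rw [inv_mul_le_iff₀ hP0]
      linarith
    calc 80 * (C₀ * P⁻¹) * (2 * (k : ℝ) + 1) = 80 * C₀ * (P⁻¹ * (2 * (k : ℝ) + 1)) := by ring
      _ ≤ 80 * C₀ * 5 := mul_le_mul_of_nonneg_left h1 (by positivity)
      _ = 400 * C₀ := by ring

/-- M13a. PROOF. Asymptotics. `k₀ = kf d n ≤ (log n)^(2/d) + 1`; `s ≤ (log n)^7`, `K ≥ (log n)^16`: `θ ≤ s/K ≤ (log n)^(-9)`, so `(log n)^θ = exp(θ log log n) ≤ 2` and `((2d)^(2(s+m)))^θ = exp(2(s+m) θ log(2d)) ≤ 2`
(`(s+m) θ ≤ 2 (log n)^(-2)`); `(K+s+m) θ = (s/2-k₀)(1 + (s+m+k₀)/(K-k₀))` is between `s/2 - k₀` and `s/2 - k₀ + 1`; `k₀ ≤ m ≤ k₀ + 1`. -/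
theorem params1 (d : ℕ) (hd : 2 ≤ d) (C₀ : ℝ) (hC : 0 < C₀) : ∃ n₀ : ℕ, ∀ n : ℕ, n₀ ≤ n → ∀ s m K : ℕ, 3 * (Real.log n) ^ (2 / d : ℝ) ≤ s →
    (s : ℝ) ≤ (Real.log n) ^ 7 → kf d n ≤ m → m ≤ kf d n + 1 → K = ⌈(Real.log n) ^ 16⌉₊ → ∀ θ : ℝ, θ = ((s : ℝ) / 2 - kf d n) / ((K : ℝ) - kf d n) →
    1 ≤ Real.log n ∧ 1 ≤ kf d n ∧ Real.log n ≤ (kf d n : ℝ) ^ ((d : ℝ) / 2) ∧ 2 * kf d n ≤ s ∧ s < K ∧ 0 ≤ θ ∧ θ ≤ 1 ∧
      (Real.log n) ^ θ ≤ 2 ∧ ((2 * d : ℝ) ^ (2 * (s + m))) ^ θ ≤ 2 ∧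
      ((K + s + m : ℕ) : ℝ) * θ ≤ ((s : ℝ) + m) / 2 ∧ ((s : ℝ) + m) / 2 - ((K + s + m : ℕ) : ℝ) * θ ≤ 2 * (kf d n : ℝ) + 1 ∧
      Real.exp (80 * (C₀ * (Real.log n) ^ (-(2 / d : ℝ))) * (2 * (kf d n : ℝ) + 1)) ≤ Real.exp (400 * C₀) := by
  obtain ⟨n₀, hn₀⟩ : ∃ n₀ : ℕ, ∀ n : ℕ, n₀ ≤ n → (2 : ℝ) ^ d + 12 * d + 4 ≤ Real.log n := by
    have h := (Real.tendsto_log_atTop.comp tendsto_natCast_atTop_atTop).eventually_ge_atTop
      ((2 : ℝ) ^ d + 12 * d + 4)
    exact Filter.eventually_atTop.1 h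
  refine ⟨n₀, ?_⟩
  intro n hn s m K hs1 hs2 hm1 hm2 hK θ hθ
  exact M13a_real d hd C₀ hC (Real.log n) (hn₀ n hn) s m K (kf d n) rfl hs1 hs2 hm1 hm2 hK θ hθ

end Pool.Agent.RWO
end

section

set_option autoImplicit false

/-! Task M6: the numbers of the loops are log-convex. -/

namespace Pool.Agent.RWO

variable {d : ℕ}

open scoped Classical in
/-- The paths which are at `z` at time `i`. -/
theorem M6_fiber (O : Set (V d)) (y u z : V d) (i j : ℕ) :
    WP O y z i * WP O z u j =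
      (((LL d (i + j)).filter (fun l => Op O y l ∧ en y l = u)).filter (fun l => en y (l.take i) = z)).card := by
  unfold WP
  rw [← Finset.card_product]
  refine Finset.card_bij (fun P _ => P.1 ++ P.2) ?_ ?_ ?_
  · rintro ⟨l, l'⟩ h
    rw [Finset.mem_product, Finset.mem_filter, Finset.mem_filter, mem_LL, mem_LL] at h
    obtain ⟨⟨h1, h2, h3⟩, h4, h5, h6⟩ := h
    simp only at h1 h2 h3 h4 h5 h6
    rw [Finset.mem_filter, Finset.mem_filter, mem_LL]
    refine ⟨⟨by simp [h1, h4], (Op_append _ _ _ _).2 ⟨h2, by rw [h3]; exact h5⟩, ?_⟩, ?_⟩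
    · rw [en_append, h3, h6]
    · rw [List.take_left' h1, h3]
  · rintro ⟨l, l'⟩ h ⟨k, k'⟩ h' hh
    rw [Finset.mem_product, Finset.mem_filter, Finset.mem_filter, mem_LL, mem_LL] at h h'
    obtain ⟨h1, h2⟩ := List.append_inj hh (h.1.1.trans h'.1.1.symm)
    exact Prod.ext h1 h2
  · intro l hl
    rw [Finset.mem_filter, Finset.mem_filter, mem_LL] at hl
    obtain ⟨⟨h1, h2, h3⟩, h4⟩ := hl
    refine ⟨(l.take i, l.drop i), ?_, List.take_append_drop i l⟩
    have h5 := h2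
    rw [← List.take_append_drop i l, Op_append, h4] at h5
    have h6 := h3
    rw [← List.take_append_drop i l, en_append, h4] at h6
    rw [Finset.mem_product, Finset.mem_filter, Finset.mem_filter, mem_LL, mem_LL]
    simp only [List.length_take, List.length_drop]
    exact ⟨⟨by omega, h5.1, h4⟩, by omega, h5.2, h6⟩

theorem M6_sum_le (O : Set (V d)) (y u : V d) (i j : ℕ) (Z : Finset (V d)) :
    ∑ z ∈ Z, WP O y z i * WP O z u j ≤ WP O y u (i + j) := by
  classical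
  rw [Finset.sum_congr rfl fun z _ => M6_fiber O y u z i j, ← Finset.card_biUnion]
  · unfold WP
    refine Finset.card_le_card fun l hl => ?_
    rw [Finset.mem_biUnion] at hl
    obtain ⟨z, _, hl⟩ := hl
    exact (Finset.mem_filter.1 hl).1
  · intro z _ z' _ hne
    rw [Function.onFun, Finset.disjoint_left]
    intro l hl hl'
    rw [Finset.mem_filter] at hl hl'
    exact hne (hl.2.symm.trans hl'.2)

theorem M6_sum_eq (O : Set (V d)) (y u : V d) (i j : ℕ) :
    ∃ Z : Finset (V d), WP O y u (i + j) = ∑ z ∈ Z, WP O y z i * WP O z u j := by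
  classical
  refine ⟨(LL d i).image (en y), ?_⟩
  rw [Finset.sum_congr rfl fun z _ => M6_fiber O y u z i j]
  unfold WP
  refine Finset.card_eq_sum_card_fiberwise fun l hl => ?_
  rw [Finset.mem_coe, Finset.mem_filter, mem_LL] at hl
  rw [Finset.mem_coe, Finset.mem_image]
  exact ⟨l.take i, mem_LL.2 (by rw [List.length_take]; omega), rfl⟩

/-- M6a. PROOF. `WP O y u (i + j) = ∑_{z ∈ Z} WP O y z i * WP O z u j` (cut at time `i`; `Z` a finite set containing the end points, e.g. `bxc y i`), Cauchy-Schwarz (`Finset.sum_mul_sq_le_sq_mul_sq`),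
`∑_{z ∈ Z} (WP O y z i)^2 ≤ WP O y y (2i)`, `∑_{z ∈ Z} (WP O z u j)^2 ≤ WP O u u (2j)` (`WP_symm`, distinct concatenations). As `cs` in T5. -/
theorem WP_cs (O : Set (V d)) (y u : V d) (i j : ℕ) : (WP O y u (i + j)) ^ 2 ≤ WP O y y (2 * i) * WP O u u (2 * j) := by
  obtain ⟨Z, hZ⟩ := M6_sum_eq O y u i j
  rw [hZ]
  refine (Finset.sum_mul_sq_le_sq_mul_sq Z (fun z => WP O y z i) (fun z => WP O z u j)).trans ?_
  refine Nat.mul_le_mul ?_ ?_
  · refine le_trans (le_of_eq ?_) ((M6_sum_le O y y i i Z).trans (le_of_eq (by rw [two_mul])))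
    refine Finset.sum_congr rfl fun z _ => ?_
    rw [WP_symm O z y, sq]
  · refine le_trans (le_of_eq ?_) ((M6_sum_le O u u j j Z).trans (le_of_eq (by rw [two_mul])))
    refine Finset.sum_congr rfl fun z _ => ?_
    rw [WP_symm O u z, sq]

/-- M6b. PROOF. `WP O y y (2(k+1)) = ∑_z WP O y z k * WP O z y (k+2)`, Cauchy-Schwarz. -/
theorem WP_lc (O : Set (V d)) (y : V d) (k : ℕ) : (WP O y y (2 * (k + 1))) ^ 2 ≤ WP O y y (2 * k) * WP O y y (2 * (k + 2)) := by
  have h := WP_cs O y y k (k + 2)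
  rwa [show k + (k + 2) = 2 * (k + 1) by ring] at h

/-- M6c. PROOF. Concatenation of two paths. -/
theorem WP_mul_le (O : Set (V d)) (x y z : V d) (i j : ℕ) : WP O x y i * WP O y z j ≤ WP O x z (i + j) := by
  have h := M6_sum_le O x z i j {y}
  rwa [Finset.sum_singleton] at h

/-- M6d. PROOF. A nonempty path from `z` gives an open neighbour; the back and forth path. -/
theorem WP_loop_pos (O : Set (V d)) (z y : V d) (m k : ℕ) (hm : 1 ≤ m) (h : 0 < WP O z y m) : 0 < WP O z z (2 * k) := by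
  classical
  unfold WP at h
  rw [Finset.card_pos] at h
  obtain ⟨l, hl⟩ := h
  rw [Finset.mem_filter, mem_LL] at hl
  obtain ⟨hlen, hop, _⟩ := hl
  cases l with
  | nil =>
    rw [List.length_nil] at hlen
    omega
  | cons e l' =>
    have hz : z ∈ O := hop.1
    have he : z + vec e ∈ O := Op_start hop.2
    have h2 : 0 < WP O z z 2 := by
      unfold WP
      rw [Finset.card_pos]
      refine ⟨[e, opp e], ?_⟩
      rw [Finset.mem_filter, mem_LL]
      refine ⟨rfl, ⟨hz, he, ?_⟩, ?_⟩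
      · show z + vec e + vec (opp e) ∈ O
        rw [add_vec_opp]
        exact hz
      · show z + vec e + vec (opp e) = z
        exact add_vec_opp z e
    induction k with
    | zero =>
      unfold WP
      rw [Finset.card_pos]
      refine ⟨[], ?_⟩
      rw [Finset.mem_filter, mem_LL]
      exact ⟨rfl, hz, rfl⟩
    | succ k ih =>
      refine lt_of_lt_of_le (Nat.mul_pos ih h2) ((WP_mul_le O z z z (2 * k) 2).trans (le_of_eq ?_))
      congr 1

end Pool.Agent.RWO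
end
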