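import Mathlib
import Pool.Agent.Lib.MP_c35813_pr.Mg.G001
import Pool.Agent.Lib.MP_c35813_pr.Mg.G007

section

set_option autoImplicit false

/-! Task T8a: Fourier inversion. -/

namespace Pool.Agent.RWO

open MeasureTheory

variable {d : ℕ}

/-- the cube -/
abbrev T8a_Q (d : ℕ) : Set (Fin d → ℝ) := Set.pi Set.univ (fun _ : Fin d => Set.Ioc (0 : ℝ) 1)

/-- the character `exp(2πi <θ, z>)` -/
noncomputable def T8a_ch (θ : Fin d → ℝ) (z : V d) : ℂ :=
  ∏ i, Complex.exp (2 * Real.pi * Complex.I * (z i : ℂ) * (θ i : ℂ))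

theorem T8a_ch_add (θ : Fin d → ℝ) (z w : V d) : T8a_ch θ (z + w) = T8a_ch θ z * T8a_ch θ w := by
  unfold T8a_ch
  rw [← Finset.prod_mul_distrib]
  refine Finset.prod_congr rfl fun i _ => ?_
  rw [← Complex.exp_add]
  congr 1
  rw [Pi.add_apply]
  push_cast
  ring

theorem T8a_ch_single (θ : Fin d → ℝ) (i : Fin d) (n : ℤ) :
    T8a_ch θ (Pi.single i n) = Complex.exp (2 * Real.pi * Complex.I * (n : ℂ) * (θ i : ℂ)) := by
  unfold T8a_ch
  rw [Finset.prod_eq_single i]
  · rw [Pi.single_eq_same]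
  · intro j _ hj
    rw [Pi.single_eq_of_ne hj]
    simp
  · intro h
    exact absurd (Finset.mem_univ _) h

theorem T8a_norm_ch (θ : Fin d → ℝ) (z : V d) : ‖T8a_ch θ z‖ = 1 := by
  unfold T8a_ch
  rw [norm_prod]
  refine Finset.prod_eq_one fun i _ => ?_
  have h : 2 * (Real.pi : ℂ) * Complex.I * (z i : ℂ) * (θ i : ℂ) = ((2 * Real.pi * z i * θ i : ℝ) : ℂ) * Complex.I := by
    push_cast
    ring
  rw [h, Complex.norm_exp_ofReal_mul_I]

theorem T8a_cont (z : V d) : Continuous fun θ : Fin d → ℝ => T8a_ch θ z := by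
  unfold T8a_ch
  fun_prop

theorem T8a_one (n : ℤ) : ∫ t in Set.Ioc (0 : ℝ) 1, Complex.exp (2 * Real.pi * Complex.I * (n : ℂ) * (t : ℂ)) =
    if n = 0 then 1 else 0 := by
  rw [← intervalIntegral.integral_of_le zero_le_one]
  split_ifs with h
  · simp [h]
  · have hc : 2 * (Real.pi : ℂ) * Complex.I * (n : ℂ) ≠ 0 := by
      have h1 : (Real.pi : ℂ) ≠ 0 := Complex.ofReal_ne_zero.2 Real.pi_ne_zero
      have h2 : (n : ℂ) ≠ 0 := Int.cast_ne_zero.2 h
      exact mul_ne_zero (mul_ne_zero (mul_ne_zero two_ne_zero h1) Complex.I_ne_zero) h2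
    rw [integral_exp_mul_complex hc]
    have h1 : Complex.exp (2 * Real.pi * Complex.I * (n : ℂ) * ((1 : ℝ) : ℂ)) = 1 := by
      rw [Complex.exp_eq_one_iff]
      exact ⟨n, by push_cast; ring⟩
    rw [h1]
    simp

theorem T8a_int (z : V d) : ∫ θ in T8a_Q d, T8a_ch θ z = if z = 0 then 1 else 0 := by
  rw [volume_pi, Measure.restrict_pi_pi]
  unfold T8a_ch
  rw [integral_fintype_prod_eq_prod (f := fun i (t : ℝ) => Complex.exp (2 * Real.pi * Complex.I * (z i : ℂ) * (t : ℂ)))]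
  have h : ∀ i, ∫ t in Set.Ioc (0 : ℝ) 1, Complex.exp (2 * Real.pi * Complex.I * (z i : ℂ) * (t : ℂ)) =
      if z i = 0 then 1 else 0 := fun i => T8a_one (z i)
  rw [Finset.prod_congr rfl fun i _ => h i]
  split_ifs with hz
  · refine Finset.prod_eq_one fun i _ => ?_
    rw [hz]
    simp
  · obtain ⟨i, hi⟩ := Function.ne_iff.1 hz
    refine Finset.prod_eq_zero (Finset.mem_univ i) ?_
    exact if_neg hi

theorem T8a_sum_step (θ : Fin d → ℝ) : ∑ e : Stp d, T8a_ch θ (vec e) =
    ((2 * ∑ i, Real.cos (2 * Real.pi * θ i) : ℝ) : ℂ) := by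
  rw [Fintype.sum_prod_type]
  have h : ∀ i : Fin d, ∑ b : Bool, T8a_ch θ (vec (i, b)) = 2 * Complex.cos (2 * Real.pi * θ i) := by
    intro i
    rw [Fintype.sum_bool]
    unfold vec
    simp only [if_true, if_false, Bool.false_eq_true]
    rw [T8a_ch_single, T8a_ch_single, Complex.two_cos]
    congr 2
    · push_cast
      ring
    · push_cast
      ring
  rw [Finset.sum_congr rfl fun i _ => h i, ← Finset.mul_sum]
  push_cast
  rfl

theorem T8a_sum_LL (θ : Fin d → ℝ) (m : ℕ) (x : V d) : ∑ l ∈ LL d m, T8a_ch θ (en x l) =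
    T8a_ch θ x * ((2 * ∑ i, Real.cos (2 * Real.pi * θ i) : ℝ) : ℂ) ^ m := by
  induction m generalizing x with
  | zero => simp [LL]
  | succ m ih =>
    unfold LL
    rw [Finset.sum_image]
    · rw [Finset.sum_product]
      simp only [en_cons]
      rw [Finset.sum_congr rfl fun e _ => ih (x + vec e), ← Finset.sum_mul]
      simp only [T8a_ch_add]
      rw [← Finset.mul_sum, T8a_sum_step, pow_succ]
      ring
    · rintro ⟨e, l⟩ _ ⟨e', l'⟩ _ h
      simp only [List.cons.injEq] at h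
      rw [h.1, h.2]

theorem T8a_integrable {f : (Fin d → ℝ) → ℂ} (hf : Continuous f) : IntegrableOn f (T8a_Q d) := by
  refine (hf.continuousOn.integrableOn_compact (isCompact_univ_pi fun _ => isCompact_Icc (a := (0 : ℝ)) (b := 1))).mono_set ?_
  exact Set.pi_mono fun i _ => Set.Ioc_subset_Icc_self

/-- T8a. PROOF. `1_{en x l = y} = ∫_{[0,1]^d} exp(2πi <θ, en x l - y>) dθ` (product of one-dimensional integrals, `integral_fintype_prod_eq_prod`), so the left side is
`∫ exp(2πi <θ, x - y>) ∑_{l ∈ LL d m} exp(2πi <θ, en 0 l>) dθ`, and `∑_{l ∈ LL d m} exp(2πi <θ, en 0 l>) = (∑_e exp(2πi <θ, vec e>))^m = (2 ∑_i cos(2π θ i))^m` (induction on `m`); norm. -/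
theorem fourier_le (hd : 1 ≤ d) (m : ℕ) (x y : V d) :
    (((LL d m).filter (fun l => en x l = y)).card : ℝ) ≤
      (2 * d : ℝ) ^ m * ∫ θ in Set.pi Set.univ (fun _ : Fin d => Set.Ioc (0 : ℝ) 1), |(∑ i, Real.cos (2 * Real.pi * θ i)) / d| ^ m := by
  have hd0 : (d : ℝ) ≠ 0 := by
    have : (0 : ℝ) < d := by exact_mod_cast hd
    exact this.ne'
  have h1 : (((LL d m).filter (fun l => en x l = y)).card : ℂ) =
      ∫ θ in T8a_Q d, T8a_ch θ (-y) * (T8a_ch θ x * ((2 * ∑ i, Real.cos (2 * Real.pi * θ i) : ℝ) : ℂ) ^ m) := by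
    calc (((LL d m).filter (fun l => en x l = y)).card : ℂ) = ∑ l ∈ LL d m, if en x l = y then (1 : ℂ) else 0 := by
          rw [Finset.card_filter]
          push_cast
          rfl
      _ = ∑ l ∈ LL d m, ∫ θ in T8a_Q d, T8a_ch θ (-y + en x l) := by
          refine Finset.sum_congr rfl fun l _ => ?_
          rw [T8a_int]
          congr 1
          rw [eq_iff_iff, neg_add_eq_zero]
          exact eq_comm
      _ = ∫ θ in T8a_Q d, ∑ l ∈ LL d m, T8a_ch θ (-y + en x l) := by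
          rw [integral_finsetSum]
          intro l _
          exact T8a_integrable (T8a_cont _)
      _ = _ := by
          congr 1
          funext θ
          simp only [T8a_ch_add]
          rw [← Finset.mul_sum, T8a_sum_LL]
  have h2 : (((LL d m).filter (fun l => en x l = y)).card : ℝ) =
      ‖∫ θ in T8a_Q d, T8a_ch θ (-y) * (T8a_ch θ x * ((2 * ∑ i, Real.cos (2 * Real.pi * θ i) : ℝ) : ℂ) ^ m)‖ := by
    rw [← h1, Complex.norm_natCast]
  rw [h2]
  refine (norm_integral_le_integral_norm _).trans (le_of_eq ?_)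
  rw [← integral_const_mul]
  congr 1
  funext θ
  rw [norm_mul, norm_mul, T8a_norm_ch, T8a_norm_ch, one_mul, one_mul, norm_pow, Complex.norm_real, Real.norm_eq_abs,
    ← mul_pow]
  congr 1
  rw [abs_mul, abs_div, abs_of_pos (by norm_num : (0 : ℝ) < 2), abs_of_pos (by exact_mod_cast hd : (0 : ℝ) < (d : ℝ))]
  field_simp

end Pool.Agent.RWO
end

section

set_option autoImplicit false

/-! Task T8b: the heat kernel bound. -/

namespace Pool.Agent.RWO

open MeasureTheory

variable {d : ℕ}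

theorem T8b_pt (b θ : ℝ) (hb : 0 < b) (h0 : 0 ≤ θ) (h1 : θ ≤ 1) :
    Real.exp (-(b * Real.sin (2 * Real.pi * θ) ^ 2)) ≤ Real.exp (-(16 * b) * θ ^ 2) +
      Real.exp (-(16 * b) * (θ - 1 / 2) ^ 2) + Real.exp (-(16 * b) * (θ - 1) ^ 2) := by
  have hpi := Real.pi_pos
  have e1 := Real.exp_pos (-(16 * b) * θ ^ 2)
  have e2 := Real.exp_pos (-(16 * b) * (θ - 1 / 2) ^ 2)
  have e3 := Real.exp_pos (-(16 * b) * (θ - 1) ^ 2)
  have key : ∀ u : ℝ, 0 ≤ u → u ≤ 1 / 4 → 4 * u ≤ Real.sin (2 * Real.pi * u) := by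
    intro u hu0 hu1
    have h := Real.mul_le_sin (x := 2 * Real.pi * u) (by positivity) (by nlinarith)
    have h2 : 2 / Real.pi * (2 * Real.pi * u) = 4 * u := by
      field_simp
      ring
    rw [h2] at h
    exact h
  have fin : ∀ u : ℝ, 0 ≤ u → u ≤ 1 / 4 → Real.sin (2 * Real.pi * θ) ^ 2 = Real.sin (2 * Real.pi * u) ^ 2 →
      Real.exp (-(b * Real.sin (2 * Real.pi * θ) ^ 2)) ≤ Real.exp (-(16 * b) * u ^ 2) := by
    intro u hu0 hu1 he
    apply Real.exp_le_exp.2
    rw [he]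
    have h := key u hu0 hu1
    have h2 : (4 * u) ^ 2 ≤ Real.sin (2 * Real.pi * u) ^ 2 := by
      apply pow_le_pow_left₀ (by positivity) h
    nlinarith
  rcases le_total θ (1 / 4) with ha | ha
  · have := fin θ h0 ha rfl
    linarith
  rcases le_total θ (1 / 2) with hc | hc
  · have := fin (1 / 2 - θ) (by linarith) (by linarith) (by
      have : 2 * Real.pi * (1 / 2 - θ) = Real.pi - 2 * Real.pi * θ := by ring
      rw [this, Real.sin_pi_sub])
    have h2 : (1 / 2 - θ) ^ 2 = (θ - 1 / 2) ^ 2 := by ring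
    rw [h2] at this
    linarith
  rcases le_total θ (3 / 4) with hd | hd
  · have := fin (θ - 1 / 2) (by linarith) (by linarith) (by
      have : 2 * Real.pi * (θ - 1 / 2) = 2 * Real.pi * θ - Real.pi := by ring
      rw [this, Real.sin_sub_pi, neg_sq])
    linarith
  · have := fin (1 - θ) (by linarith) (by linarith) (by
      have : 2 * Real.pi * (1 - θ) = 2 * Real.pi - 2 * Real.pi * θ := by ring
      rw [this, Real.sin_two_pi_sub, neg_sq])
    have h2 : (1 - θ) ^ 2 = (θ - 1) ^ 2 := by ring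
    rw [h2] at this
    linarith

theorem T8b_one (b : ℝ) (hb : 0 < b) :
    ∫ θ in Set.Ioc (0 : ℝ) 1, Real.exp (-(b * Real.sin (2 * Real.pi * θ) ^ 2)) ≤ 3 * Real.sqrt (Real.pi / (16 * b)) := by
  have g0 : Integrable (fun θ : ℝ => Real.exp (-(16 * b) * θ ^ 2)) := integrable_exp_neg_mul_sq (by positivity)
  have g1 : Integrable (fun θ : ℝ => Real.exp (-(16 * b) * (θ - 1 / 2) ^ 2)) := g0.comp_sub_right (1 / 2)
  have g2 : Integrable (fun θ : ℝ => Real.exp (-(16 * b) * (θ - 1) ^ 2)) := g0.comp_sub_right 1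
  have gs : Integrable (fun θ : ℝ => Real.exp (-(16 * b) * θ ^ 2) +
      Real.exp (-(16 * b) * (θ - 1 / 2) ^ 2) + Real.exp (-(16 * b) * (θ - 1) ^ 2)) := (g0.add g1).add g2
  have i0 : ∫ θ : ℝ, Real.exp (-(16 * b) * θ ^ 2) = Real.sqrt (Real.pi / (16 * b)) := integral_gaussian _
  have i1 : ∫ θ : ℝ, Real.exp (-(16 * b) * (θ - 1 / 2) ^ 2) = Real.sqrt (Real.pi / (16 * b)) := by
    rw [← i0]
    exact integral_sub_right_eq_self (fun θ : ℝ => Real.exp (-(16 * b) * θ ^ 2)) (1 / 2)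
  have i2 : ∫ θ : ℝ, Real.exp (-(16 * b) * (θ - 1) ^ 2) = Real.sqrt (Real.pi / (16 * b)) := by
    rw [← i0]
    exact integral_sub_right_eq_self (fun θ : ℝ => Real.exp (-(16 * b) * θ ^ 2)) 1
  calc ∫ θ in Set.Ioc (0 : ℝ) 1, Real.exp (-(b * Real.sin (2 * Real.pi * θ) ^ 2))
      ≤ ∫ θ in Set.Ioc (0 : ℝ) 1, (Real.exp (-(16 * b) * θ ^ 2) +
      Real.exp (-(16 * b) * (θ - 1 / 2) ^ 2) + Real.exp (-(16 * b) * (θ - 1) ^ 2)) := by
        refine setIntegral_mono_on ?_ gs.integrableOn measurableSet_Ioc fun θ hθ => T8b_pt b θ hb hθ.1.le hθ.2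
        have hc : Continuous fun θ : ℝ => Real.exp (-(b * Real.sin (2 * Real.pi * θ) ^ 2)) := by fun_prop
        exact hc.integrableOn_Ioc
    _ ≤ ∫ θ : ℝ, (Real.exp (-(16 * b) * θ ^ 2) +
      Real.exp (-(16 * b) * (θ - 1 / 2) ^ 2) + Real.exp (-(16 * b) * (θ - 1) ^ 2)) := by
        refine setIntegral_le_integral gs (Filter.Eventually.of_forall fun θ => ?_)
        simp only [Pi.zero_apply]
        positivity
    _ = 3 * Real.sqrt (Real.pi / (16 * b)) := by
        have h1 : ∫ θ : ℝ, (Real.exp (-(16 * b) * θ ^ 2) +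
            Real.exp (-(16 * b) * (θ - 1 / 2) ^ 2) + Real.exp (-(16 * b) * (θ - 1) ^ 2)) =
            (∫ θ : ℝ, (Real.exp (-(16 * b) * θ ^ 2) + Real.exp (-(16 * b) * (θ - 1 / 2) ^ 2))) +
            ∫ θ : ℝ, Real.exp (-(16 * b) * (θ - 1) ^ 2) := integral_add (g0.add g1) g2
        have h2 : ∫ θ : ℝ, (Real.exp (-(16 * b) * θ ^ 2) + Real.exp (-(16 * b) * (θ - 1 / 2) ^ 2)) =
            (∫ θ : ℝ, Real.exp (-(16 * b) * θ ^ 2)) + ∫ θ : ℝ, Real.exp (-(16 * b) * (θ - 1 / 2) ^ 2) := integral_add g0 g1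
        rw [h1, h2, i0, i1, i2]
        ring

theorem T8b_cos (a : ℝ) : |Real.cos a| ≤ 1 - Real.sin a ^ 2 / 2 := by
  have h := Real.sin_sq_add_cos_sq a
  have h2 : |Real.cos a| ^ 2 = Real.cos a ^ 2 := sq_abs _
  nlinarith [sq_nonneg (|Real.cos a| - 1)]

theorem T8b_int (hd : 1 ≤ d) (m : ℕ) (hm : 1 ≤ m) :
    ∫ θ in Set.pi Set.univ (fun _ : Fin d => Set.Ioc (0 : ℝ) 1), |(∑ i, Real.cos (2 * Real.pi * θ i)) / d| ^ m ≤
      (3 * Real.sqrt (Real.pi / (16 * ((m : ℝ) / (2 * d))))) ^ d := by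
  have hd0 : (0 : ℝ) < d := by exact_mod_cast hd
  have hm0 : (0 : ℝ) < m := by exact_mod_cast hm
  obtain ⟨b, hb⟩ : ∃ b : ℝ, b = (m : ℝ) / (2 * d) := ⟨_, rfl⟩
  have hb0 : 0 < b := by rw [hb]; positivity
  rw [← hb]
  have hpt : ∀ θ : Fin d → ℝ, |(∑ i, Real.cos (2 * Real.pi * θ i)) / d| ^ m ≤
      ∏ i, Real.exp (-(b * Real.sin (2 * Real.pi * θ i) ^ 2)) := by
    intro θ
    have h1 : |(∑ i, Real.cos (2 * Real.pi * θ i)) / d| ≤
        Real.exp (-(∑ i, Real.sin (2 * Real.pi * θ i) ^ 2) / (2 * d)) := by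
      rw [abs_div, abs_of_pos hd0, div_le_iff₀ hd0]
      calc |∑ i, Real.cos (2 * Real.pi * θ i)| ≤ ∑ i, |Real.cos (2 * Real.pi * θ i)| := Finset.abs_sum_le_sum_abs _ _
        _ ≤ ∑ i, (1 - Real.sin (2 * Real.pi * θ i) ^ 2 / 2) := Finset.sum_le_sum fun i _ => T8b_cos _
        _ = (-(∑ i, Real.sin (2 * Real.pi * θ i) ^ 2) / (2 * d) + 1) * d := by
            rw [Finset.sum_sub_distrib, ← Finset.sum_div]
            simp only [Finset.sum_const, Finset.card_univ, Fintype.card_fin, nsmul_eq_mul, mul_one]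
            field_simp
            ring
        _ ≤ _ := by
            gcongr
            exact Real.add_one_le_exp _
    calc |(∑ i, Real.cos (2 * Real.pi * θ i)) / d| ^ m
        ≤ Real.exp (-(∑ i, Real.sin (2 * Real.pi * θ i) ^ 2) / (2 * d)) ^ m := pow_le_pow_left₀ (abs_nonneg _) h1 m
      _ = ∏ i, Real.exp (-(b * Real.sin (2 * Real.pi * θ i) ^ 2)) := by
          rw [← Real.exp_nat_mul, ← Real.exp_sum, Finset.sum_neg_distrib, ← Finset.mul_sum, hb]
          congr 1
          field_simp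
  have hint : Integrable (fun θ : Fin d → ℝ => ∏ i, Real.exp (-(b * Real.sin (2 * Real.pi * θ i) ^ 2)))
      (Measure.pi fun _ : Fin d => (volume : Measure ℝ).restrict (Set.Ioc (0 : ℝ) 1)) := by
    refine Integrable.fintype_prod (f := fun _ : Fin d => fun t : ℝ => Real.exp (-(b * Real.sin (2 * Real.pi * t) ^ 2)))
      (fun _ => ?_)
    have hc : Continuous fun θ : ℝ => Real.exp (-(b * Real.sin (2 * Real.pi * θ) ^ 2)) := by fun_prop
    exact hc.integrableOn_Ioc
  rw [volume_pi, Measure.restrict_pi_pi]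
  calc ∫ θ, |(∑ i, Real.cos (2 * Real.pi * θ i)) / d| ^ m
        ∂(Measure.pi fun _ : Fin d => (volume : Measure ℝ).restrict (Set.Ioc (0 : ℝ) 1))
      ≤ ∫ θ, ∏ i, Real.exp (-(b * Real.sin (2 * Real.pi * θ i) ^ 2))
        ∂(Measure.pi fun _ : Fin d => (volume : Measure ℝ).restrict (Set.Ioc (0 : ℝ) 1)) := by
        refine integral_mono_of_nonneg (Filter.Eventually.of_forall fun θ => ?_) hint (Filter.Eventually.of_forall hpt)
        simp only [Pi.zero_apply]
        positivity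
    _ = ∏ _i : Fin d, ∫ t in Set.Ioc (0 : ℝ) 1, Real.exp (-(b * Real.sin (2 * Real.pi * t) ^ 2)) :=
        integral_fintype_prod_eq_prod (fun _ : Fin d => fun t : ℝ => Real.exp (-(b * Real.sin (2 * Real.pi * t) ^ 2)))
    _ ≤ ∏ _i : Fin d, 3 * Real.sqrt (Real.pi / (16 * b)) := by
        refine Finset.prod_le_prod (fun _ _ => ?_) fun _ _ => T8b_one b hb0
        exact setIntegral_nonneg measurableSet_Ioc fun t _ => (Real.exp_pos _).le
    _ = _ := by simp

/-- T8b. PROOF. `|cos a| ≤ (1 + cos² a)/2 = 1 - (sin² a)/2`, so `|∑ cos(2πθ_i)|/d ≤ 1 - (1/(2d)) ∑ sin²(2πθ_i) ≤ exp(-(1/(2d)) ∑ sin²(2πθ_i))`; the `m`-th power is a product over `i`, the integral is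
`(∫_0^1 exp(-(m/(2d)) sin²(2πθ)) dθ)^d`, and the one-dimensional integral is at most `C (d/m)^(1/2)`: `|sin(2πθ)| ≥ 4 dist(θ, ½ℤ)` (four intervals of length `1/4`, `Real.mul_le_sin`-type bound), Gaussian integral. -/
theorem heat (hd : 1 ≤ d) : ∃ C : ℝ, 0 < C ∧ ∀ m : ℕ, 1 ≤ m → ∀ x y : V d,
    (((LL d m).filter (fun l => en x l = y)).card : ℝ) ≤ C * (2 * d : ℝ) ^ m / (m : ℝ) ^ ((d : ℝ) / 2) := by
  have hd0 : (0 : ℝ) < d := by exact_mod_cast hd
  refine ⟨(3 * Real.sqrt (Real.pi * d / 8)) ^ d, by positivity, fun m hm x y => ?_⟩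
  have hm0 : (0 : ℝ) < m := by exact_mod_cast hm
  refine (fourier_le hd m x y).trans ?_
  have h1 := T8b_int hd m hm
  have h2 : (m : ℝ) ^ ((d : ℝ) / 2) = Real.sqrt m ^ d := by
    rw [Real.sqrt_eq_rpow, ← Real.rpow_natCast, ← Real.rpow_mul hm0.le]
    congr 1
    ring
  have h3 : Real.sqrt (Real.pi / (16 * ((m : ℝ) / (2 * d)))) = Real.sqrt (Real.pi * d / 8) / Real.sqrt m := by
    rw [← Real.sqrt_div (by positivity)]
    congr 1
    field_simp
    ring
  calc (2 * d : ℝ) ^ m * ∫ θ in Set.pi Set.univ (fun _ : Fin d => Set.Ioc (0 : ℝ) 1),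
        |(∑ i, Real.cos (2 * Real.pi * θ i)) / d| ^ m
      ≤ (2 * d : ℝ) ^ m * (3 * Real.sqrt (Real.pi / (16 * ((m : ℝ) / (2 * d))))) ^ d := by
        gcongr
    _ = (3 * Real.sqrt (Real.pi * d / 8)) ^ d * (2 * d : ℝ) ^ m / (m : ℝ) ^ ((d : ℝ) / 2) := by
        rw [h2, h3, mul_div_assoc', div_pow]
        ring

end Pool.Agent.RWO
end

section

set_option autoImplicit false

/-! Task T10: a long loop with many visits. -/

namespace Pool.Agent.RWO

open scoped Classical in
/-- The counting lemma for T10: `W` the finite set of the marked times, all `≤ L`; two marked times of the same colour at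
distance `≥ lam` have few marked times between them. -/
theorem T10_main {α : Type*} (W : Finset ℕ) (c : ℕ → α) (L lam : ℕ) (κ : ℝ) (hκ : 0 ≤ κ) (hlam : 1 ≤ lam)
    (hL : ∀ k ∈ W, k ≤ L)
    (h : ∀ k₁ ∈ W, ∀ k₂ ∈ W, k₁ + lam ≤ k₂ → c k₂ = c k₁ →
      ((W.filter (fun k => k₁ ≤ k ∧ k ≤ k₂)).card : ℝ) ≤ κ * ((k₂ : ℝ) - k₁)) :
    ∀ n p : ℕ, ((W.filter (fun k => p ≤ k)).image c).card ≤ n →
      ((W.filter (fun k => p ≤ k)).card : ℝ) ≤ κ * ((L - p : ℕ) : ℝ) + (n : ℝ) * lam := by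
  intro n
  induction n with
  | zero =>
    intro p hp
    rw [Nat.le_zero, Finset.card_eq_zero, Finset.image_eq_empty] at hp
    rw [hp]
    simp only [Finset.card_empty, Nat.cast_zero, zero_mul, add_zero]
    positivity
  | succ n ih =>
    intro p hp
    rcases (W.filter (fun k => p ≤ k)).eq_empty_or_nonempty with h0 | hne
    · rw [h0]
      simp only [Finset.card_empty, Nat.cast_zero]
      positivity
    obtain ⟨k₁, hk₁def⟩ : ∃ k₁, k₁ = (W.filter (fun k => p ≤ k)).min' hne := ⟨_, rfl⟩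
    have hk₁ : k₁ ∈ W.filter (fun k => p ≤ k) := by rw [hk₁def]; exact Finset.min'_mem _ _
    have hk₁min : ∀ k ∈ W.filter (fun k => p ≤ k), k₁ ≤ k := fun k hk => by rw [hk₁def]; exact Finset.min'_le _ _ hk
    rw [Finset.mem_filter] at hk₁
    have hne2 : (W.filter (fun k => p ≤ k ∧ c k = c k₁)).Nonempty :=
      ⟨k₁, Finset.mem_filter.2 ⟨hk₁.1, hk₁.2, rfl⟩⟩
    obtain ⟨k₂, hk₂def⟩ : ∃ k₂, k₂ = (W.filter (fun k => p ≤ k ∧ c k = c k₁)).max' hne2 := ⟨_, rfl⟩
    have hk₂ : k₂ ∈ W.filter (fun k => p ≤ k ∧ c k = c k₁) := by rw [hk₂def]; exact Finset.max'_mem _ _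
    have hk₂max : ∀ k ∈ W.filter (fun k => p ≤ k ∧ c k = c k₁), k ≤ k₂ := fun k hk => by
      rw [hk₂def]; exact Finset.le_max' _ _ hk
    rw [Finset.mem_filter] at hk₂
    have h12 : k₁ ≤ k₂ := hk₁min k₂ (Finset.mem_filter.2 ⟨hk₂.1, hk₂.2.1⟩)
    have h2L : k₂ ≤ L := hL _ hk₂.1
    have hpk : p ≤ k₁ := hk₁.2
    -- the first part
    have hfirst : ((W.filter (fun k => k₁ ≤ k ∧ k ≤ k₂)).card : ℝ) ≤ κ * ((k₂ : ℝ) - k₁) + lam := by
      by_cases hd : k₁ + lam ≤ k₂
      · have := h k₁ hk₁.1 k₂ hk₂.1 hd hk₂.2.2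
        have h3 : (0 : ℝ) ≤ lam := Nat.cast_nonneg _
        linarith
      · have h3 : (W.filter (fun k => k₁ ≤ k ∧ k ≤ k₂)).card ≤ lam := by
          refine (Finset.card_le_card (t := Finset.Icc k₁ k₂) fun k hk => ?_).trans ?_
          · rw [Finset.mem_filter] at hk
            exact Finset.mem_Icc.2 hk.2
          · rw [Nat.card_Icc]
            omega
        have h4 : ((W.filter (fun k => k₁ ≤ k ∧ k ≤ k₂)).card : ℝ) ≤ lam := by exact_mod_cast h3
        have h5 : (k₁ : ℝ) ≤ k₂ := by exact_mod_cast h12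
        have h6 : 0 ≤ κ * ((k₂ : ℝ) - k₁) := mul_nonneg hκ (by linarith)
        linarith
    -- the colours of the second part
    have hcol : ((W.filter (fun k => k₂ + 1 ≤ k)).image c).card ≤ n := by
      have h3 : (W.filter (fun k => k₂ + 1 ≤ k)).image c ⊆ ((W.filter (fun k => p ≤ k)).image c).erase (c k₁) := by
        intro x hx
        rw [Finset.mem_image] at hx
        obtain ⟨k, hk, rfl⟩ := hx
        rw [Finset.mem_filter] at hk
        rw [Finset.mem_erase]
        refine ⟨?_, Finset.mem_image_of_mem _ (Finset.mem_filter.2 ⟨hk.1, by omega⟩)⟩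
        intro hc
        have := hk₂max k (Finset.mem_filter.2 ⟨hk.1, by omega, hc⟩)
        omega
      refine (Finset.card_le_card h3).trans ?_
      have h5 : c k₁ ∈ (W.filter (fun k => p ≤ k)).image c := Finset.mem_image_of_mem _ (Finset.mem_filter.2 hk₁)
      rw [Finset.card_erase_of_mem h5]
      omega
    have hsecond := ih (k₂ + 1) hcol
    -- the sum
    have hun : (W.filter (fun k => p ≤ k)).card ≤
        (W.filter (fun k => k₁ ≤ k ∧ k ≤ k₂)).card + (W.filter (fun k => k₂ + 1 ≤ k)).card := by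
      refine (Finset.card_le_card fun k hk => ?_).trans (Finset.card_union_le _ _)
      have h3 := hk₁min k hk
      rw [Finset.mem_filter] at hk
      rw [Finset.mem_union, Finset.mem_filter, Finset.mem_filter]
      by_cases h4 : k ≤ k₂
      · exact Or.inl ⟨hk.1, h3, h4⟩
      · exact Or.inr ⟨hk.1, by omega⟩
    have hun' : ((W.filter (fun k => p ≤ k)).card : ℝ) ≤
        ((W.filter (fun k => k₁ ≤ k ∧ k ≤ k₂)).card : ℝ) + ((W.filter (fun k => k₂ + 1 ≤ k)).card : ℝ) := by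
      exact_mod_cast hun
    have hlen : ((k₂ : ℝ) - k₁) + ((L - (k₂ + 1) : ℕ) : ℝ) ≤ ((L - p : ℕ) : ℝ) := by
      have h3 : k₂ + (L - (k₂ + 1)) ≤ (L - p) + k₁ := by omega
      have h4 : (k₂ : ℝ) + ((L - (k₂ + 1) : ℕ) : ℝ) ≤ ((L - p : ℕ) : ℝ) + k₁ := by exact_mod_cast h3
      linarith
    have h5 := mul_le_mul_of_nonneg_left hlen hκ
    rw [mul_add] at h5
    push_cast
    rw [add_mul, one_mul]
    linarith

open scoped Classical in
/-- T10. PROOF. Suppose not: for `k₁ ≤ k₂` in `W = {k ≤ L : c k ∈ A}` with the same colour `c k₁ = c k₂`, the number of the elements of `W` in `[k₁, k₂]` is `≤ κ (k₂ - k₁) + lam` (if `k₂ - k₁ ≥ lam`: `< κ (k₂ - k₁)`; otherwise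
`≤ k₂ - k₁ + 1 ≤ lam`, or `lam = 0` is impossible as then `k₂ = k₁` works). Claim, by induction on the number of the colours used in `W ∩ [p, L]`: `#(W ∩ [p, L]) ≤ κ (L - p) + lam #{colours used in W ∩ [p, L]}`: take `k₁` the
least element, `k₂` the last element of the same colour; `W ∩ [k₂ + 1, L]` uses one colour less. With `p = 0` this contradicts `hbig`. -/
theorem extract {α : Type*} (A : Finset α) (c : ℕ → α) (L lam : ℕ) (κ : ℝ) (hκ : 0 ≤ κ)
    (hbig : κ * L + (A.card : ℝ) * lam < (((Finset.range (L + 1)).filter (fun k => c k ∈ A)).card : ℝ)) :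
    ∃ k₁ k₂ : ℕ, k₁ + lam ≤ k₂ ∧ k₂ ≤ L ∧ c k₁ ∈ A ∧ c k₂ = c k₁ ∧
      κ * ((k₂ : ℝ) - k₁) ≤ (((Finset.range (L + 1)).filter (fun k => c k ∈ A ∧ k₁ ≤ k ∧ k ≤ k₂)).card : ℝ) := by
  by_contra hcon
  push Not at hcon
  rcases Nat.eq_zero_or_pos lam with h0 | h0
  · have hpos : 0 < ((Finset.range (L + 1)).filter (fun k => c k ∈ A)).card := by
      have h1 : (0 : ℝ) < (((Finset.range (L + 1)).filter (fun k => c k ∈ A)).card : ℝ) := by
        refine lt_of_le_of_lt ?_ hbig
        positivity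
      exact_mod_cast h1
    obtain ⟨k, hk⟩ := Finset.card_pos.1 hpos
    rw [Finset.mem_filter, Finset.mem_range] at hk
    have h1 := hcon k k (by omega) (by omega) hk.2 rfl
    rw [sub_self, mul_zero] at h1
    exact absurd h1 (not_lt.2 (Nat.cast_nonneg _))
  · have hmem : ∀ k, k ∈ (Finset.range (L + 1)).filter (fun k => c k ∈ A) ↔ k ≤ L ∧ c k ∈ A := by
      intro k
      rw [Finset.mem_filter, Finset.mem_range, Nat.lt_succ_iff]
    have hmain := T10_main ((Finset.range (L + 1)).filter (fun k => c k ∈ A)) c L lam κ hκ h0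
      (fun k hk => ((hmem k).1 hk).1) (fun k₁ hk₁ k₂ hk₂ hd hc => by
        have h1 := hcon k₁ k₂ hd ((hmem k₂).1 hk₂).1 ((hmem k₁).1 hk₁).2 hc
        rw [Finset.filter_filter]
        exact h1.le) A.card 0 (by
        refine Finset.card_le_card fun x hx => ?_
        rw [Finset.mem_image] at hx
        obtain ⟨k, hk, rfl⟩ := hx
        exact ((hmem k).1 (Finset.mem_of_mem_filter k hk)).2)
    rw [Finset.filter_true_of_mem (fun k _ => Nat.zero_le k), Nat.sub_zero] at hmain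
    exact absurd hbig (not_lt.2 hmain)

end Pool.Agent.RWO
end

section

set_option autoImplicit false

/-! Task T11: removal of a loop. -/

namespace Pool.Agent.RWO

variable {d : ℕ}

theorem T11_take (x : V d) (l : List (Stp d)) (a b : ℕ) :
    en (en x (l.take a)) ((l.drop a).take b) = en x (l.take (a + b)) := by
  rw [List.take_add, en_append]

open scoped Classical in
/-- The paths of length `n` with a given loop. -/
noncomputable def T11_P (O : Set (V d)) (x : V d) (A : Finset (V d)) (n : ℕ) (κ : ℝ) (a q : ℕ) :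
    Finset (List (Stp d)) :=
  (LL d n).filter (fun l => Op O x l ∧ en x (l.take a) ∈ A ∧ en x (l.take (a + 2 * q)) = en x (l.take a) ∧
    κ * q ≤ (vis (A : Set (V d)) (en x (l.take a)) ((l.drop a).take (2 * q)) q : ℝ))

open scoped Classical in
theorem T11_card (O : Set (V d)) (x : V d) (A : Finset (V d)) (n a q : ℕ) (κ R : ℝ) (hn : a + 2 * q ≤ n)
    (hR : 0 ≤ R)
    (hloop : ∀ z ∈ A, (((LL d (2 * q)).filter (fun l => en z l = z ∧
      κ * q ≤ (vis (A : Set (V d)) z l q : ℝ))).card : ℝ) * NP O x (n - 2 * q) ≤ R) :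
    ((T11_P O x A n κ a q).card : ℝ) ≤ R := by
  set F : Finset (List (Stp d)) := (LL d (n - 2 * q)).filter
    (fun l => Op O x l ∧ en x (l.take a) ∈ A) with hF
  set G : List (Stp d) → Finset (List (Stp d)) := fun l₀ =>
    (LL d (2 * q)).filter (fun m => en (en x (l₀.take a)) m = en x (l₀.take a) ∧
      κ * q ≤ (vis (A : Set (V d)) (en x (l₀.take a)) m q : ℝ)) with hG
  have h1 : (T11_P O x A n κ a q).card ≤ (F.sigma G).card := by
    refine Finset.card_le_card_of_injOn
      (fun l => (⟨l.take a ++ l.drop (a + 2 * q), (l.drop a).take (2 * q)⟩ :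
        (_ : List (Stp d)) × List (Stp d))) ?_ ?_
    · intro l hl
      rw [Finset.mem_coe, T11_P, Finset.mem_filter, mem_LL] at hl
      obtain ⟨hlen, hop, hzA, hz, hv⟩ := hl
      have hta : (l.take a).length = a := by rw [List.length_take]; omega
      have htake : (l.take a ++ l.drop (a + 2 * q)).take a = l.take a := List.take_left' hta
      have hop' := hop
      rw [← List.take_append_drop (a + 2 * q) l, Op_append] at hop'
      have hop1 := hop
      rw [← List.take_append_drop a l, Op_append] at hop1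
      rw [Finset.mem_coe, Finset.mem_sigma]
      refine ⟨?_, ?_⟩
      · rw [hF, Finset.mem_filter, mem_LL]
        refine ⟨?_, ?_, ?_⟩
        · simp only [List.length_append, List.length_take, List.length_drop]
          omega
        · rw [Op_append]
          exact ⟨hop1.1, by rw [← hz]; exact hop'.2⟩
        · rw [htake]
          exact hzA
      · rw [hG]
        simp only [Finset.mem_filter, mem_LL, htake]
        refine ⟨?_, ?_, hv⟩
        · rw [List.length_take, List.length_drop]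
          omega
        · rw [T11_take]
          exact hz
    · intro l hl l' hl' h
      rw [Finset.mem_coe, T11_P, Finset.mem_filter, mem_LL] at hl hl'
      have hta : (l.take a).length = a := by rw [List.length_take]; omega
      have hta' : (l'.take a).length = a := by rw [List.length_take]; omega
      simp only [Sigma.mk.injEq, heq_eq_eq] at h
      obtain ⟨h2, h3⟩ := List.append_inj h.1 (hta.trans hta'.symm)
      have h4 : ∀ m : List (Stp d), m = m.take a ++ ((m.drop a).take (2 * q) ++ m.drop (a + 2 * q)) := by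
        intro m
        rw [← List.append_assoc, ← List.take_add, List.take_append_drop]
      rw [h4 l, h4 l', h2, h3, h.2]
  have h2 : ((F.sigma G).card : ℝ) = ∑ l₀ ∈ F, ((G l₀).card : ℝ) := by
    rw [Finset.card_sigma]
    push_cast
    rfl
  have h3 : (F.card : ℝ) ≤ NP O x (n - 2 * q) := by
    have : F.card ≤ NP O x (n - 2 * q) := by
      unfold NP
      refine Finset.card_le_card fun l hl => ?_
      rw [hF, Finset.mem_filter] at hl
      rw [Finset.mem_filter]
      exact ⟨hl.1, hl.2.1⟩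
    exact_mod_cast this
  have h4 : ∀ l₀ ∈ F, ((G l₀).card : ℝ) * NP O x (n - 2 * q) ≤ R := by
    intro l₀ hl₀
    rw [hF, Finset.mem_filter] at hl₀
    exact hloop _ hl₀.2.2
  have h5 : ((T11_P O x A n κ a q).card : ℝ) ≤ ∑ l₀ ∈ F, ((G l₀).card : ℝ) := by
    rw [← h2]
    exact_mod_cast h1
  refine h5.trans ?_
  rcases Nat.eq_zero_or_pos (NP O x (n - 2 * q)) with h0 | h0
  · have hF0 : F = ∅ := by
      rw [← Finset.card_eq_zero]
      rw [h0] at h3
      have : F.card ≤ 0 := by exact_mod_cast h3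
      omega
    rw [hF0, Finset.sum_empty]
    exact hR
  · have h0' : (0 : ℝ) < NP O x (n - 2 * q) := by exact_mod_cast h0
    refine le_of_mul_le_mul_right ?_ h0'
    rw [Finset.sum_mul]
    calc ∑ l₀ ∈ F, ((G l₀).card : ℝ) * (NP O x (n - 2 * q) : ℝ) ≤ ∑ _l₀ ∈ F, R := Finset.sum_le_sum h4
      _ = F.card * R := by rw [Finset.sum_const, nsmul_eq_mul]
      _ ≤ NP O x (n - 2 * q) * R := mul_le_mul_of_nonneg_right h3 hR
      _ = R * NP O x (n - 2 * q) := mul_comm _ _

open scoped Classical in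
/-- T11. PROOF. For `l` in the set, `extract` with `c k = en x (l.take (t + 2k))` gives `k₁, k₂`, `q = k₂ - k₁`, `lam ≤ q ≤ L`, such that the piece `mid` of `l` from time `t + 2k₁` to `t + 2k₂` is a loop at
`z = c k₁ ∈ A` with `κ q ≤ vis A z mid q`. `l ↦ (k₁, k₂, l without mid, mid)` is injective. For fixed `(k₁, k₂)` the number of the pairs `(l₀, mid)`, `l₀` open of length `n - 2q`, `z = en x (l₀.take (t + 2k₁)) ∈ A`, is
at most `∑_{l₀} #loops(z(l₀)) ≤ R` by `hloop` (`NP O x (n - 2q)` paths `l₀`). `(L+1)²` pairs `(k₁, k₂)`. -/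
theorem surgery (O : Set (V d)) (x : V d) (A : Finset (V d)) (n t L lam : ℕ) (hn : t + 2 * L ≤ n) (κ κ' R : ℝ) (hκ : 0 ≤ κ) (hR : 0 ≤ R)
    (hbig : κ * L + (A.card : ℝ) * lam < κ' * L)
    (hloop : ∀ q, lam ≤ q → q ≤ L → ∀ z ∈ A,
      (((LL d (2 * q)).filter (fun l => en z l = z ∧ κ * q ≤ (vis (A : Set (V d)) z l q : ℝ))).card : ℝ) * NP O x (n - 2 * q) ≤ R) :
    (((LL d n).filter (fun l => Op O x l ∧ κ' * L ≤ (vis (A : Set (V d)) (en x (l.take t)) (l.drop t) L : ℝ))).card : ℝ) ≤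
      (L + 1 : ℝ) ^ 2 * R := by
  set I : Finset (ℕ × ℕ) := (Finset.range (L + 1) ×ˢ Finset.range (L + 1)).filter
    (fun k => k.1 + lam ≤ k.2) with hI
  have h1 : (LL d n).filter (fun l => Op O x l ∧ κ' * L ≤
      (vis (A : Set (V d)) (en x (l.take t)) (l.drop t) L : ℝ)) ⊆
      I.biUnion (fun k => T11_P O x A n κ (t + 2 * k.1) (k.2 - k.1)) := by
    intro l hl
    rw [Finset.mem_filter, mem_LL] at hl
    obtain ⟨hlen, hop, hvis⟩ := hl
    have hv : vis (A : Set (V d)) (en x (l.take t)) (l.drop t) L =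
        ((Finset.range (L + 1)).filter (fun k => en x (l.take (t + 2 * k)) ∈ A)).card := by
      unfold vis
      congr 1
      ext k
      simp only [Finset.mem_filter, Finset.mem_coe, T11_take]
    obtain ⟨k₁, k₂, hk, hkL, hkA, hkc, hcount⟩ := extract A (fun k => en x (l.take (t + 2 * k))) L lam κ hκ
      (lt_of_lt_of_le hbig (hvis.trans (le_of_eq (by rw [hv]; congr!))))
    have hk12 : k₁ ≤ k₂ := by omega
    rw [Finset.mem_biUnion]
    refine ⟨(k₁, k₂), ?_, ?_⟩
    · rw [hI, Finset.mem_filter, Finset.mem_product, Finset.mem_range, Finset.mem_range]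
      exact ⟨⟨by simp only; omega, by simp only; omega⟩, hk⟩
    · rw [T11_P, Finset.mem_filter, mem_LL]
      simp only
      have ha : t + 2 * k₁ + 2 * (k₂ - k₁) = t + 2 * k₂ := by omega
      refine ⟨hlen, hop, hkA, by rw [ha]; exact hkc, ?_⟩
      have hq : ((k₂ - k₁ : ℕ) : ℝ) = (k₂ : ℝ) - k₁ := by rw [Nat.cast_sub hk12]
      rw [hq]
      refine hcount.trans ?_
      have hle : ((Finset.range (L + 1)).filter (fun k => en x (l.take (t + 2 * k)) ∈ A ∧ k₁ ≤ k ∧ k ≤ k₂)).card ≤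
          vis (A : Set (V d)) (en x (l.take (t + 2 * k₁)))
            ((l.drop (t + 2 * k₁)).take (2 * (k₂ - k₁))) (k₂ - k₁) := by
        unfold vis
        refine Finset.card_le_card_of_injOn (fun k => k - k₁) ?_ ?_
        · intro k hk'
          rw [Finset.mem_coe, Finset.mem_filter, Finset.mem_range] at hk'
          obtain ⟨hkr, hcA, hk1, hk2⟩ := hk'
          simp only [Finset.coe_filter, Finset.mem_range, Set.mem_ofPred_eq]
          refine ⟨by omega, ?_⟩
          rw [Finset.mem_coe, List.take_take, min_eq_left (by omega), T11_take,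
            show t + 2 * k₁ + 2 * (k - k₁) = t + 2 * k by omega]
          exact hcA
        · intro k hk' k' hk'' h
          rw [Finset.mem_coe, Finset.mem_filter] at hk' hk''
          simp only at h
          omega
      refine le_trans (le_of_eq ?_) (Nat.cast_le.mpr hle)
      congr!
  have h2 : ∀ k ∈ I, ((T11_P O x A n κ (t + 2 * k.1) (k.2 - k.1)).card : ℝ) ≤ R := by
    intro k hk
    rw [hI, Finset.mem_filter, Finset.mem_product, Finset.mem_range, Finset.mem_range] at hk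
    refine T11_card O x A n _ _ κ R (by omega) hR fun z hz => ?_
    exact hloop _ (by omega) (by omega) z hz
  have h3 : (I.card : ℝ) ≤ (L + 1 : ℝ) ^ 2 := by
    have : I.card ≤ (L + 1) * (L + 1) := by
      calc I.card ≤ (Finset.range (L + 1) ×ˢ Finset.range (L + 1)).card := Finset.card_filter_le _ _
        _ = _ := by rw [Finset.card_product, Finset.card_range]
    calc (I.card : ℝ) ≤ (((L + 1) * (L + 1) : ℕ) : ℝ) := by exact_mod_cast this
      _ = _ := by push_cast; ring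
  calc (((LL d n).filter (fun l => Op O x l ∧ κ' * L ≤
        (vis (A : Set (V d)) (en x (l.take t)) (l.drop t) L : ℝ))).card : ℝ)
      ≤ ((I.biUnion (fun k => T11_P O x A n κ (t + 2 * k.1) (k.2 - k.1))).card : ℝ) := by
        exact_mod_cast Finset.card_le_card h1
    _ ≤ ((∑ k ∈ I, (T11_P O x A n κ (t + 2 * k.1) (k.2 - k.1)).card : ℕ) : ℝ) := by
        exact_mod_cast Finset.card_biUnion_le
    _ = ∑ k ∈ I, ((T11_P O x A n κ (t + 2 * k.1) (k.2 - k.1)).card : ℝ) := by push_cast; rfl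
    _ ≤ ∑ _k ∈ I, R := Finset.sum_le_sum h2
    _ = I.card * R := by rw [Finset.sum_const, nsmul_eq_mul]
    _ ≤ (L + 1 : ℝ) ^ 2 * R := mul_le_mul_of_nonneg_right h3 hR

end Pool.Agent.RWO
end

section

set_option autoImplicit false

/-! Task X1: the walk does not go far. -/

namespace Pool.Agent.RWO

variable {d : ℕ}

theorem X1_sum_LL_succ (m : ℕ) (f : List (Stp d) → ℤ) :
    ∑ l ∈ LL d (m + 1), f l = ∑ e : Stp d, ∑ l ∈ LL d m, f (e :: l) := by
  classical
  have h : LL d (m + 1) = (Finset.univ ×ˢ LL d m).image (fun p : Stp d × List (Stp d) => p.1 :: p.2) := rfl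
  rw [h, Finset.sum_image, Finset.sum_product]
  rintro ⟨e, l⟩ _ ⟨e', l'⟩ _ h2
  simp only [List.cons.injEq] at h2
  exact Prod.ext h2.1 h2.2

theorem X1_vec_sum (w : V d) :
    ∑ e : Stp d, ∑ i, (w i + vec e i) ^ 2 = 2 * (d : ℤ) * ∑ i, (w i) ^ 2 + 2 * d := by
  have h1 : ∀ i : Fin d, ∑ e : Stp d, (w i + vec e i) ^ 2 = 2 * (d : ℤ) * (w i) ^ 2 + 2 := by
    intro i
    rw [Fintype.sum_prod_type]
    simp only [Fintype.sum_bool]
    have h2 : ∀ j : Fin d, (w i + vec (j, true) i) ^ 2 + (w i + vec (j, false) i) ^ 2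
        = 2 * (w i) ^ 2 + (if i = j then 2 else 0) := by
      intro j
      unfold vec
      by_cases h : i = j
      · subst h
        simp only [Pi.single_eq_same, if_true]
        simp
        ring
      · simp only [Pi.single_eq_of_ne h, if_neg h]
        ring
    rw [Finset.sum_congr rfl (fun j _ => h2 j), Finset.sum_add_distrib, Finset.sum_const, Finset.sum_ite_eq]
    simp only [Finset.card_univ, Fintype.card_fin, Finset.mem_univ, if_true, nsmul_eq_mul]
    ring
  rw [Finset.sum_comm, Finset.sum_congr rfl (fun i _ => h1 i), Finset.sum_add_distrib, ← Finset.mul_sum,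
    Finset.sum_const]
  simp only [Finset.card_univ, Fintype.card_fin, nsmul_eq_mul]
  ring

theorem X1_gen (m : ℕ) (x y : V d) : ∑ l ∈ LL d m, ∑ i, (en x l i - y i) ^ 2 =
    (2 * (d : ℤ)) ^ m * (∑ i, (x i - y i) ^ 2) + (m : ℤ) * (2 * d) ^ m := by
  induction m generalizing x with
  | zero =>
    have h : LL d 0 = {[]} := rfl
    rw [h, Finset.sum_singleton]
    simp
  | succ m ih =>
    rw [X1_sum_LL_succ]
    simp only [en_cons]
    have h1 : ∀ e : Stp d, ∑ l ∈ LL d m, ∑ i, (en (x + vec e) l i - y i) ^ 2 =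
        (2 * (d : ℤ)) ^ m * (∑ i, ((x i - y i) + vec e i) ^ 2) + (m : ℤ) * (2 * d) ^ m := by
      intro e
      rw [ih]
      congr 2
      refine Finset.sum_congr rfl fun i _ => ?_
      rw [Pi.add_apply]
      ring
    rw [Finset.sum_congr rfl (fun e _ => h1 e), Finset.sum_add_distrib, ← Finset.mul_sum,
      X1_vec_sum (fun i => x i - y i), Finset.sum_const]
    simp only [Finset.card_univ, Fintype.card_prod, Fintype.card_fin, Fintype.card_bool, nsmul_eq_mul]
    push_cast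
    ring

/-- X1a. PROOF. Induction on `m`: `∑_{l ∈ LL d m} ∑_i (en x l i - x i)^2 = m (2d)^m` (`∑_e (v + vec e)_i^2 = 2 v_i^2 d + ...`: `∑_e |v + vec e|² = 2d |v|² + 2d`, as the linear terms cancel). -/
theorem second_moment (m : ℕ) (x : V d) : ∑ l ∈ LL d m, ∑ i, (en x l i - x i) ^ 2 = (m : ℤ) * (2 * d) ^ m := by
  rw [X1_gen]
  simp

open scoped Classical in
/-- X1b. PROOF. Chebyshev. -/
theorem tail (m R : ℕ) (x : V d) : ((LL d m).filter (fun l => ∃ i, (R : ℤ) < |en x l i - x i|)).card * R ^ 2 ≤ m * (2 * d) ^ m := by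
  have h1 : (((LL d m).filter (fun l => ∃ i, (R : ℤ) < |en x l i - x i|)).card : ℤ) * (R : ℤ) ^ 2 ≤
      ∑ l ∈ LL d m, ∑ i, (en x l i - x i) ^ 2 := by
    rw [← nsmul_eq_mul]
    refine (Finset.card_nsmul_le_sum _ (fun l => ∑ i, (en x l i - x i) ^ 2) _ ?_).trans ?_
    · intro l hl
      rw [Finset.mem_filter] at hl
      obtain ⟨i, hi⟩ := hl.2
      have h3 : (en x l i - x i) ^ 2 ≤ ∑ j, (en x l j - x j) ^ 2 :=
        Finset.single_le_sum (f := fun j => (en x l j - x j) ^ 2) (fun j _ => sq_nonneg _) (Finset.mem_univ i)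
      refine le_trans ?_ h3
      rw [← sq_abs (en x l i - x i)]
      exact pow_le_pow_left₀ (Int.natCast_nonneg R) hi.le 2
    · exact Finset.sum_le_sum_of_subset_of_nonneg (Finset.filter_subset _ _)
        (fun l _ _ => Finset.sum_nonneg fun i _ => sq_nonneg _)
  rw [second_moment] at h1
  exact_mod_cast h1

end Pool.Agent.RWO
end

section

set_option autoImplicit false

/-! Task M12: the last position has a good chance to survive. -/

namespace Pool.Agent.RWO

variable {d : ℕ}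

/-- The paths cut at time `a`. -/
theorem M12_cut (O : Set (V d)) (x : V d) (Z : Set (V d)) (a b : ℕ) :
    (PZ O x Z (a + b)).card = ∑ l' ∈ PZ O x Set.univ a, (PZ O (en x l') Z b).card := by
  classical
  rw [← Finset.card_sigma]
  symm
  refine Finset.card_bij (fun s _ => s.1 ++ s.2) ?_ ?_ ?_
  · rintro ⟨l', c⟩ hs
    rw [Finset.mem_sigma, mem_PZ, mem_PZ] at hs
    simp only at hs
    obtain ⟨⟨h2, h3, -⟩, h5, h6, h7⟩ := hs
    rw [mem_PZ]
    refine ⟨by simp [h2, h5], (Op_append _ _ _ _).2 ⟨h3, h6⟩, ?_⟩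
    rw [en_append]
    exact h7
  · rintro ⟨l', c⟩ hs ⟨l'', c'⟩ hs' h
    rw [Finset.mem_sigma, mem_PZ, mem_PZ] at hs hs'
    simp only at hs hs' h
    obtain ⟨h2, h3⟩ := List.append_inj h (hs.1.1.trans hs'.1.1.symm)
    subst h2
    subst h3
    rfl
  · intro l hl
    rw [mem_PZ] at hl
    obtain ⟨h2, h3, h4⟩ := hl
    refine ⟨⟨l.take a, l.drop a⟩, ?_, List.take_append_drop a l⟩
    rw [Finset.mem_sigma, mem_PZ, mem_PZ]
    simp only [List.length_take, List.length_drop]
    have h5 := h3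
    rw [← List.take_append_drop a l, Op_append] at h5
    have h6 := h4
    rw [← List.take_append_drop a l, en_append] at h6
    exact ⟨⟨by omega, h5.1, Set.mem_univ _⟩, by omega, h5.2, h6⟩

/-- The number of the paths of length `2k` from `z` to `y`. -/
theorem M12_ker (O : Set (V d)) (z y : V d) (k : ℕ) (η : ℝ) (hη : 0 ≤ η)
    (hk : ∀ z v : V d, (WP O z v k : ℝ) ≤ η * (2 * d : ℝ) ^ k) :
    (WP O z y (2 * k) : ℝ) ≤ η * (2 * d : ℝ) ^ k * NP O y k := by
  classical
  have h1 : WP O z y (2 * k) = ∑ l' ∈ PZ O z Set.univ k, WP O y (en z l') k := by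
    rw [← card_PZ_single, two_mul, M12_cut]
    refine Finset.sum_congr rfl fun l' _ => ?_
    rw [card_PZ_single, WP_symm]
  rw [h1, Finset.sum_comp (fun v => WP O y v k) (en z)]
  have h2 : ∀ v, ((PZ O z Set.univ k).filter (fun a => en z a = v)).card = WP O z v k := by
    intro v
    unfold WP
    congr 1
    ext l
    rw [Finset.mem_filter, mem_PZ, Finset.mem_filter, mem_LL]
    simp only [Set.mem_univ, and_true]
    tauto
  have h3 : ∑ v ∈ (PZ O z Set.univ k).image (en z), WP O y v k ≤ NP O y k := by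
    have h4 : ∑ v ∈ (PZ O z Set.univ k).image (en z), WP O y v k =
        ((PZ O y Set.univ k).filter (fun l => en y l ∈ (PZ O z Set.univ k).image (en z))).card := by
      rw [Finset.card_eq_sum_card_fiberwise (f := en y) (t := (PZ O z Set.univ k).image (en z))
        (fun l hl => by
          have h5 := (Finset.mem_filter.1 hl).2
          exact h5)]
      refine Finset.sum_congr rfl fun v hv => ?_
      unfold WP
      congr 1
      ext l
      rw [Finset.mem_filter, mem_LL, Finset.mem_filter, Finset.mem_filter, mem_PZ]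
      constructor
      · rintro ⟨h5, h6, h7⟩
        exact ⟨⟨⟨h5, h6, Set.mem_univ _⟩, h7 ▸ hv⟩, h7⟩
      · rintro ⟨⟨⟨h5, h6, -⟩, -⟩, h7⟩
        exact ⟨h5, h6, h7⟩
    rw [h4, ← card_PZ_univ]
    exact Finset.card_filter_le _ _
  have h3' : (∑ v ∈ (PZ O z Set.univ k).image (en z), (WP O y v k : ℝ)) ≤ NP O y k := by
    exact_mod_cast h3
  have hpos : 0 ≤ η * (2 * d : ℝ) ^ k := by positivity
  calc ((∑ v ∈ (PZ O z Set.univ k).image (en z),
        ((PZ O z Set.univ k).filter (fun a => en z a = v)).card • WP O y v k : ℕ) : ℝ)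
      = ∑ v ∈ (PZ O z Set.univ k).image (en z), (WP O z v k : ℝ) * WP O y v k := by
        rw [Nat.cast_sum]
        refine Finset.sum_congr rfl fun v _ => ?_
        rw [h2 v, smul_eq_mul, Nat.cast_mul]
    _ ≤ ∑ v ∈ (PZ O z Set.univ k).image (en z), η * (2 * d : ℝ) ^ k * WP O y v k :=
        Finset.sum_le_sum fun v _ => mul_le_mul_of_nonneg_right (hk z v) (Nat.cast_nonneg _)
    _ = η * (2 * d : ℝ) ^ k * ∑ v ∈ (PZ O z Set.univ k).image (en z), (WP O y v k : ℝ) := by
        rw [Finset.mul_sum]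
    _ ≤ η * (2 * d : ℝ) ^ k * NP O y k := mul_le_mul_of_nonneg_left h3' hpos

/-- The bound for a fixed starting point. -/
theorem M12_one (O : Set (V d)) (z : V d) (k R : ℕ) (hR : 1 ≤ R) (η θ : ℝ) (hη : 0 ≤ η) (hθ : 0 ≤ θ)
    (hk : ∀ z v : V d, (WP O z v k : ℝ) ≤ η * (2 * d : ℝ) ^ k) :
    ((PZ O z {u | (NP O u k : ℝ) < θ * (2 * d : ℝ) ^ k} (2 * k)).card : ℝ) ≤
      (2 * d : ℝ) ^ (2 * k) * ((2 * R + 1 : ℝ) ^ d * (η * θ) + 2 * k / (R : ℝ) ^ 2) := by
  classical
  set U : Set (V d) := {u | (NP O u k : ℝ) < θ * (2 * d : ℝ) ^ k} with hU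
  set P1 := (PZ O z U (2 * k)).filter (fun c => en z c ∈ bxc z R) with hP1
  set P2 := (LL d (2 * k)).filter (fun l => ∃ i, (R : ℤ) < |en z l i - z i|) with hP2
  have hsub : PZ O z U (2 * k) ⊆ P1 ∪ P2 := by
    intro c hc
    rw [Finset.mem_union]
    by_cases h : en z c ∈ bxc z R
    · left
      rw [hP1, Finset.mem_filter]
      exact ⟨hc, h⟩
    · right
      rw [hP2, Finset.mem_filter, mem_LL]
      refine ⟨(mem_PZ.1 hc).1, ?_⟩
      rw [mem_bxc] at h
      push Not at h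
      exact h
  have h0 : ((PZ O z U (2 * k)).card : ℝ) ≤ (P1.card : ℝ) + (P2.card : ℝ) := by
    have := (Finset.card_le_card hsub).trans (Finset.card_union_le _ _)
    exact_mod_cast this
  have hRpos : (0 : ℝ) < (R : ℝ) ^ 2 := by
    have : (0 : ℝ) < R := by exact_mod_cast hR
    positivity
  have h2 : (P2.card : ℝ) ≤ (2 * d : ℝ) ^ (2 * k) * (2 * k / (R : ℝ) ^ 2) := by
    have h3 := tail (d := d) (2 * k) R z
    have h4 : (P2.card : ℝ) * (R : ℝ) ^ 2 ≤ (2 * k : ℝ) * (2 * d : ℝ) ^ (2 * k) := by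
      have h5 : P2.card * R ^ 2 ≤ 2 * k * (2 * d) ^ (2 * k) := by
        rw [hP2]
        convert h3
      exact_mod_cast h5
    rw [mul_div_assoc', le_div_iff₀ hRpos]
    linarith
  have h1 : (P1.card : ℝ) ≤ (2 * d : ℝ) ^ (2 * k) * ((2 * R + 1 : ℝ) ^ d * (η * θ)) := by
    have h3 : P1.card = ∑ y ∈ bxc z R, (P1.filter (fun c => en z c = y)).card :=
      Finset.card_eq_sum_card_fiberwise (f := en z) (t := bxc z R) (fun l hl => by
        have h5 := (Finset.mem_filter.1 hl).2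
        exact h5)
    have h4 : ∀ y ∈ bxc z R, ((P1.filter (fun c => en z c = y)).card : ℝ) ≤ (2 * d : ℝ) ^ (2 * k) * (η * θ) := by
      intro y _
      by_cases hy : y ∈ U
      · have h5 : ((P1.filter (fun c => en z c = y)).card : ℝ) ≤ WP O z y (2 * k) := by
          have h6 : (P1.filter (fun c => en z c = y)).card ≤ WP O z y (2 * k) := by
            unfold WP
            refine Finset.card_le_card fun c hc => ?_
            rw [Finset.mem_filter, hP1, Finset.mem_filter, mem_PZ] at hc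
            rw [Finset.mem_filter, mem_LL]
            exact ⟨hc.1.1.1, hc.1.1.2.1, hc.2⟩
          exact_mod_cast h6
        have h7 := M12_ker O z y k η hη hk
        rw [hU, Set.mem_ofPred_eq] at hy
        have hpos : 0 ≤ η * (2 * d : ℝ) ^ k := by positivity
        calc ((P1.filter (fun c => en z c = y)).card : ℝ) ≤ WP O z y (2 * k) := h5
          _ ≤ η * (2 * d : ℝ) ^ k * NP O y k := h7
          _ ≤ η * (2 * d : ℝ) ^ k * (θ * (2 * d : ℝ) ^ k) := mul_le_mul_of_nonneg_left hy.le hpos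
          _ = (2 * d : ℝ) ^ (2 * k) * (η * θ) := by rw [mul_comm 2 k, pow_mul]; ring
      · have h5 : P1.filter (fun c => en z c = y) = ∅ := by
          rw [Finset.filter_eq_empty_iff]
          intro c hc h6
          rw [hP1, Finset.mem_filter, mem_PZ] at hc
          exact hy (h6 ▸ hc.1.2.2)
        rw [h5, Finset.card_empty, Nat.cast_zero]
        positivity
    rw [h3, Nat.cast_sum]
    calc ∑ y ∈ bxc z R, ((P1.filter (fun c => en z c = y)).card : ℝ) ≤ (bxc z R).card • ((2 * d : ℝ) ^ (2 * k) * (η * θ)) :=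
          Finset.sum_le_card_nsmul _ _ _ h4
      _ = (2 * d : ℝ) ^ (2 * k) * ((2 * R + 1 : ℝ) ^ d * (η * θ)) := by
          rw [card_bxc, nsmul_eq_mul]
          push_cast
          ring
  linarith

/-- M12. PROOF. Cut at time `n'`: `l = l' ++ c`, `z = en x l'`. For fixed `z` the number of the open `c` of length `2k` from `z` to a `y ∉ B = {u | θ (2d)^k ≤ NP O u k}` is at most `∑_{y ∈ bxc z R, y ∉ B, y ∈ O} WP O z y (2k)` plus
`#{c ∈ LL d (2k) : ∃ i, R < |en z c i - z i|} ≤ 2k (2d)^(2k)/R²` (`tail`). `WP O z y (2k) ≤ ∑_v WP O z v k * WP O v y k ≤ η (2d)^k ∑_v WP O y v k ≤ η (2d)^k NP O y k ≤ η (2d)^k θ (2d)^k` (`WP_symm`; `v` over a finite set). -/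
theorem end_tight (O : Set (V d)) (x : V d) (n' k R : ℕ) (hR : 1 ≤ R) (η θ : ℝ) (hη : 0 ≤ η) (hθ : 0 ≤ θ)
    (hk : ∀ z v : V d, (WP O z v k : ℝ) ≤ η * (2 * d : ℝ) ^ k) :
    ((PZ O x {u | (NP O u k : ℝ) < θ * (2 * d : ℝ) ^ k} (n' + 2 * k)).card : ℝ) ≤
      NP O x n' * (2 * d : ℝ) ^ (2 * k) * ((2 * R + 1 : ℝ) ^ d * (η * θ) + 2 * k / (R : ℝ) ^ 2) := by
  rw [M12_cut, Nat.cast_sum]
  refine (Finset.sum_le_card_nsmul _ _ _ fun l _ => M12_one O (en x l) k R hR η θ hη hθ hk).trans (le_of_eq ?_)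
  rw [card_PZ_univ, nsmul_eq_mul]
  ring

end Pool.Agent.RWO
end
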