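import Mathlib
import Pool.Agent.Lib.MP_c35813_pr.Mg.G007
import Pool.Agent.Lib.MP_c35813_pr.Mg.G005

section

set_option autoImplicit false

/-! Task M7: interpolation for a log-convex sequence. -/

namespace Pool.Agent.RWO

theorem M7_left (b : ℕ → ℝ) (hb : Monotone fun k => b (k + 1) - b k) (k₀ q : ℕ) (h : k₀ ≤ q) :
    b q - b k₀ ≤ ((q : ℝ) - k₀) * (b (q + 1) - b q) := by
  induction q, h using Nat.le_induction with
  | base => simp
  | succ q h ih =>
    have h1 : b (q + 1) - b q ≤ b (q + 1 + 1) - b (q + 1) := hb (Nat.le_succ q)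
    have h2 : (k₀ : ℝ) ≤ q := by exact_mod_cast h
    push_cast
    nlinarith

theorem M7_right (b : ℕ → ℝ) (hb : Monotone fun k => b (k + 1) - b k) (q K : ℕ) (h : q ≤ K) :
    ((K : ℝ) - q) * (b (q + 1) - b q) ≤ b K - b q := by
  induction K, h using Nat.le_induction with
  | base => simp
  | succ K h ih =>
    have h1 : b (q + 1) - b q ≤ b (K + 1) - b K := hb h
    push_cast
    linarith

/-- M7. PROOF. `log a` is a convex sequence: the increments `log a (k+1) - log a k` are nondecreasing, so `(K - q)(log a q - log a k₀) ≤ (q - k₀)(log a K - log a q)`. -/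
theorem interp (a : ℕ → ℝ) (pos : ∀ k, 0 < a k) (lc : ∀ k, a (k + 1) ^ 2 ≤ a k * a (k + 2)) (k₀ q K : ℕ) (h1 : k₀ ≤ q) (h2 : q ≤ K) (h3 : k₀ < K) :
    a q ≤ a k₀ ^ (1 - ((q : ℝ) - k₀) / ((K : ℝ) - k₀)) * a K ^ (((q : ℝ) - k₀) / ((K : ℝ) - k₀)) := by
  have hb : Monotone fun k => Real.log (a (k + 1)) - Real.log (a k) := by
    refine monotone_nat_of_le_succ fun k => ?_
    have h4 := Real.log_le_log (pow_pos (pos (k + 1)) 2) (lc k)
    rw [Real.log_pow, Real.log_mul (pos k).ne' (pos (k + 2)).ne'] at h4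
    push_cast at h4
    show Real.log (a (k + 1)) - Real.log (a k) ≤ Real.log (a (k + 1 + 1)) - Real.log (a (k + 1))
    linarith
  have hl := M7_left (fun k => Real.log (a k)) hb k₀ q h1
  have hr := M7_right (fun k => Real.log (a k)) hb q K h2
  have hk : (0 : ℝ) < (K : ℝ) - k₀ := by
    have : (k₀ : ℝ) < K := by exact_mod_cast h3
    linarith
  have hq1 : (0 : ℝ) ≤ (q : ℝ) - k₀ := by
    have : (k₀ : ℝ) ≤ q := by exact_mod_cast h1
    linarith
  have hq2 : (0 : ℝ) ≤ (K : ℝ) - q := by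
    have : (q : ℝ) ≤ K := by exact_mod_cast h2
    linarith
  have h5 : ((K : ℝ) - k₀) * Real.log (a q) ≤
      ((K : ℝ) - q) * Real.log (a k₀) + ((q : ℝ) - k₀) * Real.log (a K) := by
    nlinarith [mul_le_mul_of_nonneg_left hl hq2, mul_le_mul_of_nonneg_left hr hq1]
  rw [Real.rpow_def_of_pos (pos k₀), Real.rpow_def_of_pos (pos K), ← Real.exp_add]
  conv_lhs => rw [← Real.exp_log (pos q)]
  refine Real.exp_le_exp.2 ?_
  have h6 : Real.log (a k₀) * (1 - ((q : ℝ) - k₀) / ((K : ℝ) - k₀)) +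
      Real.log (a K) * (((q : ℝ) - k₀) / ((K : ℝ) - k₀)) =
      (((K : ℝ) - q) * Real.log (a k₀) + ((q : ℝ) - k₀) * Real.log (a K)) / ((K : ℝ) - k₀) := by
    field_simp
    ring
  rw [h6, le_div_iff₀ hk]
  linarith

end Pool.Agent.RWO
end

section

set_option autoImplicit false

/-! Task M8: the kernel bound. -/

namespace Pool.Agent.RWO

variable {d : ℕ}

/-- one site: interpolation between `k₀` and `K` -/
theorem M8_one (O : Set (V d)) (v : V d) (D η B : ℝ) (hD : 0 < D) (k₀ q K : ℕ) (h1 : k₀ ≤ q) (h2 : q ≤ K) (h3 : k₀ < K)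
    (pos : ∀ k, 0 < WP O v v (2 * k)) (hη : (WP O v v (2 * k₀) : ℝ) ≤ η * D ^ (2 * k₀))
    (hB : (WP O v v (2 * K) : ℝ) ≤ B * D ^ (2 * K)) :
    (WP O v v (2 * q) : ℝ) / D ^ (2 * q) ≤
      η ^ (1 - ((q : ℝ) - k₀) / ((K : ℝ) - k₀)) * B ^ (((q : ℝ) - k₀) / ((K : ℝ) - k₀)) := by
  have hpos : ∀ k, 0 < (WP O v v (2 * k) : ℝ) / D ^ (2 * k) := by
    intro k
    have h4 : (0 : ℝ) < (WP O v v (2 * k) : ℝ) := by exact_mod_cast pos k
    positivity
  have hlc : ∀ k, ((WP O v v (2 * (k + 1)) : ℝ) / D ^ (2 * (k + 1))) ^ 2 ≤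
      (WP O v v (2 * k) : ℝ) / D ^ (2 * k) * ((WP O v v (2 * (k + 2)) : ℝ) / D ^ (2 * (k + 2))) := by
    intro k
    have h4 := WP_lc O v k
    have h5 : ((WP O v v (2 * (k + 1)) : ℝ)) ^ 2 ≤ (WP O v v (2 * k) : ℝ) * (WP O v v (2 * (k + 2)) : ℝ) := by
      exact_mod_cast h4
    rw [div_pow, div_mul_div_comm]
    have h6 : (D ^ (2 * (k + 1))) ^ 2 = D ^ (2 * k) * D ^ (2 * (k + 2)) := by
      rw [← pow_mul, ← pow_add]
      congr 1
      ring
    rw [h6]
    exact div_le_div_of_nonneg_right h5 (by positivity)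
  have h4 := interp (fun k => (WP O v v (2 * k) : ℝ) / D ^ (2 * k)) hpos hlc k₀ q K h1 h2 h3
  refine h4.trans ?_
  have hK : (0 : ℝ) < (K : ℝ) - k₀ := by
    have : (k₀ : ℝ) < K := by exact_mod_cast h3
    linarith
  have hq : (0 : ℝ) ≤ (q : ℝ) - k₀ := by
    have : (k₀ : ℝ) ≤ q := by exact_mod_cast h1
    linarith
  have hqK : (q : ℝ) - k₀ ≤ (K : ℝ) - k₀ := by
    have : (q : ℝ) ≤ K := by exact_mod_cast h2
    linarith
  have ht0 : 0 ≤ ((q : ℝ) - k₀) / ((K : ℝ) - k₀) := by positivity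
  have ht1 : ((q : ℝ) - k₀) / ((K : ℝ) - k₀) ≤ 1 := by
    rw [div_le_one hK]
    exact hqK
  have e1 : (WP O v v (2 * k₀) : ℝ) / D ^ (2 * k₀) ≤ η := by
    rw [div_le_iff₀ (by positivity)]
    exact hη
  have e2 : (WP O v v (2 * K) : ℝ) / D ^ (2 * K) ≤ B := by
    rw [div_le_iff₀ (by positivity)]
    exact hB
  have p1 := hpos k₀
  have p2 := hpos K
  exact mul_le_mul (Real.rpow_le_rpow p1.le e1 (by linarith)) (Real.rpow_le_rpow p2.le e2 ht0)
    (Real.rpow_nonneg p2.le _) (Real.rpow_nonneg (p1.le.trans e1) _)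

/-- M8. PROOF. For a site `v` with an open neighbour put `a_k(v) = WP O v v (2k)/(2d)^(2k) > 0` (`WP_loop_pos`), a log-convex sequence (`WP_lc`), `a_{k₀}(v) ≤ η` (`hη`). With `i = s/2`, `j = s - s/2` (both `≥ k₀`, `≤ K`): `WP_cs`:
`(WP O y u s/(2d)^s)² ≤ a_i(y) a_j(u) ≤ η^(1-θ_i) a_K(y)^θ_i η^(1-θ_j) a_K(u)^θ_j` (`interp`, `θ_i = (i - k₀)/(K - k₀)`), and `a_K(y), a_K(u) ≤ (2d)^(2(s+m)) α` (`α = WP O z z (2K')/(2d)^(2K')`, `K' = K + s + m`: the paths
`z → y → u → (loop at u) → y → z` (`m, s, 2K, s, m` steps) and `z → y → u → y → (loop at y) → z`; `WP_mul_le`, `WP_symm`). The exponents: `(1-θ_i) + (1-θ_j) = 2 (1 - θ)`, `θ_i + θ_j = 2θ`, `θ = (s/2 - k₀)/(K - k₀)`.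
(`a_K(u) > 0`: `u` has an open neighbour as `s ≥ 1`, reversed path.) -/
theorem kern (hd : 1 ≤ d) (O : Set (V d)) (z y u : V d) (k₀ m s K : ℕ) (η : ℝ) (hm : 1 ≤ m) (hk : 1 ≤ k₀) (hs : 2 * k₀ ≤ s) (hK : s < K)
    (hη : ∀ v : V d, (WP O v v (2 * k₀) : ℝ) ≤ η * (2 * d : ℝ) ^ (2 * k₀)) (h1 : 0 < WP O z y m) (h2 : 0 < WP O y u s) :
    (WP O y u s : ℝ) ≤ (2 * d : ℝ) ^ s * (η ^ (1 - ((s : ℝ) / 2 - k₀) / ((K : ℝ) - k₀)) *
      ((2 * d : ℝ) ^ (2 * (s + m)) * ((WP O z z (2 * (K + s + m)) : ℝ) / (2 * d : ℝ) ^ (2 * (K + s + m)))) ^ (((s : ℝ) / 2 - k₀) / ((K : ℝ) - k₀))) := by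
  obtain ⟨D, hDd⟩ : ∃ D : ℝ, D = 2 * (d : ℝ) := ⟨_, rfl⟩
  rw [← hDd] at hη ⊢
  have hdr : (1 : ℝ) ≤ (d : ℝ) := by exact_mod_cast hd
  have hD : 0 < D := by rw [hDd]; linarith
  have posy : ∀ k, 0 < WP O y y (2 * k) := fun k => WP_loop_pos O y u s k (by omega) h2
  have h2' : 0 < WP O u y s := by
    rw [WP_symm]
    exact h2
  have h1' : 0 < WP O y z m := by
    rw [WP_symm]
    exact h1
  have posu : ∀ k, 0 < WP O u u (2 * k) := fun k => WP_loop_pos O u y s k (by omega) h2'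
  obtain ⟨B, hB⟩ : ∃ B : ℝ, B = D ^ (2 * (s + m)) * ((WP O z z (2 * (K + s + m)) : ℝ) / D ^ (2 * (K + s + m))) := ⟨_, rfl⟩
  rw [← hB]
  have hBD : B * D ^ (2 * K) = (WP O z z (2 * (K + s + m)) : ℝ) := by
    rw [hB]
    have e1 : D ^ (2 * (K + s + m)) = D ^ (2 * (s + m)) * D ^ (2 * K) := by
      rw [← pow_add]
      congr 1
      ring
    rw [e1]
    field_simp
  -- the loops at `y` and `u`
  have mulpos : ∀ a b : ℕ, 0 < a → b ≤ a * b := fun a b ha => Nat.le_mul_of_pos_left b ha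
  have mulpos' : ∀ a b : ℕ, 0 < a → b ≤ b * a := fun a b ha => Nat.le_mul_of_pos_right b ha
  have hu : WP O u u (2 * K) ≤ WP O z z (2 * (K + s + m)) := by
    have e1 : WP O z u (m + s) ≥ 1 := by
      have := WP_mul_le O z y u m s
      have h3 : 0 < WP O z y m * WP O y u s := Nat.mul_pos h1 h2
      omega
    have e2 : WP O u z (s + m) ≥ 1 := by
      have := WP_mul_le O u y z s m
      have h3 : 0 < WP O u y s * WP O y z m := Nat.mul_pos h2' h1'
      omega
    have e3 := WP_mul_le O z u u (m + s) (2 * K)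
    have e4 := WP_mul_le O z u z (m + s + 2 * K) (s + m)
    have e5 : WP O u u (2 * K) ≤ WP O z u (m + s + 2 * K) := (mulpos _ _ e1).trans e3
    have e6 : m + s + 2 * K + (s + m) = 2 * (K + s + m) := by ring
    rw [e6] at e4
    exact e5.trans ((mulpos' _ _ e2).trans e4)
  have hy : WP O y y (2 * K) ≤ WP O z z (2 * (K + s + m)) := by
    have e1 : WP O z y (m + s + s) ≥ 1 := by
      have h3 : 0 < WP O z y m * WP O y u s := Nat.mul_pos h1 h2
      have h4 := WP_mul_le O z y u m s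
      have h5 : 0 < WP O z u (m + s) * WP O u y s := Nat.mul_pos (by omega) h2'
      have h6 := WP_mul_le O z u y (m + s) s
      omega
    have e3 := WP_mul_le O z y y (m + s + s) (2 * K)
    have e4 := WP_mul_le O z y z (m + s + s + 2 * K) m
    have e5 : WP O y y (2 * K) ≤ WP O z y (m + s + s + 2 * K) := (mulpos _ _ e1).trans e3
    have e6 : m + s + s + 2 * K + m = 2 * (K + s + m) := by ring
    rw [e6] at e4
    exact e5.trans ((mulpos' _ _ h1').trans e4)
  have hBu : (WP O u u (2 * K) : ℝ) ≤ B * D ^ (2 * K) := by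
    rw [hBD]
    exact_mod_cast hu
  have hBy : (WP O y y (2 * K) : ℝ) ≤ B * D ^ (2 * K) := by
    rw [hBD]
    exact_mod_cast hy
  have hB0 : 0 < B := by
    have h3 : (0 : ℝ) < (WP O y y (2 * K) : ℝ) := by exact_mod_cast posy K
    have h4 : 0 < B * D ^ (2 * K) := lt_of_lt_of_le h3 hBy
    exact pos_of_mul_pos_left h4 (by positivity)
  have hη0 : 0 < η := by
    have h3 : (0 : ℝ) < (WP O y y (2 * k₀) : ℝ) := by exact_mod_cast posy k₀
    have h4 : 0 < η * D ^ (2 * k₀) := lt_of_lt_of_le h3 (hη y)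
    exact pos_of_mul_pos_left h4 (by positivity)
  obtain ⟨i, hi⟩ : ∃ i, i = s / 2 := ⟨_, rfl⟩
  obtain ⟨j, hj⟩ : ∃ j, j = s - s / 2 := ⟨_, rfl⟩
  have hij : i + j = s := by omega
  have k1 := M8_one O y D η B hD k₀ i K (by omega) (by omega) (by omega) posy (hη y) hBy
  have k2 := M8_one O u D η B hD k₀ j K (by omega) (by omega) (by omega) posu (hη u) hBu
  have hcs : ((WP O y u s : ℝ) / D ^ s) ^ 2 ≤ (WP O y y (2 * i) : ℝ) / D ^ (2 * i) * ((WP O u u (2 * j) : ℝ) / D ^ (2 * j)) := by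
    have h3 := WP_cs O y u i j
    rw [hij] at h3
    have h4 : ((WP O y u s : ℝ)) ^ 2 ≤ (WP O y y (2 * i) : ℝ) * (WP O u u (2 * j) : ℝ) := by exact_mod_cast h3
    rw [div_pow, div_mul_div_comm]
    have h5 : (D ^ s) ^ 2 = D ^ (2 * i) * D ^ (2 * j) := by
      rw [← pow_mul, ← pow_add]
      congr 1
      omega
    rw [h5]
    exact div_le_div_of_nonneg_right h4 (by positivity)
  obtain ⟨θ, hθ⟩ : ∃ θ : ℝ, θ = ((s : ℝ) / 2 - k₀) / ((K : ℝ) - k₀) := ⟨_, rfl⟩
  obtain ⟨θi, hθi⟩ : ∃ θi : ℝ, θi = ((i : ℝ) - k₀) / ((K : ℝ) - k₀) := ⟨_, rfl⟩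
  obtain ⟨θj, hθj⟩ : ∃ θj : ℝ, θj = ((j : ℝ) - k₀) / ((K : ℝ) - k₀) := ⟨_, rfl⟩
  rw [← hθ]
  rw [← hθi] at k1
  rw [← hθj] at k2
  have hsum : θi + θj = 2 * θ := by
    have hijr : (i : ℝ) + j = s := by exact_mod_cast hij
    rw [hθi, hθj, hθ, ← hijr]
    ring
  have hprod : η ^ (1 - θi) * B ^ θi * (η ^ (1 - θj) * B ^ θj) = (η ^ (1 - θ) * B ^ θ) ^ 2 := by
    have e1 : η ^ (1 - θi) * η ^ (1 - θj) = (η ^ (1 - θ)) ^ 2 := by
      rw [← Real.rpow_add hη0, ← Real.rpow_natCast, ← Real.rpow_mul hη0.le]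
      congr 1
      push_cast
      linarith
    have e2 : B ^ θi * B ^ θj = (B ^ θ) ^ 2 := by
      rw [← Real.rpow_add hB0, ← Real.rpow_natCast, ← Real.rpow_mul hB0.le]
      congr 1
      push_cast
      linarith
    calc η ^ (1 - θi) * B ^ θi * (η ^ (1 - θj) * B ^ θj)
        = (η ^ (1 - θi) * η ^ (1 - θj)) * (B ^ θi * B ^ θj) := by ring
      _ = (η ^ (1 - θ) * B ^ θ) ^ 2 := by rw [e1, e2]; ring
  have hX0 : 0 ≤ η ^ (1 - θ) * B ^ θ := by positivity
  have hY0 : (0 : ℝ) ≤ (WP O u u (2 * j) : ℝ) / D ^ (2 * j) := by positivity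
  have hfin : ((WP O y u s : ℝ) / D ^ s) ^ 2 ≤ (η ^ (1 - θ) * B ^ θ) ^ 2 := by
    rw [← hprod]
    exact hcs.trans (mul_le_mul k1 k2 hY0 (by positivity))
  have h5 : (WP O y u s : ℝ) / D ^ s ≤ η ^ (1 - θ) * B ^ θ :=
    (sq_le_sq₀ (by positivity) hX0).1 hfin
  rw [div_le_iff₀ (by positivity)] at h5
  rw [mul_comm]
  exact h5

end Pool.Agent.RWO
end

section

set_option autoImplicit false

/-! Task M9: cutting the paths. -/

namespace Pool.Agent.RWO

variable {d : ℕ}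

theorem M9_pairs (O : Set (V d)) (z : V d) (A U : Finset (V d)) (m s : ℕ) (C : Finset (List (Stp d)))
    (hC : ∀ c ∈ C, c.length = m + s ∧ Op O z c ∧ en z (c.take m) ∈ A ∧ en z c ∈ U) :
    C.card ≤ ∑ y ∈ A, ∑ u ∈ U, WP O z y m * WP O y u s := by
  classical
  have h1 : C.card ≤ (A.biUnion fun y => U.biUnion fun u => (PZ O z {y} m) ×ˢ (PZ O y {u} s)).card := by
    refine Finset.card_le_card_of_injOn (fun c => (c.take m, c.drop m)) ?_ ?_
    · intro c hc
      obtain ⟨h1, h2, h3, h4⟩ := hC c hc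
      have h5 := h2
      rw [← List.take_append_drop m c, Op_append] at h5
      have h6 : en (en z (c.take m)) (c.drop m) = en z c := by
        rw [← en_append, List.take_append_drop]
      rw [Finset.mem_coe, Finset.mem_biUnion]
      refine ⟨_, h3, ?_⟩
      rw [Finset.mem_biUnion]
      refine ⟨_, h4, ?_⟩
      rw [Finset.mem_product, mem_PZ, mem_PZ]
      refine ⟨⟨?_, h5.1, Set.mem_singleton _⟩, ⟨?_, h5.2, h6⟩⟩
      · rw [List.length_take, h1]; omega
      · rw [List.length_drop, h1]; omega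
    · intro l _ l' _ h
      simp only [Prod.mk.injEq] at h
      rw [← List.take_append_drop m l, ← List.take_append_drop m l', h.1, h.2]
  refine h1.trans (Finset.card_biUnion_le.trans (Finset.sum_le_sum fun y _ =>
    Finset.card_biUnion_le.trans (Finset.sum_le_sum fun u _ => ?_)))
  rw [Finset.card_product, card_PZ_single, card_PZ_single]

open scoped Classical in
/-- M9a. PROOF. A path in the set is `l ++ c₁ ++ c₂` with `l ∈ PZ O x univ t'`, `z = en x l`, `c₁` one of the `WP O z y m` paths to `y ∈ A`, `c₂` one of the `WP O y u s` paths to `u ∈ B`, `u ∈ bxc z (m + s)` (`en_abs`). For fixed `l`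
the number of the `(c₁, c₂)` is `∑_{y ∈ A} WP O z y m ∑_{u ∈ bxc z (m+s), u ∈ B} WP O y u s ≤ #A η₁ N κ(z)`. -/
theorem count_le (O : Set (V d)) (x : V d) (t' m s : ℕ) (G : V d → Prop) (A : Finset (V d)) (B : Set (V d)) (η₁ N : ℝ) (κ : V d → ℝ) (hN : 0 ≤ N) (hη₁ : 0 ≤ η₁)
    (hκ : ∀ z, 0 ≤ κ z) (h1 : ∀ z y : V d, (WP O z y m : ℝ) ≤ η₁)
    (hB : ∀ l ∈ PZ O x Set.univ t', (((bxc (en x l) (m + s)).filter (fun u => u ∈ B)).card : ℝ) ≤ N)
    (h2 : ∀ z y u : V d, 0 < WP O z y m → (WP O y u s : ℝ) ≤ κ z) :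
    (((PZ O x B (t' + m + s)).filter (fun l => en x (l.take (t' + m)) ∈ A ∧ G (en x (l.take t')))).card : ℝ) ≤
      ∑ l ∈ (PZ O x Set.univ t').filter (fun l => G (en x l)), (A.card : ℝ) * η₁ * N * κ (en x l) := by
  have hmap : ∀ l ∈ (PZ O x B (t' + m + s)).filter (fun l => en x (l.take (t' + m)) ∈ A ∧ G (en x (l.take t'))),
      l.take t' ∈ (PZ O x Set.univ t').filter (fun l => G (en x l)) := by
    intro l hl
    rw [Finset.mem_filter, mem_PZ] at hl
    obtain ⟨⟨h3, h4, h5⟩, h6, h7⟩ := hl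
    have h8 := h4
    rw [← List.take_append_drop t' l, Op_append] at h8
    rw [Finset.mem_filter, mem_PZ]
    refine ⟨⟨?_, h8.1, trivial⟩, h7⟩
    rw [List.length_take, h3]; omega
  rw [Finset.card_eq_sum_card_fiberwise hmap, Nat.cast_sum]
  refine Finset.sum_le_sum fun l₀ hl₀ => ?_
  rw [Finset.mem_filter] at hl₀
  obtain ⟨hl₀, -⟩ := hl₀
  set z := en x l₀ with hz
  set F := ((PZ O x B (t' + m + s)).filter (fun l => en x (l.take (t' + m)) ∈ A ∧ G (en x (l.take t')))).filter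
    (fun l => l.take t' = l₀) with hF
  set U := (bxc z (m + s)).filter (fun u => u ∈ B) with hU
  have hUN : (U.card : ℝ) ≤ N := hB l₀ hl₀
  have hFc : F.card = (F.image (fun l => l.drop t')).card := by
    rw [Finset.card_image_of_injOn]
    intro l hl l' hl' h
    rw [Finset.mem_coe, hF, Finset.mem_filter] at hl hl'
    rw [← List.take_append_drop t' l, ← List.take_append_drop t' l', hl.2, hl'.2]
    exact congrArg (fun c => l₀ ++ c) h
  have hP := M9_pairs O z A U m s (F.image (fun l => l.drop t')) (by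
    intro c hc
    rw [Finset.mem_image] at hc
    obtain ⟨l, hl, rfl⟩ := hc
    rw [hF, Finset.mem_filter, Finset.mem_filter, mem_PZ] at hl
    obtain ⟨⟨⟨h3, h4, h5⟩, h6, h7⟩, h9⟩ := hl
    have h8 := h4
    rw [← List.take_append_drop t' l, Op_append, h9] at h8
    have h10 : en z (l.drop t') = en x l := by
      rw [hz, ← h9, ← en_append, List.take_append_drop]
    have hlen : (l.drop t').length = m + s := by
      rw [List.length_drop, h3]; omega
    refine ⟨hlen, h8.2, ?_, ?_⟩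
    · have h11 : en z ((l.drop t').take m) = en x (l.take (t' + m)) := by
        rw [hz, ← h9, ← en_append, ← List.take_add]
      rw [h11]
      exact h6
    · rw [hU, Finset.mem_filter, mem_bxc]
      refine ⟨fun i => ?_, ?_⟩
      · have h12 := en_abs z (l.drop t') i
        rwa [hlen] at h12
      · rw [h10]
        exact h5)
  have hκz := hκ z
  rw [hFc]
  calc ((F.image (fun l => l.drop t')).card : ℝ) ≤ ((∑ y ∈ A, ∑ u ∈ U, WP O z y m * WP O y u s : ℕ) : ℝ) := by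
        exact_mod_cast hP
    _ = ∑ y ∈ A, ∑ u ∈ U, (WP O z y m : ℝ) * (WP O y u s : ℝ) := by push_cast; rfl
    _ ≤ ∑ y ∈ A, ∑ u ∈ U, η₁ * κ z := by
        refine Finset.sum_le_sum fun y _ => Finset.sum_le_sum fun u _ => ?_
        rcases Nat.eq_zero_or_pos (WP O z y m) with h | h
        · rw [h, Nat.cast_zero, zero_mul]
          exact mul_nonneg hη₁ hκz
        · exact mul_le_mul (h1 z y) (h2 z y u h) (Nat.cast_nonneg _) hη₁
    _ = (A.card : ℝ) * ((U.card : ℝ) * (η₁ * κ z)) := by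
        rw [Finset.sum_const, Finset.sum_const, nsmul_eq_mul, nsmul_eq_mul]
    _ ≤ (A.card : ℝ) * (N * (η₁ * κ z)) :=
        mul_le_mul_of_nonneg_left (mul_le_mul_of_nonneg_right hUN (mul_nonneg hη₁ hκz)) (Nat.cast_nonneg _)
    _ = (A.card : ℝ) * η₁ * N * κ z := by ring

open scoped Classical in
theorem M9b_fib (O : Set (V d)) (x z : V d) (t' r : ℕ) (q : List (Stp d) → Prop) :
    ((PR O x Set.univ t' r).filter (fun P => q P.1 ∧ en x P.1 = z)).card = ((PZ O x {z} t').filter (fun l => q l)).card * NP O z r := by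
  unfold NP
  rw [← Finset.card_product]
  congr 1
  ext ⟨l, m⟩
  simp only [Finset.mem_filter, Finset.mem_product, mem_PR, mem_PZ, mem_LL, Set.mem_singleton_iff, Set.mem_univ]
  constructor
  · rintro ⟨h, h1, h2⟩
    subst h2
    tauto
  · rintro ⟨⟨h, h1⟩, h2⟩
    obtain ⟨h3, h4, h5⟩ := h
    subst h5
    tauto

open scoped Classical in
/-- M9b. -/
theorem bad_le (O : Set (V d)) (x : V d) (t' r B : ℕ) :
    ((PR O x Set.univ t' r).filter (fun P => 2 * ((PZ O x {en x P.1} t').filter (fun l' => B ≤ bt l')).card < WP O x (en x P.1) t')).card ≤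
      2 * ((PR O x Set.univ t' r).filter (fun P => bt P.1 < B)).card := by
  set Z : Finset (V d) := (PR O x Set.univ t' r).image (fun P => en x P.1) with hZ
  rw [Finset.card_eq_sum_card_fiberwise (f := fun P : List (Stp d) × List (Stp d) => en x P.1) (t := Z)
      (fun P hP => Finset.mem_image_of_mem _ (Finset.mem_of_mem_filter P hP)),
    Finset.card_eq_sum_card_fiberwise (s := (PR O x Set.univ t' r).filter (fun P => bt P.1 < B)) (f := fun P : List (Stp d) × List (Stp d) => en x P.1) (t := Z)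
      (fun P hP => Finset.mem_image_of_mem _ (Finset.mem_of_mem_filter P hP)), Finset.mul_sum]
  refine Finset.sum_le_sum fun z _ => ?_
  rw [Finset.filter_filter, Finset.filter_filter]
  have h2 : ((PR O x Set.univ t' r).filter (fun P => bt P.1 < B ∧ en x P.1 = z)).card = ((PZ O x {z} t').filter (fun l => bt l < B)).card * NP O z r := by
    convert M9b_fib O x z t' r (fun l => bt l < B)
  rw [h2]
  by_cases hz : 2 * ((PZ O x {z} t').filter (fun l' => B ≤ bt l')).card < WP O x z t'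
  · have h1 : ((PR O x Set.univ t' r).filter (fun P => True ∧ en x P.1 = z)).card = WP O x z t' * NP O z r := by
      rw [← card_PZ_single]
      have h5 := M9b_fib O x z t' r (fun _ => True)
      rw [Finset.filter_true] at h5
      rw [← h5]
      congr
    have h3 : ((PZ O x {z} t').filter (fun l' => B ≤ bt l')).card + ((PZ O x {z} t').filter (fun l' => bt l' < B)).card = WP O x z t' := by
      rw [← card_PZ_single, ← Finset.card_filter_add_card_filter_not (s := PZ O x {z} t') (fun l' => B ≤ bt l')]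
      congr 2
      ext l
      simp
    refine le_trans (Finset.card_le_card (t := (PR O x Set.univ t' r).filter (fun P => True ∧ en x P.1 = z)) ?_) ?_
    · intro P hP
      rw [Finset.mem_filter] at hP ⊢
      exact ⟨hP.1, trivial, hP.2.2⟩
    · refine le_trans (le_of_eq ?_) (le_trans (h1.le.trans (Nat.mul_le_mul_right _ (show _ ≤ 2 * ((PZ O x {z} t').filter (fun l => bt l < B)).card by omega))) (mul_assoc _ _ _).le)
      congr
  · rw [Finset.card_eq_zero.2]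
    · exact Nat.zero_le _
    · rw [Finset.filter_eq_empty_iff]
      rintro P hP ⟨h, rfl⟩
      exact hz h

end Pool.Agent.RWO
end

section

set_option autoImplicit false

/-! Task X2: killing. -/

namespace Pool.Agent.RWO

variable {d : ℕ}

open scoped Classical in
/-- X2a. PROOF. The open paths of length `τ + b` are the `l ++ c`, `l` open of length `τ`, `c` open of length `b` from `en u l`. For an `l` of the filter at most `(2d)^b - 1` of the `c ∈ LL d b` are open (extend the `c` of the filter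
to length `b`; it passes through a site outside `O`, `Op_append`, `Op_end`). -/
theorem kill (hd : 1 ≤ d) (O : Set (V d)) (u : V d) (τ b : ℕ) :
    NP O u (τ + b) + ((PZ O u Set.univ τ).filter (fun l => ∃ c : List (Stp d), c.length ≤ b ∧ en (en u l) c ∉ O)).card ≤ NP O u τ * (2 * d) ^ b := by
  classical
  have h0 : ∀ l : List (Stp d), ∃ c' : List (Stp d), (∃ c : List (Stp d), c.length ≤ b ∧ en (en u l) c ∉ O) →
      c'.length = b ∧ ¬ Op O (en u l) c' := by
    intro l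
    by_cases h : ∃ c : List (Stp d), c.length ≤ b ∧ en (en u l) c ∉ O
    · obtain ⟨c, hc, hcO⟩ := h
      refine ⟨c ++ List.replicate (b - c.length) (⟨0, hd⟩, true), fun _ => ⟨?_, ?_⟩⟩
      · rw [List.length_append, List.length_replicate]
        omega
      · intro hop
        rw [Op_append] at hop
        exact hcO (Op_end hop.1)
    · exact ⟨[], fun h' => absurd h' h⟩
  choose g hg using h0
  rw [← card_PR_univ, ← card_PZ_univ, ← card_LL (d := d) b, ← Finset.card_product]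
  have hinj : Set.InjOn (fun l : List (Stp d) => (l, g l))
      (((PZ O u Set.univ τ).filter (fun l => ∃ c : List (Stp d), c.length ≤ b ∧ en (en u l) c ∉ O) : Finset (List (Stp d))) : Set (List (Stp d))) := by
    intro l _ l' _ h
    exact (Prod.mk.inj h).1
  rw [← Finset.card_image_of_injOn hinj, ← Finset.card_union_of_disjoint]
  · refine Finset.card_le_card ?_
    intro P hP
    rw [Finset.mem_union] at hP
    rw [Finset.mem_product]
    rcases hP with hP | hP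
    · rw [mem_PR] at hP
      exact ⟨mem_PZ.2 ⟨hP.1, hP.2.2.1, trivial⟩, mem_LL.2 hP.2.1⟩
    · rw [Finset.mem_image] at hP
      obtain ⟨l, hl, rfl⟩ := hP
      rw [Finset.mem_filter] at hl
      exact ⟨hl.1, mem_LL.2 (hg l hl.2).1⟩
  · rw [Finset.disjoint_left]
    intro P hP hP'
    rw [mem_PR] at hP
    rw [Finset.mem_image] at hP'
    obtain ⟨l, hl, rfl⟩ := hP'
    rw [Finset.mem_filter] at hl
    exact (hg l hl.2).2 hP.2.2.2.2

theorem reach_aux (n : ℕ) : ∀ v v' : V d, (∑ i, (v i - v' i).natAbs) = n → ∃ c : List (Stp d), c.length = n ∧ en v c = v' := by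
  induction n with
  | zero =>
    intro v v' h
    refine ⟨[], rfl, ?_⟩
    funext i
    have h1 := (Finset.sum_eq_zero_iff.1 h) i (Finset.mem_univ i)
    show v i = v' i
    omega
  | succ n ih =>
    intro v v' h
    have hex : ∃ i, (v i - v' i).natAbs ≠ 0 := by
      by_contra hc
      push Not at hc
      rw [Finset.sum_eq_zero (fun i _ => hc i)] at h
      omega
    obtain ⟨i, hi⟩ := hex
    have key : ∃ e : Stp d, e.1 = i ∧ ((v + vec e) i - v' i).natAbs + 1 = (v i - v' i).natAbs := by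
      by_cases hlt : v i < v' i
      · refine ⟨(i, true), rfl, ?_⟩
        have : (v + vec ((i, true) : Stp d)) i = v i + 1 := by
          simp [vec]
        rw [this]
        omega
      · refine ⟨(i, false), rfl, ?_⟩
        have : (v + vec ((i, false) : Stp d)) i = v i - 1 := by
          simp [vec, sub_eq_add_neg]
        rw [this]
        omega
    obtain ⟨e, he, hk⟩ := key
    have hne : ∀ j, j ≠ i → (v + vec e) j = v j := by
      intro j hj
      have : vec e j = 0 := by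
        unfold vec
        rw [he, Pi.single_eq_of_ne hj]
      rw [Pi.add_apply, this, add_zero]
    have hsum : (∑ j, ((v + vec e) j - v' j).natAbs) = n := by
      have h1 := Finset.add_sum_erase Finset.univ (fun j => (v j - v' j).natAbs) (Finset.mem_univ i)
      have h2 := Finset.add_sum_erase Finset.univ (fun j => ((v + vec e) j - v' j).natAbs) (Finset.mem_univ i)
      have h3 : ∑ j ∈ Finset.univ.erase i, ((v + vec e) j - v' j).natAbs = ∑ j ∈ Finset.univ.erase i, (v j - v' j).natAbs := by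
        refine Finset.sum_congr rfl fun j hj => ?_
        rw [hne j (Finset.ne_of_mem_erase hj)]

      omega
    obtain ⟨c, hc, hcv⟩ := ih (v + vec e) v' hsum
    refine ⟨e :: c, ?_, ?_⟩
    · rw [List.length_cons, hc]
    · exact hcv

/-- X2b. PROOF. `|v i - v' i|` steps in the direction `i`, for every `i`. Induction on `∑ i, |v i - v' i|`. -/
theorem reach_le (v v' : V d) (b : ℕ) (h : ∀ i, |v i - v' i| ≤ (b : ℤ)) : ∃ c : List (Stp d), c.length ≤ d * b ∧ en v c = v' := by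
  obtain ⟨c, hc, hcv⟩ := reach_aux (∑ i, (v i - v' i).natAbs) v v' rfl
  refine ⟨c, ?_, hcv⟩
  rw [hc]
  calc (∑ i, (v i - v' i).natAbs) ≤ ∑ _i : Fin d, b := by
        refine Finset.sum_le_sum fun i _ => ?_
        have := h i
        rw [Int.abs_eq_natAbs] at this
        exact_mod_cast this
    _ = d * b := by simp

end Pool.Agent.RWO
end

section

set_option autoImplicit false

/-! Task X3: the survival probability is small if almost no cell is open. -/

namespace Pool.Agent.RWO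

variable {d : ℕ}

open scoped Classical in
/-- The open paths of length `τ` which end close to a closed site. -/
noncomputable def X3_F (O : Set (V d)) (u : V d) (b τ : ℕ) : Finset (List (Stp d)) :=
  (PZ O u Set.univ τ).filter (fun l => ∃ c : List (Stp d), c.length ≤ b ∧ en (en u l) c ∉ O)

theorem X3_pos (hd : 1 ≤ d) : (0 : ℝ) < 2 * d := by
  have : (1 : ℝ) ≤ d := by exact_mod_cast hd
  linarith

theorem X3_kill (hd : 1 ≤ d) (O : Set (V d)) (u : V d) (b τ : ℕ) :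
    ((X3_F O u b τ).card : ℝ) / (2 * d : ℝ) ^ τ + (2 * d : ℝ) ^ b * ((NP O u (τ + b) : ℝ) / (2 * d : ℝ) ^ (τ + b)) ≤
      (2 * d : ℝ) ^ b * ((NP O u τ : ℝ) / (2 * d : ℝ) ^ τ) := by
  have hD := X3_pos hd
  have h := kill hd O u τ b
  have h1 : (NP O u (τ + b) : ℝ) + ((X3_F O u b τ).card : ℝ) ≤ (NP O u τ : ℝ) * (2 * d : ℝ) ^ b := by
    unfold X3_F
    exact_mod_cast h
  have h2 : (2 * d : ℝ) ^ b * ((NP O u (τ + b) : ℝ) / (2 * d : ℝ) ^ (τ + b)) = (NP O u (τ + b) : ℝ) / (2 * d : ℝ) ^ τ := by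
    rw [pow_add]
    have hb : (2 * d : ℝ) ^ b ≠ 0 := (pow_pos hD b).ne'
    have ht : (2 * d : ℝ) ^ τ ≠ 0 := (pow_pos hD τ).ne'
    field_simp
  rw [h2, ← add_div, mul_div_assoc', div_le_div_iff_of_pos_right (pow_pos hD τ)]
  linarith

theorem X3_sum (hd : 1 ≤ d) (O : Set (V d)) (u : V d) (b τ₀ I : ℕ) :
    ∑ i ∈ Finset.range I, ((X3_F O u b (τ₀ + i * b)).card : ℝ) / (2 * d : ℝ) ^ (τ₀ + i * b) +
      (2 * d : ℝ) ^ b * ((NP O u (τ₀ + I * b) : ℝ) / (2 * d : ℝ) ^ (τ₀ + I * b)) ≤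
      (2 * d : ℝ) ^ b * ((NP O u τ₀ : ℝ) / (2 * d : ℝ) ^ τ₀) := by
  induction I with
  | zero => simp
  | succ I ih =>
    rw [Finset.sum_range_succ]
    have h := X3_kill hd O u b (τ₀ + I * b)
    have h2 : τ₀ + I * b + b = τ₀ + (I + 1) * b := by ring
    rw [h2] at h
    linarith

theorem X3_NP_le (O : Set (V d)) (u : V d) (τ : ℕ) : (NP O u τ : ℝ) ≤ (2 * d : ℝ) ^ τ := by
  have h : NP O u τ ≤ (2 * d) ^ τ := by
    classical
    unfold NP
    rw [← card_LL (d := d) τ]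
    exact Finset.card_filter_le _ _
  exact_mod_cast h

open scoped Classical in
theorem X3_step (hd : 1 ≤ d) (C : ℝ) (hC0 : 0 < C)
    (hC : ∀ m : ℕ, 1 ≤ m → ∀ x y : V d, (((LL d m).filter (fun l => en x l = y)).card : ℝ) ≤ C * (2 * d : ℝ) ^ m / (m : ℝ) ^ ((d : ℝ) / 2))
    (O : Set (V d)) (u : V d) (E : Finset (V d)) (b τ₀ m R τ : ℕ) (hτ : 1 ≤ τ₀) (h1 : τ₀ ≤ τ) (h2 : τ ≤ m) (hR : 1 ≤ R)
    (hE : ∀ v : V d, (∀ i, |v i - u i| ≤ (R : ℤ)) → v ∉ E → ∃ c : List (Stp d), c.length ≤ b ∧ en v c ∉ O) :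
    (NP O u τ : ℝ) / (2 * d : ℝ) ^ τ ≤ ((X3_F O u b τ).card : ℝ) / (2 * d : ℝ) ^ τ +
      ((E.card : ℝ) * C / (τ₀ : ℝ) ^ ((d : ℝ) / 2) + m / (R : ℝ) ^ 2) := by
  have hD := X3_pos hd
  have hDτ : (0 : ℝ) < (2 * d : ℝ) ^ τ := pow_pos hD τ
  -- the splitting of the open paths
  have hsub : PZ O u Set.univ τ ⊆ (X3_F O u b τ ∪ (E.biUnion fun y => (LL d τ).filter (fun l => en u l = y))) ∪
      (LL d τ).filter (fun l => ∃ i, (R : ℤ) < |en u l i - u i|) := by
    intro l hl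
    have hl' := mem_PZ.1 hl
    have hLL : l ∈ LL d τ := mem_LL.2 hl'.1
    rw [Finset.mem_union, Finset.mem_union]
    by_cases hf : ∀ i, |en u l i - u i| ≤ (R : ℤ)
    · by_cases he : en u l ∈ E
      · left; right
        rw [Finset.mem_biUnion]
        exact ⟨en u l, he, Finset.mem_filter.2 ⟨hLL, rfl⟩⟩
      · left; left
        unfold X3_F
        exact Finset.mem_filter.2 ⟨hl, hE _ hf he⟩
    · right
      push Not at hf
      exact Finset.mem_filter.2 ⟨hLL, hf⟩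
  have hcard : NP O u τ ≤ (X3_F O u b τ).card + (E.biUnion fun y => (LL d τ).filter (fun l => en u l = y)).card +
      ((LL d τ).filter (fun l => ∃ i, (R : ℤ) < |en u l i - u i|)).card := by
    rw [← card_PZ_univ]
    refine (Finset.card_le_card hsub).trans ((Finset.card_union_le _ _).trans ?_)
    exact Nat.add_le_add_right (Finset.card_union_le _ _) _
  -- the three parts
  have hτR : (0 : ℝ) < (τ₀ : ℝ) := by exact_mod_cast hτ
  have hpw : (0 : ℝ) < (τ₀ : ℝ) ^ ((d : ℝ) / 2) := Real.rpow_pos_of_pos hτR _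
  have hpart2 : ((E.biUnion fun y => (LL d τ).filter (fun l => en u l = y)).card : ℝ) ≤
      (E.card : ℝ) * C / (τ₀ : ℝ) ^ ((d : ℝ) / 2) * (2 * d : ℝ) ^ τ := by
    have ha : ((E.biUnion fun y => (LL d τ).filter (fun l => en u l = y)).card : ℝ) ≤
        ∑ y ∈ E, (((LL d τ).filter (fun l => en u l = y)).card : ℝ) := by
      exact_mod_cast Finset.card_biUnion_le
    have hb : ∀ y ∈ E, (((LL d τ).filter (fun l => en u l = y)).card : ℝ) ≤ C * (2 * d : ℝ) ^ τ / (τ₀ : ℝ) ^ ((d : ℝ) / 2) := by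
      intro y _
      refine (hC τ (hτ.trans h1) u y).trans ?_
      refine div_le_div_of_nonneg_left (by positivity) hpw ?_
      exact Real.rpow_le_rpow hτR.le (by exact_mod_cast h1) (by positivity)
    calc ((E.biUnion fun y => (LL d τ).filter (fun l => en u l = y)).card : ℝ) ≤ _ := ha
      _ ≤ ∑ _y ∈ E, C * (2 * d : ℝ) ^ τ / (τ₀ : ℝ) ^ ((d : ℝ) / 2) := Finset.sum_le_sum hb
      _ = (E.card : ℝ) * C / (τ₀ : ℝ) ^ ((d : ℝ) / 2) * (2 * d : ℝ) ^ τ := by
        rw [Finset.sum_const, nsmul_eq_mul]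
        ring
  have hRR : (0 : ℝ) < (R : ℝ) ^ 2 := by
    have : (0 : ℝ) < (R : ℝ) := by exact_mod_cast hR
    positivity
  have hpart3 : (((LL d τ).filter (fun l => ∃ i, (R : ℤ) < |en u l i - u i|)).card : ℝ) ≤
      m / (R : ℝ) ^ 2 * (2 * d : ℝ) ^ τ := by
    have ht := tail (d := d) τ R u
    have ht' : (((LL d τ).filter (fun l => ∃ i, (R : ℤ) < |en u l i - u i|)).card : ℝ) * (R : ℝ) ^ 2 ≤
        (τ : ℝ) * (2 * d : ℝ) ^ τ := by
      exact_mod_cast ht
    rw [div_mul_eq_mul_div, le_div_iff₀ hRR]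
    refine ht'.trans ?_
    exact mul_le_mul_of_nonneg_right (by exact_mod_cast h2) hDτ.le
  have hfin : (NP O u τ : ℝ) ≤ ((X3_F O u b τ).card : ℝ) +
      ((E.card : ℝ) * C / (τ₀ : ℝ) ^ ((d : ℝ) / 2) + m / (R : ℝ) ^ 2) * (2 * d : ℝ) ^ τ := by
    have hc : (NP O u τ : ℝ) ≤ ((X3_F O u b τ).card : ℝ) +
        ((E.biUnion fun y => (LL d τ).filter (fun l => en u l = y)).card : ℝ) +
        (((LL d τ).filter (fun l => ∃ i, (R : ℤ) < |en u l i - u i|)).card : ℝ) := by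
      exact_mod_cast hcard
    linarith
  rw [div_le_iff₀ hDτ, add_mul, div_mul_cancel₀ _ hDτ.ne']
  exact hfin

theorem X3_anti (hd : 1 ≤ d) (O : Set (V d)) (u : V d) (τ m : ℕ) (h : τ ≤ m) :
    (NP O u m : ℝ) / (2 * d : ℝ) ^ m ≤ (NP O u τ : ℝ) / (2 * d : ℝ) ^ τ := by
  have hD := X3_pos hd
  obtain ⟨k, rfl⟩ := Nat.exists_eq_add_of_le h
  have h1 : (NP O u (τ + k) : ℝ) ≤ (NP O u τ : ℝ) * (2 * d : ℝ) ^ k := by
    exact_mod_cast NP_add_le O u τ k
  rw [div_le_div_iff₀ (pow_pos hD _) (pow_pos hD _), pow_add]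
  calc (NP O u (τ + k) : ℝ) * (2 * d : ℝ) ^ τ ≤ (NP O u τ : ℝ) * (2 * d : ℝ) ^ k * (2 * d : ℝ) ^ τ :=
        mul_le_mul_of_nonneg_right h1 (pow_pos hD _).le
    _ = (NP O u τ : ℝ) * ((2 * d : ℝ) ^ τ * (2 * d : ℝ) ^ k) := by ring

open scoped Classical in
/-- X3. PROOF. `p_τ = NP O u τ/(2d)^τ` (nonincreasing by `NP_add_le`), `τ_i = τ₀ + i b` (`i < I`), `a_i = #{l ∈ PZ O u univ τ_i : ∃ c, |c| ≤ b, en (en u l) c ∉ O}/(2d)^τ_i`. `kill`: `p_{τ_{i+1}} ≤ p_{τ_i} - a_i/(2d)^b`, so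
`∑_i a_i ≤ (2d)^b p_{τ₀} ≤ (2d)^b`. An open `l` of length `τ_i` which is not counted in `a_i` ends in `E` or outside `bxc u R` (`hE`): `p_m ≤ p_{τ_i} ≤ a_i + #E C/τ_i^(d/2) + τ_i/R²` (`hC`, `tail`), `τ₀ ≤ τ_i ≤ m`. Sum over `i < I`,
divide by `I`. -/
theorem few_surv (hd : 1 ≤ d) (C : ℝ) (hC0 : 0 < C)
    (hC : ∀ m : ℕ, 1 ≤ m → ∀ x y : V d, (((LL d m).filter (fun l => en x l = y)).card : ℝ) ≤ C * (2 * d : ℝ) ^ m / (m : ℝ) ^ ((d : ℝ) / 2))
    (O : Set (V d)) (u : V d) (E : Finset (V d)) (b I τ₀ m R : ℕ) (hI : 1 ≤ I) (hτ : 1 ≤ τ₀) (hm : τ₀ + I * b ≤ m) (hR : 1 ≤ R)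
    (hE : ∀ v : V d, (∀ i, |v i - u i| ≤ (R : ℤ)) → v ∉ E → ∃ c : List (Stp d), c.length ≤ b ∧ en v c ∉ O) :
    (NP O u m : ℝ) ≤ (2 * d : ℝ) ^ m * ((2 * d : ℝ) ^ b / I + (E.card : ℝ) * C / (τ₀ : ℝ) ^ ((d : ℝ) / 2) + m / (R : ℝ) ^ 2) := by
  have hD := X3_pos hd
  have hDm : (0 : ℝ) < (2 * d : ℝ) ^ m := pow_pos hD m
  have hIR : (0 : ℝ) < (I : ℝ) := by exact_mod_cast hI
  set S : ℝ := (E.card : ℝ) * C / (τ₀ : ℝ) ^ ((d : ℝ) / 2) + m / (R : ℝ) ^ 2 with hS
  set p : ℝ := (NP O u m : ℝ) / (2 * d : ℝ) ^ m with hp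
  have h1 : ∀ i ∈ Finset.range I, p ≤ ((X3_F O u b (τ₀ + i * b)).card : ℝ) / (2 * d : ℝ) ^ (τ₀ + i * b) + S := by
    intro i hi
    rw [Finset.mem_range] at hi
    have hle : τ₀ + i * b ≤ m := (Nat.add_le_add_left (Nat.mul_le_mul_right b hi.le) τ₀).trans hm
    exact (X3_anti hd O u _ m hle).trans
      (X3_step hd C hC0 hC O u E b τ₀ m R _ hτ (Nat.le_add_right _ _) hle hR hE)
  have h2 := Finset.sum_le_sum h1
  rw [Finset.sum_const, Finset.card_range, nsmul_eq_mul, Finset.sum_add_distrib, Finset.sum_const, Finset.card_range,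
    nsmul_eq_mul] at h2
  have h3 := X3_sum hd O u b τ₀ I
  have h4 : (0 : ℝ) ≤ (2 * d : ℝ) ^ b * ((NP O u (τ₀ + I * b) : ℝ) / (2 * d : ℝ) ^ (τ₀ + I * b)) := by positivity
  have h5 : (2 * d : ℝ) ^ b * ((NP O u τ₀ : ℝ) / (2 * d : ℝ) ^ τ₀) ≤ (2 * d : ℝ) ^ b := by
    have : (NP O u τ₀ : ℝ) / (2 * d : ℝ) ^ τ₀ ≤ 1 := (div_le_one (pow_pos hD _)).2 (X3_NP_le O u τ₀)
    calc (2 * d : ℝ) ^ b * ((NP O u τ₀ : ℝ) / (2 * d : ℝ) ^ τ₀) ≤ (2 * d : ℝ) ^ b * 1 :=
          mul_le_mul_of_nonneg_left this (pow_pos hD b).le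
      _ = (2 * d : ℝ) ^ b := mul_one _
  have h6 : p ≤ (2 * d : ℝ) ^ b / I + S := by
    rw [← sub_le_iff_le_add, le_div_iff₀ hIR]
    nlinarith
  have h7 : (NP O u m : ℝ) = (2 * d : ℝ) ^ m * p := by
    rw [hp, mul_div_cancel₀ _ hDm.ne']
  rw [h7]
  refine mul_le_mul_of_nonneg_left ?_ hDm.le
  rw [hS] at h6
  linarith

end Pool.Agent.RWO
end
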