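import Pool.Agent.Lib.MP_c35813_pr.Mg.G007
import Pool.Agent.Lib.MP_c35813_pr.Mg.G010
import Pool.Agent.Lib.MP_c35813_pr.Mg.G001
import Pool.Agent.Lib.MP_c35813_pr.Mg.G005

section

set_option autoImplicit false

/-! Task X4: many sites with a good chance to survive need many open cells. -/

namespace Pool.Agent.RWO

variable {d : ℕ}

open scoped Classical in
/-- X4a. PROOF. `∑_{u ∈ S} #(bxc u R ∩ E) = ∑_{e ∈ bxc z (L+R), e ∈ E} #{u ∈ S : e ∈ bxc u R} ≤ #(bxc z (L+R) ∩ E) (2R+1)^d` (`card_bxc`; `u ∈ bxc e R`). -/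
theorem dcount (S : Finset (V d)) (E : Set (V d)) (z : V d) (L R : ℕ) (ρ : ℝ) (hS : S ⊆ bxc z L)
    (hρ : ∀ u ∈ S, ρ ≤ (((bxc u R).filter (fun v => v ∈ E)).card : ℝ)) :
    ρ * S.card ≤ (((bxc z (L + R)).filter (fun v => v ∈ E)).card : ℝ) * (2 * R + 1 : ℝ) ^ d := by
  have h1 : ρ * S.card ≤ ((∑ u ∈ S, ((bxc u R).filter (fun v => v ∈ E)).card : ℕ) : ℝ) := by
    push_cast
    calc ρ * S.card = ∑ _u ∈ S, ρ := by rw [Finset.sum_const, nsmul_eq_mul, mul_comm]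
      _ ≤ _ := Finset.sum_le_sum hρ
  have h2 : ∑ u ∈ S, ((bxc u R).filter (fun v => v ∈ E)).card ≤
      ((bxc z (L + R)).filter (fun v => v ∈ E)).card * (2 * R + 1) ^ d := by
    calc ∑ u ∈ S, ((bxc u R).filter (fun v => v ∈ E)).card
        ≤ ∑ u ∈ S, (((bxc z (L + R)).filter (fun v => v ∈ E)).filter (fun v => v ∈ bxc u R)).card := by
          refine Finset.sum_le_sum fun u hu => Finset.card_le_card fun v hv => ?_
          rw [Finset.mem_filter] at hv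
          rw [Finset.mem_filter, Finset.mem_filter]
          refine ⟨⟨?_, hv.2⟩, hv.1⟩
          have hu' := mem_bxc.1 (hS hu)
          have hv' := mem_bxc.1 hv.1
          refine mem_bxc.2 fun i => ?_
          have h3 : v i - z i = (v i - u i) + (u i - z i) := by ring
          rw [h3]
          push_cast
          have h4 := abs_add_le (v i - u i) (u i - z i)
          have h5 := hu' i
          have h6 := hv' i
          linarith
      _ = ∑ v ∈ (bxc z (L + R)).filter (fun v => v ∈ E), (S.filter (fun u => v ∈ bxc u R)).card := by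
          simp only [Finset.card_filter]
          rw [Finset.sum_comm]
      _ ≤ ∑ _v ∈ (bxc z (L + R)).filter (fun v => v ∈ E), (2 * R + 1) ^ d := by
          refine Finset.sum_le_sum fun v _ => ?_
          rw [← card_bxc v R]
          refine Finset.card_le_card fun u hu => ?_
          rw [Finset.mem_filter] at hu
          refine mem_bxc.2 fun i => ?_
          rw [abs_sub_comm]
          exact mem_bxc.1 hu.2 i
      _ = _ := by rw [Finset.sum_const, smul_eq_mul]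
  refine h1.trans ?_
  exact_mod_cast h2

open scoped Classical in
/-- X4b. PROOF. Fibres of `cel b`: the sites of one cell are the `b^d` elements of `csit b w` (`mem_csit`, `card_csit`), and the cell of an element of `EE b O` is contained in `O`. -/
theorem cells_ge (b : ℕ) (hb : 1 ≤ b) (O : Set (V d)) (T : Finset (V d)) :
    (T.filter (fun v => v ∈ EE b O)).card ≤ ((T.image (cel b)).filter (fun w => ((csit b w : Finset (V d)) : Set (V d)) ⊆ O)).card * b ^ d := by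
  rw [mul_comm]
  refine Finset.card_le_mul_card_image_of_maps_to (f := cel b) ?_ (b ^ d) ?_
  · intro v hv
    rw [Finset.mem_filter] at hv
    rw [Finset.mem_filter]
    refine ⟨Finset.mem_image_of_mem _ hv.1, ?_⟩
    intro v' hv'
    exact hv.2 v' ((mem_csit hb).1 (Finset.mem_coe.1 hv'))
  · intro w _
    rw [← card_csit b w]
    refine Finset.card_le_card fun v hv => ?_
    rw [Finset.mem_filter] at hv
    exact (mem_csit hb).2 hv.2

open scoped Classical in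
/-- X4c. PROOF. For `u` in the filter on the left, `few_surv` with `b := d b`, `E = (bxc u R).filter (· ∈ EE b O)` (a site `v ∈ bxc u R` not in `EE b O` has a site `v' ∉ O` in its cell, `|v i - v' i| ≤ b`, `reach_le`) gives
`θ ≤ θ/4 + #E C/τ₀^(d/2) + θ/4`, so `#E ≥ (θ/2) τ₀^(d/2)/C =: ρ`. `dcount` with `S` the filter, then `cells_ge` with `T = bxc z (L + R)`. -/
theorem many_cells (hd : 1 ≤ d) (C : ℝ) (hC0 : 0 < C)
    (hC : ∀ m : ℕ, 1 ≤ m → ∀ x y : V d, (((LL d m).filter (fun l => en x l = y)).card : ℝ) ≤ C * (2 * d : ℝ) ^ m / (m : ℝ) ^ ((d : ℝ) / 2))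
    (O : Set (V d)) (z : V d) (L R b τ₀ m I : ℕ) (θ : ℝ) (hθ : 0 < θ) (hb : 1 ≤ b) (hI : 1 ≤ I) (hτ : 1 ≤ τ₀) (hm : τ₀ + I * (d * b) ≤ m) (hR : 1 ≤ R)
    (h1 : (2 * d : ℝ) ^ (d * b) / I ≤ θ / 4) (h2 : (m : ℝ) / (R : ℝ) ^ 2 ≤ θ / 4) :
    θ / 2 * (τ₀ : ℝ) ^ ((d : ℝ) / 2) / C * (((bxc z L).filter (fun u => θ * (2 * d : ℝ) ^ m ≤ (NP O u m : ℝ))).card : ℝ) ≤
      (2 * R + 1 : ℝ) ^ d * (b : ℝ) ^ d *
        ((((bxc z (L + R)).image (cel b)).filter (fun w => ((csit b w : Finset (V d)) : Set (V d)) ⊆ O)).card : ℝ) := by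
  have hτR : (0 : ℝ) < (τ₀ : ℝ) ^ ((d : ℝ) / 2) := Real.rpow_pos_of_pos (by exact_mod_cast hτ) _
  have hdR : (0 : ℝ) < (2 * d : ℝ) ^ m := by
    have : (0 : ℝ) < d := by exact_mod_cast hd
    positivity
  have key : ∀ u ∈ (bxc z L).filter (fun u => θ * (2 * d : ℝ) ^ m ≤ (NP O u m : ℝ)),
      θ / 2 * (τ₀ : ℝ) ^ ((d : ℝ) / 2) / C ≤ (((bxc u R).filter (fun v => v ∈ EE b O)).card : ℝ) := by
    intro u hu
    have hu2 := (Finset.mem_filter.1 hu).2
    have h3 := few_surv hd C hC0 hC O u ((bxc u R).filter (fun v => v ∈ EE b O)) (d * b) I τ₀ m R hI hτ hm hR ?_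
    · have h4 : θ * (2 * d : ℝ) ^ m ≤ (2 * d : ℝ) ^ m * (θ / 2 +
          (((bxc u R).filter (fun v => v ∈ EE b O)).card : ℝ) * C / (τ₀ : ℝ) ^ ((d : ℝ) / 2)) := by
        refine hu2.trans (h3.trans ?_)
        refine mul_le_mul_of_nonneg_left ?_ hdR.le
        linarith
      have h5 : θ ≤ θ / 2 + (((bxc u R).filter (fun v => v ∈ EE b O)).card : ℝ) * C / (τ₀ : ℝ) ^ ((d : ℝ) / 2) := by
        rw [mul_comm θ] at h4
        exact le_of_mul_le_mul_left h4 hdR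
      have h6 : θ / 2 ≤ (((bxc u R).filter (fun v => v ∈ EE b O)).card : ℝ) * C / (τ₀ : ℝ) ^ ((d : ℝ) / 2) := by linarith
      rw [le_div_iff₀ hτR] at h6
      rw [div_le_iff₀ hC0]
      exact h6
    · intro v hv hvE
      have hv1 : v ∈ bxc u R := mem_bxc.2 hv
      have hv2 : v ∉ EE b O := fun h => hvE (Finset.mem_filter.2 ⟨hv1, h⟩)
      change ¬ (∀ v' : V d, cel b v' = cel b v → v' ∈ O) at hv2
      push Not at hv2
      obtain ⟨v', hv'1, hv'2⟩ := hv2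
      have hvc : v ∈ csit b (cel b v) := (mem_csit hb).2 rfl
      have hvc' : v' ∈ csit b (cel b v) := (mem_csit hb).2 hv'1
      unfold csit at hvc hvc'
      rw [Fintype.mem_piFinset] at hvc hvc'
      obtain ⟨c, hc1, hc2⟩ := reach_le v v' b (fun i => by
        have h7 := Finset.mem_Ico.1 (hvc i)
        have h8 := Finset.mem_Ico.1 (hvc' i)
        rw [abs_le]
        constructor <;> linarith [h7.1, h7.2, h8.1, h8.2])
      exact ⟨c, hc1, by rw [hc2]; exact hv'2⟩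
  have h9 := dcount _ (EE b O) z L R _ (Finset.filter_subset _ _) key
  have h10 := cells_ge b hb O (bxc z (L + R))
  have h11 : ((((bxc z (L + R)).filter (fun v => v ∈ EE b O)).card : ℕ) : ℝ) ≤
      ((((bxc z (L + R)).image (cel b)).filter (fun w => ((csit b w : Finset (V d)) : Set (V d)) ⊆ O)).card : ℝ) * (b : ℝ) ^ d := by
    exact_mod_cast h10
  refine h9.trans ?_
  have h12 : (0 : ℝ) ≤ (2 * R + 1 : ℝ) ^ d := by positivity
  calc (((bxc z (L + R)).filter (fun v => v ∈ EE b O)).card : ℝ) * (2 * R + 1 : ℝ) ^ d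
      ≤ (((((bxc z (L + R)).image (cel b)).filter (fun w => ((csit b w : Finset (V d)) : Set (V d)) ⊆ O)).card : ℝ) * (b : ℝ) ^ d)
          * (2 * R + 1 : ℝ) ^ d := mul_le_mul_of_nonneg_right h11 h12
    _ = _ := by ring

end Pool.Agent.RWO
end

section

set_option autoImplicit false

/-! Task X5: union bound over the open cells. -/

namespace Pool.Agent.RWO

open MeasureTheory
open scoped NNReal ENNReal

variable {d : ℕ}

open scoped Classical in
/-- The number of the sites of a union of `k` cells. -/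
theorem X5_card (b k : ℕ) (hb : 1 ≤ b) (T : Finset (V d)) (hT : T.card = k) :
    (T.biUnion (csit b)).card = k * b ^ d := by
  rw [Finset.card_biUnion]
  · simp only [card_csit, Finset.sum_const, hT, smul_eq_mul]
  · intro w _ w' _ hne
    show Disjoint (csit b w) (csit b w')
    rw [Finset.disjoint_left]
    intro v hv hv'
    rw [mem_csit hb] at hv hv'
    exact hne (hv.symm.trans hv')

open scoped Classical in
/-- X5. PROOF. The event is contained in the union over `T ∈ W.powersetCard k` of `{ω | ∀ x ∈ T.biUnion (csit b), ω x = true}`; the cells are disjoint (`mem_csit`), `card = k b^d` (`card_csit`), `PP_open`; `#W.powersetCard k = choose ≤ #W^k`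
(`Nat.choose_le_pow`). `measure_biUnion_finset_le`. -/
theorem union_cells (p : ℝ≥0) (hp : p ≤ 1) (b k : ℕ) (hb : 1 ≤ b) (W : Finset (V d)) :
    PP d p hp {ω | k ≤ (W.filter (fun w => ((csit b w : Finset (V d)) : Set (V d)) ⊆ opn ω)).card} ≤ (W.card : ℝ≥0∞) ^ k * (p : ℝ≥0∞) ^ (k * b ^ d) := by
  have hsub : {ω : Env d | k ≤ (W.filter (fun w => ((csit b w : Finset (V d)) : Set (V d)) ⊆ opn ω)).card} ⊆
      ⋃ T ∈ W.powersetCard k, {ω : Env d | ∀ x ∈ T.biUnion (csit b), ω x = true} := by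
    intro ω hω
    obtain ⟨T, hT, hc⟩ := Finset.exists_subset_card_eq (show k ≤ _ from hω)
    refine Set.mem_iUnion₂.2 ⟨T, Finset.mem_powersetCard.2 ⟨hT.trans (Finset.filter_subset _ _), hc⟩, ?_⟩
    intro x hx
    obtain ⟨w, hw, hxw⟩ := Finset.mem_biUnion.1 hx
    exact (Finset.mem_filter.1 (hT hw)).2 hxw
  have h1 : ∀ T ∈ W.powersetCard k, PP d p hp {ω : Env d | ∀ x ∈ T.biUnion (csit b), ω x = true} = (p : ℝ≥0∞) ^ (k * b ^ d) := by
    intro T hT
    rw [PP_open, X5_card b k hb T (Finset.mem_powersetCard.1 hT).2]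
  calc PP d p hp {ω | k ≤ (W.filter (fun w => ((csit b w : Finset (V d)) : Set (V d)) ⊆ opn ω)).card}
      ≤ PP d p hp (⋃ T ∈ W.powersetCard k, {ω : Env d | ∀ x ∈ T.biUnion (csit b), ω x = true}) := measure_mono hsub
    _ ≤ ∑ T ∈ W.powersetCard k, PP d p hp {ω : Env d | ∀ x ∈ T.biUnion (csit b), ω x = true} :=
        measure_biUnion_finset_le _ _
    _ = ∑ T ∈ W.powersetCard k, (p : ℝ≥0∞) ^ (k * b ^ d) := Finset.sum_congr rfl h1
    _ = ((W.card.choose k : ℕ) : ℝ≥0∞) * (p : ℝ≥0∞) ^ (k * b ^ d) := by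
        rw [Finset.sum_const, Finset.card_powersetCard, nsmul_eq_mul]
    _ ≤ (W.card : ℝ≥0∞) ^ k * (p : ℝ≥0∞) ^ (k * b ^ d) := by
        gcongr
        exact_mod_cast Nat.choose_le_pow W.card k

end Pool.Agent.RWO
end

section

set_option autoImplicit false

/-! Task X6: in a polylogarithmic box there are at most `C log n` sites with a good chance to survive. -/

namespace Pool.Agent.RWO

open MeasureTheory Filter
open scoped NNReal ENNReal Topology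

variable {d : ℕ}

private theorem X6a_lin (A B K D : ℝ) (hA : 0 ≤ A) (hB : 0 ≤ B) (hD : 0 < D) :
    ∀ᶠ y : ℝ in atTop, A + B * (√(K * y) + 1) ≤ 2 * y / D := by
  filter_upwards [eventually_ge_atTop (max 1 (((A + B + B * √K) * D) ^ 2))] with y hy
  have hy1 : 1 ≤ y := le_trans (le_max_left _ _) hy
  have hy2 : ((A + B + B * √K) * D) ^ 2 ≤ y := le_trans (le_max_right _ _) hy
  have hy0 : 0 ≤ y := by linarith
  have hs : (A + B + B * √K) * D ≤ √y := (le_abs_self _).trans (Real.abs_le_sqrt hy2)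
  have hs1 : 1 ≤ √y := Real.one_le_sqrt.mpr hy1
  have hs2 : √y * √y = y := Real.mul_self_sqrt hy0
  have hK' : 0 ≤ √K := Real.sqrt_nonneg K
  rw [Real.sqrt_mul' _ hy0, le_div_iff₀ hD]
  have h1 : A + B * (√K * √y + 1) ≤ (A + B + B * √K) * √y := by
    nlinarith [mul_nonneg hA (sub_nonneg.mpr hs1), mul_nonneg hB (sub_nonneg.mpr hs1)]
  calc (A + B * (√K * √y + 1)) * D ≤ ((A + B + B * √K) * √y) * D := mul_le_mul_of_nonneg_right h1 hD.le
    _ = ((A + B + B * √K) * D) * √y := by ring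
    _ ≤ √y * √y := mul_le_mul_of_nonneg_right hs (by linarith)
    _ ≤ 2 * y := by rw [hs2]; linarith

private theorem X6a_core (hd : 2 ≤ d) (p : ℝ) (hp0 : 0 < p) (hp1 : p < 1) (θ : ℝ) (hθ : 0 < θ) (x : ℝ)
    (hx7 : 7 ≤ x) (hxθ : 1 + 8 / θ ≤ x) (hy : 0 < Real.log x)
    (hlin : Real.log (2 * (4 / θ + 1)) + 2 * d * Real.log (2 * d) * (√(20 * d / Real.log (1 / p) * Real.log x) + 1) ≤
      2 * Real.log x / d) :
    ∃ b τ₀ I R : ℕ, 1 ≤ b ∧ 1 ≤ I ∧ 1 ≤ τ₀ ∧ τ₀ + I * (d * b) ≤ ⌈x ^ (2 / d : ℝ)⌉₊ ∧ 1 ≤ R ∧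
      (2 * d : ℝ) ^ (d * b) / I ≤ θ / 4 ∧ (⌈x ^ (2 / d : ℝ)⌉₊ : ℝ) / (R : ℝ) ^ 2 ≤ θ / 4 ∧
      (1 / (√3 * (4 / √θ + 3))) ^ d * (2 * R + 1 : ℝ) ^ d ≤ (τ₀ : ℝ) ^ ((d : ℝ) / 2) ∧
      ((2 * (⌈x ^ 8⌉₊ + R) + 1 : ℝ) ^ d) ^ 2 * p ^ (b ^ d) ≤ 1 := by
  have hx0 : 0 < x := by linarith
  have hd0 : (0 : ℝ) < d := by exact_mod_cast (by omega : 0 < d)
  have hd2 : (2 : ℝ) ≤ d := by exact_mod_cast hd
  obtain ⟨y, hyx⟩ : ∃ y, y = Real.log x := ⟨_, rfl⟩
  rw [← hyx] at hy hlin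
  have hxy : x = Real.exp y := by rw [hyx, Real.exp_log hx0]
  obtain ⟨m, hm⟩ : ∃ m, m = ⌈x ^ (2 / d : ℝ)⌉₊ := ⟨_, rfl⟩
  rw [← hm]
  have hlp : 0 < Real.log (1 / p) := Real.log_pos (by rw [lt_div_iff₀ hp0]; linarith)
  obtain ⟨K, hK⟩ : ∃ K, K = 20 * d / Real.log (1 / p) := ⟨_, rfl⟩
  rw [← hK] at hlin
  have hK0 : 0 < K := by rw [hK]; positivity
  -- the size of m
  have hmx : x ^ (2 / d : ℝ) ≤ m := by rw [hm]; exact Nat.le_ceil _
  have hpow1 : 1 < x ^ (2 / d : ℝ) := Real.one_lt_rpow (by linarith) (by positivity)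
  have hpowx : x ^ (2 / d : ℝ) ≤ x := by
    calc x ^ (2 / d : ℝ) ≤ x ^ (1 : ℝ) := Real.rpow_le_rpow_of_exponent_le (by linarith)
          (by rw [div_le_one hd0]; exact hd2)
      _ = x := Real.rpow_one x
  have hm2 : 2 ≤ m := by
    rw [hm]
    have h := Nat.lt_ceil.mpr (show ((1 : ℕ) : ℝ) < x ^ (2 / d : ℝ) by exact_mod_cast hpow1)
    omega
  have hm2' : (2 : ℝ) ≤ m := by exact_mod_cast hm2
  have hmx1 : (m : ℝ) ≤ x + 1 := by
    rw [hm]
    have := (Nat.ceil_lt_add_one (show 0 ≤ x ^ (2 / d : ℝ) by positivity)).le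
    linarith
  -- b
  obtain ⟨b, hb⟩ : ∃ b, b = ⌈√(K * y)⌉₊ := ⟨_, rfl⟩
  have hsK : 0 < √(K * y) := Real.sqrt_pos.mpr (by positivity)
  have hb1 : 1 ≤ b := by rw [hb]; exact Nat.ceil_pos.mpr hsK
  have hbl : √(K * y) ≤ b := by rw [hb]; exact Nat.le_ceil _
  have hbu : (b : ℝ) ≤ √(K * y) + 1 := by rw [hb]; exact (Nat.ceil_lt_add_one hsK.le).le
  have hb2 : K * y ≤ (b : ℝ) ^ d := by
    have h1 : K * y ≤ (b : ℝ) ^ 2 := by
      have := Real.sq_sqrt (show 0 ≤ K * y by positivity)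
      rw [← this]
      exact pow_le_pow_left₀ hsK.le hbl 2
    refine h1.trans (pow_le_pow_right₀ (by exact_mod_cast hb1) hd)
  -- Q
  obtain ⟨Q, hQ⟩ : ∃ Q : ℝ, Q = (2 * d : ℝ) ^ (d * b) := ⟨_, rfl⟩
  have h2d : (1 : ℝ) ≤ 2 * d := by linarith
  have hQ1 : 1 ≤ Q := by rw [hQ]; exact one_le_pow₀ h2d
  have hQdb : (d * b : ℝ) ≤ Q := by
    have h1 : (d * b : ℕ) < 2 ^ (d * b) := Nat.lt_two_pow_self
    have h2 : ((d * b : ℕ) : ℝ) ≤ (2 : ℝ) ^ (d * b) := by exact_mod_cast h1.le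
    have h3 : (2 : ℝ) ^ (d * b) ≤ Q := by rw [hQ]; exact pow_le_pow_left₀ (by norm_num) (by linarith) _
    push_cast at h2
    linarith
  have hQy : 2 * (4 / θ + 1) * Q ^ 2 ≤ x ^ (2 / d : ℝ) := by
    have h1 : Q ^ 2 = Real.exp (2 * d * Real.log (2 * d) * b) := by
      rw [hQ, ← Real.exp_log (show (0 : ℝ) < 2 * d by positivity), ← Real.exp_nat_mul, ← Real.exp_nat_mul]
      congr 1
      rw [Real.exp_log (show (0 : ℝ) < 2 * d by positivity)]
      push_cast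
      ring
    have h2 : 2 * (4 / θ + 1) = Real.exp (Real.log (2 * (4 / θ + 1))) := (Real.exp_log (by positivity)).symm
    have h3 : x ^ (2 / d : ℝ) = Real.exp (2 * y / d) := by
      rw [hxy, ← Real.exp_mul]
      congr 1
      ring
    rw [h1, h2, h3, ← Real.exp_add, Real.exp_le_exp]
    have h4 : 0 ≤ 2 * d * Real.log (2 * d) := by
      have := Real.log_nonneg h2d
      positivity
    have h5 := mul_le_mul_of_nonneg_left hbu h4
    linarith
  have hQy' : 2 * ((4 * Q / θ + 1) * (d * b)) ≤ x ^ (2 / d : ℝ) := by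
    refine le_trans ?_ hQy
    have h1 : 4 * Q / θ + 1 ≤ (4 / θ + 1) * Q := by
      have : 4 * Q / θ = 4 / θ * Q := by ring
      rw [this]
      linarith
    have h2 : (4 * Q / θ + 1) * (d * b) ≤ ((4 / θ + 1) * Q) * Q := by
      apply mul_le_mul h1 hQdb (by positivity) (by positivity)
    calc 2 * ((4 * Q / θ + 1) * (d * b)) ≤ 2 * (((4 / θ + 1) * Q) * Q) := by linarith
      _ = 2 * (4 / θ + 1) * Q ^ 2 := by ring
  -- tau and I
  have hhalf : m / 2 ≤ m := Nat.div_le_self _ _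
  have hsubR : (m : ℝ) / 2 ≤ ((m - m / 2 : ℕ) : ℝ) := by
    have h1 : m ≤ 2 * (m - m / 2) := by omega
    have h2 : (m : ℝ) ≤ 2 * ((m - m / 2 : ℕ) : ℝ) := by exact_mod_cast h1
    linarith
  obtain ⟨I, hI⟩ : ∃ I, I = (m - m / 2) / (d * b) := ⟨_, rfl⟩
  have hdb : 0 < d * b := Nat.mul_pos (by omega) hb1
  have hdbR : (0 : ℝ) < d * b := by exact_mod_cast hdb
  have hIlow : 4 * Q / θ ≤ I := by
    have h1 : (m - m / 2) < (I + 1) * (d * b) := by
      rw [hI]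
      have := Nat.lt_div_mul_add hdb (a := m - m / 2)
      calc m - m / 2 < (m - m / 2) / (d * b) * (d * b) + d * b := this
        _ = ((m - m / 2) / (d * b) + 1) * (d * b) := by ring
    have h2 : ((m - m / 2 : ℕ) : ℝ) ≤ (I + 1) * (d * b) := by exact_mod_cast h1.le
    have h3 : (4 * Q / θ + 1) * (d * b) ≤ (I + 1) * (d * b) := by linarith
    have h4 := le_of_mul_le_mul_right h3 hdbR
    linarith
  have hIpos : (0 : ℝ) < I := lt_of_lt_of_le (by positivity) hIlow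
  -- R
  obtain ⟨R, hR⟩ : ∃ R, R = ⌈√(4 * m / θ)⌉₊ := ⟨_, rfl⟩
  have hsR : 0 < √(4 * m / θ) := Real.sqrt_pos.mpr (by positivity)
  have hR1 : 1 ≤ R := by rw [hR]; exact Nat.ceil_pos.mpr hsR
  have hRl : √(4 * m / θ) ≤ R := by rw [hR]; exact Nat.le_ceil _
  have hRu : (R : ℝ) ≤ √(4 * m / θ) + 1 := by rw [hR]; exact (Nat.ceil_lt_add_one hsR.le).le
  have hRsq : 4 * m / θ ≤ (R : ℝ) ^ 2 := by
    rw [← Real.sq_sqrt (show (0 : ℝ) ≤ 4 * m / θ by positivity)]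
    exact pow_le_pow_left₀ hsR.le hRl 2
  have hRpos : (0 : ℝ) < R := by exact_mod_cast hR1
  refine ⟨b, m / 2, I, R, hb1, ?_, by omega, ?_, hR1, ?_, ?_, ?_, ?_⟩
  · have : (0 : ℝ) < I := hIpos
    have h : 0 < I := by exact_mod_cast this
    exact h
  · have h1 : I * (d * b) ≤ m - m / 2 := by rw [hI]; exact Nat.div_mul_le_self _ _
    omega
  · rw [← hQ, div_le_iff₀ hIpos]
    rw [div_le_iff₀ hθ] at hIlow
    linarith
  · rw [div_le_iff₀ (by positivity)]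
    rw [div_le_iff₀ hθ] at hRsq
    linarith
  · rw [← mul_pow, Real.rpow_div_two_eq_sqrt _ (by positivity), Real.rpow_natCast]
    refine pow_le_pow_left₀ (by positivity) ?_ d
    have hsθ : 0 < √θ := Real.sqrt_pos.mpr hθ
    have h3 : 0 < √3 := by positivity
    have hm1 : 1 ≤ √(m : ℝ) := Real.one_le_sqrt.mpr (by linarith)
    have h4 : √(4 * m / θ) = 2 * √m / √θ := by
      rw [Real.sqrt_div (by positivity), Real.sqrt_mul (by norm_num)]
      congr 2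
      rw [show (4 : ℝ) = 2 ^ 2 by norm_num, Real.sqrt_sq (by norm_num)]
    have h5 : (2 * R + 1 : ℝ) ≤ (4 / √θ + 3) * √m := by
      rw [h4] at hRu
      have h6 : (4 / √θ + 3) * √m = 2 * (2 * √m / √θ) + 3 * √m := by ring
      rw [h6]
      linarith
    have h7 : √(m : ℝ) / √3 ≤ √((m / 2 : ℕ) : ℝ) := by
      rw [← Real.sqrt_div (by positivity)]
      apply Real.sqrt_le_sqrt
      rw [div_le_iff₀ (by norm_num)]
      have h8 : m ≤ m / 2 * 3 := by omega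
      exact_mod_cast h8
    calc 1 / (√3 * (4 / √θ + 3)) * (2 * R + 1 : ℝ) ≤ 1 / (√3 * (4 / √θ + 3)) * ((4 / √θ + 3) * √m) :=
          mul_le_mul_of_nonneg_left h5 (by positivity)
      _ = √(m : ℝ) / √3 := by
          have : (4 / √θ + 3) ≠ 0 := by positivity
          field_simp
      _ ≤ _ := h7
  · have hLu : (⌈x ^ 8⌉₊ : ℝ) ≤ x ^ 8 + 1 := (Nat.ceil_lt_add_one (by positivity)).le
    have hRx : (R : ℝ) ≤ x := by
      have h1 : √(4 * m / θ) ≤ x - 1 := by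
        rw [Real.sqrt_le_left (by linarith)]
        rw [div_le_iff₀ hθ]
        have h2 : 8 ≤ (x - 1) * θ := by
          have h3 : 8 / θ ≤ x - 1 := by linarith
          rwa [div_le_iff₀ hθ] at h3
        nlinarith
      linarith
    have hbase : (2 * ((⌈x ^ 8⌉₊ : ℝ) + R) + 1) ≤ x ^ 9 := by
      have h1 : x ^ 9 = x * x ^ 8 := by ring
      have h2 : x ≤ x ^ 8 := le_self_pow₀ (by linarith) (by norm_num)
      have h3 : (1 : ℝ) ≤ x ^ 8 := one_le_pow₀ (by linarith)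
      have h4 : 7 * x ^ 8 ≤ x * x ^ 8 := mul_le_mul_of_nonneg_right hx7 (by positivity)
      linarith
    have h1 : ((2 * ((⌈x ^ 8⌉₊ : ℝ) + R) + 1) ^ d) ^ 2 ≤ ((x ^ 9) ^ d) ^ 2 :=
      pow_le_pow_left₀ (by positivity) (pow_le_pow_left₀ (by positivity) hbase d) 2
    have h2 : ((x ^ 9) ^ d) ^ 2 = Real.exp (18 * d * y) := by
      rw [hxy, ← Real.exp_nat_mul, ← Real.exp_nat_mul, ← Real.exp_nat_mul]
      congr 1
      push_cast
      ring
    have h3 : p ^ (b ^ d) = Real.exp (-((b : ℝ) ^ d * Real.log (1 / p))) := by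
      rw [one_div, Real.log_inv]
      conv_lhs => rw [← Real.exp_log hp0, ← Real.exp_nat_mul]
      congr 1
      push_cast
      ring
    calc ((2 * ((⌈x ^ 8⌉₊ : ℝ) + R) + 1) ^ d) ^ 2 * p ^ (b ^ d) ≤ ((x ^ 9) ^ d) ^ 2 * p ^ (b ^ d) :=
          mul_le_mul_of_nonneg_right h1 (by positivity)
      _ = Real.exp (18 * d * y - (b : ℝ) ^ d * Real.log (1 / p)) := by
          rw [h2, h3, ← Real.exp_add]
          congr 1
      _ ≤ 1 := by
          rw [Real.exp_le_one_iff]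
          have h4 : K * y * Real.log (1 / p) ≤ (b : ℝ) ^ d * Real.log (1 / p) :=
            mul_le_mul_of_nonneg_right hb2 hlp.le
          have h5 : K * y * Real.log (1 / p) = 20 * d * y := by
            rw [hK]
            field_simp
          nlinarith [mul_pos hd0 hy]

/-- X6a. The asymptotics. PROOF. `m = kf d n`, `b = ⌈(log log n)^(2/3)⌉`, `τ₀ = m/2` (floor, so `≥ m/3` for `m ≥ 3`), `I = (m - τ₀)/(d b)`, `R = ⌈(4m/θ)^(1/2)⌉`: `R² ≥ 4m/θ`; `(2d)^(db) ≤ exp(C (log log n)^(2/3))` and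
`I ≥ (log n)^(2/d)/(3 d b)`, so `(2d)^(db)/I → 0`. `(2R+1)^d ≤ ((4/√θ + 3) √m)^d`, so `τ₀^(d/2)/(2R+1)^d ≥ c₁ = 3^(-d/2) (4/√θ + 3)^(-d)`. `(2(L+R)+1)^d ≤ (log n)^(9d)` for large `n`, and `log ((log n)^(9d)) = 9 d log log n ≤
(b^d/2) log(1/p)` as `b^d ≥ (log log n)^(4/3)` (`d ≥ 2`). -/
theorem params_env (hd : 2 ≤ d) (p : ℝ) (hp0 : 0 < p) (hp1 : p < 1) (θ : ℝ) (hθ : 0 < θ) : ∃ c₁ : ℝ, 0 < c₁ ∧ ∃ n₀ : ℕ, ∀ n : ℕ, n₀ ≤ n →
    ∃ b τ₀ I R : ℕ, 1 ≤ b ∧ 1 ≤ I ∧ 1 ≤ τ₀ ∧ τ₀ + I * (d * b) ≤ kf d n ∧ 1 ≤ R ∧ (2 * d : ℝ) ^ (d * b) / I ≤ θ / 4 ∧ (kf d n : ℝ) / (R : ℝ) ^ 2 ≤ θ / 4 ∧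
      c₁ * (2 * R + 1 : ℝ) ^ d ≤ (τ₀ : ℝ) ^ ((d : ℝ) / 2) ∧ ((2 * (Lf n + R) + 1 : ℝ) ^ d) ^ 2 * p ^ (b ^ d) ≤ 1 := by
  have hsθ : 0 < √θ := Real.sqrt_pos.mpr hθ
  have hd0 : (0 : ℝ) < d := by exact_mod_cast (by omega : 0 < d)
  have hd1 : (1 : ℝ) ≤ 2 * d := by
    have : (1 : ℝ) ≤ d := by exact_mod_cast (by omega : 1 ≤ d)
    linarith
  refine ⟨(1 / (√3 * (4 / √θ + 3))) ^ d, by positivity, ?_⟩
  have h1 : Tendsto (fun n : ℕ => Real.log (n : ℝ)) atTop atTop :=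
    Real.tendsto_log_atTop.comp tendsto_natCast_atTop_atTop
  have h2 : Tendsto (fun n : ℕ => Real.log (Real.log (n : ℝ))) atTop atTop := Real.tendsto_log_atTop.comp h1
  have hA : 0 ≤ Real.log (2 * (4 / θ + 1)) := by
    apply Real.log_nonneg
    have : 0 < 4 / θ := by positivity
    linarith
  have hB : 0 ≤ 2 * d * Real.log (2 * d) := by
    have := Real.log_nonneg hd1
    positivity
  have hev : ∀ᶠ n : ℕ in atTop, (7 ≤ Real.log (n : ℝ) ∧ 1 + 8 / θ ≤ Real.log (n : ℝ)) ∧ (0 < Real.log (Real.log (n : ℝ)) ∧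
      Real.log (2 * (4 / θ + 1)) + 2 * d * Real.log (2 * d) * (√(20 * d / Real.log (1 / p) * Real.log (Real.log (n : ℝ))) + 1) ≤
      2 * Real.log (Real.log (n : ℝ)) / d) :=
    ((h1.eventually (eventually_ge_atTop 7)).and (h1.eventually (eventually_ge_atTop (1 + 8 / θ)))).and
      ((h2.eventually (eventually_gt_atTop 0)).and (h2.eventually (X6a_lin _ _ _ _ hA hB hd0)))
  obtain ⟨n₀, hn₀⟩ := eventually_atTop.mp hev
  refine ⟨n₀, fun n hn => ?_⟩
  obtain ⟨⟨h3, h4⟩, h5, h6⟩ := hn₀ n hn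
  exact X6a_core hd p hp0 hp1 θ hθ (Real.log n) h3 h4 h5 h6

theorem X6x_card_bx (n : ℕ) : (bx d n).card = (2 * n + 1) ^ d := by
  unfold bx
  rw [Fintype.card_piFinset]
  simp only [Int.card_Icc]
  have h : ((n : ℤ) + 1 - -(n : ℤ)).toNat = 2 * n + 1 := by omega
  simp only [h, Finset.prod_const, Finset.card_univ, Fintype.card_fin]

theorem X6x_real (p : ℝ) (hp0 : 0 < p) (hp1 : p < 1) (w N : ℝ) (hw : 0 ≤ w) (hwN : w ≤ N) (B k : ℕ) (hN : N ^ 2 * p ^ B ≤ 1) (s : ℝ)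
    (hk : s ≤ (k : ℝ) * B) : w ^ k * p ^ (k * B) ≤ Real.exp (s * Real.log p / 2) := by
  have h1 : (w ^ k * p ^ (k * B)) ^ 2 ≤ (Real.exp (s * Real.log p / 2)) ^ 2 := by
    have e1 : (w ^ k * p ^ (k * B)) ^ 2 = (w ^ 2 * p ^ B) ^ k * p ^ (k * B) := by
      rw [mul_pow, mul_pow]
      ring
    have e2 : (Real.exp (s * Real.log p / 2)) ^ 2 = Real.exp (s * Real.log p) := by
      rw [← Real.exp_nat_mul]
      congr 1
      push_cast
      ring
    have e3 : p ^ (k * B) = Real.exp ((k : ℝ) * B * Real.log p) := by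
      rw [← Real.exp_log (pow_pos hp0 (k * B)), Real.log_pow]
      push_cast
      rfl
    have h2 : w ^ 2 * p ^ B ≤ 1 := by
      refine le_trans ?_ hN
      exact mul_le_mul_of_nonneg_right (pow_le_pow_left₀ hw hwN 2) (pow_nonneg hp0.le _)
    have h3 : (w ^ 2 * p ^ B) ^ k ≤ 1 := pow_le_one₀ (mul_nonneg (sq_nonneg _) (pow_nonneg hp0.le _)) h2
    rw [e1, e2]
    calc (w ^ 2 * p ^ B) ^ k * p ^ (k * B) ≤ 1 * p ^ (k * B) := mul_le_mul_of_nonneg_right h3 (pow_nonneg hp0.le _)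
      _ = Real.exp ((k : ℝ) * B * Real.log p) := by rw [one_mul, e3]
      _ ≤ Real.exp (s * Real.log p) := by
        apply Real.exp_le_exp.mpr
        exact mul_le_mul_of_nonpos_right hk (Real.log_nonpos hp0.le hp1.le)
  exact (pow_le_pow_iff_left₀ (mul_nonneg (pow_nonneg hw _) (pow_nonneg hp0.le _)) (Real.exp_pos _).le two_ne_zero).mp h1

theorem X6x_fin (n : ℕ) (hn : 1 ≤ n) : ((2 * n + 1 : ℕ) : ℝ) ^ d * Real.exp (-(((d : ℝ) + 2) * Real.log n)) ≤ 3 ^ d * (1 / (n : ℝ)) := by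
  have hn0 : (0 : ℝ) < n := by exact_mod_cast hn
  have hn1 : (1 : ℝ) ≤ n := by exact_mod_cast hn
  have e1 : Real.exp (-(((d : ℝ) + 2) * Real.log n)) = ((n : ℝ) ^ (d + 2))⁻¹ := by
    rw [Real.exp_neg, ← Real.exp_log (pow_pos hn0 (d + 2)), Real.log_pow]
    push_cast
    rfl
  have h1 : ((2 * n + 1 : ℕ) : ℝ) ^ d ≤ 3 ^ d * (n : ℝ) ^ d := by
    rw [← mul_pow]
    refine pow_le_pow_left₀ (by positivity) ?_ d
    push_cast
    linarith
  have h2 : (n : ℝ) ^ d * ((n : ℝ) ^ (d + 2))⁻¹ ≤ 1 / (n : ℝ) := by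
    rw [pow_add, mul_inv, ← mul_assoc, mul_inv_cancel₀ (pow_ne_zero _ hn0.ne'), one_mul, ← one_div]
    refine one_div_le_one_div_of_le hn0 ?_
    nlinarith
  rw [e1]
  calc ((2 * n + 1 : ℕ) : ℝ) ^ d * ((n : ℝ) ^ (d + 2))⁻¹ ≤ (3 ^ d * (n : ℝ) ^ d) * ((n : ℝ) ^ (d + 2))⁻¹ :=
        mul_le_mul_of_nonneg_right h1 (by positivity)
    _ = 3 ^ d * ((n : ℝ) ^ d * ((n : ℝ) ^ (d + 2))⁻¹) := by ring
    _ ≤ 3 ^ d * (1 / (n : ℝ)) := mul_le_mul_of_nonneg_left h2 (by positivity)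

open scoped Classical in
/-- X6b. PROOF. `heat` (`C`), `params_env` (with the real `p`). `c₂ = (θ/2) c₁/C`, `CB = 2 (d + 2)/(c₂ log(1/p))`. Let `z ∈ bx d n` with more than `CB log n` sites; by `many_cells` at least `c₂ CB log n/b^d` cells `w ∈ W_z = (bxc z (Lf n + R)).image (cel b)`
are open, so at least `k := ⌈c₂ CB log n/b^d⌉` (`many_cells` divided by `(2R+1)^d b^d`). `union_cells`: probability `≤ #W_z^k p^(k b^d) ≤ (#W_z^2 p^(b^d))^(k/2) p^(k b^d/2) ≤ p^(k b^d/2) ≤ p^(c₂ CB log n/2) = n^(-(d+2))`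
(`#W_z ≤ (2(L+R)+1)^d`). Union over the `(2n+1)^d` sites `z ∈ bx d n`. -/
theorem env_few (hd : 2 ≤ d) (p : ℝ≥0) (hp0 : 0 < p) (hp : p ≤ 1) (hp1 : p < 1) (θ : ℝ) (hθ : 0 < θ) : ∃ CB : ℝ, 0 < CB ∧
    Tendsto (fun n : ℕ => PP d p hp {ω | ∃ z ∈ bx d n, CB * Real.log n <
      (((bxc z (Lf n)).filter (fun u => θ * (2 * d : ℝ) ^ (kf d n) ≤ (NP (opn ω) u (kf d n) : ℝ))).card : ℝ)}) atTop (𝓝 0) := by
  have hd1 : 1 ≤ d := by omega
  obtain ⟨C, hC0, hC⟩ := heat (d := d) hd1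
  have hpr0 : (0 : ℝ) < (p : ℝ) := by exact_mod_cast hp0
  have hpr1 : (p : ℝ) < 1 := by exact_mod_cast hp1
  obtain ⟨c₁, hc₁, n₀, hpar⟩ := params_env hd (p : ℝ) hpr0 hpr1 θ hθ
  have hlog : Real.log (p : ℝ) < 0 := Real.log_neg hpr0 hpr1
  set c₂ : ℝ := θ / 2 * c₁ / C with hc₂
  have hc₂0 : 0 < c₂ := by positivity
  set CB : ℝ := 2 * ((d : ℝ) + 2) / (c₂ * (-Real.log (p : ℝ))) with hCB
  have hCB0 : 0 < CB := by
    have : 0 < -Real.log (p : ℝ) := by linarith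
    positivity
  refine ⟨CB, hCB0, ?_⟩
  have hbound : ∀ n : ℕ, max n₀ 1 ≤ n → PP d p hp {ω | ∃ z ∈ bx d n, CB * Real.log n <
      (((bxc z (Lf n)).filter (fun u => θ * (2 * d : ℝ) ^ (kf d n) ≤ (NP (opn ω) u (kf d n) : ℝ))).card : ℝ)} ≤
      ENNReal.ofReal (3 ^ d * (1 / (n : ℝ))) := by
    intro n hn
    have hn₀ : n₀ ≤ n := le_trans (le_max_left _ _) hn
    have hn1 : 1 ≤ n := le_trans (le_max_right _ _) hn
    obtain ⟨b, τ₀, I, R, hb, hI, hτ, hm, hR, h1, h2, h3, h4⟩ := hpar n hn₀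
    have hb0 : (0 : ℝ) < (b : ℝ) ^ d := by
      have : (0 : ℝ) < b := by exact_mod_cast hb
      positivity
    have hR0 : (0 : ℝ) < (2 * R + 1 : ℝ) ^ d := by positivity
    set k : ℕ := ⌈c₂ * (CB * Real.log n) / (b : ℝ) ^ d⌉₊ with hk
    have hsub : {ω : Env d | ∃ z ∈ bx d n, CB * Real.log n <
      (((bxc z (Lf n)).filter (fun u => θ * (2 * d : ℝ) ^ (kf d n) ≤ (NP (opn ω) u (kf d n) : ℝ))).card : ℝ)} ⊆
        ⋃ z ∈ bx d n, {ω : Env d | k ≤ (((bxc z (Lf n + R)).image (cel b)).filter (fun w => ((csit b w : Finset (V d)) : Set (V d)) ⊆ opn ω)).card} := by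
      rintro ω ⟨z, hz, hω⟩
      rw [Set.mem_iUnion₂]
      refine ⟨z, hz, ?_⟩
      show k ≤ _
      rw [hk, Nat.ceil_le, div_le_iff₀ hb0]
      have hmc := many_cells hd1 C hC0 (fun m hm x y => hC m hm x y) (opn ω) z (Lf n) R b τ₀ (kf d n) I θ hθ hb hI hτ hm hR h1 h2
      set S : ℝ := (((bxc z (Lf n)).filter (fun u => θ * (2 * d : ℝ) ^ (kf d n) ≤ (NP (opn ω) u (kf d n) : ℝ))).card : ℝ) with hS
      set K : ℝ := ((((bxc z (Lf n + R)).image (cel b)).filter (fun w => ((csit b w : Finset (V d)) : Set (V d)) ⊆ opn ω)).card : ℝ) with hK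
      have hS0 : 0 ≤ S := by positivity
      have h5 : c₂ * (2 * R + 1 : ℝ) ^ d ≤ θ / 2 * (τ₀ : ℝ) ^ ((d : ℝ) / 2) / C := by
        rw [hc₂, div_mul_eq_mul_div, mul_assoc]
        apply div_le_div_of_nonneg_right _ hC0.le
        exact mul_le_mul_of_nonneg_left h3 (by positivity)
      have h6 : c₂ * (2 * R + 1 : ℝ) ^ d * S ≤ (2 * R + 1 : ℝ) ^ d * (b : ℝ) ^ d * K :=
        le_trans (mul_le_mul_of_nonneg_right h5 hS0) hmc
      have h7 : c₂ * S ≤ (b : ℝ) ^ d * K := by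
        have h8 : (2 * R + 1 : ℝ) ^ d * (c₂ * S) ≤ (2 * R + 1 : ℝ) ^ d * ((b : ℝ) ^ d * K) := by
          calc (2 * R + 1 : ℝ) ^ d * (c₂ * S) = c₂ * (2 * R + 1 : ℝ) ^ d * S := by ring
            _ ≤ _ := h6
            _ = _ := by ring
        exact le_of_mul_le_mul_left h8 hR0
      calc c₂ * (CB * Real.log n) ≤ c₂ * S := mul_le_mul_of_nonneg_left hω.le hc₂0.le
        _ ≤ (b : ℝ) ^ d * K := h7
        _ = K * (b : ℝ) ^ d := by ring
    refine le_trans (measure_mono hsub) ?_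
    refine le_trans (measure_biUnion_finset_le _ _) ?_
    have hz : ∀ z ∈ bx d n, PP d p hp {ω : Env d | k ≤ (((bxc z (Lf n + R)).image (cel b)).filter (fun w => ((csit b w : Finset (V d)) : Set (V d)) ⊆ opn ω)).card} ≤
        ENNReal.ofReal (Real.exp (-(((d : ℝ) + 2) * Real.log n))) := by
      intro z _
      refine le_trans (union_cells p hp b k hb ((bxc z (Lf n + R)).image (cel b))) ?_
      set W : Finset (V d) := (bxc z (Lf n + R)).image (cel b) with hW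
      have hWc : (W.card : ℝ) ≤ (2 * (Lf n + R) + 1 : ℝ) ^ d := by
        have : W.card ≤ (2 * (Lf n + R) + 1) ^ d := by
          rw [hW, ← card_bxc z (Lf n + R)]
          exact Finset.card_image_le
        exact_mod_cast this
      have e1 : (W.card : ℝ≥0∞) ^ k * (p : ℝ≥0∞) ^ (k * b ^ d) = ENNReal.ofReal ((W.card : ℝ) ^ k * (p : ℝ) ^ (k * b ^ d)) := by
        rw [ENNReal.ofReal_mul (by positivity), ENNReal.ofReal_pow (by positivity), ENNReal.ofReal_pow (by positivity), ENNReal.ofReal_natCast,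
          ENNReal.ofReal_coe_nnreal]
      rw [e1]
      apply ENNReal.ofReal_le_ofReal
      have hks : c₂ * (CB * Real.log n) ≤ (k : ℝ) * ((b ^ d : ℕ) : ℝ) := by
        have := Nat.le_ceil (c₂ * (CB * Real.log n) / (b : ℝ) ^ d)
        rw [div_le_iff₀ hb0, ← hk] at this
        push_cast
        exact this
      refine le_trans (X6x_real (p : ℝ) hpr0 hpr1 (W.card : ℝ) _ (by positivity) hWc (b ^ d) k h4 _ hks) (le_of_eq ?_)
      congr 1
      rw [hCB]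
      have hl : Real.log (p : ℝ) ≠ 0 := hlog.ne
      field_simp
    refine le_trans (Finset.sum_le_sum hz) ?_
    rw [Finset.sum_const, X6x_card_bx, nsmul_eq_mul]
    have e2 : (((2 * n + 1) ^ d : ℕ) : ℝ≥0∞) = ENNReal.ofReal (((2 * n + 1 : ℕ) : ℝ) ^ d) := by
      rw [ENNReal.ofReal_pow (by positivity), ENNReal.ofReal_natCast, Nat.cast_pow]
    rw [e2, ← ENNReal.ofReal_mul (by positivity)]
    exact ENNReal.ofReal_le_ofReal (X6x_fin n hn1)
  have hlim : Tendsto (fun n : ℕ => ENNReal.ofReal (3 ^ d * (1 / (n : ℝ)))) atTop (𝓝 0) := by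
    have h0 : Tendsto (fun n : ℕ => (3 : ℝ) ^ d * (1 / (n : ℝ))) atTop (𝓝 (3 ^ d * 0)) :=
      tendsto_one_div_atTop_nhds_zero_nat.const_mul _
    rw [mul_zero] at h0
    have h1 := ENNReal.tendsto_ofReal h0
    rwa [ENNReal.ofReal_zero] at h1
  refine tendsto_of_tendsto_of_tendsto_of_le_of_le' tendsto_const_nhds hlim (Eventually.of_forall fun n => bot_le) ?_
  filter_upwards [eventually_ge_atTop (max n₀ 1)] with n hn
  exact hbound n hn

end Pool.Agent.RWO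
end
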