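import Pool.Agent.Lib.MP_c35813_pr.Mg.G001

section

set_option autoImplicit false

/-! Task E2: geometry of boxes and cubes. -/

namespace Pool.Agent.RWO

variable {d : ℕ}

theorem E2_mem_bx {R : ℕ} {x : V d} : x ∈ bx d R ↔ ∀ i, |x i| ≤ (R : ℤ) := by
  unfold bx
  rw [Fintype.mem_piFinset]
  refine forall_congr' fun i => ?_
  rw [Finset.mem_Icc, abs_le]

/-- The straight path. -/
theorem E2_straight (i : Fin d) (b : Bool) : ∀ (r : ℕ) (v : V d),
    en v (List.replicate r (i, b)) = v + (r : ℤ) • vec (i, b) ∧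
    ∀ O : Set (V d), v ∈ O → (∀ k : ℕ, 1 ≤ k → k ≤ r → v + (k : ℤ) • vec (i, b) ∈ O) →
      Op O v (List.replicate r (i, b)) := by
  intro r
  induction r with
  | zero =>
    intro v
    refine ⟨by simp, fun O h _ => h⟩
  | succ r ih =>
    intro v
    obtain ⟨h1, h2⟩ := ih (v + vec (i, b))
    refine ⟨?_, fun O h h' => ⟨h, h2 O ?_ ?_⟩⟩
    · rw [List.replicate_succ, en_cons, h1]
      push_cast
      rw [add_smul, one_smul]
      abel
    · have h3 := h' 1 le_rfl (by omega)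
      rwa [Nat.cast_one, one_smul] at h3
    · intro k hk hk'
      have h3 := h' (k + 1) (by omega) (by omega)
      push_cast at h3
      rw [add_smul, one_smul] at h3
      rwa [show v + vec (i, b) + (k : ℤ) • vec (i, b) = v + ((k : ℤ) • vec (i, b) + vec (i, b)) by abel]

theorem E2_vec_same (i : Fin d) (b : Bool) : vec (i, b) i = if b then 1 else -1 := by
  unfold vec
  simp

theorem E2_vec_ne {i j : Fin d} (b : Bool) (h : j ≠ i) : vec (i, b) j = 0 := by
  unfold vec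
  simp [h]

/-- E2a. PROOF. `c = v + r (sign v_i) e_i` for a coordinate `i` with `|v i| = R` (sign `+` if `v i ≥ 0`): the `i`-th coordinates of the cube are in `[R+1, R+2r-1]` (or the negatives), the others are at most `R + r - 1` in absolute value.
The path: `r` times the step `±e_i`; its sites after `v` are in the cube. -/
theorem attach (r R : ℕ) (hr : 1 ≤ r) (v : V d) (hv : v ∈ bx d R) (hv' : ∃ i, |v i| = (R : ℤ)) :
    ∃ c : V d, cube c r ⊆ (bx d (R + 2 * r) : Set (V d)) ∧ Disjoint (cube c r) (bx d R : Set (V d)) ∧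
      ∃ l : List (Stp d), l.length = r ∧ en v l = c ∧ ∀ O : Set (V d), v ∈ O → cube c r ⊆ O → Op O v l := by
  obtain ⟨i, hi⟩ := hv'
  rw [E2_mem_bx] at hv
  have hr' : (1 : ℤ) ≤ r := by exact_mod_cast hr
  have hR : (0 : ℤ) ≤ R := Int.natCast_nonneg R
  obtain ⟨b, hb⟩ : ∃ b : Bool, v i = (if b then 1 else -1) * (R : ℤ) := by
    rcases abs_choice (v i) with h | h
    · exact ⟨true, by rw [if_pos rfl, one_mul, ← hi, h]⟩
    · refine ⟨false, ?_⟩
      rw [if_neg (by simp), ← hi, h]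
      ring
  have hci : ∀ k : ℤ, (v + k • vec (i, b)) i = (if b then 1 else -1) * ((R : ℤ) + k) := by
    intro k
    rw [Pi.add_apply, Pi.smul_apply, E2_vec_same, hb, smul_eq_mul]
    ring
  have hcj : ∀ k : ℤ, ∀ j, j ≠ i → (v + k • vec (i, b)) j = v j := by
    intro k j hj
    rw [Pi.add_apply, Pi.smul_apply, E2_vec_ne b hj, smul_zero, add_zero]
  refine ⟨v + (r : ℤ) • vec (i, b), ?_, ?_, List.replicate r (i, b), List.length_replicate,
    (E2_straight i b r v).1, fun O h1 h2 => (E2_straight i b r v).2 O h1 fun k hk hk' => h2 ?_⟩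
  · intro y hy
    rw [Finset.mem_coe, E2_mem_bx]
    intro j
    have h1 : |y j - (v + (r : ℤ) • vec (i, b)) j| ≤ (r : ℤ) - 1 := hy j
    push_cast
    by_cases hj : j = i
    · subst hj
      rw [hci] at h1
      cases b
      · rw [if_neg (by simp)] at h1
        rw [abs_le] at h1 ⊢
        constructor <;> linarith [h1.1, h1.2]
      · rw [if_pos rfl] at h1
        rw [abs_le] at h1 ⊢
        constructor <;> linarith [h1.1, h1.2]
    · rw [hcj _ j hj] at h1
      have h3 := hv j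
      rw [abs_le] at h1 h3 ⊢
      constructor <;> linarith [h1.1, h1.2, h3.1, h3.2]
  · rw [Set.disjoint_left]
    intro y hy hy2
    rw [Finset.mem_coe, E2_mem_bx] at hy2
    have h1 : |y i - (v + (r : ℤ) • vec (i, b)) i| ≤ (r : ℤ) - 1 := hy i
    have h2 := hy2 i
    rw [hci] at h1
    cases b
    · rw [if_neg (by simp)] at h1
      rw [abs_le] at h1 h2
      linarith [h1.1, h1.2, h2.1, h2.2]
    · rw [if_pos rfl] at h1
      rw [abs_le] at h1 h2
      linarith [h1.1, h1.2, h2.1, h2.2]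
  · intro j
    have hk2 : (1 : ℤ) ≤ k := by exact_mod_cast hk
    have hk3 : (k : ℤ) ≤ r := by exact_mod_cast hk'
    by_cases hj : j = i
    · subst hj
      rw [hci, hci]
      cases b
      · rw [if_neg (by simp), abs_le]
        constructor <;> linarith
      · rw [if_pos rfl, abs_le]
        constructor <;> linarith
    · rw [hcj _ j hj, hcj _ j hj, sub_self, abs_zero]
      linarith

theorem E2_walk (O : Set (V d)) (R : ℕ) : ∀ (l : List (Stp d)) (x : V d), x ∈ bx d R → Op O x l →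
    en x l ∉ bx d R → ∃ l' : List (Stp d), Op (O ∩ (bx d R : Set (V d))) x l' ∧ ∃ i, |en x l' i| = (R : ℤ) := by
  intro l
  induction l with
  | nil => intro x hx _ h; exact absurd hx h
  | cons e l ih =>
    intro x hx hO h
    by_cases h1 : ∃ i, |x i| = (R : ℤ)
    · exact ⟨[], ⟨hO.1, hx⟩, h1⟩
    · push Not at h1
      have h2 : ∀ i, |x i| + 1 ≤ (R : ℤ) := fun i => by
        have h3 := (E2_mem_bx.1 hx) i
        have h4 := h1 i
        omega
      have h3 : x + vec e ∈ bx d R := by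
        rw [E2_mem_bx]
        intro i
        have h4 : |vec e i| ≤ 1 := by
          obtain ⟨j, b⟩ := e
          by_cases hj : i = j
          · subst hj
            rw [E2_vec_same]
            cases b <;> simp
          · rw [E2_vec_ne b hj]
            simp
        calc |(x + vec e) i| = |x i + vec e i| := rfl
          _ ≤ |x i| + |vec e i| := abs_add_le _ _
          _ ≤ R := by linarith [h2 i]
      obtain ⟨l', h4, h5⟩ := ih (x + vec e) h3 hO.2 h
      exact ⟨e :: l', ⟨⟨hO.1, hx⟩, h4⟩, h5⟩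

/-- E2b. PROOF. The cluster is not contained in the finite box, so there is an open path from `0` to a site outside `bx d R`; its first site with `max |·| ≥ R` has `max |·| = R` (steps change one coordinate by `1`; for `R = 0` the
path `[]`). All the sites up to it are in the box. (Induction on the path with the invariant, or `List.take` of the first such time.) -/
theorem reach (hd : 1 ≤ d) (ω : Env d) (h : Inf ω) (R : ℕ) :
    ∃ l : List (Stp d), Op (opn ω ∩ (bx d R : Set (V d))) 0 l ∧ ∃ i, |en 0 l i| = (R : ℤ) := by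
  have h0 : (0 : V d) ∈ bx d R := by
    rw [E2_mem_bx]
    intro i
    simp
  obtain ⟨y, hy, hy2⟩ := h.exists_notMem_finset (bx d R)
  obtain ⟨l, hl, rfl⟩ := hy
  exact E2_walk (opn ω) R l 0 h0 hl hy2

/-- E2c. PROOF. Take the shortest open path with the same ends; if two of its sites coincide, cut out the loop. So its `length + 1` sites are distinct elements of `S`. -/
theorem short (S : Finset (V d)) (O : Set (V d)) (hO : O ⊆ (S : Set (V d))) (x : V d) (l : List (Stp d)) (h : Op O x l) :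
    ∃ l' : List (Stp d), Op O x l' ∧ en x l' = en x l ∧ l'.length + 1 ≤ S.card := by
  classical
  induction hn : l.length using Nat.strong_induction_on generalizing l with
  | _ n ih =>
    by_cases hlen : l.length + 1 ≤ S.card
    · exact ⟨l, h, rfl, hlen⟩
    · have hmem : ∀ k ∈ Finset.range (l.length + 1), en x (l.take k) ∈ S := by
        intro k _
        have h1 : Op O x (l.take k ++ l.drop k) := by rwa [List.take_append_drop]
        exact hO (Op_end ((Op_append _ _ _ _).1 h1).1)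
      obtain ⟨a, ha, b, hb, hab, he⟩ := Finset.exists_ne_map_eq_of_card_lt_of_maps_to
        (s := Finset.range (l.length + 1)) (t := S) (by rw [Finset.card_range]; omega)
        (f := fun k => en x (l.take k)) hmem
      have key : ∀ a b : ℕ, a < b → b ≤ l.length → en x (l.take a) = en x (l.take b) →
          ∃ l' : List (Stp d), Op O x l' ∧ en x l' = en x l ∧ l'.length + 1 ≤ S.card := by
        intro a b hab hb he
        have h1 : Op O x (l.take b ++ l.drop b) := by rwa [List.take_append_drop]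
        have h2 : Op O x (l.take a ++ l.drop a) := by rwa [List.take_append_drop]
        rw [Op_append] at h1 h2
        have h3 : Op O x (l.take a ++ l.drop b) := by
          rw [Op_append]
          exact ⟨h2.1, by rw [he]; exact h1.2⟩
        have h4 : en x (l.take a ++ l.drop b) = en x l := by
          rw [en_append, he, ← en_append, List.take_append_drop]
        have h5 : (l.take a ++ l.drop b).length < n := by
          rw [List.length_append, List.length_take, List.length_drop]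
          omega
        obtain ⟨l', h6, h7, h8⟩ := ih _ h5 (l.take a ++ l.drop b) h3 rfl
        exact ⟨l', h6, h7.trans h4, h8⟩
      rw [Finset.mem_range] at ha hb
      rcases Nat.lt_or_gt_of_ne hab with h1 | h1
      · exact key a b h1 (by omega) he
      · exact key b a h1 (by omega) he.symm

/-- E2d. -/
theorem card_bx (R : ℕ) : (bx d R).card = (2 * R + 1) ^ d := by
  unfold bx
  rw [Fintype.card_piFinset, Finset.prod_const, Finset.card_univ, Fintype.card_fin, Int.card_Icc]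
  congr 1
  omega

/-- E2e. PROOF. The cube is `Fintype.piFinset (fun i => Finset.Icc (c i - (r - 1)) (c i + (r - 1)))`. -/
theorem card_cube (c : V d) (r : ℕ) (hr : 1 ≤ r) : ∃ T : Finset (V d), (T : Set (V d)) = cube c r ∧ T.card = (2 * r - 1) ^ d := by
  refine ⟨Fintype.piFinset (fun i => Finset.Icc (c i - ((r : ℤ) - 1)) (c i + ((r : ℤ) - 1))), ?_, ?_⟩
  · ext y
    rw [Finset.mem_coe, Fintype.mem_piFinset]
    unfold cube
    rw [Set.mem_setOf_eq]
    refine forall_congr' fun i => ?_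
    rw [Finset.mem_Icc, abs_le]
    constructor
    · rintro ⟨h1, h2⟩
      constructor <;> linarith
    · rintro ⟨h1, h2⟩
      constructor <;> linarith
  · rw [Fintype.card_piFinset, Finset.prod_congr rfl (g := fun _ => 2 * r - 1), Finset.prod_const,
      Finset.card_univ, Fintype.card_fin]
    intro i _
    rw [Int.card_Icc]
    omega

theorem bx_mono (R R' : ℕ) (h : R ≤ R') : bx d R ⊆ bx d R' := by
  intro x hx
  rw [E2_mem_bx] at hx ⊢
  intro i
  have h1 : (R : ℤ) ≤ R' := by exact_mod_cast h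
  exact (hx i).trans h1

theorem Op_mono (O O' : Set (V d)) (h : O ⊆ O') (x : V d) (l : List (Stp d)) (hl : Op O x l) : Op O' x l := by
  induction l generalizing x with
  | nil => exact h hl
  | cons e l ih => exact ⟨h hl.1, ih _ hl.2⟩

end Pool.Agent.RWO
end

section

set_option autoImplicit false

/-! Task E3: the exploration. -/

namespace Pool.Agent.RWO

open MeasureTheory
open scoped NNReal ENNReal

variable {d : ℕ}

open scoped Classical in
/-- The sites of the boundary of the box of half side `R` joined to `0` inside the box. -/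
noncomputable def E3_S (R : ℕ) (ω : Env d) : Finset (V d) :=
  (bx d R).filter fun v => (∃ i, |v i| = (R : ℤ)) ∧ ∃ l, Op (opn ω ∩ (bx d R : Set (V d))) 0 l ∧ en 0 l = v

open scoped Classical in
/-- A choice function. -/
noncomputable def E3_pick (S : Finset (V d)) : V d := if h : S.Nonempty then h.choose else 0

theorem E3_pick_mem (S : Finset (V d)) (h : S.Nonempty) : E3_pick S ∈ S := by
  unfold E3_pick
  rw [dif_pos h]
  exact h.choose_spec

/-- The sets `opn ω ∩ S` depend only on the sites of `S`. -/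
theorem E3_inter (S : Finset (V d)) (ω ω' : Env d) (h : ∀ x ∈ S, ω x = ω' x) :
    opn ω ∩ (S : Set (V d)) = opn ω' ∩ (S : Set (V d)) := by
  ext x
  simp only [opn, Set.mem_inter_iff, Set.mem_setOf_eq, Finset.mem_coe]
  constructor
  · rintro ⟨h1, h2⟩
    exact ⟨by rw [← h x h2]; exact h1, h2⟩
  · rintro ⟨h1, h2⟩
    exact ⟨by rw [h x h2]; exact h1, h2⟩

theorem E3_S_eq (R : ℕ) (ω ω' : Env d) (h : ∀ x ∈ bx d R, ω x = ω' x) : E3_S R ω = E3_S R ω' := by
  unfold E3_S
  rw [E3_inter (bx d R) ω ω' h]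

/-- The data of the cubes. -/
theorem E3_cube (r R : ℕ) (hr : 1 ≤ r) (v : V d) : ∃ T : Finset (V d),
    (v ∈ bx d R ∧ (∃ i, |v i| = (R : ℤ)) → T ⊆ bx d (R + 2 * r) ∧ Disjoint (bx d R) T ∧ T.card = (2 * r - 1) ^ d ∧
      ∃ c : V d, (T : Set (V d)) = cube c r ∧
      ∃ l : List (Stp d), l.length = r ∧ en v l = c ∧ ∀ O : Set (V d), v ∈ O → cube c r ⊆ O → Op O v l) := by
  by_cases h : v ∈ bx d R ∧ (∃ i, |v i| = (R : ℤ))
  · obtain ⟨c, h1, h2, h3⟩ := attach r R hr v h.1 h.2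
    obtain ⟨T, hT, hcard⟩ := card_cube c r hr
    refine ⟨T, fun _ => ⟨?_, ?_, hcard, c, hT, h3⟩⟩
    · rw [← Finset.coe_subset, hT]
      exact h1
    · rw [← Finset.disjoint_coe, hT]
      exact h2.symm
  · exact ⟨∅, fun h' => absurd h' h⟩

/-- The cube attached to `v`. -/
noncomputable def E3_T (r R : ℕ) (hr : 1 ≤ r) (v : V d) : Finset (V d) := (E3_cube r R hr v).choose

/-- The event that the cubes `j < k` are not open. -/
def E3_E (r : ℕ) (hr : 1 ≤ r) (k : ℕ) : Set (Env d) :=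
  {ω | ∀ j < k, (E3_S (2 * r * j) ω).Nonempty ∧
    ¬ ∀ x ∈ E3_T r (2 * r * j) hr (E3_pick (E3_S (2 * r * j) ω)), ω x = true}

theorem E3_pick_spec (R : ℕ) (ω : Env d) (h : (E3_S R ω).Nonempty) :
    (E3_pick (E3_S R ω) ∈ bx d R ∧ (∃ i, |E3_pick (E3_S R ω) i| = (R : ℤ))) ∧
      ∃ l, Op (opn ω ∩ (bx d R : Set (V d))) 0 l ∧ en 0 l = E3_pick (E3_S R ω) := by
  classical
  have h1 := E3_pick_mem _ h
  have h2 : E3_pick (E3_S R ω) ∈ (bx d R).filter fun v => (∃ i, |v i| = (R : ℤ)) ∧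
      ∃ l, Op (opn ω ∩ (bx d R : Set (V d))) 0 l ∧ en 0 l = v := by
    convert h1
    unfold E3_S
    congr
  rw [Finset.mem_filter] at h2
  exact ⟨⟨h2.1, h2.2.1⟩, h2.2.2⟩

theorem E3_dep_E (r : ℕ) (hr : 1 ≤ r) (k : ℕ) : dep (bx d (2 * r * k)) (E3_E (d := d) r hr k) := by
  have key : ∀ ω ω' : Env d, (∀ x ∈ bx d (2 * r * k), ω x = ω' x) → ω ∈ E3_E (d := d) r hr k →
      ω' ∈ E3_E (d := d) r hr k := by
    intro ω ω' h hω j hj
    have hle : 2 * r * j ≤ 2 * r * k := Nat.mul_le_mul_left _ hj.le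
    have hS : E3_S (2 * r * j) ω = E3_S (2 * r * j) ω' :=
      E3_S_eq _ _ _ fun x hx => h x (bx_mono _ _ hle hx)
    obtain ⟨h1, h2⟩ := hω j hj
    rw [← hS]
    refine ⟨h1, fun h3 => h2 fun x hx => ?_⟩
    have h4 := ((E3_cube r (2 * r * j) hr (E3_pick (E3_S (2 * r * j) ω))).choose_spec (E3_pick_spec _ _ h1).1).1
    have h5 : x ∈ bx d (2 * r * k) := by
      refine bx_mono _ _ ?_ (h4 hx)
      have : 2 * r * j + 2 * r = 2 * r * (j + 1) := by ring
      rw [this]
      exact Nat.mul_le_mul_left _ hj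
    rw [h x h5]
    exact h3 x hx
  intro ω ω' h
  exact ⟨key ω ω' h, key ω' ω fun x hx => (h x hx).symm⟩

theorem E3_dep_mono (S T : Finset (V d)) (hST : S ⊆ T) (B : Set (Env d)) (h : dep S B) : dep T B :=
  fun ω ω' h' => h ω ω' fun x hx => h' x (hST hx)

theorem E3_dep_inter (S : Finset (V d)) (A B : Set (Env d)) (hA : dep S A) (hB : dep S B) : dep S (A ∩ B) := by
  intro ω ω' h
  rw [Set.mem_inter_iff, Set.mem_inter_iff, hA ω ω' h, hB ω ω' h]

theorem E3_step (p : ℝ≥0) (hp : p ≤ 1) (r : ℕ) (hr : 1 ≤ r) (k : ℕ) :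
    PP d p hp (E3_E (d := d) r hr (k + 1)) ≤
      (1 - (p : ℝ≥0∞) ^ ((2 * r - 1) ^ d)) * PP d p hp (E3_E (d := d) r hr k) := by
  classical
  obtain ⟨R, hR⟩ : ∃ R, R = 2 * r * k := ⟨_, rfl⟩
  obtain ⟨bd, hbd⟩ : ∃ bd : Finset (V d), bd = (bx d R).filter fun v => ∃ i, |v i| = (R : ℤ) := ⟨_, rfl⟩
  have hmem : ∀ v ∈ bd, v ∈ bx d R ∧ ∃ i, |v i| = (R : ℤ) := by
    intro v hv
    rw [hbd, Finset.mem_filter] at hv
    exact hv
  let A : V d → Set (Env d) := fun v => E3_E (d := d) r hr k ∩ {ω | (E3_S R ω).Nonempty ∧ E3_pick (E3_S R ω) = v}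
  let B : V d → Set (Env d) := fun v => {ω | ¬ ∀ x ∈ E3_T r R hr v, ω x = true}
  have hAdep : ∀ v, dep (bx d R) (A v) := by
    intro v
    refine E3_dep_inter _ _ _ ?_ ?_
    · rw [hR]
      exact E3_dep_E r hr k
    · intro ω ω' h
      simp only [Set.mem_setOf_eq]
      rw [E3_S_eq R ω ω' h]
  have hBdep : ∀ v, dep (E3_T r R hr v) (B v) := by
    intro v ω ω' h
    show (¬ ∀ x ∈ E3_T r R hr v, ω x = true) ↔ ¬ ∀ x ∈ E3_T r R hr v, ω' x = true
    constructor
    · intro h1 h2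
      exact h1 fun x hx => by rw [h x hx]; exact h2 x hx
    · intro h1 h2
      exact h1 fun x hx => by rw [← h x hx]; exact h2 x hx
  have hAmeas : ∀ v, MeasurableSet (A v) := fun v => dep_meas _ _ (hAdep v)
  have hBP : ∀ v ∈ bd, PP d p hp (B v) = 1 - (p : ℝ≥0∞) ^ ((2 * r - 1) ^ d) := by
    intro v hv
    obtain ⟨-, -, h3, -⟩ := (E3_cube r R hr v).choose_spec (hmem v hv)
    have h4 : B v = {ω | ∀ x ∈ E3_T r R hr v, ω x = true}ᶜ := rfl
    have hdep : dep (E3_T r R hr v) {ω : Env d | ∀ x ∈ E3_T r R hr v, ω x = true} := by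
      intro ω ω' h
      simp only [Set.mem_setOf_eq]
      exact ⟨fun h1 x hx => by rw [← h x hx]; exact h1 x hx, fun h1 x hx => by rw [h x hx]; exact h1 x hx⟩
    rw [h4, prob_compl_eq_one_sub (dep_meas _ _ hdep), PP_open]
    have h5 : (E3_T r R hr v).card = (2 * r - 1) ^ d := h3
    rw [h5]
  have hsub : E3_E (d := d) r hr (k + 1) ⊆ ⋃ v ∈ bd, (A v ∩ B v) := by
    intro ω hω
    obtain ⟨h1, h2⟩ := hω k (Nat.lt_succ_self k)
    rw [← hR] at h1 h2
    have h3 := E3_pick_spec R ω h1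
    rw [Set.mem_iUnion₂]
    refine ⟨E3_pick (E3_S R ω), ?_, ⟨fun j hj => hω j (Nat.lt_succ_of_lt hj), h1, rfl⟩, h2⟩
    rw [hbd, Finset.mem_filter]
    exact h3.1
  have hdisj : (bd : Set (V d)).PairwiseDisjoint A := by
    intro v _ w _ hvw
    show Disjoint (A v) (A w)
    rw [Set.disjoint_left]
    rintro ω ⟨-, -, h1⟩ ⟨-, -, h2⟩
    exact hvw (h1.symm.trans h2)
  calc PP d p hp (E3_E (d := d) r hr (k + 1)) ≤ PP d p hp (⋃ v ∈ bd, (A v ∩ B v)) := measure_mono hsub
    _ ≤ ∑ v ∈ bd, PP d p hp (A v ∩ B v) := measure_biUnion_finset_le _ _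
    _ = ∑ v ∈ bd, (1 - (p : ℝ≥0∞) ^ ((2 * r - 1) ^ d)) * PP d p hp (A v) := by
        refine Finset.sum_congr rfl fun v hv => ?_
        obtain ⟨-, h2, -⟩ := (E3_cube r R hr v).choose_spec (hmem v hv)
        rw [dep_indep p hp (bx d R) (E3_T r R hr v) h2 (A v) (B v) (hAdep v) (hBdep v), hBP v hv, mul_comm]
    _ = (1 - (p : ℝ≥0∞) ^ ((2 * r - 1) ^ d)) * ∑ v ∈ bd, PP d p hp (A v) := by rw [Finset.mul_sum]
    _ = (1 - (p : ℝ≥0∞) ^ ((2 * r - 1) ^ d)) * PP d p hp (⋃ v ∈ bd, A v) := by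
        rw [measure_biUnion_finset hdisj fun v _ => hAmeas v]
    _ ≤ (1 - (p : ℝ≥0∞) ^ ((2 * r - 1) ^ d)) * PP d p hp (E3_E (d := d) r hr k) := by
        gcongr
        exact Set.iUnion₂_subset fun v _ => Set.inter_subset_left

open scoped Classical in
/-- E3. PROOF. `R_k = 2rk`. `S_k(ω)` = the finset of the `v ∈ bx d R_k` with `∃ i, |v i| = R_k` for which there is a path from `0` to `v`, open and inside `bx d R_k`; it depends only on the sites of `bx d R_k`. `pick` = a choice function on the nonempty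
finsets, `v_k(ω) = pick (S_k ω)`, `c_k(v)` = the centre of `attach` (chosen), `Q_k(v) = cube (c_k v) r ⊆ bx d R_{k+1} \ bx d R_k`, of `(2r-1)^d` sites. `E_k` = the event that for all `j < k`: `S_j` is nonempty and `Q_j(v_j)` is not open. `E_k`
depends only on `bx d R_k`. `P(E_{k+1}) = ∑_v P(E_k ∩ {S_k ≠ ∅, v_k = v} ∩ {Q_k(v) not open}) = (1 - p^((2r-1)^d)) ∑_v P(E_k ∩ {S_k ≠ ∅, v_k = v}) ≤ (1 - p^((2r-1)^d)) P(E_k)` (`dep_indep`, `PP_open`). If `Inf ω` and not `good`, then `ω ∈ E_K`: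
`S_j ≠ ∅` by `reach`, and if `Q_j(v_j)` were open then, with `short` for the set `opn ω ∩ bx d R_j` (length `< (2R_j+1)^d`) and the path of `attach`, `good` would hold. -/
theorem explore (hd : 1 ≤ d) (p : ℝ≥0) (hp : p ≤ 1) (r K : ℕ) (hr : 1 ≤ r) :
    PP d p hp {ω | Inf ω ∧ ¬ good r ((4 * r * K + 1) ^ d + r) ω} ≤ (1 - (p : ℝ≥0∞) ^ ((2 * r - 1) ^ d)) ^ K := by
  have h1 : ∀ k, PP d p hp (E3_E (d := d) r hr k) ≤ (1 - (p : ℝ≥0∞) ^ ((2 * r - 1) ^ d)) ^ k := by
    intro k
    induction k with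
    | zero => rw [pow_zero]; exact prob_le_one
    | succ k ih =>
      refine (E3_step p hp r hr k).trans ?_
      rw [pow_succ']
      gcongr
  refine le_trans (measure_mono ?_) (h1 K)
  rintro ω ⟨hInf, hng⟩ j hj
  have hne : (E3_S (2 * r * j) ω).Nonempty := by
    obtain ⟨l, hl, hi⟩ := reach hd ω hInf (2 * r * j)
    refine ⟨en 0 l, ?_⟩
    unfold E3_S
    rw [Finset.mem_filter]
    exact ⟨(Op_end hl).2, hi, l, hl, rfl⟩
  refine ⟨hne, fun hopen => hng ?_⟩
  obtain ⟨h2, l, hl, hlen⟩ := E3_pick_spec (2 * r * j) ω hne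
  obtain ⟨-, -, -, c, hc, l3, h3, h4, h5⟩ := (E3_cube r (2 * r * j) hr (E3_pick (E3_S (2 * r * j) ω))).choose_spec h2
  obtain ⟨l', hl', hen', hcard⟩ := short (bx d (2 * r * j)) (opn ω ∩ (bx d (2 * r * j) : Set (V d)))
    Set.inter_subset_right 0 l hl
  have hcube : cube c r ⊆ opn ω := by
    intro x hx
    rw [← hc] at hx
    exact hopen x hx
  have hv : E3_pick (E3_S (2 * r * j) ω) ∈ opn ω := by
    rw [← hlen]
    exact (Op_end hl).1
  refine ⟨l' ++ l3, ?_, ?_, ?_⟩
  · rw [List.length_append, h3]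
    have h6 : l'.length ≤ (2 * (2 * r * j) + 1) ^ d := by
      rw [← card_bx]
      omega
    have h7 : (2 * (2 * r * j) + 1) ^ d ≤ (4 * r * K + 1) ^ d := by
      refine Nat.pow_le_pow_left ?_ d
      have : 2 * (2 * r * j) = 4 * r * j := by ring
      rw [this]
      have h8 : 4 * r * j ≤ 4 * r * K := Nat.mul_le_mul_left _ hj.le
      omega
    omega
  · rw [Op_append]
    refine ⟨Op_mono _ _ Set.inter_subset_left _ _ hl', ?_⟩
    rw [hen', hlen]
    exact h5 _ hv hcube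
  · rw [en_append, hen', hlen, h4]
    exact hcube

end Pool.Agent.RWO
end

section

set_option autoImplicit false

/-! Task E5: the lower bound of the quenched survival probability. -/

namespace Pool.Agent.RWO

open MeasureTheory Filter
open scoped NNReal ENNReal Topology

variable {d : ℕ}

theorem E5_exp {x : ℝ} (h0 : 0 ≤ x) (h1 : x ≤ 1) : Real.exp (-x) ≤ 1 - x / 2 := by
  have h2 : 1 + x ≤ Real.exp x := by linarith [Real.add_one_le_exp x]
  rw [Real.exp_neg]
  have h3 : 0 < 1 + x := by linarith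
  calc (Real.exp x)⁻¹ ≤ (1 + x)⁻¹ := inv_anti₀ h3 h2
    _ ≤ 1 - x / 2 := by
      rw [inv_le_iff_one_le_mul₀ h3]
      nlinarith

theorem E5_good (hd : 1 ≤ d) (ω : Env d) (r D n : ℕ) (hr : 2 ≤ r) (h : good r D ω) :
    (2 * d : ℝ) ^ n * Real.exp (-(n * (Real.pi / (2 * r)) ^ 2)) ≤ NP (opn ω) 0 n * (2 * d : ℝ) ^ D := by
  obtain ⟨l, hl, hop, hc⟩ := h
  have h1 := box_surv hd (opn ω) (en 0 l) r hr hc n
  have h2 : (NP (opn ω) (en 0 l) n : ℝ) ≤ NP (opn ω) 0 n * (2 * d : ℝ) ^ l.length := by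
    have h3 := NP_connect (opn ω) 0 l hop n
    exact_mod_cast h3
  have hd' : (1 : ℝ) ≤ 2 * d := by
    have : (1 : ℝ) ≤ d := by exact_mod_cast hd
    linarith
  have h4 : (2 * d : ℝ) ^ l.length ≤ (2 * d : ℝ) ^ D := pow_le_pow_right₀ hd' hl
  have hr' : (2 : ℝ) ≤ r := by exact_mod_cast hr
  have hpi := Real.pi_pos
  have hpi' := Real.pi_le_four
  have ha0 : 0 ≤ Real.pi / (2 * r) := by positivity
  have ha1 : Real.pi / (2 * r) ≤ 1 := by
    rw [div_le_one (by positivity)]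
    linarith
  set a := Real.pi / (2 * r) with ha
  have h5 : Real.exp (-(a ^ 2)) ≤ Real.cos a := by
    have h6 := E5_exp (x := a ^ 2) (by positivity) (by nlinarith)
    have h7 := Real.one_sub_sq_div_two_le_cos (x := a)
    linarith
  have h8 : Real.exp (-(n * a ^ 2)) ≤ Real.cos a ^ n := by
    have h9 : Real.exp (-(n * a ^ 2)) = Real.exp (-(a ^ 2)) ^ n := by
      rw [← Real.exp_nat_mul]
      ring_nf
    rw [h9]
    exact pow_le_pow_left₀ (Real.exp_pos _).le h5 n
  calc (2 * d : ℝ) ^ n * Real.exp (-(n * a ^ 2)) ≤ (2 * d : ℝ) ^ n * Real.cos a ^ n := by gcongr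
    _ ≤ NP (opn ω) (en 0 l) n := h1
    _ ≤ NP (opn ω) 0 n * (2 * d : ℝ) ^ l.length := h2
    _ ≤ NP (opn ω) 0 n * (2 * d : ℝ) ^ D := by gcongr

theorem E5_enn (q : ℝ≥0) (hq : q ≤ 1) (K : ℕ) :
    (1 - (q : ℝ≥0∞)) ^ K ≤ ENNReal.ofReal (Real.exp (-(K * q))) := by
  have h1 : (1 - (q : ℝ≥0∞)) = ENNReal.ofReal (1 - q) := by
    rw [ENNReal.ofReal_sub _ (NNReal.coe_nonneg q), ENNReal.ofReal_one, ENNReal.ofReal_coe_nnreal]
  have h0 : (0 : ℝ) ≤ 1 - q := by
    have : (q : ℝ) ≤ 1 := by exact_mod_cast hq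
    linarith
  rw [h1, ← ENNReal.ofReal_pow h0]
  apply ENNReal.ofReal_le_ofReal
  have h2 : Real.exp (-(K * q)) = Real.exp (-q) ^ K := by
    rw [← Real.exp_nat_mul]
    ring_nf
  rw [h2]
  apply pow_le_pow_left₀ h0
  linarith [Real.add_one_le_exp (-(q : ℝ))]

/-- E5. PROOF. `c > 0` with `(2c)^d log(1/p) ≤ 1/(8d)`, `r = ⌊c (log n)^(1/d)⌋` (`≥ 2` for `n` large), `K = ⌊n^(1/(4d))⌋`, `D = (4rK+1)^d + r ≤ n^(1/2)` for `n` large. `explore`: the probability of `Inf` and not `good` is at most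
`(1 - p^((2r)^d))^K ≤ exp(-K p^((2r)^d)) ≤ exp(-K n^(-1/(8d))) → 0`. On `good r D`: `NP (opn ω) 0 n (2d)^D ≥ NP (opn ω) (en 0 l) n ≥ (2d)^n cos(π/(2r))^n` (`NP_connect`, `box_surv`), `cos(π/(2r)) ≥ exp(-(π/(2r))²)` for `r ≥ 2`
(`cos a ≥ 1 - a²/2 ≥ exp(-a²)` for `0 ≤ a ≤ 1`), so `NP ≥ (2d)^n exp(-n^(1/2) log(2d) - n π²/(4r²)) ≥ (2d)^n exp(-C₀ n (log n)^(-2/d))` for `n` large. -/
theorem env_main (hd : 1 ≤ d) (p : ℝ≥0) (hp0 : 0 < p) (hp : p ≤ 1) (hp1 : p < 1) : ∃ C₀ : ℝ, 0 < C₀ ∧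
    Tendsto (fun n : ℕ => PP d p hp {ω | Inf ω ∧
      (NP (opn ω) 0 n : ℝ) < (2 * d : ℝ) ^ n * Real.exp (-(C₀ * n * (Real.log n) ^ (-(2 / d : ℝ))))}) atTop (𝓝 0) := by
  have hd0 : (1 : ℝ) ≤ d := by exact_mod_cast hd
  have hdp : (0 : ℝ) < d := by linarith
  have hp0' : (0 : ℝ) < p := by exact_mod_cast hp0
  have hp1' : (p : ℝ) < 1 := by exact_mod_cast hp1
  set L : ℝ := -Real.log p with hL
  have hL0 : 0 < L := by
    rw [hL]
    linarith [Real.log_neg hp0' hp1']
  set c : ℝ := min 1 (1 / (8 * d * L)) / 2 with hc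
  have hm0 : 0 < min 1 (1 / (8 * d * L)) := lt_min one_pos (by positivity)
  have hc0 : 0 < c := by positivity
  have hcd : (2 * c) ^ d * L ≤ 1 / (8 * d) := by
    have h1 : 2 * c = min 1 (1 / (8 * d * L)) := by rw [hc]; ring
    rw [h1]
    have h2 : (min 1 (1 / (8 * d * L)) : ℝ) ^ d ≤ min 1 (1 / (8 * d * L)) :=
      pow_le_of_le_one hm0.le (min_le_left _ _) (by omega)
    have h3 : (min 1 (1 / (8 * d * L)) : ℝ) ^ d ≤ 1 / (8 * d * L) := h2.trans (min_le_right _ _)
    calc (min 1 (1 / (8 * d * L)) : ℝ) ^ d * L ≤ 1 / (8 * d * L) * L := by gcongr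
      _ = 1 / (8 * d) := by field_simp
  set M : ℝ := (4 * c + 1) ^ d + c with hM
  have hM0 : 0 < M := by positivity
  refine ⟨Real.pi ^ 2 / c ^ 2 + 1, by positivity, ?_⟩
  -- asymptotics
  have tn : Tendsto (fun n : ℕ => (n : ℝ)) atTop atTop := tendsto_natCast_atTop_atTop
  have tl : Tendsto (fun n : ℕ => Real.log n) atTop atTop := Real.tendsto_log_atTop.comp tn
  have F1 : ∀ᶠ n : ℕ in atTop, 1 ≤ Real.log n := tl.eventually_ge_atTop 1
  have F2 : ∀ᶠ n : ℕ in atTop, 4 ≤ c * (Real.log n) ^ (1 / d : ℝ) := by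
    have h1 : Tendsto (fun n : ℕ => c * (Real.log n) ^ (1 / d : ℝ)) atTop atTop :=
      ((tendsto_rpow_atTop (by positivity)).comp tl).const_mul_atTop hc0
    exact h1.eventually_ge_atTop 4
  have F3 : ∀ᶠ n : ℕ in atTop, 2 ≤ (n : ℝ) ^ (1 / (4 * d) : ℝ) :=
    ((tendsto_rpow_atTop (by positivity)).comp tn).eventually_ge_atTop 2
  have F4 : ∀ᶠ n : ℕ in atTop, M * Real.log n ≤ (n : ℝ) ^ (1 / 4 : ℝ) := by
    have h1 := (isLittleO_log_rpow_atTop (r := 1 / 4) (by norm_num)).bound (c := 1 / M) (by positivity)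
    filter_upwards [tn.eventually h1, F1] with n h2 h3
    rw [Real.norm_of_nonneg (by linarith), Real.norm_of_nonneg (by positivity)] at h2
    calc M * Real.log n ≤ M * (1 / M * (n : ℝ) ^ (1 / 4 : ℝ)) := by gcongr
      _ = (n : ℝ) ^ (1 / 4 : ℝ) := by field_simp
  have F5 : ∀ᶠ n : ℕ in atTop, Real.log (2 * d) * (Real.log n) ^ (2 / d : ℝ) ≤ (n : ℝ) ^ (1 / 2 : ℝ) := by
    have hl2 : 0 < Real.log (2 * d) := Real.log_pos (by linarith)
    have h1 := (isLittleO_log_rpow_rpow_atTop (2 / d : ℝ) (s := 1 / 2) (by norm_num)).bound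
      (c := 1 / Real.log (2 * d)) (by positivity)
    filter_upwards [tn.eventually h1, F1] with n h2 h3
    rw [Real.norm_of_nonneg (by positivity), Real.norm_of_nonneg (by positivity)] at h2
    calc Real.log (2 * d) * (Real.log n) ^ (2 / d : ℝ)
        ≤ Real.log (2 * d) * (1 / Real.log (2 * d) * (n : ℝ) ^ (1 / 2 : ℝ)) := by gcongr
      _ = (n : ℝ) ^ (1 / 2 : ℝ) := by field_simp
  have F6 : ∀ᶠ n : ℕ in atTop, 1 ≤ n := eventually_ge_atTop 1
  -- the bound
  have key : ∀ᶠ n : ℕ in atTop, PP d p hp {ω | Inf ω ∧ (NP (opn ω) 0 n : ℝ) < (2 * d : ℝ) ^ n *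
      Real.exp (-((Real.pi ^ 2 / c ^ 2 + 1) * n * (Real.log n) ^ (-(2 / d : ℝ))))}
      ≤ ENNReal.ofReal (Real.exp (-((n : ℝ) ^ (1 / (8 * d) : ℝ) / 2))) := by
    filter_upwards [F1, F2, F3, F4, F5, F6] with n f1 f2 f3 f4 f5 f6
    have n1 : (1 : ℝ) ≤ n := by exact_mod_cast f6
    set ℓ := Real.log n with hℓ
    set r : ℕ := ⌊c * ℓ ^ (1 / d : ℝ)⌋₊ with hr
    set K : ℕ := ⌊(n : ℝ) ^ (1 / (4 * d) : ℝ)⌋₊ with hK
    have r1 : (r : ℝ) ≤ c * ℓ ^ (1 / d : ℝ) := Nat.floor_le (by positivity)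
    have r2 : c * ℓ ^ (1 / d : ℝ) < r + 1 := Nat.lt_floor_add_one _
    have r3 : c * ℓ ^ (1 / d : ℝ) / 2 ≤ r := by linarith
    have r4 : 2 ≤ r := by
      have : (3 : ℝ) < r + 1 := by linarith
      have h : 3 < r + 1 := by exact_mod_cast this
      omega
    have k1 : (K : ℝ) ≤ (n : ℝ) ^ (1 / (4 * d) : ℝ) := Nat.floor_le (by positivity)
    have k2 : (n : ℝ) ^ (1 / (4 * d) : ℝ) < K + 1 := Nat.lt_floor_add_one _
    have k3 : (n : ℝ) ^ (1 / (4 * d) : ℝ) / 2 ≤ K := by linarith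
    have ld : (ℓ ^ (1 / d : ℝ)) ^ d = ℓ := by
      rw [← Real.rpow_natCast, ← Real.rpow_mul (by linarith), one_div_mul_cancel hdp.ne', Real.rpow_one]
    have nd : ((n : ℝ) ^ (1 / (4 * d) : ℝ)) ^ d = (n : ℝ) ^ (1 / 4 : ℝ) := by
      rw [← Real.rpow_natCast, ← Real.rpow_mul (by linarith)]
      congr 1
      field_simp
    have l1 : 1 ≤ ℓ ^ (1 / d : ℝ) := Real.one_le_rpow f1 (by positivity)
    have l2 : ℓ ^ (1 / d : ℝ) ≤ ℓ := by
      calc ℓ ^ (1 / d : ℝ) ≤ ℓ ^ (1 : ℝ) :=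
            Real.rpow_le_rpow_of_exponent_le f1 (by rw [div_le_one hdp]; exact hd0)
        _ = ℓ := Real.rpow_one _
    have n2 : 1 ≤ (n : ℝ) ^ (1 / (4 * d) : ℝ) := Real.one_le_rpow n1 (by positivity)
    have n3 : 1 ≤ (n : ℝ) ^ (1 / 4 : ℝ) := Real.one_le_rpow n1 (by positivity)
    -- the size of D
    set D : ℕ := (4 * r * K + 1) ^ d + r with hD
    have hDn : (D : ℝ) ≤ (n : ℝ) ^ (1 / 2 : ℝ) := by
      have h1 : (4 * r * K + 1 : ℝ) ≤ (4 * c + 1) * (ℓ ^ (1 / d : ℝ) * (n : ℝ) ^ (1 / (4 * d) : ℝ)) := by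
        have h2 : (r : ℝ) * K ≤ c * ℓ ^ (1 / d : ℝ) * (n : ℝ) ^ (1 / (4 * d) : ℝ) := by gcongr
        have h3 : (1 : ℝ) ≤ ℓ ^ (1 / d : ℝ) * (n : ℝ) ^ (1 / (4 * d) : ℝ) := by nlinarith
        nlinarith
      have h4 : (4 * r * K + 1 : ℝ) ^ d ≤ (4 * c + 1) ^ d * (ℓ * (n : ℝ) ^ (1 / 4 : ℝ)) := by
        calc (4 * r * K + 1 : ℝ) ^ d
            ≤ ((4 * c + 1) * (ℓ ^ (1 / d : ℝ) * (n : ℝ) ^ (1 / (4 * d) : ℝ))) ^ d := by gcongr
          _ = _ := by rw [mul_pow, mul_pow, ld, nd]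
      have h5 : (r : ℝ) ≤ c * (ℓ * (n : ℝ) ^ (1 / 4 : ℝ)) := by
        calc (r : ℝ) ≤ c * ℓ ^ (1 / d : ℝ) := r1
          _ ≤ c * (ℓ * (n : ℝ) ^ (1 / 4 : ℝ)) := by
            gcongr
            nlinarith
      have h6 : (D : ℝ) = (4 * r * K + 1 : ℝ) ^ d + r := by
        rw [hD]
        push_cast
        ring
      rw [h6]
      calc (4 * r * K + 1 : ℝ) ^ d + r ≤ (4 * c + 1) ^ d * (ℓ * (n : ℝ) ^ (1 / 4 : ℝ))
            + c * (ℓ * (n : ℝ) ^ (1 / 4 : ℝ)) := add_le_add h4 h5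
        _ = (M * ℓ) * (n : ℝ) ^ (1 / 4 : ℝ) := by rw [hM]; ring
        _ ≤ (n : ℝ) ^ (1 / 4 : ℝ) * (n : ℝ) ^ (1 / 4 : ℝ) := by gcongr
        _ = (n : ℝ) ^ (1 / 2 : ℝ) := by
          rw [← Real.rpow_add (by linarith)]
          norm_num
    -- the event
    have hsub : {ω : Env d | Inf ω ∧ (NP (opn ω) 0 n : ℝ) < (2 * d : ℝ) ^ n *
        Real.exp (-((Real.pi ^ 2 / c ^ 2 + 1) * n * ℓ ^ (-(2 / d : ℝ))))}
        ⊆ {ω | Inf ω ∧ ¬ good r D ω} := by
      rintro ω ⟨h1, h2⟩
      refine ⟨h1, fun h3 => ?_⟩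
      have h4 := E5_good hd ω r D n r4 h3
      have hd2 : (0 : ℝ) < 2 * d := by positivity
      have h5 : (2 * d : ℝ) ^ D = Real.exp (D * Real.log (2 * d)) := by
        rw [Real.exp_nat_mul, Real.exp_log hd2]
      have ln : ℓ ^ (-(2 / d : ℝ)) = (ℓ ^ (2 / d : ℝ))⁻¹ := Real.rpow_neg (by linarith) _
      have lsq : ℓ ^ (2 / d : ℝ) = (ℓ ^ (1 / d : ℝ)) ^ 2 := by
        rw [← Real.rpow_natCast, ← Real.rpow_mul (by linarith)]
        congr 1
        push_cast
        ring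
      have lpos : 0 < ℓ ^ (1 / d : ℝ) := by linarith
      have h6 : (n : ℝ) * (Real.pi / (2 * r)) ^ 2 ≤ Real.pi ^ 2 / c ^ 2 * n * ℓ ^ (-(2 / d : ℝ)) := by
        have h7 : Real.pi / (2 * r) ≤ Real.pi / (c * ℓ ^ (1 / d : ℝ)) := by
          apply div_le_div_of_nonneg_left Real.pi_pos.le (by positivity)
          linarith
        have h8 : (Real.pi / (2 * r)) ^ 2 ≤ (Real.pi / (c * ℓ ^ (1 / d : ℝ))) ^ 2 := by
          apply pow_le_pow_left₀ (by positivity) h7
        calc (n : ℝ) * (Real.pi / (2 * r)) ^ 2 ≤ n * (Real.pi / (c * ℓ ^ (1 / d : ℝ))) ^ 2 := by gcongr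
          _ = Real.pi ^ 2 / c ^ 2 * n * ℓ ^ (-(2 / d : ℝ)) := by
            rw [ln, lsq]
            field_simp
      have h9 : (D : ℝ) * Real.log (2 * d) ≤ n * ℓ ^ (-(2 / d : ℝ)) := by
        have hl2 : 0 ≤ Real.log (2 * d) := Real.log_nonneg (by linarith)
        rw [ln, ← div_eq_mul_inv, le_div_iff₀ (by positivity)]
        calc (D : ℝ) * Real.log (2 * d) * ℓ ^ (2 / d : ℝ)
            = D * (Real.log (2 * d) * ℓ ^ (2 / d : ℝ)) := by ring
          _ ≤ (n : ℝ) ^ (1 / 2 : ℝ) * (n : ℝ) ^ (1 / 2 : ℝ) := by gcongr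
          _ = n := by
            rw [← Real.rpow_add (by linarith)]
            norm_num
      have h10 : (2 * d : ℝ) ^ n * Real.exp (-((Real.pi ^ 2 / c ^ 2 + 1) * n * ℓ ^ (-(2 / d : ℝ))))
          ≤ NP (opn ω) 0 n := by
        have h11 : Real.exp (-((Real.pi ^ 2 / c ^ 2 + 1) * n * ℓ ^ (-(2 / d : ℝ))))
            ≤ Real.exp (-(n * (Real.pi / (2 * r)) ^ 2)) * Real.exp (-(D * Real.log (2 * d))) := by
          rw [← Real.exp_add]
          apply Real.exp_le_exp.2
          nlinarith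
        have h12 : (NP (opn ω) 0 n : ℝ) * (2 * d : ℝ) ^ D * Real.exp (-(D * Real.log (2 * d)))
            = NP (opn ω) 0 n := by
          rw [h5, mul_assoc, ← Real.exp_add, add_neg_cancel, Real.exp_zero, mul_one]
        calc (2 * d : ℝ) ^ n * Real.exp (-((Real.pi ^ 2 / c ^ 2 + 1) * n * ℓ ^ (-(2 / d : ℝ))))
            ≤ (2 * d : ℝ) ^ n * (Real.exp (-(n * (Real.pi / (2 * r)) ^ 2))
              * Real.exp (-(D * Real.log (2 * d)))) := by gcongr
          _ = (2 * d : ℝ) ^ n * Real.exp (-(n * (Real.pi / (2 * r)) ^ 2))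
              * Real.exp (-(D * Real.log (2 * d))) := by ring
          _ ≤ NP (opn ω) 0 n * (2 * d : ℝ) ^ D * Real.exp (-(D * Real.log (2 * d))) := by gcongr
          _ = NP (opn ω) 0 n := h12
      linarith
    have h13 : PP d p hp {ω | Inf ω ∧ ¬ good r D ω} ≤ (1 - (p : ℝ≥0∞) ^ ((2 * r - 1) ^ d)) ^ K :=
      explore hd p hp r K (by omega)
    have h14 : (1 - (p : ℝ≥0∞) ^ ((2 * r - 1) ^ d)) ^ K
        ≤ ENNReal.ofReal (Real.exp (-(K * ((p ^ ((2 * r - 1) ^ d) : ℝ≥0) : ℝ)))) := by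
      rw [← ENNReal.coe_pow]
      exact E5_enn _ (pow_le_one₀ (by positivity) hp) K
    refine ((measure_mono hsub).trans h13).trans (h14.trans (ENNReal.ofReal_le_ofReal ?_))
    apply Real.exp_le_exp.2
    apply neg_le_neg
    -- the probability of an open cube
    have h15 : (n : ℝ) ^ (-(1 / (8 * d)) : ℝ) ≤ ((p ^ ((2 * r - 1) ^ d) : ℝ≥0) : ℝ) := by
      push_cast
      have h16 : (p : ℝ) ^ ((2 * r - 1) ^ d) = Real.exp (-(L * ((2 * r - 1 : ℕ) ^ d : ℕ))) := by
        rw [hL, neg_mul, neg_neg, mul_comm (Real.log (p : ℝ)) _, Real.exp_nat_mul, Real.exp_log hp0']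
      rw [h16, Real.rpow_def_of_pos (by linarith), ← hℓ]
      apply Real.exp_le_exp.2
      have h17 : (((2 * r - 1 : ℕ) ^ d : ℕ) : ℝ) ≤ (2 * c) ^ d * ℓ := by
        have h18 : ((2 * r - 1 : ℕ) : ℝ) ≤ 2 * r := by
          have : 2 * r - 1 ≤ 2 * r := Nat.sub_le _ _
          exact_mod_cast this
        push_cast
        calc ((2 * r - 1 : ℕ) : ℝ) ^ d ≤ (2 * r : ℝ) ^ d := by gcongr
          _ ≤ (2 * c * ℓ ^ (1 / d : ℝ)) ^ d :=
            pow_le_pow_left₀ (by positivity) (by linarith) d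
          _ = (2 * c) ^ d * ℓ := by rw [mul_pow, ld]
      have h19 : L * (((2 * r - 1 : ℕ) ^ d : ℕ) : ℝ) ≤ 1 / (8 * d) * ℓ := by
        calc L * (((2 * r - 1 : ℕ) ^ d : ℕ) : ℝ) ≤ L * ((2 * c) ^ d * ℓ) := by gcongr
          _ = (2 * c) ^ d * L * ℓ := by ring
          _ ≤ 1 / (8 * d) * ℓ := by gcongr
      linarith
    calc (n : ℝ) ^ (1 / (8 * d) : ℝ) / 2
        = ((n : ℝ) ^ (1 / (4 * d) : ℝ) / 2) * (n : ℝ) ^ (-(1 / (8 * d)) : ℝ) := by
          have h20 : (n : ℝ) ^ (1 / (8 * d) : ℝ)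
              = (n : ℝ) ^ (1 / (4 * d) : ℝ) * (n : ℝ) ^ (-(1 / (8 * d)) : ℝ) := by
            rw [← Real.rpow_add (by linarith)]
            congr 1
            field_simp
            ring
          rw [h20]
          ring
      _ ≤ K * ((p ^ ((2 * r - 1) ^ d) : ℝ≥0) : ℝ) := by gcongr
  -- the limit
  have hlim : Tendsto (fun n : ℕ => ENNReal.ofReal (Real.exp (-((n : ℝ) ^ (1 / (8 * d) : ℝ) / 2)))) atTop (𝓝 0) := by
    have h1 : Tendsto (fun n : ℕ => (n : ℝ) ^ (1 / (8 * d) : ℝ) / 2) atTop atTop :=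
      ((tendsto_rpow_atTop (by positivity)).comp tn).atTop_div_const (by norm_num)
    have h2 := Real.tendsto_exp_neg_atTop_nhds_zero.comp h1
    have h3 := ENNReal.tendsto_ofReal h2
    rw [ENNReal.ofReal_zero] at h3
    exact h3
  exact tendsto_of_tendsto_of_tendsto_of_le_of_le' tendsto_const_nhds hlim
    (Eventually.of_forall fun _ => bot_le) key

end Pool.Agent.RWO
end

section

set_option autoImplicit false

/-! Task F1: step sequences as functions, and the measurability of the infinite cluster. -/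

namespace Pool.Agent.RWO

open MeasureTheory Filter
open scoped NNReal ENNReal Topology

variable {d : ℕ}

/-- The position at time `t` of the walk from `0` with the steps `s`. -/
def pos {d n : ℕ} (s : Fin n → Fin d × Bool) (t : ℕ) : Fin d → ℤ :=
  ∑ i : Fin n, if (i : ℕ) < t then Pi.single (s i).1 (if (s i).2 then 1 else -1) else 0

/-- The step sequences which meet no obstacle up to time `n`. -/
def surv {d : ℕ} (ω : (Fin d → ℤ) → Bool) (n : ℕ) : Finset (Fin n → Fin d × Bool) :=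
  Finset.univ.filter (fun s => ∀ t ≤ n, ω (pos s t) = true)

/-- `P(S_t ∈ A | τ > n)`. -/
noncomputable def condProb {d : ℕ} (ω : (Fin d → ℤ) → Bool) (n t : ℕ) (A : Finset (Fin d → ℤ)) : ℝ :=
  (((surv ω n).filter (fun s => pos s t ∈ A)).card : ℝ) / ((surv ω n).card : ℝ)

/-- The open cluster of the origin is infinite. -/
def InfCluster {d : ℕ} (ω : (Fin d → ℤ) → Bool) : Prop :=
  {y : Fin d → ℤ | ∃ n : ℕ, ∃ s ∈ surv ω n, pos s n = y}.Infinite

theorem en_eq_sum (x : V d) (l : List (Stp d)) : en x l = x + (l.map vec).sum := by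
  induction l generalizing x with
  | nil => simp
  | cons e l ih =>
    rw [en_cons, ih, List.map_cons, List.sum_cons, add_assoc]

theorem pos_eq {n : ℕ} (s : Fin n → Fin d × Bool) (t : ℕ) : pos s t = en 0 ((List.ofFn s).take t) := by
  rw [en_eq_sum, zero_add]
  unfold pos
  induction n generalizing t with
  | zero => simp
  | succ n ih =>
    rw [Fin.sum_univ_succ, List.ofFn_succ]
    cases t with
    | zero => simp
    | succ t =>
      rw [List.take_succ_cons, List.map_cons, List.sum_cons, ← ih]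
      congr 1
      simp only [Fin.val_succ]
      refine Finset.sum_congr rfl fun i _ => ?_
      simp only [Nat.add_lt_add_iff_right]

theorem Op_iff (O : Set (V d)) (x : V d) (l : List (Stp d)) : Op O x l ↔ ∀ t ≤ l.length, en x (l.take t) ∈ O := by
  induction l generalizing x with
  | nil => simp
  | cons e l ih =>
    rw [Op_cons, ih]
    constructor
    · rintro ⟨h1, h2⟩ t ht
      cases t with
      | zero => simpa using h1
      | succ t =>
        rw [List.take_succ_cons, en_cons]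
        exact h2 t (by simpa using ht)
    · intro h
      refine ⟨by simpa using h 0 (by simp), fun t ht => ?_⟩
      have := h (t + 1) (by simpa using ht)
      rwa [List.take_succ_cons, en_cons] at this

theorem mem_surv (ω : Env d) (n : ℕ) (s : Fin n → Fin d × Bool) : s ∈ surv ω n ↔ Op (opn ω) 0 (List.ofFn s) := by
  unfold surv
  rw [Finset.mem_filter, Op_iff, List.length_ofFn]
  constructor
  · rintro ⟨-, h⟩ t ht
    rw [← pos_eq]
    exact h t ht
  · intro h
    refine ⟨Finset.mem_univ _, fun t ht => ?_⟩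
    have := h t ht
    rw [← pos_eq] at this
    exact this

theorem F1_card (ω : Env d) (n : ℕ) (Q : List (Stp d) → Prop) [DecidablePred Q] [DecidablePred fun s : Fin n → Fin d × Bool => Q (List.ofFn s)]
    [DecidablePred fun l : List (Stp d) => Op (opn ω) 0 l ∧ Q l] :
    ((surv ω n).filter (fun s => Q (List.ofFn s))).card = ((LL d n).filter (fun l => Op (opn ω) 0 l ∧ Q l)).card := by
  refine Finset.card_bij (fun s _ => List.ofFn s) ?_ ?_ ?_
  · intro s hs
    rw [Finset.mem_filter, mem_surv] at hs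
    rw [Finset.mem_filter, mem_LL, List.length_ofFn]
    exact ⟨rfl, hs⟩
  · intro s _ s' _ h
    exact List.ofFn_injective h
  · intro l hl
    rw [Finset.mem_filter, mem_LL] at hl
    obtain ⟨h1, h2, h3⟩ := hl
    subst h1
    refine ⟨l.get, ?_, List.ofFn_get l⟩
    rw [Finset.mem_filter, mem_surv, List.ofFn_get]
    exact ⟨h2, h3⟩

theorem card_surv (ω : Env d) (n : ℕ) : (surv ω n).card = NP (opn ω) 0 n := by
  classical
  have h := F1_card ω n (fun _ => True)
  rw [Finset.filter_true_of_mem (fun _ _ => trivial)] at h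
  rw [h]
  unfold NP
  congr 1
  refine Finset.filter_congr fun l _ => ?_
  simp

theorem card_surv_A (ω : Env d) (n t : ℕ) (ht : t ≤ n) (A : Finset (V d)) :
    ((surv ω n).filter (fun s => pos s t ∈ A)).card = (PR (opn ω) 0 (A : Set (V d)) t (n - t)).card := by
  classical
  rw [card_PR]
  have h := F1_card ω n (fun l => en 0 (l.take t) ∈ A)
  have e : t + (n - t) = n := by omega
  rw [e]
  simp only [pos_eq]
  rw [h]
  congr 1

theorem InfCluster_iff (ω : Env d) : InfCluster ω ↔ Inf ω := by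
  unfold InfCluster Inf
  have : {y : Fin d → ℤ | ∃ n : ℕ, ∃ s ∈ surv ω n, pos s n = y} = {y : V d | ∃ l, Op (opn ω) 0 l ∧ en 0 l = y} := by
    ext y
    simp only [Set.mem_ofPred_eq]
    constructor
    · rintro ⟨n, s, hs, rfl⟩
      rw [mem_surv] at hs
      refine ⟨List.ofFn s, hs, ?_⟩
      rw [pos_eq, List.take_of_length_le (by rw [List.length_ofFn])]
    · rintro ⟨l, hl, rfl⟩
      refine ⟨l.length, l.get, ?_, ?_⟩
      · rw [mem_surv, List.ofFn_get]
        exact hl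
      · rw [pos_eq, List.ofFn_get, List.take_length]
  rw [this]

theorem F1_open_meas (l : List (Stp d)) : MeasurableSet {ω : Env d | Op (opn ω) 0 l} := by
  have : {ω : Env d | Op (opn ω) 0 l} = ⋂ t ∈ Finset.range (l.length + 1), {ω : Env d | ω (en 0 (l.take t)) = true} := by
    ext ω
    simp only [Set.mem_ofPred_eq, Set.mem_iInter, Finset.mem_range]
    rw [Op_iff]
    constructor
    · intro h t ht
      exact h t (by omega)
    · intro h t ht
      exact h t (by omega)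
  rw [this]
  refine MeasurableSet.biInter (Set.to_countable _) fun t _ => ?_
  have hm : Measurable (fun ω : Env d => ω (en 0 (l.take t))) := measurable_pi_apply _
  exact hm (measurableSet_singleton true)

/-- The event of the infinite cluster is measurable. -/
theorem Inf_meas : MeasurableSet {ω : Env d | Inf ω} := by
  have : {ω : Env d | Inf ω} = ⋂ R : ℕ, ⋃ l : List (Stp d), ({ω : Env d | Op (opn ω) 0 l} ∩ {_ω : Env d | en 0 l ∉ bx d R}) := by
    ext ω
    simp only [Set.mem_ofPred_eq, Set.mem_iInter, Set.mem_iUnion, Set.mem_inter_iff]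
    unfold Inf
    constructor
    · intro h R
      have h1 : ¬ {y : V d | ∃ l, Op (opn ω) 0 l ∧ en 0 l = y} ⊆ (bx d R : Set (V d)) :=
        fun h2 => h ((Finset.finite_toSet _).subset h2)
      rw [Set.not_subset] at h1
      obtain ⟨y, ⟨l, h2, rfl⟩, h3⟩ := h1
      exact ⟨l, h2, h3⟩
    · intro h h1
      obtain ⟨R, hR⟩ : ∃ R : ℕ, {y : V d | ∃ l, Op (opn ω) 0 l ∧ en 0 l = y} ⊆ (bx d R : Set (V d)) := by
        refine ⟨∑ y ∈ h1.toFinset, ∑ i, (y i).natAbs, fun y hy => ?_⟩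
        rw [Finset.mem_coe]
        unfold bx
        rw [Fintype.mem_piFinset]
        intro i
        rw [Finset.mem_Icc]
        have h2 : (y i).natAbs ≤ ∑ y ∈ h1.toFinset, ∑ i, (y i).natAbs := by
          calc (y i).natAbs ≤ ∑ i, (y i).natAbs := Finset.single_le_sum (f := fun i => (y i).natAbs) (fun _ _ => Nat.zero_le _) (Finset.mem_univ i)
            _ ≤ _ := Finset.single_le_sum (f := fun y : V d => ∑ i, (y i).natAbs) (fun _ _ => Nat.zero_le _) (h1.mem_toFinset.2 hy)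
        have h3 : |y i| = ((y i).natAbs : ℤ) := Int.abs_eq_natAbs _
        have h4 : |y i| ≤ ((∑ y ∈ h1.toFinset, ∑ i, (y i).natAbs : ℕ) : ℤ) := by
          rw [h3]
          exact_mod_cast h2
        rw [abs_le] at h4
        exact h4
      obtain ⟨l, h2, h3⟩ := h R
      exact h3 (hR ⟨l, h2, rfl⟩)
  rw [this]
  refine MeasurableSet.iInter fun R => MeasurableSet.iUnion fun l => ?_
  exact (F1_open_meas l).inter (MeasurableSet.const _)

end Pool.Agent.RWO
end
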