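import Pool.Agent.Lib.MP_c35813_pr.Mg.G007
import Pool.Agent.Lib.MP_c35813_pr.Mg.G003
import Pool.Agent.Lib.MP_c35813_pr.Mg.G010

section

set_option autoImplicit false

/-! Task M10: the paths with a small ratio `xx`. -/

namespace Pool.Agent.RWO

variable {d : ℕ}

open scoped Classical in
/-- M10. PROOF. Put `q₁ = q`. `xx_down` (with `t := t' - 2q`, `k := q`): for `xx < 1 - 40h =: ρ`, `(xx^q)⁻¹ ≥ ρ^(-q)` (if `xx > 0`; `xx > 0` as `II > 0` and `bt ≥ 1`), so `# ρ^(-q) ≤ 2 (2d)^(2q) NP O x (t' - 2q)`, `ρ^q ≤ exp(-40hq)`.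
`ratio` with `q := q + k` and `n := t' - 2q` (`n + 2(q+k) = t' + 2k`): `NP O x (t' - 2q) (2d)^(2(q+k)) ≤ 2 (t' - 2q + 1) exp(16h(q+k)) NP O x (t' + 2k)`. So
`# (2d)^(2k) ≤ 2 exp(-40hq) 2 (t'+1) exp(16h(q+k)) NP O x (t' + 2k) ≤ 4 (t'+1) exp(-8hq) NP O x (t'+2k)` as `k ≤ q`. -/
theorem small_ratio (hd : 1 ≤ d) (O : Set (V d)) (x : V d) (t' k q B : ℕ) (h : ℝ) (hh : 0 < h) (h40 : 40 * h < 1) (hB : 1 ≤ B) (hqB : 6 * q ^ 2 ≤ B)
    (hq : 1 ≤ q) (hkq : k ≤ q) (ht : 20 * q ≤ t') (hln : 2 ≤ h * t')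
    (hqd : (8 * q + 1 : ℝ) ^ d ≤ Real.exp (8 * h * q))
    (hN : (2 * d : ℝ) ^ (t' + 2 * k) * Real.exp (-(h * (t' + 2 * k))) ≤ NP O x (t' + 2 * k)) :
    (((PZ O x Set.univ t').filter (fun l => B ≤ bt l ∧ xx O x l < 1 - 40 * h)).card : ℝ) * (2 * d : ℝ) ^ (2 * k) ≤
      4 * (t' + 1) * Real.exp (-(8 * h * q)) * NP O x (t' + 2 * k) := by
  have hdR : (1 : ℝ) ≤ (d : ℝ) := by exact_mod_cast hd
  have h2d : (0 : ℝ) < 2 * (d : ℝ) := by linarith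
  have hqR : (1 : ℝ) ≤ (q : ℝ) := by exact_mod_cast hq
  have hkqR : (k : ℝ) ≤ (q : ℝ) := by exact_mod_cast hkq
  have htR : 20 * (q : ℝ) ≤ (t' : ℝ) := by exact_mod_cast ht
  obtain ⟨n, hn⟩ : ∃ n, t' = n + 2 * q := ⟨t' - 2 * q, by omega⟩
  have hnR : (t' : ℝ) = (n : ℝ) + 2 * (q : ℝ) := by rw [hn]; push_cast; ring
  have hρ : 0 < 1 - 40 * h := by linarith
  set F := (PZ O x Set.univ t').filter (fun l => B ≤ bt l ∧ xx O x l < 1 - 40 * h) with hF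
  -- first step
  have h1 : (F.card : ℝ) * ((1 - 40 * h) ^ q)⁻¹ ≤ 2 * (2 * d : ℝ) ^ (2 * q) * (NP O x n : ℝ) := by
    have hdown := xx_down hd O x n q B hB hqB
    rw [← hn] at hdown
    refine le_trans ?_ hdown
    calc (F.card : ℝ) * ((1 - 40 * h) ^ q)⁻¹ = ∑ _l ∈ F, ((1 - 40 * h) ^ q)⁻¹ := by
          rw [Finset.sum_const, nsmul_eq_mul]
      _ ≤ ∑ l ∈ F, (xx O x l ^ q)⁻¹ := by
          refine Finset.sum_le_sum fun l hl => ?_
          rw [hF, Finset.mem_filter, mem_PZ] at hl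
          obtain ⟨⟨hlen, hOp, _⟩, hBl, hxl⟩ := hl
          have hl0 : l ≠ [] := by
            intro h0
            rw [h0, List.length_nil] at hlen
            omega
          have hII := II_ge O x l hl0 hOp
          have hIIpos : (0 : ℝ) < (II O x l : ℝ) := by
            have : 0 < II O x l := by omega
            exact_mod_cast this
          have hbtpos : (0 : ℝ) < (bt l : ℝ) := by
            have : 0 < bt l := by omega
            exact_mod_cast this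
          have hxpos : 0 < xx O x l := by
            unfold xx
            positivity
          have hpow : xx O x l ^ q ≤ (1 - 40 * h) ^ q := pow_le_pow_left₀ hxpos.le hxl.le q
          exact inv_anti₀ (pow_pos hxpos q) hpow
      _ ≤ ∑ l ∈ (PZ O x Set.univ t').filter (fun l => B ≤ bt l), (xx O x l ^ q)⁻¹ := by
          refine Finset.sum_le_sum_of_subset_of_nonneg ?_ ?_
          · intro l hl
            rw [hF, Finset.mem_filter] at hl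
            rw [Finset.mem_filter]
            exact ⟨hl.1, hl.2.1⟩
          · intro l _ _
            have : 0 ≤ xx O x l := by
              unfold xx
              positivity
            positivity
  have hρq : (1 - 40 * h) ^ q ≤ Real.exp (-(40 * h * q)) := by
    have h2 : 1 - 40 * h ≤ Real.exp (-(40 * h)) := by
      have := Real.add_one_le_exp (-(40 * h))
      linarith
    calc (1 - 40 * h) ^ q ≤ (Real.exp (-(40 * h))) ^ q := pow_le_pow_left₀ hρ.le h2 q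
      _ = Real.exp (-(40 * h * q)) := by
          rw [← Real.exp_nat_mul]
          congr 1
          ring
  have h3 : (F.card : ℝ) ≤ Real.exp (-(40 * h * q)) * (2 * (2 * d : ℝ) ^ (2 * q) * (NP O x n : ℝ)) := by
    have hpos : 0 < (1 - 40 * h) ^ q := pow_pos hρ q
    have h4 : (F.card : ℝ) ≤ (1 - 40 * h) ^ q * (2 * (2 * d : ℝ) ^ (2 * q) * (NP O x n : ℝ)) := by
      have h5 := mul_le_mul_of_nonneg_left h1 hpos.le
      calc (F.card : ℝ) = (1 - 40 * h) ^ q * ((F.card : ℝ) * ((1 - 40 * h) ^ q)⁻¹) := by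
            field_simp
        _ ≤ _ := h5
    refine h4.trans (mul_le_mul_of_nonneg_right hρq ?_)
    positivity
  -- second step
  have hqk : (((q + k : ℕ) : ℝ)) = (q : ℝ) + (k : ℝ) := by push_cast; ring
  have hsum : n + 2 * (q + k) = t' + 2 * k := by omega
  have hk0 : (0 : ℝ) ≤ (k : ℝ) := Nat.cast_nonneg k
  have hratio := ratio hd O x (q + k) n h hh (by omega) (by omega)
    (by
      have h6 : (9 / 10 : ℝ) * (t' : ℝ) ≤ (n : ℝ) := by linarith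
      have h7 : h * ((9 / 10 : ℝ) * (t' : ℝ)) ≤ h * (n : ℝ) := mul_le_mul_of_nonneg_left h6 hh.le
      have h8 : h * ((9 / 10 : ℝ) * (t' : ℝ)) = (9 / 10 : ℝ) * (h * t') := by ring
      rw [h8] at h7
      linarith)
    (by
      have h6 : (4 * ((q + k : ℕ) : ℝ) + 1) ≤ 8 * (q : ℝ) + 1 := by rw [hqk]; linarith
      have h7 : (0 : ℝ) ≤ 4 * ((q + k : ℕ) : ℝ) + 1 := by positivity
      refine (pow_le_pow_left₀ h7 h6 d).trans (hqd.trans (Real.exp_le_exp.2 ?_))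
      rw [hqk]
      have h8 : 0 ≤ 8 * h * (k : ℝ) := by positivity
      linarith [h8])
    (by
      rw [hsum]
      have h6 : h * ((n : ℝ) + 2 * ((q + k : ℕ) : ℝ)) = h * ((t' : ℝ) + 2 * (k : ℝ)) := by
        rw [hqk, hnR]
        ring
      rw [h6]
      exact hN)
  rw [hsum, hqk] at hratio
  have hNP0 : (0 : ℝ) ≤ (NP O x (t' + 2 * k) : ℝ) := Nat.cast_nonneg _
  have hexp : Real.exp (-(40 * h * q)) * Real.exp (16 * h * ((q : ℝ) + k)) ≤ Real.exp (-(8 * h * q)) := by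
    rw [← Real.exp_add, Real.exp_le_exp]
    have h9 : h * (k : ℝ) ≤ h * (q : ℝ) := mul_le_mul_of_nonneg_left hkqR hh.le
    linarith
  have hn1 : (n : ℝ) + 1 ≤ (t' : ℝ) + 1 := by linarith
  calc (F.card : ℝ) * (2 * d : ℝ) ^ (2 * k)
      ≤ Real.exp (-(40 * h * q)) * (2 * (2 * d : ℝ) ^ (2 * q) * (NP O x n : ℝ)) * (2 * d : ℝ) ^ (2 * k) :=
        mul_le_mul_of_nonneg_right h3 (by positivity)
    _ = 2 * Real.exp (-(40 * h * q)) * ((NP O x n : ℝ) * (2 * d : ℝ) ^ (2 * (q + k))) := by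
        rw [Nat.mul_add, pow_add]
        ring
    _ ≤ 2 * Real.exp (-(40 * h * q)) * (2 * ((n : ℝ) + 1) * Real.exp (16 * h * ((q : ℝ) + k)) * NP O x (t' + 2 * k)) :=
        mul_le_mul_of_nonneg_left hratio (by positivity)
    _ = 4 * ((n : ℝ) + 1) * (Real.exp (-(40 * h * q)) * Real.exp (16 * h * ((q : ℝ) + k))) * NP O x (t' + 2 * k) := by ring
    _ ≤ 4 * ((t' : ℝ) + 1) * Real.exp (-(8 * h * q)) * NP O x (t' + 2 * k) := by
        refine mul_le_mul_of_nonneg_right ?_ hNP0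
        refine mul_le_mul ?_ hexp (by positivity) (by positivity)
        linarith

end Pool.Agent.RWO
end

section

set_option autoImplicit false

/-! Task M13b: parameters, second part. -/

namespace Pool.Agent.RWO

open Filter Topology Asymptotics in
theorem M13b_ev (d : ℕ) (hd : 2 ≤ d) (C₀ M : ℝ) :
    ∀ᶠ n : ℕ in atTop, (3 : ℝ) ≤ Real.log n ∧ M ≤ Real.log n ∧ 80 * C₀ + 1 ≤ (Real.log n) ^ (2 / d : ℝ) ∧
      10000 * (d : ℝ) ^ 2 * (Real.log n) ^ 32 ≤ n ∧ M ≤ n := by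
  have hcast : Tendsto (fun n : ℕ => (n : ℝ)) atTop atTop := tendsto_natCast_atTop_atTop
  have hlog : Tendsto (fun n : ℕ => Real.log n) atTop atTop := Real.tendsto_log_atTop.comp hcast
  have hd0 : (0 : ℝ) < 2 / d := by
    have : (0 : ℝ) < d := by exact_mod_cast (by omega : 0 < d)
    positivity
  have h1 := hlog.eventually_ge_atTop 3
  have h2 := hlog.eventually_ge_atTop M
  have h3 := ((tendsto_rpow_atTop hd0).comp hlog).eventually_ge_atTop (80 * C₀ + 1)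
  have h4 : ∀ᶠ n : ℕ in atTop, 10000 * (d : ℝ) ^ 2 * (Real.log n) ^ 32 ≤ n := by
    have hd2 : (0 : ℝ) < 10000 * (d : ℝ) ^ 2 := by
      have : (0 : ℝ) < d := by exact_mod_cast (by omega : 0 < d)
      positivity
    have h5 := (Real.isLittleO_pow_log_id_atTop (n := 32)).bound (inv_pos.2 hd2)
    have h6 := hcast.eventually h5
    filter_upwards [h6, h1] with n hn h1n
    have h7 : ‖Real.log (n : ℝ) ^ 32‖ = Real.log (n : ℝ) ^ 32 := by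
      rw [Real.norm_eq_abs, abs_of_nonneg]
      positivity
    have h8 : ‖(id (n : ℝ) : ℝ)‖ = (n : ℝ) := by
      rw [id, Real.norm_eq_abs, abs_of_nonneg (Nat.cast_nonneg n)]
    rw [h7, h8] at hn
    calc 10000 * (d : ℝ) ^ 2 * (Real.log n) ^ 32 ≤ 10000 * (d : ℝ) ^ 2 * ((10000 * (d : ℝ) ^ 2)⁻¹ * n) :=
          mul_le_mul_of_nonneg_left hn hd2.le
      _ = n := by field_simp
  have h5 := hcast.eventually_ge_atTop M
  filter_upwards [h1, h2, h3, h4, h5] with n a b c e f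
  exact ⟨a, b, c, e, f⟩

/-- M13b. PROOF. Asymptotics: everything is polylogarithmic except `t' ≥ n/2`; `8 h q ≥ 8 C₀ (log n)^(8 - 2/d) ≥ 8 C₀ (log n)^7` dominates `d log(8q+1)` and `log(4(t'+1)) ≤ 2 log n`. -/
theorem params2 (d : ℕ) (hd : 2 ≤ d) (C₀ ε : ℝ) (hC : 0 < C₀) (hε : 0 < ε) : ∃ n₀ : ℕ, ∀ n : ℕ, n₀ ≤ n → ∀ s m t' K q : ℕ, (s : ℝ) ≤ (Real.log n) ^ 7 →
    m ≤ kf d n + 1 → t' + m + s = n → K = ⌈(Real.log n) ^ 16⌉₊ → q = ⌈(Real.log n) ^ 8⌉₊ → ∀ h : ℝ, h = C₀ * (Real.log n) ^ (-(2 / d : ℝ)) →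
    0 < h ∧ 80 * h ≤ 1 ∧ 40 * h < 1 ∧ 1 ≤ t' / (16 * d ^ 2) ∧ 6 * (K + s + m) ^ 2 ≤ t' / (16 * d ^ 2) ∧ 8 * d * (K + s + m) ^ 2 ≤ t' ∧
      6 * q ^ 2 ≤ t' / (16 * d ^ 2) ∧ 1 ≤ q ∧ m + s ≤ q ∧ 20 * q ≤ t' ∧ 2 ≤ h * t' ∧ (8 * q + 1 : ℝ) ^ d ≤ Real.exp (8 * h * q) ∧
      4 * ((t' : ℝ) + 1) * Real.exp (-(8 * h * q)) ≤ 1 ∧ 2 ≤ ε * 2 ^ (t' / (48 * d ^ 2)) := by
  have hdR : (2 : ℝ) ≤ d := by exact_mod_cast hd
  have hd0 : (0 : ℝ) < d := by linarith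
  -- `2 ^ M₁ ≥ 2 / ε`
  obtain ⟨M₁, hM₁⟩ : ∃ M₁ : ℕ, 2 / ε ≤ (M₁ : ℝ) := exists_nat_ge _
  set M : ℝ := max (11 * d / (8 * C₀)) (96 * d ^ 2 * M₁) with hM
  obtain ⟨n₀, hn₀⟩ := Filter.eventually_atTop.1 (M13b_ev d hd C₀ M)
  refine ⟨n₀, fun n hn s m t' K q hs hm ht hK hq h hh => ?_⟩
  obtain ⟨h3, hMl, hB, hpoly, hMn⟩ := hn₀ n hn
  set ℓ : ℝ := Real.log n with hℓ
  have hℓ0 : 0 < ℓ := by linarith
  have hℓ1 : 1 ≤ ℓ := by linarith
  have hcC : 11 * d ≤ 8 * C₀ * ℓ := by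
    have h1 : 11 * (d : ℝ) / (8 * C₀) ≤ ℓ := (le_max_left _ _).trans hMl
    rw [div_le_iff₀ (by positivity)] at h1
    linarith
  have hM1n : 96 * (d : ℝ) ^ 2 * M₁ ≤ n := (le_max_right _ _).trans hMn
  -- powers
  have hp : ∀ a b : ℕ, a ≤ b → ℓ ^ a ≤ ℓ ^ b := fun a b hab => pow_le_pow_right₀ hℓ1 hab
  have hrp : ℓ ^ (2 / d : ℝ) ≤ ℓ := by
    have h1 : (2 / d : ℝ) ≤ 1 := by
      rw [div_le_one hd0]
      exact hdR
    calc ℓ ^ (2 / d : ℝ) ≤ ℓ ^ (1 : ℝ) := Real.rpow_le_rpow_of_exponent_le hℓ1 h1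
      _ = ℓ := Real.rpow_one ℓ
  have hrn : ℓ ^ (-(2 / d : ℝ)) = (ℓ ^ (2 / d : ℝ))⁻¹ := Real.rpow_neg hℓ0.le _
  have hrpos : 0 < ℓ ^ (2 / d : ℝ) := Real.rpow_pos_of_pos hℓ0 _
  have hh0 : 0 < h := by
    rw [hh, hrn]
    positivity
  have hh80 : 80 * h < 1 := by
    rw [hh, hrn, ← mul_assoc, ← div_eq_mul_inv, div_lt_one hrpos]
    linarith
  have hhl : C₀ * ℓ⁻¹ ≤ h := by
    rw [hh, hrn]
    exact mul_le_mul_of_nonneg_left (inv_anti₀ hrpos hrp) hC.le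
  -- the sizes
  have hkf : (kf d n : ℝ) ≤ ℓ + 1 := by
    have h1 : (kf d n : ℝ) < ℓ ^ (2 / d : ℝ) + 1 := Nat.ceil_lt_add_one hrpos.le
    linarith
  have hmR : (m : ℝ) ≤ ℓ + 2 := by
    have h1 : (m : ℝ) ≤ kf d n + 1 := by exact_mod_cast hm
    linarith
  have hKR : (K : ℝ) ≤ ℓ ^ 16 + 1 := by
    rw [hK]
    exact (Nat.ceil_lt_add_one (by positivity)).le
  have hqR : (q : ℝ) ≤ ℓ ^ 8 + 1 := by
    rw [hq]
    exact (Nat.ceil_lt_add_one (by positivity)).le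
  have hqR' : ℓ ^ 8 ≤ (q : ℝ) := by
    rw [hq]
    exact Nat.le_ceil _
  have hms : (m : ℝ) + s ≤ ℓ ^ 8 := by
    have h1 : ℓ ^ 8 = ℓ * ℓ ^ 7 := by ring
    have h2 : ℓ ≤ ℓ ^ 7 := by
      have := hp 1 7 (by norm_num)
      rwa [pow_one] at this
    have h4 : (2 : ℝ) ≤ ℓ ^ 7 := by linarith
    have h5 : 3 * ℓ ^ 7 ≤ ℓ ^ 8 := by
      rw [h1]
      exact mul_le_mul_of_nonneg_right h3 (by positivity)
    linarith
  have hn8 : 10000 * (d : ℝ) ^ 2 * ℓ ^ 8 ≤ n := by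
    refine le_trans ?_ hpoly
    exact mul_le_mul_of_nonneg_left (hp 8 32 (by norm_num)) (by positivity)
  have hd2 : (4 : ℝ) ≤ (d : ℝ) ^ 2 := by
    have h1 : (2 : ℝ) ^ 2 ≤ (d : ℝ) ^ 2 := pow_le_pow_left₀ (by norm_num) hdR 2
    linarith
  have hℓ8 : (1 : ℝ) ≤ ℓ ^ 8 := one_le_pow₀ hℓ1
  have hn8' : 40000 * ℓ ^ 8 ≤ n := by
    refine le_trans ?_ hn8
    exact mul_le_mul_of_nonneg_right (by linarith) (by positivity)
  have htR : (t' : ℝ) + m + s = n := by exact_mod_cast ht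
  have ht2 : (n : ℝ) / 2 ≤ t' := by linarith
  have hpoly2 : 5000 * (d : ℝ) ^ 2 * ℓ ^ 32 ≤ t' := by linarith
  have hS : (K : ℝ) + s + m ≤ 6 * ℓ ^ 16 := by
    have h1 : ℓ ≤ ℓ ^ 16 := by
      have := hp 1 16 (by norm_num)
      rwa [pow_one] at this
    have h2 := hp 7 16 (by norm_num)
    have h4 : (1 : ℝ) ≤ ℓ ^ 16 := one_le_pow₀ hℓ1
    linarith
  have hS2 : ((K : ℝ) + s + m) ^ 2 ≤ 36 * ℓ ^ 32 := by
    have h1 : ((K : ℝ) + s + m) ^ 2 ≤ (6 * ℓ ^ 16) ^ 2 := pow_le_pow_left₀ (by positivity) hS 2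
    calc _ ≤ _ := h1
      _ = 36 * ℓ ^ 32 := by ring
  have hq2 : (q : ℝ) ≤ 2 * ℓ ^ 8 := by linarith
  have hqq : (q : ℝ) ^ 2 ≤ 4 * ℓ ^ 32 := by
    have h1 : (q : ℝ) ^ 2 ≤ (2 * ℓ ^ 8) ^ 2 := pow_le_pow_left₀ (by positivity) hq2 2
    have h2 := hp 16 32 (by norm_num)
    calc _ ≤ _ := h1
      _ = 4 * ℓ ^ 16 := by ring
      _ ≤ 4 * ℓ ^ 32 := by linarith
  have hl32 : (1 : ℝ) ≤ ℓ ^ 32 := one_le_pow₀ hℓ1
  have hdl : (d : ℝ) ^ 2 ≤ (d : ℝ) ^ 2 * ℓ ^ 32 := le_mul_of_one_le_right (by positivity) hl32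
  have hdiv : ∀ a c : ℕ, 0 < c → (c : ℝ) * a ≤ t' → a ≤ t' / c := by
    intro a c hc hac
    rw [Nat.le_div_iff_mul_le hc, mul_comm]
    exact_mod_cast hac
  have hd16 : 0 < 16 * d ^ 2 := by positivity
  have hd48 : 0 < 48 * d ^ 2 := by positivity
  -- `8 h q ≥ 8 C₀ ℓ ^ 7`
  have hhq : 8 * C₀ * ℓ ^ 7 ≤ 8 * h * q := by
    have h1 : C₀ * ℓ⁻¹ * ℓ ^ 8 ≤ h * q := mul_le_mul hhl hqR' (by positivity) hh0.le
    have h2 : C₀ * ℓ⁻¹ * ℓ ^ 8 = C₀ * ℓ ^ 7 := by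
      field_simp
    rw [h2] at h1
    linarith
  have hl7 : 8 * C₀ * ℓ * ℓ ≤ 8 * C₀ * ℓ ^ 7 := by
    have h1 := hp 2 7 (by norm_num)
    have h2 : 8 * C₀ * ℓ ^ 2 ≤ 8 * C₀ * ℓ ^ 7 := mul_le_mul_of_nonneg_left h1 (by positivity)
    have h4 : 8 * C₀ * ℓ * ℓ = 8 * C₀ * ℓ ^ 2 := by ring
    rw [h4]
    exact h2
  have h11 : 11 * d * ℓ ≤ 8 * h * q := by
    have h1 : 11 * d * ℓ ≤ 8 * C₀ * ℓ * ℓ := mul_le_mul_of_nonneg_right hcC hℓ0.le
    linarith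
  have hn0 : (0 : ℝ) < n := by linarith
  refine ⟨hh0, hh80.le, by linarith, ?_, ?_, ?_, ?_, ?_, ?_, ?_, ?_, ?_, ?_, ?_⟩
  · refine hdiv 1 _ hd16 ?_
    push_cast
    linarith
  · refine hdiv _ _ hd16 ?_
    push_cast
    have h1 : (16 : ℝ) * d ^ 2 * (6 * ((K : ℝ) + s + m) ^ 2) ≤ 16 * d ^ 2 * (6 * (36 * ℓ ^ 32)) := by
      refine mul_le_mul_of_nonneg_left ?_ (by positivity)
      linarith
    have h2 : (16 : ℝ) * d ^ 2 * (6 * (36 * ℓ ^ 32)) = 3456 * (d ^ 2 * ℓ ^ 32) := by ring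
    have h4 : (5000 : ℝ) * d ^ 2 * ℓ ^ 32 = 5000 * (d ^ 2 * ℓ ^ 32) := by ring
    have h5 : (0 : ℝ) ≤ (d : ℝ) ^ 2 * ℓ ^ 32 := by positivity
    linarith
  · have h1 : (8 : ℝ) * d * ((K : ℝ) + s + m) ^ 2 ≤ t' := by
      have h2 : (8 : ℝ) * d * ((K : ℝ) + s + m) ^ 2 ≤ 8 * d * (36 * ℓ ^ 32) :=
        mul_le_mul_of_nonneg_left hS2 (by positivity)
      have h4 : (d : ℝ) ≤ d ^ 2 := le_self_pow₀ (by linarith) (by norm_num)
      have h5 : (d : ℝ) * ℓ ^ 32 ≤ d ^ 2 * ℓ ^ 32 := mul_le_mul_of_nonneg_right h4 (by positivity)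
      have h6 : (8 : ℝ) * d * (36 * ℓ ^ 32) = 288 * (d * ℓ ^ 32) := by ring
      have h7 : (5000 : ℝ) * d ^ 2 * ℓ ^ 32 = 5000 * (d ^ 2 * ℓ ^ 32) := by ring
      have h8 : (0 : ℝ) ≤ (d : ℝ) ^ 2 * ℓ ^ 32 := by positivity
      linarith
    exact_mod_cast h1
  · refine hdiv _ _ hd16 ?_
    push_cast
    have h1 : (16 : ℝ) * d ^ 2 * (6 * (q : ℝ) ^ 2) ≤ 16 * d ^ 2 * (6 * (4 * ℓ ^ 32)) := by
      refine mul_le_mul_of_nonneg_left ?_ (by positivity)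
      linarith
    have h2 : (16 : ℝ) * d ^ 2 * (6 * (4 * ℓ ^ 32)) = 384 * (d ^ 2 * ℓ ^ 32) := by ring
    have h4 : (5000 : ℝ) * d ^ 2 * ℓ ^ 32 = 5000 * (d ^ 2 * ℓ ^ 32) := by ring
    have h5 : (0 : ℝ) ≤ (d : ℝ) ^ 2 * ℓ ^ 32 := by positivity
    linarith
  · have h1 : (1 : ℝ) ≤ q := hℓ8.trans hqR'
    exact_mod_cast h1
  · have h1 : ((m + s : ℕ) : ℝ) ≤ q := by
      push_cast
      exact hms.trans hqR'
    exact_mod_cast h1
  · have h1 : (20 : ℝ) * q ≤ t' := by linarith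
    exact_mod_cast h1
  · have h1 : C₀ * ℓ⁻¹ * (n / 2) ≤ h * t' := mul_le_mul hhl ht2 (by positivity) hh0.le
    refine le_trans ?_ h1
    have h2 : (2 : ℝ) * ℓ ^ 2 ≤ n := by
      have := hp 2 8 (by norm_num)
      linarith
    have h4 : C₀ * ℓ⁻¹ * (2 * ℓ ^ 2 / 2) ≤ C₀ * ℓ⁻¹ * (n / 2) :=
      mul_le_mul_of_nonneg_left (by linarith) (by positivity)
    have h5 : C₀ * ℓ⁻¹ * (2 * ℓ ^ 2 / 2) = C₀ * ℓ := by
      field_simp
    rw [h5] at h4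
    refine le_trans ?_ h4
    linarith
  · -- `(8 q + 1)^d ≤ exp (8 h q)`
    have h1 : (8 * (q : ℝ) + 1) ≤ Real.exp (11 * ℓ) := by
      have h2 : (8 * (q : ℝ) + 1) ≤ 17 * ℓ ^ 8 := by linarith
      have h4 : ℓ ≤ Real.exp ℓ := by
        have := Real.add_one_le_exp ℓ
        linarith
      have h5 : ℓ ^ 8 ≤ Real.exp ℓ ^ 8 := pow_le_pow_left₀ hℓ0.le h4 8
      have h6 : (17 : ℝ) ≤ Real.exp ℓ ^ 3 := by
        have h7 : (4 : ℝ) ≤ Real.exp ℓ := by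
          have := Real.add_one_le_exp ℓ
          linarith
        have h8 : (4 : ℝ) ^ 3 ≤ Real.exp ℓ ^ 3 := pow_le_pow_left₀ (by norm_num) h7 3
        linarith [show (17 : ℝ) ≤ 4 ^ 3 by norm_num]
      calc (8 * (q : ℝ) + 1) ≤ 17 * ℓ ^ 8 := h2
        _ ≤ Real.exp ℓ ^ 3 * Real.exp ℓ ^ 8 := mul_le_mul h6 h5 (by positivity) (by positivity)
        _ = Real.exp (11 * ℓ) := by
          rw [← pow_add, ← Real.exp_nat_mul]
          norm_num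
    have h2 : (8 * (q : ℝ) + 1) ^ d ≤ Real.exp (11 * ℓ) ^ d := pow_le_pow_left₀ (by positivity) h1 d
    refine h2.trans ?_
    rw [← Real.exp_nat_mul, Real.exp_le_exp]
    have h4 : (d : ℝ) * (11 * ℓ) = 11 * d * ℓ := by ring
    rw [h4]
    exact h11
  · -- `4 (t' + 1) exp (- 8 h q) ≤ 1`
    rw [Real.exp_neg, ← div_eq_mul_inv, div_le_one (Real.exp_pos _)]
    have h1 : Real.exp (2 * ℓ) = (n : ℝ) ^ 2 := by
      have h2 : Real.exp (2 * ℓ) = Real.exp ℓ ^ 2 := by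
        rw [← Real.exp_nat_mul]
        norm_num
      rw [h2, hℓ, Real.exp_log hn0]
    have h2 : 2 * ℓ ≤ 8 * h * q := by
      refine le_trans ?_ h11
      exact mul_le_mul_of_nonneg_right (by linarith) hℓ0.le
    refine le_trans ?_ (Real.exp_le_exp.2 h2)
    rw [h1]
    have h4 : (t' : ℝ) ≤ n := by
      have h5 : (0 : ℝ) ≤ m := Nat.cast_nonneg m
      have h6 : (0 : ℝ) ≤ s := Nat.cast_nonneg s
      linarith
    have h5 : (8 : ℝ) ≤ n := by linarith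
    have h6 : (8 : ℝ) * n ≤ n ^ 2 := by
      rw [sq]
      exact mul_le_mul_of_nonneg_right h5 hn0.le
    linarith
  · -- `2 ≤ ε 2 ^ (t' / (48 d ^ 2))`
    have h1 : M₁ ≤ t' / (48 * d ^ 2) := by
      refine hdiv _ _ hd48 ?_
      push_cast
      linarith
    have h2 : (M₁ : ℝ) ≤ 2 ^ M₁ := by
      exact_mod_cast (Nat.lt_two_pow_self (n := M₁)).le
    have h4 : (2 : ℝ) ^ M₁ ≤ 2 ^ (t' / (48 * d ^ 2)) := pow_le_pow_right₀ (by norm_num) h1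
    have h5 : 2 / ε ≤ 2 ^ (t' / (48 * d ^ 2)) := hM₁.trans (h2.trans h4)
    rw [div_le_iff₀ hε] at h5
    linarith

end Pool.Agent.RWO
end

section

set_option autoImplicit false

/-! Task M11: comparison of two powers. -/

namespace Pool.Agent.RWO

variable {d : ℕ}

open scoped Classical in
/-- M11a. PROOF. `x ≥ 1`: `x^e₁ ≤ x^e₂`. `1 - 40h ≤ x < 1`: `x^e₁ = x^e₂ x^(-(e₂-e₁)) ≤ x^e₂ (1-40h)^(-c)` and `(1-40h)⁻¹ ≤ exp(80h)`. `x < 1 - 40h`: `x^e₁ ≤ 1`. -/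
theorem cmp (x h e₁ e₂ c : ℝ) (hx : 0 < x) (hh : 0 ≤ h) (h80 : 80 * h ≤ 1) (he0 : 0 ≤ e₁) (he : e₁ ≤ e₂) (hc : e₂ - e₁ ≤ c) :
    x ^ e₁ ≤ Real.exp (80 * h * c) * x ^ e₂ + (if x < 1 - 40 * h then 1 else 0) := by
  have hc0 : 0 ≤ c := by linarith
  have hE : 1 ≤ Real.exp (80 * h * c) := Real.one_le_exp (by positivity)
  have hx2 : 0 ≤ x ^ e₂ := Real.rpow_nonneg hx.le _
  have hx1 : 0 ≤ x ^ e₁ := Real.rpow_nonneg hx.le _
  split_ifs with hlt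
  · have h1 : x ^ e₁ ≤ 1 := Real.rpow_le_one hx.le (by linarith) he0
    have h2 : 0 ≤ Real.exp (80 * h * c) * x ^ e₂ := by positivity
    linarith
  · push Not at hlt
    rw [add_zero]
    rcases le_or_gt 1 x with h1 | h1
    · calc x ^ e₁ ≤ x ^ e₂ := Real.rpow_le_rpow_of_exponent_le h1 he
        _ = 1 * x ^ e₂ := (one_mul _).symm
        _ ≤ _ := mul_le_mul_of_nonneg_right hE hx2
    · have h3 : Real.exp (-(80 * h)) ≤ x := by
        refine le_trans ?_ hlt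
        have h40 : 0 < 1 - 40 * h := by linarith
        have h4 : 1 + 80 * h ≤ Real.exp (80 * h) := by
          have := Real.add_one_le_exp (80 * h); linarith
        rw [Real.exp_neg, inv_le_comm₀ (Real.exp_pos _) h40]
        refine le_trans ?_ h4
        rw [inv_le_comm₀ h40 (by linarith)]
        rw [inv_le_comm₀ (by linarith) h40, inv_le_comm₀ h40 (by linarith), inv_eq_one_div, div_le_iff₀ (by linarith)]
        nlinarith [mul_nonneg hh (by linarith : (0 : ℝ) ≤ 1 - 80 * h)]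
      have h5 : Real.exp (-(80 * h)) ^ (e₂ - e₁) ≤ x ^ (e₂ - e₁) :=
        Real.rpow_le_rpow (Real.exp_pos _).le h3 (by linarith)
      rw [← Real.exp_mul] at h5
      have h6 : Real.exp (-(80 * h * c)) ≤ x ^ (e₂ - e₁) := by
        refine le_trans (Real.exp_le_exp.mpr ?_) h5
        nlinarith [mul_le_mul_of_nonneg_left hc (by positivity : (0 : ℝ) ≤ 80 * h)]
      have h7 : x ^ e₂ = x ^ e₁ * x ^ (e₂ - e₁) := by
        rw [← Real.rpow_add hx]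
        congr 1
        ring
      have h8 : 1 ≤ Real.exp (80 * h * c) * x ^ (e₂ - e₁) := by
        calc (1 : ℝ) = Real.exp (80 * h * c) * Real.exp (-(80 * h * c)) := by
              rw [← Real.exp_add]; simp
          _ ≤ _ := mul_le_mul_of_nonneg_left h6 (Real.exp_pos _).le
      rw [h7]
      nlinarith [mul_le_mul_of_nonneg_left h8 hx1]

private theorem M11_xx_pos (O : Set (V d)) (x : V d) {l : List (Stp d)} (hd : 1 ≤ d) (ho : Op O x l) (hb : 1 ≤ bt l) : 0 < xx O x l := by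
  have hl : l ≠ [] := by
    rintro rfl
    simp [bt] at hb
  have h1 := II_ge O x l hl ho
  have h2 : (0 : ℝ) < (II O x l : ℝ) := by
    have : 0 < II O x l := by omega
    exact_mod_cast this
  have h3 : (0 : ℝ) < (bt l : ℝ) := by exact_mod_cast (by omega : 0 < bt l)
  have h4 : (0 : ℝ) < (d : ℝ) := by exact_mod_cast (by omega : 0 < d)
  unfold xx
  positivity

open scoped Classical in
/-- M11b. PROOF. `cmp` for every `l` (`xx > 0` as `1 ≤ B ≤ bt l` and `II > 0` by `II_ge`), sum. -/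
theorem cmp_sum (hd : 1 ≤ d) (O : Set (V d)) (x : V d) (t k B : ℕ) (hB : 1 ≤ B) (h e₁ c : ℝ) (hh : 0 ≤ h) (h80 : 80 * h ≤ 1) (he0 : 0 ≤ e₁) (he : e₁ ≤ k)
    (hc : k - e₁ ≤ c) :
    ∑ l ∈ (PZ O x Set.univ t).filter (fun l => B ≤ bt l), xx O x l ^ e₁ ≤
      Real.exp (80 * h * c) * ∑ l ∈ (PZ O x Set.univ t).filter (fun l => B ≤ bt l), xx O x l ^ k +
        (((PZ O x Set.univ t).filter (fun l => B ≤ bt l ∧ xx O x l < 1 - 40 * h)).card : ℝ) := by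
  have h1 : ∀ l ∈ (PZ O x Set.univ t).filter (fun l => B ≤ bt l),
      xx O x l ^ e₁ ≤ Real.exp (80 * h * c) * xx O x l ^ k + (if xx O x l < 1 - 40 * h then 1 else 0) := by
    intro l hl
    rw [Finset.mem_filter, mem_PZ] at hl
    have h2 := cmp (xx O x l) h e₁ k c (M11_xx_pos O x hd hl.1.2.1 (hB.trans hl.2)) hh h80 he0 he hc
    rwa [Real.rpow_natCast] at h2
  refine (Finset.sum_le_sum h1).trans ?_
  rw [Finset.sum_add_distrib, ← Finset.mul_sum]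
  refine add_le_add le_rfl ?_
  rw [← Finset.sum_filter, Finset.filter_filter, Finset.sum_const, nsmul_eq_mul, mul_one]

end Pool.Agent.RWO
end

section

set_option autoImplicit false

/-! Task M5a: Jensen. -/

namespace Pool.Agent.RWO

variable {d : ℕ}

theorem M5a_tangent {y θ : ℝ} (hy : 0 < y) (hθ0 : 0 ≤ θ) (hθ1 : θ ≤ 1) : 1 - θ * (y - 1) ≤ y ^ (-θ) := by
  have h1 : y ^ θ ≤ 1 + θ * (y - 1) := by
    have h := rpow_one_add_le_one_add_mul_self (s := y - 1) (by linarith) hθ0 hθ1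
    rwa [show (1 : ℝ) + (y - 1) = y by ring] at h
  have hp : 0 < y ^ θ := Real.rpow_pos_of_pos hy θ
  rw [Real.rpow_neg hy.le, ← one_div, le_div_iff₀ hp]
  rcases le_or_gt (1 - θ * (y - 1)) 0 with h2 | h2
  · exact (mul_nonpos_of_nonpos_of_nonneg h2 hp.le).trans zero_le_one
  · calc (1 - θ * (y - 1)) * y ^ θ ≤ (1 - θ * (y - 1)) * (1 + θ * (y - 1)) := mul_le_mul_of_nonneg_left h1 h2.le
      _ = 1 - (θ * (y - 1)) ^ 2 := by ring
      _ ≤ 1 := by nlinarith [sq_nonneg (θ * (y - 1))]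

/-- M5a. PROOF. `v ↦ v^(-θ)` is convex on `(0, ∞)` (`convexOn_rpow_left`-like, or: `strictConvexOn_rpow`..; or the power mean / Hölder inequality): with `w i = (v i ^ k)⁻¹ > 0`, `α ≤ 8 / avg w` (if `avg w > 0`, true as `s` is nonempty),
so `α^θ ≤ 8^θ (avg w)^(-θ) ≤ 8 avg (w^(-θ)) = 8 avg (v^(kθ))`. (`θ = 0` is trivial.) Possible way: Jensen for the concave `log`: NO (wrong direction); use `ConvexOn.map_sum_le` with `convexOn_rpow_neg` or prove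
`1 = avg(w^{a} w^{-a}) ≤ (avg w)^{θ/(1+θ)} (avg w^{-θ})^{1/(1+θ)}`, `a = θ/(1+θ)` (Hölder `Real.inner_le_Lp_mul_Lq`). -/
theorem jensen_neg {ι : Type*} (s : Finset ι) (v : ι → ℝ) (hv : ∀ i ∈ s, 0 < v i) (k : ℕ) (θ α : ℝ) (hθ0 : 0 ≤ θ) (hθ1 : θ ≤ 1) (hα : 0 ≤ α)
    (h : α * ∑ i ∈ s, (v i ^ k)⁻¹ ≤ 8 * (s.card : ℝ)) : (s.card : ℝ) * α ^ θ ≤ 8 * ∑ i ∈ s, v i ^ (k * θ) := by
  have hsum0 : 0 ≤ ∑ i ∈ s, v i ^ (k * θ) := Finset.sum_nonneg fun i hi => Real.rpow_nonneg (hv i hi).le _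
  rcases hα.eq_or_lt with h0 | h0
  · subst h0
    rcases hθ0.eq_or_lt with h1 | h1
    · subst h1
      simp only [mul_zero, Real.rpow_zero, mul_one, Finset.sum_const, nsmul_eq_mul]
      have : (0 : ℝ) ≤ (s.card : ℝ) := Nat.cast_nonneg _
      linarith
    · rw [Real.zero_rpow h1.ne', mul_zero]
      linarith
  · have key : ∀ i ∈ s, 1 - θ * (α / 8 * (v i ^ k)⁻¹ - 1) ≤ v i ^ (k * θ) * (8 / α) ^ θ := by
      intro i hi
      have hw : 0 < v i ^ k := pow_pos (hv i hi) k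
      have hy : 0 < α / 8 * (v i ^ k)⁻¹ := by positivity
      refine (M5a_tangent hy hθ0 hθ1).trans (le_of_eq ?_)
      rw [Real.rpow_neg hy.le, ← Real.inv_rpow hy.le, mul_inv, inv_inv, inv_div, Real.mul_rpow (by positivity) hw.le,
        Real.rpow_mul (hv i hi).le, Real.rpow_natCast, mul_comm]
    have hs := Finset.sum_le_sum key
    rw [← Finset.sum_mul, Finset.sum_sub_distrib, ← Finset.mul_sum, Finset.sum_sub_distrib, ← Finset.mul_sum] at hs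
    simp only [Finset.sum_const, nsmul_eq_mul, mul_one] at hs
    have h2 : α / 8 * ∑ i ∈ s, (v i ^ k)⁻¹ ≤ (s.card : ℝ) := by linarith
    have h3 : (s.card : ℝ) ≤ (∑ i ∈ s, v i ^ (k * θ)) * (8 / α) ^ θ := by nlinarith [mul_nonneg hθ0 (sub_nonneg.2 h2)]
    have h4 : (8 / α) ^ θ * α ^ θ ≤ 8 := by
      rw [← Real.mul_rpow (by positivity) h0.le, div_mul_cancel₀ _ h0.ne']
      calc (8 : ℝ) ^ θ ≤ 8 ^ (1 : ℝ) := Real.rpow_le_rpow_of_exponent_le (by norm_num) hθ1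
        _ = 8 := Real.rpow_one 8
    calc (s.card : ℝ) * α ^ θ ≤ (∑ i ∈ s, v i ^ (k * θ)) * (8 / α) ^ θ * α ^ θ :=
          mul_le_mul_of_nonneg_right h3 (Real.rpow_nonneg h0.le _)
      _ = (∑ i ∈ s, v i ^ (k * θ)) * ((8 / α) ^ θ * α ^ θ) := by ring
      _ ≤ (∑ i ∈ s, v i ^ (k * θ)) * 8 := mul_le_mul_of_nonneg_left h4 hsum0
      _ = 8 * ∑ i ∈ s, v i ^ (k * θ) := by ring

/-- `xx` is positive on the paths with a backtrack. -/
theorem M5b_xx_pos (hd : 1 ≤ d) (O : Set (V d)) (x : V d) (l : List (Stp d)) (hl : Op O x l) (hb : 1 ≤ bt l) : 0 < xx O x l := by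
  have hd0 : (0 : ℝ) < d := by exact_mod_cast hd
  have hne : l ≠ [] := by
    rintro rfl
    simp [bt] at hb
  have h1 := II_ge O x l hne hl
  have h2 : (0 : ℝ) < II O x l := by exact_mod_cast (by omega : 0 < II O x l)
  have h3 : (0 : ℝ) < bt l := by exact_mod_cast (by omega : 0 < bt l)
  unfold xx
  positivity

/-- One end point. -/
theorem M5b_one (hd : 1 ≤ d) (O : Set (V d)) (x z : V d) (t k B : ℕ) (hB : 1 ≤ B) (h : 6 * k ^ 2 ≤ B) (ht : 8 * d * k ^ 2 ≤ t) (θ : ℝ)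
    (hθ0 : 0 ≤ θ) (hθ1 : θ ≤ 1) (hz : WP O x z t ≤ 2 * ((PZ O x {z} t).filter (fun l' => B ≤ bt l')).card) :
    (WP O x z t : ℝ) * ((WP O z z (2 * k) : ℝ) / (2 * d : ℝ) ^ (2 * k)) ^ θ ≤
      16 * ∑ l ∈ (PZ O x {z} t).filter (fun l => B ≤ bt l), xx O x l ^ (k * θ) := by
  set s := (PZ O x {z} t).filter (fun l => B ≤ bt l) with hs
  have hα : 0 ≤ (WP O z z (2 * k) : ℝ) / (2 * d : ℝ) ^ (2 * k) := by positivity
  have hz' : (WP O x z t : ℝ) ≤ 2 * (s.card : ℝ) := by exact_mod_cast hz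
  have h1 : (WP O z z (2 * k) : ℝ) / (2 * d : ℝ) ^ (2 * k) * ∑ l ∈ s, (xx O x l ^ k)⁻¹ ≤ 4 * (WP O x z t : ℝ) :=
    xx_loops hd O x z t k B hB h ht
  have h2 := jensen_neg s (fun l => xx O x l) (fun l hl => by
    rw [hs, Finset.mem_filter, mem_PZ] at hl
    exact M5b_xx_pos hd O x l hl.1.2.1 (hB.trans hl.2)) k θ _ hθ0 hθ1 hα (by linarith)
  have h3 : 0 ≤ ((WP O z z (2 * k) : ℝ) / (2 * d : ℝ) ^ (2 * k)) ^ θ := Real.rpow_nonneg hα θ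
  calc (WP O x z t : ℝ) * ((WP O z z (2 * k) : ℝ) / (2 * d : ℝ) ^ (2 * k)) ^ θ
      ≤ (2 * (s.card : ℝ)) * ((WP O z z (2 * k) : ℝ) / (2 * d : ℝ) ^ (2 * k)) ^ θ := mul_le_mul_of_nonneg_right hz' h3
    _ = 2 * ((s.card : ℝ) * ((WP O z z (2 * k) : ℝ) / (2 * d : ℝ) ^ (2 * k)) ^ θ) := by ring
    _ ≤ 2 * (8 * ∑ l ∈ s, xx O x l ^ (k * θ)) := mul_le_mul_of_nonneg_left h2 (by norm_num)
    _ = 16 * ∑ l ∈ s, xx O x l ^ (k * θ) := by ring

open scoped Classical in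
/-- M5b. A good end point `z`: `WP O x z t ≤ 2 #{l : x → z, |l| = t, B ≤ bt l}`. PROOF. The left side is `∑_z WP O x z t α(z)^θ` over the good `z` (fibres of `en x`), `α(z) = WP O z z (2k)/(2d)^(2k)`. For a good `z` with
`WP O x z t > 0`: `s = {l ∈ PZ O x {z} t : B ≤ bt l}`, `WP ≤ 2 #s`, by `xx_loops` `α ∑ xx^(-k) ≤ 4 WP ≤ 8 #s`; `jensen_neg` with `v = xx > 0`: `#s α^θ ≤ 8 ∑_{l ∈ s} xx^(kθ)`, so `WP α^θ ≤ 16 ∑_{l ∈ s} xx^(kθ)`. Sum over `z`. -/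
theorem sum_good (hd : 1 ≤ d) (O : Set (V d)) (x : V d) (t k B : ℕ) (hB : 1 ≤ B) (h : 6 * k ^ 2 ≤ B) (ht : 8 * d * k ^ 2 ≤ t) (θ : ℝ) (hθ0 : 0 ≤ θ)
    (hθ1 : θ ≤ 1) :
    ∑ l ∈ (PZ O x Set.univ t).filter (fun l => WP O x (en x l) t ≤ 2 * ((PZ O x {en x l} t).filter (fun l' => B ≤ bt l')).card),
      ((WP O (en x l) (en x l) (2 * k) : ℝ) / (2 * d : ℝ) ^ (2 * k)) ^ θ ≤
    16 * ∑ l ∈ (PZ O x Set.univ t).filter (fun l => B ≤ bt l), xx O x l ^ (k * θ) := by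
  classical
  set T := (PZ O x Set.univ t).filter (fun l => B ≤ bt l) with hT
  set S := (PZ O x Set.univ t).filter
    (fun l => WP O x (en x l) t ≤ 2 * ((PZ O x {en x l} t).filter (fun l' => B ≤ bt l')).card) with hS
  set f : V d → ℝ := fun z => ((WP O z z (2 * k) : ℝ) / (2 * d : ℝ) ^ (2 * k)) ^ θ with hf
  have hf0 : ∀ z, 0 ≤ f z := fun z => Real.rpow_nonneg (by positivity) θ
  set Zs : Finset (V d) := S.image (en x) with hZs
  have hTpos : ∀ l ∈ T, 0 ≤ xx O x l ^ (k * θ) := by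
    intro l hl
    rw [hT, Finset.mem_filter, mem_PZ] at hl
    exact Real.rpow_nonneg (M5b_xx_pos hd O x l hl.1.2.1 (hB.trans hl.2)).le _
  have h1 : ∑ l ∈ S, f (en x l) = ∑ z ∈ Zs, ∑ l ∈ S with en x l = z, f (en x l) :=
    (Finset.sum_fiberwise_of_maps_to (fun l hl => Finset.mem_image_of_mem _ hl) _).symm
  have h2 : ∀ z ∈ Zs, ∑ l ∈ S with en x l = z, f (en x l) ≤
      16 * ∑ l ∈ T, if en x l = z then xx O x l ^ (k * θ) else 0 := by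
    intro z hz
    obtain ⟨l₀, hl₀, rfl⟩ := Finset.mem_image.1 hz
    rw [hS, Finset.mem_filter] at hl₀
    have h3 := M5b_one hd O x (en x l₀) t k B hB h ht θ hθ0 hθ1 hl₀.2
    have h4 : ∑ l ∈ S with en x l = en x l₀, f (en x l) ≤ (WP O x (en x l₀) t : ℝ) * f (en x l₀) := by
      have h5 : ∑ l ∈ S with en x l = en x l₀, f (en x l) = ∑ l ∈ S with en x l = en x l₀, f (en x l₀) := by
        refine Finset.sum_congr rfl fun l hl => ?_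
        rw [(Finset.mem_filter.1 hl).2]
      rw [h5, Finset.sum_const, nsmul_eq_mul]
      refine mul_le_mul_of_nonneg_right ?_ (hf0 _)
      rw [← card_PZ_single]
      refine Nat.cast_le.2 (Finset.card_le_card fun l hl => ?_)
      rw [Finset.mem_filter, hS, Finset.mem_filter, mem_PZ] at hl
      rw [mem_PZ]
      exact ⟨hl.1.1.1, hl.1.1.2.1, hl.2⟩
    refine h4.trans (h3.trans (le_of_eq ?_))
    congr 1
    rw [← Finset.sum_filter]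
    refine Finset.sum_congr ?_ fun _ _ => rfl
    ext l
    rw [Finset.mem_filter, Finset.mem_filter, hT, Finset.mem_filter, mem_PZ, mem_PZ]
    constructor
    · rintro ⟨⟨a1, a2, a3⟩, a4⟩
      exact ⟨⟨⟨a1, a2, trivial⟩, a4⟩, a3⟩
    · rintro ⟨⟨⟨a1, a2, -⟩, a4⟩, a3⟩
      exact ⟨⟨a1, a2, a3⟩, a4⟩
  have h6 : ∑ z ∈ Zs, ∑ l ∈ T, (if en x l = z then xx O x l ^ (k * θ) else 0) ≤ ∑ l ∈ T, xx O x l ^ (k * θ) := by
    rw [Finset.sum_comm]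
    refine Finset.sum_le_sum fun l hl => ?_
    rw [Finset.sum_ite_eq Zs (en x l) (fun _ => xx O x l ^ (k * θ))]
    split_ifs
    · exact le_rfl
    · exact hTpos l hl
  calc ∑ l ∈ S, f (en x l) = ∑ z ∈ Zs, ∑ l ∈ S with en x l = z, f (en x l) := h1
    _ ≤ ∑ z ∈ Zs, 16 * ∑ l ∈ T, (if en x l = z then xx O x l ^ (k * θ) else 0) := Finset.sum_le_sum h2
    _ = 16 * ∑ z ∈ Zs, ∑ l ∈ T, (if en x l = z then xx O x l ^ (k * θ) else 0) := by rw [Finset.mul_sum]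
    _ ≤ 16 * ∑ l ∈ T, xx O x l ^ (k * θ) := mul_le_mul_of_nonneg_left h6 (by norm_num)

end Pool.Agent.RWO
end

section

set_option autoImplicit false

/-! Task M13d: the main part. -/

namespace Pool.Agent.RWO

variable {d : ℕ}

/-- the power of `η` -/
theorem M13d_eta (Ch lg θ : ℝ) (hlg : 1 ≤ lg) (hCh : 1 ≤ Ch) (hθ0 : 0 ≤ θ) (h1 : lg ^ θ ≤ 2) :
    (Ch / lg) ^ (1 - θ) ≤ 2 * (Ch / lg) := by
  have hlg0 : 0 < lg := by linarith
  have hCh0 : 0 < Ch := by linarith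
  have h0 : 0 < Ch / lg := by positivity
  rw [Real.rpow_sub h0, Real.rpow_one, Real.div_rpow hCh0.le hlg0.le]
  have h3 : 1 ≤ Ch ^ θ := Real.one_le_rpow hCh hθ0
  have h4 : 0 < lg ^ θ := by positivity
  have h5 : Ch / lg / (Ch ^ θ / lg ^ θ) = (Ch / lg) * lg ^ θ / Ch ^ θ := by
    field_simp
  rw [h5, div_le_iff₀ (by linarith)]
  calc Ch / lg * lg ^ θ ≤ Ch / lg * 2 := mul_le_mul_of_nonneg_left h1 h0.le
    _ = 2 * (Ch / lg) * 1 := by ring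
    _ ≤ 2 * (Ch / lg) * Ch ^ θ := mul_le_mul_of_nonneg_left h3 (by positivity)

open scoped Classical in
/-- M13d. PROOF. `α z = WP O z z (2(K+s+m))/(2d)^(2(K+s+m))`. `kern` with `η = Ch/lg`: `κ z := 4 (Ch/lg) (2d)^s (α z)^θ` bounds `WP O y u s` if `0 < WP O z y m` (trivial if `WP O y u s = 0`): `η^(1-θ) = η (lg/Ch)^θ ≤ 2 η` and
`((2d)^(2(s+m)) α)^θ ≤ 2 α^θ`. `count_le` with `G z := WP O x z t' ≤ 2 #{l' ∈ PZ O x {z} t' : B₁ ≤ bt l'}`, `η₁ = Ch/lg (2d)^m`, `N = CB lg`: the left side is `≤ ∑_{good l} a lg (Ch/lg) (2d)^m CB lg κ(en x l) = 4 a Ch² CB (2d)^(2k) ∑_{good l} α^θ`.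
`sum_good` (with `k := K + s + m`, `B := B₁`): `≤ 64 a Ch² CB (2d)^(2k) ∑_{B₁ ≤ bt l} xx^((K+s+m)θ)`. `cmp_sum` (`e₁ = (K+s+m)θ`) and `xx_up` (`t := t'`, `k`): `(2d)^(2k) ∑ xx^((K+s+m)θ) ≤ C₄ 2 NP + NP`. -/
theorem g_part (hd : 1 ≤ d) (O : Set (V d)) (x : V d) (t' m s k₀ K k B₁ : ℕ) (h Ch CB a lg C₄ c θ : ℝ) (A : Finset (V d)) (B : Set (V d))
    (hk2 : m + s = 2 * k) (hlg : 1 ≤ lg) (hCh : 1 ≤ Ch) (hCB : 0 ≤ CB) (ha : 0 ≤ a) (hA : (A.card : ℝ) ≤ a * lg)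
    (hm1 : 1 ≤ m) (hk₀ : 1 ≤ k₀) (hs : 2 * k₀ ≤ s) (hsK : s < K)
    (hη0 : ∀ v : V d, (WP O v v (2 * k₀) : ℝ) ≤ Ch / lg * (2 * d : ℝ) ^ (2 * k₀))
    (hη1 : ∀ z y : V d, (WP O z y m : ℝ) ≤ Ch / lg * (2 * d : ℝ) ^ m)
    (hB : ∀ l ∈ PZ O x Set.univ t', (((bxc (en x l) (m + s)).filter (fun u => u ∈ B)).card : ℝ) ≤ CB * lg)
    (hθ : θ = ((s : ℝ) / 2 - k₀) / ((K : ℝ) - k₀)) (hθ1 : θ ≤ 1)
    (h1 : lg ^ θ ≤ 2) (h2 : ((2 * d : ℝ) ^ (2 * (s + m))) ^ θ ≤ 2)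
    (he : ((K + s + m : ℕ) : ℝ) * θ ≤ k) (hc : (k : ℝ) - ((K + s + m : ℕ) : ℝ) * θ ≤ c) (hh : 0 ≤ h) (h80 : 80 * h ≤ 1)
    (hC₄ : Real.exp (80 * h * c) ≤ C₄) (hB1 : 1 ≤ B₁) (hB2 : 6 * (K + s + m) ^ 2 ≤ B₁) (hB3 : 8 * d * (K + s + m) ^ 2 ≤ t')
    (hsm : (((PZ O x Set.univ t').filter (fun l => B₁ ≤ bt l ∧ xx O x l < 1 - 40 * h)).card : ℝ) * (2 * d : ℝ) ^ (2 * k) ≤ NP O x (t' + m + s)) :
    (((PZ O x B (t' + m + s)).filter (fun l => en x (l.take (t' + m)) ∈ A ∧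
      WP O x (en x (l.take t')) t' ≤ 2 * ((PZ O x {en x (l.take t')} t').filter (fun l' => B₁ ≤ bt l')).card)).card : ℝ) ≤
      64 * a * Ch ^ 2 * CB * (2 * C₄ + 1) * NP O x (t' + m + s) := by
  have hdr : (1 : ℝ) ≤ (d : ℝ) := by exact_mod_cast hd
  have hD : (0 : ℝ) < 2 * (d : ℝ) := by linarith
  have hlg0 : 0 < lg := by linarith
  have hCh0 : 0 < Ch := by linarith
  have hη : 0 < Ch / lg := by positivity
  have hKr : (0 : ℝ) < (K : ℝ) - k₀ := by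
    have h3 : (k₀ : ℝ) < (K : ℝ) := by exact_mod_cast (by omega : k₀ < K)
    linarith
  have hsr : (0 : ℝ) ≤ (s : ℝ) / 2 - k₀ := by
    have h3 : ((2 * k₀ : ℕ) : ℝ) ≤ (s : ℝ) := by exact_mod_cast hs
    push_cast at h3
    linarith
  have hθ0 : 0 ≤ θ := by
    rw [hθ]
    positivity
  obtain ⟨al, hal⟩ : ∃ al : V d → ℝ, al = fun z => (WP O z z (2 * (K + s + m)) : ℝ) / (2 * d : ℝ) ^ (2 * (K + s + m)) := ⟨_, rfl⟩
  have hal0 : ∀ z, 0 ≤ al z := by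
    intro z
    rw [hal]
    positivity
  obtain ⟨κ, hκ⟩ : ∃ κ : V d → ℝ, κ = fun z => 4 * (Ch / lg) * (2 * d : ℝ) ^ s * (al z) ^ θ := ⟨_, rfl⟩
  have hκ0 : ∀ z, 0 ≤ κ z := by
    intro z
    rw [hκ]
    have := hal0 z
    positivity
  have hkern : ∀ z y u : V d, 0 < WP O z y m → (WP O y u s : ℝ) ≤ κ z := by
    intro z y u h3
    rcases Nat.eq_zero_or_pos (WP O y u s) with h4 | h4
    · rw [h4, Nat.cast_zero]
      exact hκ0 z
    · have h5 := kern hd O z y u k₀ m s K (Ch / lg) hm1 hk₀ hs hsK hη0 h3 h4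
      rw [← hθ] at h5
      refine h5.trans ?_
      have h6 := M13d_eta Ch lg θ hlg hCh hθ0 h1
      have h7 : ((2 * d : ℝ) ^ (2 * (s + m)) * ((WP O z z (2 * (K + s + m)) : ℝ) / (2 * d : ℝ) ^ (2 * (K + s + m)))) ^ θ ≤
          2 * (al z) ^ θ := by
        have h8 : (WP O z z (2 * (K + s + m)) : ℝ) / (2 * d : ℝ) ^ (2 * (K + s + m)) = al z := by rw [hal]
        rw [h8, Real.mul_rpow (by positivity) (hal0 z)]
        exact mul_le_mul_of_nonneg_right h2 (Real.rpow_nonneg (hal0 z) _)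
      rw [hκ]
      calc (2 * d : ℝ) ^ s * ((Ch / lg) ^ (1 - θ) *
            ((2 * d : ℝ) ^ (2 * (s + m)) * ((WP O z z (2 * (K + s + m)) : ℝ) / (2 * d : ℝ) ^ (2 * (K + s + m)))) ^ θ)
          ≤ (2 * d : ℝ) ^ s * ((2 * (Ch / lg)) * (2 * (al z) ^ θ)) := by
            refine mul_le_mul_of_nonneg_left ?_ (by positivity)
            refine mul_le_mul h6 h7 (Real.rpow_nonneg ?_ _) (by positivity)
            positivity
        _ = 4 * (Ch / lg) * (2 * d : ℝ) ^ s * (al z) ^ θ := by ring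
  have hcount := count_le O x t' m s
    (fun z => WP O x z t' ≤ 2 * ((PZ O x {z} t').filter (fun l' => B₁ ≤ bt l')).card) A B (Ch / lg * (2 * d : ℝ) ^ m) (CB * lg) κ
    (by positivity) (by positivity) hκ0 hη1 hB hkern
  have hgood := sum_good hd O x t' (K + s + m) B₁ hB1 hB2 hB3 θ hθ0 hθ1
  have hcmp := cmp_sum hd O x t' k B₁ hB1 h (((K + s + m : ℕ) : ℝ) * θ) c hh h80 (by positivity) he hc
  have hkB : 6 * k ^ 2 ≤ B₁ := by
    have h3 : k ≤ K + s + m := by omega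
    have h4 : k ^ 2 ≤ (K + s + m) ^ 2 := Nat.pow_le_pow_left h3 2
    omega
  have hup := xx_up hd O x t' k B₁ hB1 hkB
  have hts : t' + 2 * k = t' + m + s := by omega
  rw [hts] at hup
  -- abbreviations
  obtain ⟨Sg, hSg⟩ : ∃ Sg : ℝ, Sg = ∑ l ∈ (PZ O x Set.univ t').filter (fun l => WP O x (en x l) t' ≤ 2 * ((PZ O x {en x l} t').filter (fun l' => B₁ ≤ bt l')).card),
      ((WP O (en x l) (en x l) (2 * (K + s + m)) : ℝ) / (2 * d : ℝ) ^ (2 * (K + s + m))) ^ θ := ⟨_, rfl⟩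
  obtain ⟨S1, hS1⟩ : ∃ S1 : ℝ, S1 = ∑ l ∈ (PZ O x Set.univ t').filter (fun l => B₁ ≤ bt l), xx O x l ^ (((K + s + m : ℕ) : ℝ) * θ) := ⟨_, rfl⟩
  obtain ⟨S2, hS2⟩ : ∃ S2 : ℝ, S2 = ∑ l ∈ (PZ O x Set.univ t').filter (fun l => B₁ ≤ bt l), xx O x l ^ k := ⟨_, rfl⟩
  obtain ⟨sm, hsmd⟩ : ∃ sm : ℝ, sm = (((PZ O x Set.univ t').filter (fun l => B₁ ≤ bt l ∧ xx O x l < 1 - 40 * h)).card : ℝ) := ⟨_, rfl⟩
  obtain ⟨N, hN⟩ : ∃ N : ℝ, N = (NP O x (t' + m + s) : ℝ) := ⟨_, rfl⟩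
  obtain ⟨P, hP⟩ : ∃ P : ℝ, P = (2 * d : ℝ) ^ (2 * k) := ⟨_, rfl⟩
  have hP0 : 0 < P := by
    rw [hP]
    positivity
  rw [← hSg, ← hS1] at hgood
  rw [← hS1, ← hS2, ← hsmd] at hcmp
  rw [← hS2, ← hP, ← hN] at hup
  rw [← hsmd, ← hP, ← hN] at hsm
  have hS20 : 0 ≤ S2 := by
    rw [hS2]
    refine Finset.sum_nonneg fun l _ => ?_
    unfold xx
    positivity
  have hSg0 : 0 ≤ Sg := by
    rw [hSg]
    exact Finset.sum_nonneg fun l _ => by positivity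
  have hkey : P * S1 ≤ (2 * C₄ + 1) * N := by
    have h3 : P * S1 ≤ P * (Real.exp (80 * h * c) * S2 + sm) := mul_le_mul_of_nonneg_left hcmp hP0.le
    have h4 : Real.exp (80 * h * c) * (P * S2) ≤ C₄ * (2 * N) :=
      mul_le_mul hC₄ hup (by positivity) ((Real.exp_pos _).le.trans hC₄)
    calc P * S1 ≤ P * (Real.exp (80 * h * c) * S2 + sm) := h3
      _ = Real.exp (80 * h * c) * (P * S2) + sm * P := by ring
      _ ≤ C₄ * (2 * N) + N := add_le_add h4 hsm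
      _ = (2 * C₄ + 1) * N := by ring
  -- the sum in `count_le`
  have hsum : ∑ l ∈ (PZ O x Set.univ t').filter (fun l => WP O x (en x l) t' ≤ 2 * ((PZ O x {en x l} t').filter (fun l' => B₁ ≤ bt l')).card),
      (A.card : ℝ) * (Ch / lg * (2 * d : ℝ) ^ m) * (CB * lg) * κ (en x l) ≤ 4 * a * Ch ^ 2 * CB * P * Sg := by
    have e1 : ∀ l : List (Stp d), (A.card : ℝ) * (Ch / lg * (2 * d : ℝ) ^ m) * (CB * lg) * κ (en x l) ≤
        4 * a * Ch ^ 2 * CB * P * ((WP O (en x l) (en x l) (2 * (K + s + m)) : ℝ) / (2 * d : ℝ) ^ (2 * (K + s + m))) ^ θ := by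
      intro l
      have h8 : (WP O (en x l) (en x l) (2 * (K + s + m)) : ℝ) / (2 * d : ℝ) ^ (2 * (K + s + m)) = al (en x l) := by rw [hal]
      rw [h8]
      have h9 : 0 ≤ (Ch / lg * (2 * d : ℝ) ^ m) * (CB * lg) * κ (en x l) := by
        have := hκ0 (en x l)
        positivity
      calc (A.card : ℝ) * (Ch / lg * (2 * d : ℝ) ^ m) * (CB * lg) * κ (en x l)
          = (A.card : ℝ) * ((Ch / lg * (2 * d : ℝ) ^ m) * (CB * lg) * κ (en x l)) := by ring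
        _ ≤ (a * lg) * ((Ch / lg * (2 * d : ℝ) ^ m) * (CB * lg) * κ (en x l)) :=
            mul_le_mul_of_nonneg_right hA h9
        _ = 4 * a * Ch ^ 2 * CB * ((2 * d : ℝ) ^ m * (2 * d : ℝ) ^ s) * (al (en x l)) ^ θ := by
            rw [hκ]
            field_simp
        _ = 4 * a * Ch ^ 2 * CB * P * (al (en x l)) ^ θ := by
            rw [← pow_add, hk2, hP]
    rw [hSg, Finset.mul_sum]
    exact Finset.sum_le_sum fun l _ => e1 l
  have hfin : 4 * a * Ch ^ 2 * CB * P * Sg ≤ 64 * a * Ch ^ 2 * CB * (2 * C₄ + 1) * N := by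
    have h3 : 0 ≤ 4 * a * Ch ^ 2 * CB * P := by positivity
    have h4 : 0 ≤ 64 * a * Ch ^ 2 * CB := by positivity
    calc 4 * a * Ch ^ 2 * CB * P * Sg ≤ 4 * a * Ch ^ 2 * CB * P * (16 * S1) :=
          mul_le_mul_of_nonneg_left hgood h3
      _ = 64 * a * Ch ^ 2 * CB * (P * S1) := by ring
      _ ≤ 64 * a * Ch ^ 2 * CB * ((2 * C₄ + 1) * N) := mul_le_mul_of_nonneg_left hkey h4
      _ = 64 * a * Ch ^ 2 * CB * (2 * C₄ + 1) * N := by ring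
  rw [← hN]
  refine le_trans (le_of_eq ?_) (hcount.trans (le_trans (le_of_eq ?_) (hsum.trans hfin)))
  · congr!
  · congr!

end Pool.Agent.RWO
end
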