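import Pool.Agent.Lib.MP_c35813_pr.Mg.G003
import Pool.Agent.Lib.MP_c35813_pr.Mg.G005
import Pool.Agent.Lib.MP_c35813_pr.Mg.G007
import Pool.Agent.Lib.MP_c35813_pr.Mg.G009

section

set_option autoImplicit false

/-! Task H1: the survival probability does not drop in the last `(log n)^(2/d)` steps. -/

namespace Pool.Agent.RWO

variable {d : ℕ}

theorem H1_GN_le (O : Set (V d)) (x : V d) (n : ℕ) (B ρ : ℝ) : ((GN O x n B ρ).card : ℝ) ≤ NP O x n := by
  classical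
  unfold GN NP
  exact_mod_cast Finset.card_le_card fun l hl => by
    rw [Finset.mem_filter] at hl ⊢
    exact ⟨hl.1, hl.2.1⟩

theorem H1_GM_le (O : Set (V d)) (x : V d) (n : ℕ) (B ρ : ℝ) : ((GM O x n B ρ).card : ℝ) ≤ NP O x n := by
  classical
  unfold GM NP
  exact_mod_cast Finset.card_le_card fun l hl => by
    rw [Finset.mem_filter] at hl ⊢
    exact ⟨hl.1, hl.2.1⟩

theorem H1_GM_mono (O : Set (V d)) (x : V d) (n : ℕ) (B ρ ρ' : ℝ) (h : ρ ≤ ρ') :
    ((GM O x n B ρ).card : ℝ) ≤ ((GM O x n B ρ').card : ℝ) := by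
  classical
  unfold GM
  exact_mod_cast Finset.card_le_card fun l hl => by
    rw [Finset.mem_filter] at hl ⊢
    refine ⟨hl.1, hl.2.1, hl.2.2.1, hl.2.2.2.trans ?_⟩
    exact mul_le_mul_of_nonneg_right h (Nat.cast_nonneg _)

/-- Iterated `step_up`. -/
theorem H1_up (O : Set (V d)) (x : V d) (n : ℕ) (hn : 1 ≤ n) (B ρ : ℝ) (hB : 6 ≤ B) (hρ : 0 < ρ) (K k : ℕ) (hk : k ≤ K) :
    ((GN O x n B ρ).card : ℝ) ≤ ((1 + 3 / B) / (ρ * (1 - 3 / B) ^ K)) ^ k * ((GN O x (n + 2 * k) B (ρ * (1 - 3 / B) ^ k)).card : ℝ) := by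
  have hB0 : 0 < B := by linarith
  have h3 : 3 / B ≤ 1 / 2 := by
    rw [div_le_div_iff₀ hB0 (by norm_num)]; linarith
  have h3' : 0 < 3 / B := by positivity
  have hp : ∀ j : ℕ, 0 < (1 - 3 / B) ^ j := fun j => pow_pos (by linarith) j
  induction k with
  | zero => simp
  | succ k ih =>
    have ih' := ih (by omega)
    have h1 := step_up O x (n + 2 * k) (by omega) B (ρ * (1 - 3 / B) ^ k) (by linarith) (mul_pos hρ (hp k))
    have h2 : (1 + 3 / B) / (ρ * (1 - 3 / B) ^ k) ≤ (1 + 3 / B) / (ρ * (1 - 3 / B) ^ K) := by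
      apply div_le_div_of_nonneg_left (by linarith) (mul_pos hρ (hp K))
      apply mul_le_mul_of_nonneg_left _ hρ.le
      exact pow_le_pow_of_le_one (by linarith) (by linarith) (by omega)
    have h4 : 0 ≤ (1 + 3 / B) / (ρ * (1 - 3 / B) ^ K) := div_nonneg (by linarith) (mul_pos hρ (hp K)).le
    have h5 : ρ * (1 - 3 / B) ^ (k + 1) = ρ * (1 - 3 / B) ^ k * (1 - 3 / B) := by ring
    have h6 : n + 2 * (k + 1) = n + 2 * k + 2 := by ring
    rw [h5, h6, pow_succ, mul_assoc]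
    refine ih'.trans (mul_le_mul_of_nonneg_left (h1.trans ?_) (pow_nonneg h4 k))
    exact mul_le_mul_of_nonneg_right h2 (Nat.cast_nonneg _)

/-- Iterated `step_down`. -/
theorem H1_down (O : Set (V d)) (x : V d) (n : ℕ) (B b ρ : ℝ) (hb : 6 ≤ b) (hρ : 0 < ρ) (q j : ℕ) (hj : j ≤ q)
    (hB : b + 3 * q ≤ B) (hn : 2 * q ≤ n) :
    ((GM O x n B ρ).card : ℝ) ≤ (ρ * (1 + 6 / b) ^ q) ^ j * ((GM O x (n - 2 * j) (B - 3 * j) (ρ * (1 + 6 / b) ^ j)).card : ℝ) := by
  have hb0 : 0 < b := by linarith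
  have h3' : 0 < 6 / b := by positivity
  have hp : ∀ j : ℕ, 0 < (1 + 6 / b) ^ j := fun j => pow_pos (by linarith) j
  induction j with
  | zero => simp
  | succ j ih =>
    have ih' := ih (by omega)
    have hjq : (j : ℝ) + 1 ≤ q := by exact_mod_cast hj
    have hBj : b ≤ B - 3 * j := by linarith
    have h1 := step_down O x (n - 2 * j) (by omega) (B - 3 * j) (ρ * (1 + 6 / b) ^ j) (by linarith) (mul_pos hρ (hp j))
    have h2 : ρ * (1 + 6 / b) ^ j ≤ ρ * (1 + 6 / b) ^ q := by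
      apply mul_le_mul_of_nonneg_left _ hρ.le
      exact pow_le_pow_right₀ (by linarith) (by omega)
    have h5 : ρ * (1 + 6 / b) ^ j * (1 + 6 / (B - 3 * j)) ≤ ρ * (1 + 6 / b) ^ (j + 1) := by
      rw [pow_succ, ← mul_assoc]
      apply mul_le_mul_of_nonneg_left _ (mul_pos hρ (hp j)).le
      have : 6 / (B - 3 * j) ≤ 6 / b := div_le_div_of_nonneg_left (by norm_num) hb0 hBj
      linarith
    have h6 : n - 2 * (j + 1) = n - 2 * j - 2 := by omega
    have h7 : B - 3 * ((j + 1 : ℕ) : ℝ) = B - 3 * j - 3 := by push_cast; ring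
    rw [h6, h7, pow_succ, mul_assoc]
    refine ih'.trans (mul_le_mul_of_nonneg_left (h1.trans ?_) (pow_nonneg (mul_pos hρ (hp q)).le j))
    refine mul_le_mul h2 (H1_GM_mono O x _ _ _ _ h5) (Nat.cast_nonneg _) (mul_pos hρ (hp q)).le

/-- Half of the paths have many backtracks. -/
theorem H1_half (hd : 1 ≤ d) (O : Set (V d)) (x : V d) (N : ℕ) (hN : 48 * d ^ 2 ≤ N) (ρ : ℝ) :
    (NP O x N : ℝ) ≤ 2 * (((GN O x N ((N : ℝ) / (16 * d ^ 2)) ρ).card : ℝ) + ((GM O x N ((N : ℝ) / (16 * d ^ 2)) ρ).card : ℝ)) := by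
  classical
  have hd2 : 1 ≤ d ^ 2 := Nat.one_le_pow _ _ hd
  have hdR : (0 : ℝ) < 16 * (d : ℝ) ^ 2 := by
    have : (1 : ℝ) ≤ (d : ℝ) ^ 2 := by exact_mod_cast hd2
    linarith
  have h1 := few_minus hd O x N 0 (by omega)
  have h2 : (2 : ℝ) ≤ 2 ^ (N / (48 * d ^ 2)) := by
    calc (2 : ℝ) = 2 ^ 1 := by norm_num
      _ ≤ 2 ^ (N / (48 * d ^ 2)) := pow_le_pow_right₀ (by norm_num) ((Nat.one_le_div_iff (by omega)).2 hN)
  set F := (PR O x Set.univ N 0).filter (fun P => 16 * d ^ 2 * bt P.1 ≤ N) with hF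
  set F' := (PR O x Set.univ N 0).filter (fun P => ¬ (16 * d ^ 2 * bt P.1 ≤ N)) with hF'
  have h3 : (F.card : ℝ) + F'.card = NP O x N := by
    have := Finset.card_filter_add_card_filter_not (s := PR O x Set.univ N 0) (fun P => 16 * d ^ 2 * bt P.1 ≤ N)
    rw [card_PR_univ] at this
    exact_mod_cast this
  have h4 : F'.card ≤ ((GN O x N ((N : ℝ) / (16 * d ^ 2)) ρ) ∪ (GM O x N ((N : ℝ) / (16 * d ^ 2)) ρ)).card := by
    refine Finset.card_le_card_of_injOn (fun P => P.1) ?_ ?_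
    · intro P hP
      rw [Finset.mem_coe, hF', Finset.mem_filter, mem_PR] at hP
      obtain ⟨⟨e1, e2, e3, _, _⟩, e4⟩ := hP
      have e5 : ((N : ℝ) / (16 * d ^ 2)) ≤ (bt P.1 : ℝ) := by
        rw [div_le_iff₀ hdR]
        have : (N : ℝ) ≤ 16 * d ^ 2 * bt P.1 := by exact_mod_cast (not_le.1 e4).le
        linarith
      rw [Finset.mem_coe, Finset.mem_union]
      rcases le_total (ρ * (bt P.1 : ℝ)) (II O x P.1 : ℝ) with h | h
      · left
        unfold GN
        rw [Finset.mem_filter, mem_LL]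
        exact ⟨e1, e3, e5, h⟩
      · right
        unfold GM
        rw [Finset.mem_filter, mem_LL]
        exact ⟨e1, e3, e5, h⟩
    · intro P hP Q hQ h
      rw [Finset.mem_coe, hF', Finset.mem_filter, mem_PR] at hP hQ
      have e1 : P.2 = [] := List.length_eq_zero_iff.1 hP.1.2.1
      have e2 : Q.2 = [] := List.length_eq_zero_iff.1 hQ.1.2.1
      exact Prod.ext h (e1.trans e2.symm)
  have h5 : (F'.card : ℝ) ≤ ((GN O x N ((N : ℝ) / (16 * d ^ 2)) ρ).card : ℝ) + ((GM O x N ((N : ℝ) / (16 * d ^ 2)) ρ).card : ℝ) := by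
    exact_mod_cast h4.trans (Finset.card_union_le _ _)
  have h6 : (F.card : ℝ) * 2 ≤ NP O x N := by
    refine le_trans (mul_le_mul_of_nonneg_left h2 (Nat.cast_nonneg _)) ?_
    simpa using h1
  linarith


/-- The deterministic part. -/
theorem H1_core (hd : 1 ≤ d) (O : Set (V d)) (x : V d) (n k q : ℕ) (h : ℝ) (hh : 0 < h) (h160 : 160 * h ≤ 1) (hn3 : 3 ≤ n)
    (hk4 : 4 * k ≤ n) (hN48 : 48 * d ^ 2 ≤ n - 2 * k) (hq1 : 1 ≤ q) (hq8 : 10 * q ≤ n - 2 * k)
    (hln : 1 ≤ 2 * h * ((n - 2 * k : ℕ) - 2 * q : ℝ)) (hqd : (4 * q + 1 : ℝ) ^ d ≤ Real.exp (16 * h * q))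
    (hNP : (2 * d : ℝ) ^ n * Real.exp (-(h * n)) ≤ NP O x n)
    (hB12 : 12 ≤ ((n - 2 * k : ℕ) : ℝ) / (16 * d ^ 2)) (hkB : (k : ℝ) ^ 2 ≤ ((n - 2 * k : ℕ) : ℝ) / (16 * d ^ 2))
    (hqB : 24 * (q : ℝ) ^ 2 ≤ ((n - 2 * k : ℕ) : ℝ) / (16 * d ^ 2)) (hqL : Real.log n ≤ h * q) :
    (NP O x (n - 2 * k) : ℝ) * (2 * d : ℝ) ^ (2 * k) ≤ 4 * Real.exp (80 * h * k + 9) * NP O x n := by
  obtain ⟨N, hN⟩ : ∃ N, N = n - 2 * k := ⟨_, rfl⟩
  rw [← hN] at hN48 hq8 hln hB12 hkB hqB ⊢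
  have hnN : n = N + 2 * k := by omega
  obtain ⟨B, hBdef⟩ : ∃ B : ℝ, B = (N : ℝ) / (16 * d ^ 2) := ⟨_, rfl⟩
  rw [← hBdef] at hB12 hkB hqB
  have hD : (1 : ℝ) ≤ 2 * d := by
    have : (1 : ℝ) ≤ d := by exact_mod_cast hd
    linarith
  have hD0 : (0 : ℝ) < 2 * d := by linarith
  have hB0 : 0 < B := by linarith
  have hn0 : (0 : ℝ) < n := by
    have : 0 < n := by omega
    exact_mod_cast this
  -- `NP N > 0`
  have hNPn : (0 : ℝ) < NP O x n := lt_of_lt_of_le (by positivity) hNP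
  have hadd : (NP O x n : ℝ) ≤ NP O x N * (2 * d : ℝ) ^ (2 * k) := by
    rw [hnN]
    exact_mod_cast NP_add_le O x N (2 * k)
  have hNP0 : (0 : ℝ) < NP O x N := by
    by_contra hcon
    have h1 : (NP O x N : ℝ) = 0 := le_antisymm (not_lt.1 hcon) (Nat.cast_nonneg _)
    rw [h1, zero_mul] at hadd
    linarith
  obtain ⟨ρ, hρdef⟩ : ∃ ρ : ℝ, ρ = (2 * d : ℝ) ^ 2 * (1 - 40 * h) := ⟨_, rfl⟩
  have h40 : 3 / 4 ≤ 1 - 40 * h := by linarith
  have hρ0 : 0 < ρ := by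
    rw [hρdef]
    exact mul_pos (pow_pos hD0 2) (by linarith)
  have hhalf := H1_half hd O x N hN48 ρ
  rw [← hBdef] at hhalf
  have hexp1 : ∀ y : ℝ, 0 ≤ y → y ≤ 1 / 2 → Real.exp (-(2 * y)) ≤ 1 - y := by
    intro y hy0 hy
    have h1 : 1 + 2 * y ≤ Real.exp (2 * y) := by linarith [Real.add_one_le_exp (2 * y)]
    rw [Real.exp_neg]
    have h2 : (Real.exp (2 * y))⁻¹ ≤ (1 + 2 * y)⁻¹ := inv_anti₀ (by linarith) h1
    refine h2.trans ?_
    rw [inv_le_iff_one_le_mul₀ (by linarith)]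
    nlinarith
  by_cases hcase : (NP O x N : ℝ) ≤ 4 * ((GN O x N B ρ).card : ℝ)
  · -- Case 1
    have h1 := H1_up O x N (by omega) B ρ (by linarith) hρ0 k k le_rfl
    have h2 : (0 : ℝ) < 1 - 3 / B := by
      have : 3 / B ≤ 1 / 2 := by
        rw [div_le_div_iff₀ hB0 (by norm_num)]; linarith
      linarith
    have h3B : 0 < 3 / B := by positivity
    have hfac : (1 + 3 / B) / (ρ * (1 - 3 / B) ^ k) ≤ Real.exp (80 * h + 3 / B + 6 * k / B) / (2 * d : ℝ) ^ 2 := by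
      rw [hρdef, div_le_div_iff₀ (mul_pos (mul_pos (pow_pos hD0 2) (by linarith)) (pow_pos h2 k)) (pow_pos hD0 2)]
      have e1 : 1 + 3 / B ≤ Real.exp (3 / B) := by linarith [Real.add_one_le_exp (3 / B)]
      have e2 : Real.exp (-(80 * h)) ≤ 1 - 40 * h := by
        have := hexp1 (40 * h) (by linarith) (by linarith)
        rwa [show -(2 * (40 * h)) = -(80 * h) by ring] at this
      have e3 : Real.exp (-(6 * k / B)) ≤ (1 - 3 / B) ^ k := by
        have e4 := hexp1 (3 / B) h3B.le (by rw [div_le_div_iff₀ hB0 (by norm_num)]; linarith)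
        have e5 : Real.exp (-(6 * k / B)) = (Real.exp (-(2 * (3 / B)))) ^ k := by
          rw [← Real.exp_nat_mul]
          congr 1
          ring
        rw [e5]
        exact pow_le_pow_left₀ (Real.exp_pos _).le e4 k
      have e6 : Real.exp (80 * h + 3 / B + 6 * k / B) = Real.exp (80 * h) * Real.exp (3 / B) * Real.exp (6 * k / B) := by
        rw [Real.exp_add, Real.exp_add]
      rw [e6]
      have e7 : 1 ≤ Real.exp (80 * h) * (1 - 40 * h) := by
        calc (1 : ℝ) = Real.exp (80 * h) * Real.exp (-(80 * h)) := by rw [← Real.exp_add]; simp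
          _ ≤ _ := mul_le_mul_of_nonneg_left e2 (Real.exp_pos _).le
      have e8 : 1 ≤ Real.exp (6 * k / B) * (1 - 3 / B) ^ k := by
        calc (1 : ℝ) = Real.exp (6 * k / B) * Real.exp (-(6 * k / B)) := by rw [← Real.exp_add]; simp
          _ ≤ _ := mul_le_mul_of_nonneg_left e3 (Real.exp_pos _).le
      calc (1 + 3 / B) * (2 * d : ℝ) ^ 2 ≤ Real.exp (3 / B) * (2 * d : ℝ) ^ 2 * (1 * 1) := by
            rw [mul_one, mul_one]
            exact mul_le_mul_of_nonneg_right e1 (pow_pos hD0 2).le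
        _ ≤ Real.exp (3 / B) * (2 * d : ℝ) ^ 2 * ((Real.exp (80 * h) * (1 - 40 * h)) * (Real.exp (6 * k / B) * (1 - 3 / B) ^ k)) := by
            apply mul_le_mul_of_nonneg_left _ (by positivity)
            exact mul_le_mul e7 e8 (by norm_num) (by linarith)
        _ = _ := by ring
    have hpow : ((1 + 3 / B) / (ρ * (1 - 3 / B) ^ k)) ^ k ≤ Real.exp (80 * h * k + 9) / (2 * d : ℝ) ^ (2 * k) := by
      have e0 : 0 ≤ (1 + 3 / B) / (ρ * (1 - 3 / B) ^ k) := div_nonneg (by linarith) (mul_pos hρ0 (pow_pos h2 k)).le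
      refine (pow_le_pow_left₀ e0 hfac k).trans ?_
      rw [div_pow, ← pow_mul, ← Real.exp_nat_mul]
      apply div_le_div_of_nonneg_right _ (pow_pos hD0 _).le
      apply Real.exp_le_exp.2
      have e1 : (k : ℝ) ≤ B := by
        have : (k : ℝ) ≤ (k : ℝ) ^ 2 := by
          rcases Nat.eq_zero_or_pos k with rfl | hk
          · simp
          · have : (1 : ℝ) ≤ k := by exact_mod_cast hk
            rw [pow_two]
            exact le_mul_of_one_le_left (by linarith) this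
        linarith
      have e2 : (k : ℝ) * (3 / B) ≤ 3 := by
        rw [mul_div_assoc', div_le_iff₀ hB0]; linarith
      have e3 : (k : ℝ) * (6 * k / B) ≤ 6 := by
        rw [mul_div_assoc', div_le_iff₀ hB0]
        have e5 : (k : ℝ) * (6 * k) = 6 * (k : ℝ) ^ 2 := by ring
        linarith
      have e4 : (k : ℝ) * (80 * h + 3 / B + 6 * k / B) = 80 * h * k + k * (3 / B) + k * (6 * k / B) := by ring
      rw [e4]
      linarith
    have h5 : ((GN O x (N + 2 * k) B (ρ * (1 - 3 / B) ^ k)).card : ℝ) ≤ NP O x n := by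
      rw [hnN]; exact H1_GN_le O x _ _ _
    have h6 : (NP O x N : ℝ) ≤ 4 * (Real.exp (80 * h * k + 9) / (2 * d : ℝ) ^ (2 * k) * NP O x n) := by
      refine hcase.trans (mul_le_mul_of_nonneg_left (h1.trans ?_) (by norm_num))
      exact mul_le_mul hpow h5 (Nat.cast_nonneg _) (by positivity)
    have h7 : (0 : ℝ) < (2 * d : ℝ) ^ (2 * k) := pow_pos hD0 _
    calc (NP O x N : ℝ) * (2 * d : ℝ) ^ (2 * k)
        ≤ 4 * (Real.exp (80 * h * k + 9) / (2 * d : ℝ) ^ (2 * k) * NP O x n) * (2 * d : ℝ) ^ (2 * k) :=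
          mul_le_mul_of_nonneg_right h6 h7.le
      _ = 4 * Real.exp (80 * h * k + 9) * NP O x n := by
          field_simp
  · -- Case 2
    exfalso
    push Not at hcase
    have hGM : (NP O x N : ℝ) ≤ 4 * ((GM O x N B ρ).card : ℝ) := by linarith
    have hq1R : (1 : ℝ) ≤ q := by exact_mod_cast hq1
    have hqq : (q : ℝ) ≤ (q : ℝ) ^ 2 := by
      rw [pow_two]
      exact le_mul_of_one_le_left (by linarith) hq1R
    have hBq : B / 2 + 3 * q ≤ B := by linarith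
    have h1 := H1_down O x N B (B / 2) ρ (by linarith) hρ0 q q le_rfl hBq (by omega)
    have h2 : ((GM O x (N - 2 * q) (B - 3 * q) (ρ * (1 + 6 / (B / 2)) ^ q)).card : ℝ) ≤ NP O x (N - 2 * q) := H1_GM_le O x _ _ _
    have hfac : (ρ * (1 + 6 / (B / 2)) ^ q) ^ q ≤ 2 * (2 * d : ℝ) ^ (2 * q) * Real.exp (-(40 * h * q)) := by
      rw [mul_pow, ← pow_mul, hρdef, mul_pow, ← pow_mul]
      have e1 : (1 - 40 * h) ^ q ≤ Real.exp (-(40 * h * q)) := by
        have : 1 - 40 * h ≤ Real.exp (-(40 * h)) := by linarith [Real.add_one_le_exp (-(40 * h))]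
        calc (1 - 40 * h) ^ q ≤ (Real.exp (-(40 * h))) ^ q := pow_le_pow_left₀ (by linarith) this q
          _ = Real.exp (-(40 * h * q)) := by rw [← Real.exp_nat_mul]; congr 1; ring
      have e2 : (1 + 6 / (B / 2)) ^ (q * q) ≤ 2 := by
        have e3 : 1 + 6 / (B / 2) ≤ Real.exp (12 / B) := by
          have : 6 / (B / 2) = 12 / B := by field_simp; ring
          rw [this]
          linarith [Real.add_one_le_exp (12 / B)]
        calc (1 + 6 / (B / 2)) ^ (q * q) ≤ (Real.exp (12 / B)) ^ (q * q) := pow_le_pow_left₀ (by positivity) e3 _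
          _ = Real.exp ((q * q : ℕ) * (12 / B)) := by rw [← Real.exp_nat_mul]
          _ ≤ Real.exp (1 / 2) := by
              apply Real.exp_le_exp.2
              push_cast
              rw [mul_div_assoc', div_le_iff₀ hB0]
              have e5 : (q : ℝ) * q = (q : ℝ) ^ 2 := by ring
              rw [e5]
              linarith
          _ ≤ 2 := by
              have e4 : Real.exp (1 / 2) * Real.exp (1 / 2) = Real.exp 1 := by rw [← Real.exp_add]; norm_num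
              have e5 := Real.exp_one_lt_d9
              by_contra hcon
              push Not at hcon
              have e6 := mul_lt_mul'' hcon hcon (by norm_num) (by norm_num)
              linarith
      calc (2 * d : ℝ) ^ (2 * q) * (1 - 40 * h) ^ q * (1 + 6 / (B / 2)) ^ (q * q)
          ≤ (2 * d : ℝ) ^ (2 * q) * Real.exp (-(40 * h * q)) * 2 := by
            apply mul_le_mul _ e2 (by positivity) (by positivity)
            exact mul_le_mul_of_nonneg_left e1 (pow_pos hD0 _).le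
        _ = _ := by ring
    have h3 : (NP O x N : ℝ) ≤ 4 * (2 * (2 * d : ℝ) ^ (2 * q) * Real.exp (-(40 * h * q)) * NP O x (N - 2 * q)) := by
      refine hGM.trans (mul_le_mul_of_nonneg_left (h1.trans ?_) (by norm_num))
      exact mul_le_mul hfac h2 (Nat.cast_nonneg _) (by positivity)
    have hsub : N - 2 * q + 2 * q = N := by omega
    have hsubR : ((N - 2 * q : ℕ) : ℝ) + 2 * q = N := by exact_mod_cast hsub
    have h4 := ratio hd O x q (N - 2 * q) (2 * h) (by linarith) hq1 (by omega) (by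
        have : ((N - 2 * q : ℕ) : ℝ) = N - 2 * q := by linarith
        rw [this]
        exact hln) (by
        refine hqd.trans (Real.exp_le_exp.2 (le_of_eq (by ring)))) (by
        rw [hsub, hsubR]
        have e1 : (2 * d : ℝ) ^ n * Real.exp (-(h * n)) ≤ NP O x N * (2 * d : ℝ) ^ (2 * k) := hNP.trans hadd
        have e2 : (2 * d : ℝ) ^ n = (2 * d : ℝ) ^ N * (2 * d : ℝ) ^ (2 * k) := by rw [hnN, pow_add]
        rw [e2] at e1
        have e3 : (0 : ℝ) < (2 * d : ℝ) ^ (2 * k) := pow_pos hD0 _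
        have e4 : (2 * d : ℝ) ^ N * Real.exp (-(h * n)) ≤ NP O x N := by
          by_contra hcon
          push Not at hcon
          have := mul_lt_mul_of_pos_right hcon e3
          linarith
        refine le_trans ?_ e4
        apply mul_le_mul_of_nonneg_left _ (pow_pos hD0 _).le
        apply Real.exp_le_exp.2
        have e5 : (n : ℝ) ≤ 2 * N := by
          have : n ≤ 2 * N := by omega
          exact_mod_cast this
        have e6 := mul_le_mul_of_nonneg_left e5 hh.le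
        linarith)
    rw [hsub] at h4
    have hNn : ((N - 2 * q : ℕ) : ℝ) + 1 ≤ n + 1 := by
      have : N - 2 * q ≤ n := by omega
      have : ((N - 2 * q : ℕ) : ℝ) ≤ n := by exact_mod_cast this
      linarith
    have h5 : (NP O x N : ℝ) ≤ 16 * (n + 1) * Real.exp (-(8 * h * q)) * NP O x N := by
      calc (NP O x N : ℝ) ≤ 8 * Real.exp (-(40 * h * q)) * (NP O x (N - 2 * q) * (2 * d : ℝ) ^ (2 * q)) := by
            refine h3.trans (le_of_eq (by ring))
        _ ≤ 8 * Real.exp (-(40 * h * q)) * (2 * (((N - 2 * q : ℕ) : ℝ) + 1) * Real.exp (16 * (2 * h) * q) * NP O x N) := by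
            apply mul_le_mul_of_nonneg_left h4 (by positivity)
        _ ≤ 8 * Real.exp (-(40 * h * q)) * (2 * (n + 1) * Real.exp (16 * (2 * h) * q) * NP O x N) := by
            apply mul_le_mul_of_nonneg_left _ (by positivity)
            apply mul_le_mul_of_nonneg_right _ hNP0.le
            apply mul_le_mul_of_nonneg_right _ (Real.exp_pos _).le
            linarith
        _ = 16 * (n + 1) * (Real.exp (-(40 * h * q)) * Real.exp (16 * (2 * h) * q)) * NP O x N := by ring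
        _ = _ := by
            rw [← Real.exp_add]
            congr 3
            ring
    have h6 : Real.exp (-(8 * h * q)) ≤ ((n : ℝ) ^ 8)⁻¹ := by
      rw [Real.exp_neg]
      apply inv_anti₀ (by positivity)
      calc (n : ℝ) ^ 8 = Real.exp (8 * Real.log n) := by
            rw [mul_comm, Real.exp_mul, Real.exp_log hn0]
            norm_cast
        _ ≤ Real.exp (8 * h * q) := Real.exp_le_exp.2 (by linarith)
    have hn3R : (3 : ℝ) ≤ n := by exact_mod_cast hn3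
    have h7 : 16 * ((n : ℝ) + 1) * ((n : ℝ) ^ 8)⁻¹ < 1 := by
      rw [mul_inv_lt_iff₀ (by positivity)]
      have e1 : (3 : ℝ) ^ 7 ≤ (n : ℝ) ^ 7 := pow_le_pow_left₀ (by norm_num) hn3R 7
      have e2 : (n : ℝ) ^ 8 = n ^ 7 * n := by ring
      rw [e2]
      have e3 : (2187 : ℝ) * n ≤ n ^ 7 * n := mul_le_mul_of_nonneg_right (by norm_num at e1; exact e1) (by linarith)
      linarith
    have h8 : 16 * ((n : ℝ) + 1) * Real.exp (-(8 * h * q)) < 1 := by
      refine lt_of_le_of_lt ?_ h7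
      exact mul_le_mul_of_nonneg_left h6 (by positivity)
    have h9 := mul_lt_mul_of_pos_right h8 hNP0
    linarith

theorem H1_ev (c : ℝ) (j : ℕ) : ∀ᶠ n : ℕ in Filter.atTop, c * (Real.log n) ^ j ≤ (n : ℝ) := by
  have h1 : (fun y : ℝ => c * (Real.log y) ^ j) =o[Filter.atTop] (fun y : ℝ => y) :=
    (Real.isLittleO_pow_log_id_atTop (n := j)).const_mul_left c
  have h2 := h1.bound (show (0 : ℝ) < 1 by norm_num)
  have h3 : ∀ᶠ y : ℝ in Filter.atTop, c * (Real.log y) ^ j ≤ y := by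
    filter_upwards [h2, Filter.eventually_ge_atTop 0] with y hy hy0
    rw [one_mul, Real.norm_of_nonneg hy0] at hy
    exact (le_abs_self _).trans hy
  exact tendsto_natCast_atTop_atTop.eventually h3

/-- The conditions for `n` large. -/
theorem H1_large (hd : 1 ≤ d) (C₀ Kc : ℝ) (hC : 0 < C₀) (hK : 0 < Kc) : ∀ᶠ n : ℕ in Filter.atTop,
    3 ≤ n ∧ ∃ h : ℝ, ∃ q : ℕ, h = C₀ * (Real.log n) ^ (-(2 / d : ℝ)) ∧ 0 < h ∧ 160 * h ≤ 1 ∧
      h * (Kc * (Real.log n) ^ (2 / d : ℝ)) = C₀ * Kc ∧ Real.log n ≤ h * q ∧ 1 ≤ q ∧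
      (4 * q + 1 : ℝ) ^ d ≤ Real.exp (16 * h * q) ∧ 20 * q ≤ n ∧ 2 ≤ h * n ∧ 768 * (d : ℝ) ^ 2 * (q : ℝ) ^ 2 ≤ n ∧
      400 * d ^ 2 ≤ n ∧
      ∀ k : ℕ, 2 * (k : ℝ) ≤ Kc * (Real.log n) ^ (2 / d : ℝ) + 1 → 4 * k ≤ n ∧ 32 * (d : ℝ) ^ 2 * (k : ℝ) ^ 2 ≤ n := by
  have hdR : (1 : ℝ) ≤ d := by exact_mod_cast hd
  have hd0 : (0 : ℝ) < d := by linarith
  obtain ⟨α, hα⟩ : ∃ α : ℝ, α = 2 / d := ⟨_, rfl⟩
  have hα0 : 0 < α := by rw [hα]; positivity
  have hα2 : α ≤ 2 := by rw [hα, div_le_iff₀ hd0]; linarith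
  rw [← hα]
  obtain ⟨c₁, hc₁⟩ : ∃ c : ℝ, c = 4 / C₀ + 5 := ⟨_, rfl⟩
  have hc₁0 : 0 < c₁ := by rw [hc₁]; positivity
  have hL : Filter.Tendsto (fun n : ℕ => Real.log n) Filter.atTop Filter.atTop :=
    Real.tendsto_log_atTop.comp tendsto_natCast_atTop_atTop
  have hLα : Filter.Tendsto (fun n : ℕ => (Real.log n) ^ α) Filter.atTop Filter.atTop :=
    (tendsto_rpow_atTop hα0).comp hL
  filter_upwards [hL.eventually_ge_atTop 1, hLα.eventually_ge_atTop (160 * C₀), H1_ev (4 * (Kc + 1)) 2, H1_ev (20 * c₁) 3,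
    H1_ev (c₁ ^ d) (3 * d), H1_ev (32 * (d : ℝ) ^ 2 * (Kc + 1) ^ 2) 4, H1_ev (768 * (d : ℝ) ^ 2 * c₁ ^ 2) 6, H1_ev (2 / C₀) 2,
    Filter.eventually_ge_atTop (400 * d ^ 2), Filter.eventually_ge_atTop 3] with n h1 h2 h3 h4 h5 h6 h7 h8 h9 h10
  obtain ⟨L, hLd⟩ : ∃ L : ℝ, L = Real.log n := ⟨_, rfl⟩
  rw [← hLd] at h1 h2 h3 h4 h5 h6 h7 h8 ⊢
  have hL0 : 0 < L := by linarith
  have hn0 : (0 : ℝ) < n := by
    have : 0 < n := by omega
    exact_mod_cast this
  have hLα0 : 0 < L ^ α := Real.rpow_pos_of_pos hL0 α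
  have hLα2 : L ^ α ≤ L ^ 2 := by
    calc L ^ α ≤ L ^ (2 : ℝ) := Real.rpow_le_rpow_of_exponent_le h1 hα2
      _ = L ^ 2 := by norm_cast
  obtain ⟨h, hh⟩ : ∃ h : ℝ, h = C₀ * L ^ (-α) := ⟨_, rfl⟩
  have hh' : h = C₀ / L ^ α := by rw [hh, Real.rpow_neg hL0.le]; rfl
  have hh0 : 0 < h := by rw [hh']; positivity
  obtain ⟨q, hq⟩ : ∃ q : ℕ, q = ⌈L / h⌉₊ := ⟨_, rfl⟩
  have hq1 : L / h ≤ q := by rw [hq]; exact Nat.le_ceil _
  have hqpos : 1 ≤ q := by
    rw [hq]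
    exact Nat.one_le_ceil_iff.2 (by positivity)
  have hLh : L / h ≤ L ^ 3 / C₀ := by
    rw [hh', div_div_eq_mul_div]
    apply div_le_div_of_nonneg_right _ hC.le
    calc L * L ^ α ≤ L * L ^ 2 := mul_le_mul_of_nonneg_left hLα2 hL0.le
      _ = L ^ 3 := by ring
  have hL3 : 1 ≤ L ^ 3 := one_le_pow₀ h1
  have hL2 : 1 ≤ L ^ 2 := one_le_pow₀ h1
  have hq2 : 4 * (q : ℝ) + 1 ≤ c₁ * L ^ 3 := by
    have e1 : (q : ℝ) < L / h + 1 := by rw [hq]; exact Nat.ceil_lt_add_one (by positivity)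
    have e2 : c₁ * L ^ 3 = 4 * (L ^ 3 / C₀) + 5 * L ^ 3 := by rw [hc₁]; ring
    rw [e2]
    linarith
  have hq3 : (q : ℝ) ≤ c₁ * L ^ 3 := by
    have : (0 : ℝ) ≤ q := Nat.cast_nonneg q
    linarith
  have hLq : L ≤ h * q := by
    rw [div_le_iff₀ hh0] at hq1
    linarith
  refine ⟨h10, h, q, hh, hh0, ?_, ?_, hLq, hqpos, ?_, ?_, ?_, ?_, h9, ?_⟩
  · rw [hh', mul_div_assoc', div_le_one hLα0]
    exact h2
  · rw [hh']
    field_simp
  · calc (4 * (q : ℝ) + 1) ^ d ≤ (c₁ * L ^ 3) ^ d := pow_le_pow_left₀ (by positivity) hq2 d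
      _ = c₁ ^ d * L ^ (3 * d) := by rw [mul_pow, ← pow_mul]
      _ ≤ n := h5
      _ = Real.exp L := by rw [hLd, Real.exp_log hn0]
      _ ≤ Real.exp (16 * h * q) := Real.exp_le_exp.2 (by linarith)
  · have : (20 : ℝ) * q ≤ n := by
      calc (20 : ℝ) * q ≤ 20 * (c₁ * L ^ 3) := by linarith
        _ = 20 * c₁ * L ^ 3 := by ring
        _ ≤ n := h4
    exact_mod_cast this
  · rw [hh', div_mul_eq_mul_div, le_div_iff₀ hLα0]
    have e1 : 2 / C₀ * L ^ 2 = 2 * L ^ 2 / C₀ := by ring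
    rw [e1, div_le_iff₀ hC] at h8
    linarith
  · calc 768 * (d : ℝ) ^ 2 * (q : ℝ) ^ 2 ≤ 768 * (d : ℝ) ^ 2 * (c₁ * L ^ 3) ^ 2 := by
          apply mul_le_mul_of_nonneg_left _ (by positivity)
          exact pow_le_pow_left₀ (Nat.cast_nonneg _) hq3 2
      _ = 768 * (d : ℝ) ^ 2 * c₁ ^ 2 * L ^ 6 := by ring
      _ ≤ n := h7
  · intro k hk
    have hk1 : (k : ℝ) ≤ (Kc + 1) * L ^ 2 := by
      have e1 : Kc * L ^ α ≤ Kc * L ^ 2 := mul_le_mul_of_nonneg_left hLα2 hK.le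
      have e2 : 0 ≤ Kc * L ^ 2 := by positivity
      nlinarith
    constructor
    · have : (4 : ℝ) * k ≤ n := by
        calc (4 : ℝ) * k ≤ 4 * ((Kc + 1) * L ^ 2) := by linarith
          _ = 4 * (Kc + 1) * L ^ 2 := by ring
          _ ≤ n := h3
      exact_mod_cast this
    · calc 32 * (d : ℝ) ^ 2 * (k : ℝ) ^ 2 ≤ 32 * (d : ℝ) ^ 2 * ((Kc + 1) * L ^ 2) ^ 2 := by
            apply mul_le_mul_of_nonneg_left _ (by positivity)
            exact pow_le_pow_left₀ (Nat.cast_nonneg _) hk1 2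
        _ = 32 * (d : ℝ) ^ 2 * (Kc + 1) ^ 2 * L ^ 4 := by ring
        _ ≤ n := h6

/-- H1. PROOF. `h = C₀ (log n)^(-2/d)`. It is enough to treat even `m` (for odd `m` use `m + 1`: `NP(n - m)(2d)^m ≤ NP(n - m - 1)(2d)^(m+1)`, `NP_add_le`). `N = n - m`. By `few_minus` (`s = 0`) at least half of the open paths `l` of
length `N` have `bt l ≥ B := N/(16 d²)` (real). Let `ρ = (2d)² (1 - 40 h)`.
Case 1: at least a quarter are in `GN O x N B ρ`. `step_up` `m/2` times: `NP N/4 ≤ ∏_{j < m/2} (1+3/B)/(ρ (1-3/B)^j) NP n ≤ (2d)^(-m) (1-40h)^(-m/2) (1-3/B)^(-m²) (1+3/B)^m NP n`, all the factors are bounded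
(`hm ≤ C₀ Kc`, `m² ≤ B` for `n` large).
Case 2: at least a quarter are in `GM O x N B ρ`. `step_down` `q` times, `q = ⌈(log n)/h⌉`: `NP N/4 ≤ ρ^q (1 + 12/B)^(q²) NP (N - 2q)` (`B - 3q ≥ B/2`) `≤ 2 (2d)^(2q) exp(-40hq) NP (N - 2q)`, and by `ratio` (for `N - 2q`, with `2h`:
`NP N ≥ (2d)^(-m) NP n ≥ (2d)^N exp(-hn) ≥ (2d)^N exp(-2hN)`) `NP (N-2q) (2d)^(2q) ≤ 2(n+1) exp(32hq) NP N`: `1/4 ≤ 4(n+1) exp(-8hq) ≤ 4(n+1)/n^8`, false for `n` large (`NP N > 0`). -/
theorem short_ratio (hd : 1 ≤ d) (C₀ Kc : ℝ) (hC : 0 < C₀) (hK : 0 < Kc) : ∃ C : ℝ, 1 ≤ C ∧ ∃ n₀ : ℕ, ∀ n : ℕ, n₀ ≤ n →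
    ∀ (O : Set (V d)) (x : V d),
    (2 * d : ℝ) ^ n * Real.exp (-(C₀ * n * (Real.log n) ^ (-(2 / d : ℝ)))) ≤ NP O x n →
    ∀ m : ℕ, (m : ℝ) ≤ Kc * (Real.log n) ^ (2 / d : ℝ) → m ≤ n →
      (NP O x (n - m) : ℝ) * (2 * d : ℝ) ^ m ≤ C * NP O x n := by
  obtain ⟨n₀, hn₀⟩ := Filter.eventually_atTop.1 (H1_large hd C₀ Kc hC hK)
  refine ⟨4 * Real.exp (40 * (C₀ * Kc) + 10), ?_, n₀, ?_⟩
  · have : 1 ≤ Real.exp (40 * (C₀ * Kc) + 10) := Real.one_le_exp (by positivity)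
    linarith
  intro n hn O x hNP m hm hmn
  obtain ⟨hn3, h, q, hh, hh0, h160, hhK, hqL, hq1, hqd, hq20, hhn, hqB, hn400, hk⟩ := hn₀ n hn
  have hdR : (1 : ℝ) ≤ d := by exact_mod_cast hd
  have hD0 : (0 : ℝ) < 2 * d := by linarith
  have hd2 : (0 : ℝ) < 16 * (d : ℝ) ^ 2 := by positivity
  have hd2N : 1 ≤ d ^ 2 := Nat.one_le_pow _ _ hd
  have hNP' : (2 * d : ℝ) ^ n * Real.exp (-(h * n)) ≤ NP O x n := by
    refine le_trans (le_of_eq ?_) hNP
    rw [hh]
    congr 2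
    ring
  -- the even case
  have heven : ∀ k : ℕ, 2 * (k : ℝ) ≤ Kc * (Real.log n) ^ (2 / d : ℝ) + 1 →
      (NP O x (n - 2 * k) : ℝ) * (2 * d : ℝ) ^ (2 * k) ≤ 4 * Real.exp (40 * (C₀ * Kc) + 10) * NP O x n := by
    intro k hkK
    obtain ⟨hk4, hkB⟩ := hk k hkK
    have hNhalf : (n : ℝ) ≤ 2 * ((n - 2 * k : ℕ) : ℝ) := by
      have : n ≤ 2 * (n - 2 * k) := by omega
      exact_mod_cast this
    have h400 : (400 : ℝ) * (d : ℝ) ^ 2 ≤ n := by exact_mod_cast hn400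
    have hq20' : (20 : ℝ) * q ≤ n := by exact_mod_cast hq20
    have hcore := H1_core hd O x n k q h hh0 h160 hn3 hk4 (by omega) hq1 (by omega)
      (by nlinarith) hqd hNP'
      (by rw [le_div_iff₀ hd2]; linarith)
      (by rw [le_div_iff₀ hd2]; linarith)
      (by rw [le_div_iff₀ hd2]; linarith) hqL
    refine hcore.trans ?_
    apply mul_le_mul_of_nonneg_right _ (Nat.cast_nonneg _)
    apply mul_le_mul_of_nonneg_left _ (by norm_num)
    apply Real.exp_le_exp.2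
    have e1 : h * (2 * (k : ℝ)) ≤ h * (Kc * (Real.log n) ^ (2 / d : ℝ) + 1) := mul_le_mul_of_nonneg_left hkK hh0.le
    rw [mul_add, hhK] at e1
    linarith
  rcases Nat.even_or_odd' m with ⟨k, rfl | rfl⟩
  · refine heven k ?_
    push_cast at hm
    linarith
  · have h1 := heven (k + 1) (by push_cast at hm ⊢; linarith)
    have hk4 := (hk (k + 1) (by push_cast at hm ⊢; linarith)).1
    have h2 : n - (2 * k + 1) = (n - 2 * (k + 1)) + 1 := by omega
    have h3 : (NP O x (n - (2 * k + 1)) : ℝ) ≤ NP O x (n - 2 * (k + 1)) * (2 * d : ℝ) := by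
      rw [h2]
      have := NP_add_le O x (n - 2 * (k + 1)) 1
      rw [pow_one] at this
      exact_mod_cast this
    calc (NP O x (n - (2 * k + 1)) : ℝ) * (2 * d : ℝ) ^ (2 * k + 1)
        ≤ NP O x (n - 2 * (k + 1)) * (2 * d : ℝ) * (2 * d : ℝ) ^ (2 * k + 1) :=
          mul_le_mul_of_nonneg_right h3 (pow_pos hD0 _).le
      _ = NP O x (n - 2 * (k + 1)) * (2 * d : ℝ) ^ (2 * (k + 1)) := by ring
      _ ≤ _ := h1

end Pool.Agent.RWO
end

section

set_option autoImplicit false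

/-! Task H2: the deterministic theorem, at the end. -/

namespace Pool.Agent.RWO

variable {d : ℕ}

open scoped Classical in
/-- The pairs are at most the open paths of length `t` ending in `A`, times `(2d)^s`. -/
theorem H2_cut (O : Set (V d)) (x : V d) (A : Set (V d)) (t s : ℕ) :
    (PR O x A t s).card ≤ ((LL d t).filter (fun l => Op O x l ∧ en x l ∈ A)).card * (2 * d) ^ s := by
  rw [← card_LL (d := d) s, ← Finset.card_product]
  refine Finset.card_le_card fun P hP => ?_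
  rw [mem_PR] at hP
  rw [Finset.mem_product, Finset.mem_filter, mem_LL, mem_LL]
  exact ⟨⟨hP.1, hP.2.2.1, hP.2.2.2.1⟩, hP.2.1⟩

open scoped Classical in
theorem H2_split (O : Set (V d)) (x : V d) (A : Set (V d)) (t m : ℕ) :
    ((LL d (t + m)).filter (fun l => Op O x l ∧ en x l ∈ A)).card ≤
      ∑ l ∈ (LL d t).filter (fun l => Op O x l),
        ((LL d m).filter (fun k => Op O (en x l) k ∧ en (en x l) k ∈ A)).card := by
  rw [← Finset.card_sigma]
  refine Finset.card_le_card_of_injOn (fun l => ⟨l.take t, l.drop t⟩) ?_ ?_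
  · intro l hl
    rw [Finset.mem_coe, Finset.mem_filter, mem_LL] at hl
    obtain ⟨h1, h2, h3⟩ := hl
    rw [← List.take_append_drop t l, Op_append] at h2
    rw [← List.take_append_drop t l, en_append] at h3
    rw [Finset.mem_coe, Finset.mem_sigma, Finset.mem_filter, Finset.mem_filter, mem_LL, mem_LL]
    simp only [List.length_take, List.length_drop]
    exact ⟨⟨by omega, h2.1⟩, by omega, h2.2, h3⟩
  · intro l _ l' _ h
    simp only [Sigma.mk.injEq, heq_eq_eq] at h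
    rw [← List.take_append_drop t l, ← List.take_append_drop t l', h.1, h.2]

open scoped Classical in
theorem H2_total (O : Set (V d)) (x : V d) (t m : ℕ) :
    ∑ l ∈ (LL d t).filter (fun l => Op O x l), NP O (en x l) m ≤ NP O x (t + m) := by
  unfold NP
  rw [← Finset.card_sigma]
  refine Finset.card_le_card_of_injOn (fun P => P.1 ++ P.2) ?_ ?_
  · rintro ⟨l, k⟩ hP
    rw [Finset.mem_coe, Finset.mem_sigma, Finset.mem_filter, Finset.mem_filter, mem_LL, mem_LL] at hP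
    obtain ⟨⟨h1, h2⟩, h3, h4⟩ := hP
    simp only at h1 h2 h3 h4
    rw [Finset.mem_coe, Finset.mem_filter, mem_LL]
    simp only [List.length_append]
    exact ⟨by omega, (Op_append _ _ _ _).2 ⟨h2, h4⟩⟩
  · rintro ⟨l, k⟩ hP ⟨l', k'⟩ hP' h
    rw [Finset.mem_coe, Finset.mem_sigma, Finset.mem_filter, mem_LL] at hP hP'
    simp only at h
    obtain ⟨h1, h2⟩ := List.append_inj h (hP.1.1.trans hP'.1.1.symm)
    subst h1
    subst h2
    rfl

open scoped Classical in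
theorem H2_heat {Ch : ℝ} {m : ℕ} (y : V d) (A : Finset (V d)) (O : Set (V d))
    (hh : ∀ x z : V d, (((LL d m).filter (fun l => en x l = z)).card : ℝ) ≤ Ch) :
    (((LL d m).filter (fun k => Op O y k ∧ en y k ∈ (A : Set (V d)))).card : ℝ) ≤ A.card * Ch := by
  have h1 : ((LL d m).filter (fun k => Op O y k ∧ en y k ∈ (A : Set (V d)))).card ≤
      ∑ z ∈ A, ((LL d m).filter (fun l => en y l = z)).card := by
    refine (Finset.card_le_card ?_).trans Finset.card_biUnion_le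
    intro k hk
    rw [Finset.mem_filter] at hk
    rw [Finset.mem_biUnion]
    exact ⟨en y k, by simpa using hk.2.2, by rw [Finset.mem_filter]; exact ⟨hk.1, rfl⟩⟩
  calc (((LL d m).filter (fun k => Op O y k ∧ en y k ∈ (A : Set (V d)))).card : ℝ)
      ≤ ((∑ z ∈ A, ((LL d m).filter (fun l => en y l = z)).card : ℕ) : ℝ) := by exact_mod_cast h1
    _ = ∑ z ∈ A, (((LL d m).filter (fun l => en y l = z)).card : ℝ) := by push_cast; rfl
    _ ≤ ∑ _z ∈ A, Ch := Finset.sum_le_sum fun z _ => hh y z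
    _ = A.card * Ch := by rw [Finset.sum_const, nsmul_eq_mul]

open scoped Classical in
/-- The main estimate: `θ` splits the starting points of the last `m` steps. -/
theorem H2_theta {Ch θ : ℝ} {t m : ℕ} (O : Set (V d)) (x : V d) (A : Finset (V d)) (hd : 1 ≤ d) (hθ : 0 < θ)
    (hCh : 0 ≤ Ch) (hh : ∀ x z : V d, (((LL d m).filter (fun l => en x l = z)).card : ℝ) ≤ Ch * (2 * d : ℝ) ^ m) :
    (((LL d (t + m)).filter (fun l => Op O x l ∧ en x l ∈ (A : Set (V d)))).card : ℝ) ≤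
      θ * (2 * d : ℝ) ^ m * NP O x t + A.card * Ch / θ * NP O x (t + m) := by
  have hD : (0 : ℝ) < (2 * d : ℝ) ^ m := by
    have : (0 : ℝ) < d := by exact_mod_cast hd
    positivity
  have key : ∀ y : V d, (((LL d m).filter (fun k => Op O y k ∧ en y k ∈ (A : Set (V d)))).card : ℝ) ≤
      θ * (2 * d : ℝ) ^ m + A.card * Ch / θ * NP O y m := by
    intro y
    have hA : (0 : ℝ) ≤ A.card * Ch / θ * NP O y m := by positivity
    rcases le_or_gt ((NP O y m : ℕ) : ℝ) (θ * (2 * d : ℝ) ^ m) with h1 | h1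
    · have h2 : (((LL d m).filter (fun k => Op O y k ∧ en y k ∈ (A : Set (V d)))).card : ℝ) ≤ NP O y m := by
        unfold NP
        exact_mod_cast Finset.card_le_card fun k hk => by
          rw [Finset.mem_filter] at hk ⊢
          exact ⟨hk.1, hk.2.1⟩
      linarith
    · have h2 := H2_heat (Ch := Ch * (2 * d : ℝ) ^ m) y A O hh
      have h3 : (A.card : ℝ) * (Ch * (2 * d : ℝ) ^ m) ≤ A.card * Ch / θ * NP O y m := by
        have h4 : (A.card : ℝ) * (Ch * (2 * d : ℝ) ^ m) = A.card * Ch / θ * (θ * (2 * d : ℝ) ^ m) := by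
          field_simp
        rw [h4]
        exact mul_le_mul_of_nonneg_left h1.le (by positivity)
      have h5 : 0 ≤ θ * (2 * d : ℝ) ^ m := by positivity
      linarith
  have h1 := H2_split O x (A : Set (V d)) t m
  have h2 := H2_total O x t m
  calc (((LL d (t + m)).filter (fun l => Op O x l ∧ en x l ∈ (A : Set (V d)))).card : ℝ)
      ≤ ((∑ l ∈ (LL d t).filter (fun l => Op O x l),
        ((LL d m).filter (fun k => Op O (en x l) k ∧ en (en x l) k ∈ (A : Set (V d)))).card : ℕ) : ℝ) := by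
        exact_mod_cast h1
    _ = ∑ l ∈ (LL d t).filter (fun l => Op O x l),
        (((LL d m).filter (fun k => Op O (en x l) k ∧ en (en x l) k ∈ (A : Set (V d)))).card : ℝ) := by
        push_cast; rfl
    _ ≤ ∑ l ∈ (LL d t).filter (fun l => Op O x l), (θ * (2 * d : ℝ) ^ m + A.card * Ch / θ * NP O (en x l) m) :=
        Finset.sum_le_sum fun l _ => key _
    _ = θ * (2 * d : ℝ) ^ m * NP O x t +
        A.card * Ch / θ * ((∑ l ∈ (LL d t).filter (fun l => Op O x l), NP O (en x l) m : ℕ) : ℝ) := by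
        rw [Finset.sum_add_distrib, Finset.sum_const, nsmul_eq_mul, ← Finset.mul_sum]
        push_cast
        unfold NP
        ring
    _ ≤ θ * (2 * d : ℝ) ^ m * NP O x t + A.card * Ch / θ * NP O x (t + m) := by
        have h3 : ((∑ l ∈ (LL d t).filter (fun l => Op O x l), NP O (en x l) m : ℕ) : ℝ) ≤ NP O x (t + m) := by
          exact_mod_cast h2
        have h4 : (0 : ℝ) ≤ A.card * Ch / θ := by positivity
        linarith [mul_le_mul_of_nonneg_left h3 h4]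

/-- H2. PROOF. `#PR O x A t s ≤ #{l of length t, open, en x l ∈ A} (2d)^s`. Let `m = ⌈(log n)^(2/d)⌉` and cut `l` at time `t - m`, `y = en x (l.take (t-m))`: the number of the endings from `y` to `A` is at most `NP O y m` and at most
`|A| C_h (2d)^m m^(-d/2)` (`heat`). With `θ > 0`: `#{l} ≤ ∑_{l' open, length t - m} (θ (2d)^m + [NP O y m > θ (2d)^m] |A| C_h (2d)^m m^(-d/2)) ≤ θ (2d)^m NP(t-m) + (|A| C_h m^(-d/2)/θ) ∑_{l'} NP O y m`, and
`∑_{l'} NP O (en x l') m = NP O x t`. By `short_ratio` (constant `Kc + 2`, with `m + s` and `s`, `≤ (Kc+2)(log n)^(2/d)`): `(2d)^(m+s) NP(t-m) ≤ C NP n` and `(2d)^s NP t ≤ C NP n`. So the total is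
`≤ (θ C + C |A| C_h m^(-d/2)/θ) NP n`, `m^(d/2) ≥ log n`: `θ = ε/(2C)`, `a = θ ε/(2 C C_h)`. -/
theorem det_end (hd : 1 ≤ d) (C₀ ε Kc : ℝ) (hC : 0 < C₀) (hε : 0 < ε) (hK : 0 < Kc) : ∃ a : ℝ, 0 < a ∧ ∃ n₀ : ℕ, ∀ n : ℕ, n₀ ≤ n →
    ∀ (O : Set (V d)) (x : V d),
    (2 * d : ℝ) ^ n * Real.exp (-(C₀ * n * (Real.log n) ^ (-(2 / d : ℝ)))) ≤ NP O x n →
    ∀ t s : ℕ, t + s = n → (s : ℝ) ≤ Kc * (Real.log n) ^ (2 / d : ℝ) → ∀ A : Finset (V d), (A.card : ℝ) ≤ a * Real.log n →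
      ((PR O x (A : Set (V d)) t s).card : ℝ) ≤ ε * NP O x n := by
  classical
  obtain ⟨Ch, hCh, hheat⟩ := heat hd
  obtain ⟨C, hC1, n₁, hsr⟩ := short_ratio hd C₀ (Kc + 2) hC (by linarith)
  have hC0 : 0 < C := by linarith
  set θ : ℝ := ε / (2 * C) with hθdef
  have hθ : 0 < θ := by positivity
  -- `n` large
  have hev : ∀ᶠ n : ℕ in Filter.atTop, (Kc + 2) * (Real.log n) ^ 2 ≤ (n : ℝ) := by
    have h1 : (fun x : ℝ => Real.log x ^ 2) =o[Filter.atTop] (id : ℝ → ℝ) := Real.isLittleO_pow_log_id_atTop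
    have h2 := (h1.const_mul_left (Kc + 2)).bound (c := 1) one_pos
    have h3 := tendsto_natCast_atTop_atTop (R := ℝ) |>.eventually h2
    filter_upwards [h3] with n hn
    simp only [id, Real.norm_eq_abs, one_mul] at hn
    rw [abs_of_nonneg (by positivity : (0 : ℝ) ≤ (n : ℝ))] at hn
    exact (le_abs_self _).trans hn
  obtain ⟨n₂, hn₂⟩ := Filter.eventually_atTop.1 hev
  refine ⟨θ * ε / (2 * C * Ch), by positivity, max (max n₁ n₂) 3, ?_⟩
  intro n hn O x hyp t s hts hs A hA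
  have hn1 : n₁ ≤ n := (le_max_left _ _).trans ((le_max_left _ _).trans hn)
  have hn2 : n₂ ≤ n := (le_max_right _ _).trans ((le_max_left _ _).trans hn)
  have hn3 : 3 ≤ n := (le_max_right _ _).trans hn
  have hlog : 1 ≤ Real.log n := by
    rw [Real.le_log_iff_exp_le (by positivity)]
    have h1 : Real.exp 1 < 3 := by linarith [Real.exp_one_lt_d9]
    have h2 : (3 : ℝ) ≤ n := by exact_mod_cast hn3
    linarith
  set L : ℝ := Real.log n with hL
  have hd0 : (0 : ℝ) < d := by exact_mod_cast hd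
  have hd1 : (1 : ℝ) ≤ d := by exact_mod_cast hd
  set Y : ℝ := L ^ (2 / d : ℝ) with hY
  have hY1 : 1 ≤ Y := Real.one_le_rpow hlog (by positivity)
  have hY2 : Y ≤ L ^ 2 := by
    have h1 : Y ≤ L ^ (2 : ℝ) := by
      refine Real.rpow_le_rpow_of_exponent_le hlog ?_
      rw [div_le_iff₀ hd0]
      nlinarith
    calc Y ≤ L ^ (2 : ℝ) := h1
      _ = L ^ 2 := by norm_num
  set m : ℕ := ⌈Y⌉₊ with hm
  have hmY : Y ≤ m := Nat.le_ceil _
  have hmY2 : (m : ℝ) ≤ 2 * Y := by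
    have := Nat.ceil_lt_add_one (by linarith : 0 ≤ Y)
    linarith
  have hm1 : 1 ≤ m := by
    have : (1 : ℝ) ≤ m := hY1.trans hmY
    exact_mod_cast this
  have hms : ((m + s : ℕ) : ℝ) ≤ (Kc + 2) * Y := by
    push_cast
    linarith
  have hsK : (s : ℝ) ≤ (Kc + 2) * Y := by linarith
  have hmsn : m + s ≤ n := by
    have h1 : ((m + s : ℕ) : ℝ) ≤ n := by
      calc ((m + s : ℕ) : ℝ) ≤ (Kc + 2) * Y := hms
        _ ≤ (Kc + 2) * L ^ 2 := by gcongr
        _ ≤ n := hn₂ n hn2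
    exact_mod_cast h1
  have r1 := hsr n hn1 O x hyp (m + s) hms hmsn
  have r2 := hsr n hn1 O x hyp s hsK (by omega)
  have e1 : n - (m + s) = t - m := by omega
  have e2 : n - s = t := by omega
  rw [e1] at r1
  rw [e2] at r2
  have hmt : t - m + m = t := by omega
  -- heat kernel
  have hpow : (0 : ℝ) < (m : ℝ) ^ ((d : ℝ) / 2) := by positivity
  have hpowL : L ≤ (m : ℝ) ^ ((d : ℝ) / 2) := by
    have h1 : L = Y ^ ((d : ℝ) / 2) := by
      rw [hY, ← Real.rpow_mul (by linarith)]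
      have : (2 / d : ℝ) * ((d : ℝ) / 2) = 1 := by field_simp
      rw [this, Real.rpow_one]
    rw [h1]
    exact Real.rpow_le_rpow (by linarith) hmY (by positivity)
  have hh : ∀ x z : V d, (((LL d m).filter (fun l => en x l = z)).card : ℝ) ≤
      (Ch / (m : ℝ) ^ ((d : ℝ) / 2)) * (2 * d : ℝ) ^ m := by
    intro x z
    refine (hheat m hm1 x z).trans (le_of_eq ?_)
    ring
  have main := H2_theta (t := t - m) (m := m) (Ch := Ch / (m : ℝ) ^ ((d : ℝ) / 2)) O x A hd hθ (by positivity) hh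
  rw [hmt] at main
  have hcut := H2_cut O x (A : Set (V d)) t s
  have hD : (0 : ℝ) < (2 * d : ℝ) ^ s := by positivity
  have hcut' : ((PR O x (A : Set (V d)) t s).card : ℝ) ≤
      (((LL d t).filter (fun l => Op O x l ∧ en x l ∈ (A : Set (V d)))).card : ℝ) * (2 * d : ℝ) ^ s := by
    exact_mod_cast hcut
  have hN : (0 : ℝ) ≤ NP O x n := Nat.cast_nonneg _
  have hAm : (A.card : ℝ) * (Ch / (m : ℝ) ^ ((d : ℝ) / 2)) / θ ≤ ε / (2 * C) := by
    have h1 : (A.card : ℝ) * (Ch / (m : ℝ) ^ ((d : ℝ) / 2)) / θ ≤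
        (θ * ε / (2 * C * Ch) * (m : ℝ) ^ ((d : ℝ) / 2)) * (Ch / (m : ℝ) ^ ((d : ℝ) / 2)) / θ := by
      have h2 : (A.card : ℝ) ≤ θ * ε / (2 * C * Ch) * (m : ℝ) ^ ((d : ℝ) / 2) :=
        hA.trans (mul_le_mul_of_nonneg_left hpowL (by positivity))
      gcongr
    refine h1.trans (le_of_eq ?_)
    field_simp
  calc ((PR O x (A : Set (V d)) t s).card : ℝ)
      ≤ (((LL d t).filter (fun l => Op O x l ∧ en x l ∈ (A : Set (V d)))).card : ℝ) * (2 * d : ℝ) ^ s := hcut'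
    _ ≤ (θ * (2 * d : ℝ) ^ m * NP O x (t - m) +
        A.card * (Ch / (m : ℝ) ^ ((d : ℝ) / 2)) / θ * NP O x t) * (2 * d : ℝ) ^ s :=
        mul_le_mul_of_nonneg_right main hD.le
    _ = θ * (NP O x (t - m) * (2 * d : ℝ) ^ (m + s)) +
        A.card * (Ch / (m : ℝ) ^ ((d : ℝ) / 2)) / θ * (NP O x t * (2 * d : ℝ) ^ s) := by
        rw [pow_add]; ring
    _ ≤ θ * (C * NP O x n) + ε / (2 * C) * (C * NP O x n) := by
        have h1 : θ * (NP O x (t - m) * (2 * d : ℝ) ^ (m + s)) ≤ θ * (C * NP O x n) :=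
          mul_le_mul_of_nonneg_left r1 hθ.le
        have h2 : A.card * (Ch / (m : ℝ) ^ ((d : ℝ) / 2)) / θ * (NP O x t * (2 * d : ℝ) ^ s) ≤
            ε / (2 * C) * (C * NP O x n) :=
          mul_le_mul hAm r2 (by positivity) (by positivity)
        linarith
    _ = ε * NP O x n := by
        rw [hθdef]
        field_simp
        ring

end Pool.Agent.RWO
end

section

set_option autoImplicit false

/-! Task M13c: the last position. -/

namespace Pool.Agent.RWO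

variable {d : ℕ}

theorem M13c_asym (hd : 2 ≤ d) : ∃ n₀ : ℕ, ∀ n : ℕ, n₀ ≤ n → 1 ≤ kf d n ∧
    (((2 * kf d n : ℕ) : ℝ) ≤ 3 * (Real.log n) ^ (2 / d : ℝ)) ∧ 2 * kf d n ≤ n := by
  have hd0 : (0 : ℝ) < d := by
    have : 0 < d := by omega
    exact_mod_cast this
  have h2d : (0 : ℝ) < 2 / d := by positivity
  have h1 : ∀ᶠ n : ℕ in Filter.atTop, (2 : ℝ) ≤ (Real.log n) ^ (2 / d : ℝ) :=
    (((tendsto_rpow_atTop h2d).comp Real.tendsto_log_atTop).comp
      tendsto_natCast_atTop_atTop).eventually_ge_atTop 2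
  have h2 : ∀ᶠ n : ℕ in Filter.atTop, (1 : ℝ) ≤ Real.log n :=
    (Real.tendsto_log_atTop.comp tendsto_natCast_atTop_atTop).eventually_ge_atTop 1
  obtain ⟨n₀, hn₀⟩ := Filter.eventually_atTop.1 (h1.and (h2.and (Filter.eventually_ge_atTop 36)))
  refine ⟨n₀, fun n hn => ?_⟩
  obtain ⟨h3, h4, h5⟩ := hn₀ n hn
  have hk1 : ((kf d n : ℕ) : ℝ) < (Real.log n) ^ (2 / d : ℝ) + 1 := by
    unfold kf
    exact Nat.ceil_lt_add_one (by linarith)
  have hk2 : (Real.log n) ^ (2 / d : ℝ) ≤ ((kf d n : ℕ) : ℝ) := by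
    unfold kf
    exact Nat.le_ceil _
  have h6 : ((2 * kf d n : ℕ) : ℝ) ≤ 3 * (Real.log n) ^ (2 / d : ℝ) := by
    push_cast
    linarith
  refine ⟨?_, h6, ?_⟩
  · have : (0 : ℝ) < ((kf d n : ℕ) : ℝ) := by linarith
    have : 0 < kf d n := by exact_mod_cast this
    omega
  · have h7 : (Real.log n) ^ (2 / d : ℝ) ≤ Real.log n := by
      have : (2 / d : ℝ) ≤ 1 := by
        rw [div_le_one hd0]
        exact_mod_cast hd
      calc (Real.log n) ^ (2 / d : ℝ) ≤ (Real.log n) ^ (1 : ℝ) :=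
            Real.rpow_le_rpow_of_exponent_le h4 this
        _ = Real.log n := Real.rpow_one _
    have hn36 : (36 : ℝ) ≤ n := by exact_mod_cast h5
    have hs : 6 ≤ Real.sqrt n := by
      rw [show (6 : ℝ) = Real.sqrt 36 by
        rw [show (36 : ℝ) = 6 ^ 2 by norm_num, Real.sqrt_sq (by norm_num)]]
      exact Real.sqrt_le_sqrt hn36
    have hss : Real.sqrt n * Real.sqrt n = n := Real.mul_self_sqrt (by linarith)
    have h8 : Real.log n ≤ 2 * Real.sqrt n := by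
      have h9 : Real.log n = 2 * Real.log (Real.sqrt n) := by
        rw [Real.log_sqrt (by linarith)]
        ring
      have h10 := Real.log_le_sub_one_of_pos (show 0 < Real.sqrt n by linarith)
      linarith
    have h11 : ((2 * kf d n : ℕ) : ℝ) ≤ (n : ℝ) := by nlinarith
    exact_mod_cast h11

/-- M13c. PROOF. `k = kf d n`. `short_ratio` with `Kc = 3` (`2k ≤ 3 (log n)^(2/d)` for large `n`, `2k ≤ n`): `NP O x (n - 2k) (2d)^(2k) ≤ C NP O x n`. `heat`: `WP O z v k ≤ #{l ∈ LL d k : en z l = v} ≤ Ch (2d)^k/k^(d/2)`: `η = Ch/k^(d/2)`.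
`end_tight` with `n' = n - 2k`, `R = ⌈(4 C k/ε)^(1/2)⌉`: `C 2k/R² ≤ ε/2`, `(2R+1)^d ≤ ((4 (C/ε)^(1/2) + 3) k^(1/2))^d`, so `C (2R+1)^d η θ ≤ C (4 (C/ε)^(1/2) + 3)^d Ch θ ≤ ε/2` for `θ` small (depending on `C, Ch, ε, d` only). -/
theorem e_part (hd : 2 ≤ d) (C₀ ε : ℝ) (hC : 0 < C₀) (hε : 0 < ε) : ∃ θ : ℝ, 0 < θ ∧ ∃ n₀ : ℕ, ∀ n : ℕ, n₀ ≤ n → ∀ (O : Set (V d)) (x : V d),
    (2 * d : ℝ) ^ n * Real.exp (-(C₀ * n * (Real.log n) ^ (-(2 / d : ℝ)))) ≤ NP O x n →
    ((PZ O x {u | (NP O u (kf d n) : ℝ) < θ * (2 * d : ℝ) ^ (kf d n)} n).card : ℝ) ≤ ε * NP O x n := by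
  classical
  obtain ⟨C, hC1, n₁, hsr⟩ := short_ratio (d := d) (by omega) C₀ 3 hC (by norm_num)
  obtain ⟨Ch, hCh, hheat⟩ := heat (d := d) (by omega)
  obtain ⟨n₂, hn₂⟩ := M13c_asym hd
  have hC0 : 0 < C := by linarith
  set q : ℝ := Real.sqrt (4 * C / ε) with hq
  have hq0 : 0 ≤ q := Real.sqrt_nonneg _
  set D : ℝ := 2 * q + 3 with hD
  have hD0 : 0 < D := by positivity
  refine ⟨ε / (2 * C * D ^ d * Ch), by positivity, max n₁ n₂, fun n hn O x hN => ?_⟩
  obtain ⟨hk1, hk3, hkn⟩ := hn₂ n (le_trans (le_max_right _ _) hn)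
  have hratio := hsr n (le_trans (le_max_left _ _) hn) O x hN (2 * kf d n) hk3 hkn
  generalize kf d n = k at hk1 hk3 hkn hratio
  set θ : ℝ := ε / (2 * C * D ^ d * Ch) with hθ
  have hθ0 : 0 < θ := by positivity
  have hkR : (1 : ℝ) ≤ k := by exact_mod_cast hk1
  have hk0 : (0 : ℝ) < k := by linarith
  set sk : ℝ := Real.sqrt k with hsk
  have hsk1 : 1 ≤ sk := by
    rw [hsk]
    exact Real.one_le_sqrt.mpr hkR
  have hsk2 : sk * sk = k := Real.mul_self_sqrt hk0.le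
  set R : ℕ := ⌈q * sk⌉₊ with hR
  have hqpos : 0 < q := Real.sqrt_pos.mpr (by positivity)
  have hq2 : q * q = 4 * C / ε := Real.mul_self_sqrt (by positivity)
  have hR1 : 1 ≤ R := by
    rw [hR]
    exact Nat.one_le_iff_ne_zero.mpr (Nat.ceil_pos.mpr (by positivity)).ne'
  have hRge : q * sk ≤ R := Nat.le_ceil _
  have hRlt : (R : ℝ) < q * sk + 1 := Nat.ceil_lt_add_one (by positivity)
  have hR0 : (0 : ℝ) < R := by exact_mod_cast hR1
  have hη : ∀ z v : V d, (WP O z v k : ℝ) ≤ (Ch / (k : ℝ) ^ ((d : ℝ) / 2)) * (2 * d : ℝ) ^ k := by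
    intro z v
    have h1 : (WP O z v k : ℝ) ≤ (((LL d k).filter (fun l => en z l = v)).card : ℝ) := by
      have : WP O z v k ≤ ((LL d k).filter (fun l => en z l = v)).card := by
        unfold WP
        refine Finset.card_le_card fun l hl => ?_
        rw [Finset.mem_filter] at hl ⊢
        exact ⟨hl.1, hl.2.2⟩
      exact_mod_cast this
    refine h1.trans ((le_of_eq ?_).trans ((hheat k hk1 z v).trans (le_of_eq ?_)))
    · congr!
    · ring
  have hend := end_tight O x (n - 2 * k) k R hR1 (Ch / (k : ℝ) ^ ((d : ℝ) / 2)) θ (by positivity) hθ0.le hη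
  rw [Nat.sub_add_cancel hkn] at hend
  refine hend.trans ?_
  have hkd : (k : ℝ) ^ ((d : ℝ) / 2) = sk ^ d := by
    rw [hsk, Real.sqrt_eq_rpow, ← Real.rpow_natCast ((k : ℝ) ^ (1 / 2 : ℝ)), ← Real.rpow_mul hk0.le]
    congr 1
    ring
  have hsd : 0 < sk ^ d := by positivity
  have h2R : (2 * R + 1 : ℝ) ≤ D * sk := by
    rw [hD]
    nlinarith
  have hA : (2 * R + 1 : ℝ) ^ d * (Ch / (k : ℝ) ^ ((d : ℝ) / 2) * θ) ≤ ε / (2 * C) := by
    rw [hkd]
    calc (2 * R + 1 : ℝ) ^ d * (Ch / sk ^ d * θ) ≤ (D * sk) ^ d * (Ch / sk ^ d * θ) := by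
          refine mul_le_mul_of_nonneg_right (pow_le_pow_left₀ (by positivity) h2R d) (by positivity)
      _ = ε / (2 * C) := by
          rw [hθ, mul_pow]
          field_simp
  have hB : 2 * (k : ℝ) / (R : ℝ) ^ 2 ≤ ε / (2 * C) := by
    rw [div_le_div_iff₀ (by positivity) (by positivity)]
    have h3 : (q * sk) ^ 2 ≤ (R : ℝ) ^ 2 := pow_le_pow_left₀ (by positivity) hRge 2
    have h4 : (q * sk) ^ 2 = 4 * C / ε * k := by
      calc (q * sk) ^ 2 = (q * q) * (sk * sk) := by ring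
        _ = _ := by rw [hq2, hsk2]
    rw [h4] at h3
    calc 2 * (k : ℝ) * (2 * C) = ε * (4 * C / ε * k) := by field_simp; ring
      _ ≤ ε * (R : ℝ) ^ 2 := mul_le_mul_of_nonneg_left h3 hε.le
  have hpos : (0 : ℝ) ≤ (NP O x (n - 2 * k) : ℝ) * (2 * d : ℝ) ^ (2 * k) := by positivity
  calc (NP O x (n - 2 * k) : ℝ) * (2 * d : ℝ) ^ (2 * k) *
        ((2 * R + 1 : ℝ) ^ d * (Ch / (k : ℝ) ^ ((d : ℝ) / 2) * θ) + 2 * k / (R : ℝ) ^ 2)
      ≤ (NP O x (n - 2 * k) : ℝ) * (2 * d : ℝ) ^ (2 * k) * (ε / (2 * C) + ε / (2 * C)) :=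
        mul_le_mul_of_nonneg_left (add_le_add hA hB) hpos
    _ ≤ (C * NP O x n) * (ε / (2 * C) + ε / (2 * C)) :=
        mul_le_mul_of_nonneg_right hratio (by positivity)
    _ = ε * NP O x n := by field_simp; ring

end Pool.Agent.RWO
end

section

set_option autoImplicit false

/-! Task M14: the deterministic theorem, in the middle zone. -/

namespace Pool.Agent.RWO

variable {d : ℕ}

/-- `2 (log n)^7 + 2 ≤ n` for large `n`. -/
theorem M14_log_small : ∃ n₀ : ℕ, ∀ n : ℕ, n₀ ≤ n → 2 * (Real.log n) ^ 7 + 2 ≤ (n : ℝ) := by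
  have h1 := (Real.isLittleO_pow_log_id_atTop (n := 7)).bound (show (0 : ℝ) < 1 / 4 by norm_num)
  have h2 := tendsto_natCast_atTop_atTop (R := ℝ) |>.eventually h1
  obtain ⟨N, hN⟩ := Filter.eventually_atTop.1 h2
  refine ⟨max N 4, fun n hn => ?_⟩
  have h3 := hN n (le_trans (le_max_left _ _) hn)
  have h4 : (4 : ℝ) ≤ (n : ℝ) := by
    have : 4 ≤ n := le_trans (le_max_right _ _) hn
    exact_mod_cast this
  simp only [id, Real.norm_eq_abs] at h3
  have h5 := le_abs_self ((Real.log n) ^ 7)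
  rw [abs_of_nonneg (by linarith : (0 : ℝ) ≤ (n : ℝ))] at h3
  linarith

/-- The heat kernel bound in the form which is used. -/
theorem M14_heat (C' : ℝ) (hC' : 0 < C')
    (H : ∀ m : ℕ, 1 ≤ m → ∀ x y : V d, (((LL d m).filter (fun l => en x l = y)).card : ℝ) ≤ C' * (2 * d : ℝ) ^ m / (m : ℝ) ^ ((d : ℝ) / 2))
    (O : Set (V d)) (z y : V d) (m k₀ : ℕ) (lg : ℝ) (hk₀ : 1 ≤ k₀) (hm : k₀ ≤ m) (hlg : 1 ≤ lg) (hlk : lg ≤ (k₀ : ℝ) ^ ((d : ℝ) / 2)) :
    (WP O z y m : ℝ) ≤ max C' 1 / lg * (2 * d : ℝ) ^ m := by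
  classical
  have h1 : (WP O z y m : ℝ) ≤ (((LL d m).filter (fun l => en z l = y)).card : ℝ) := by
    unfold WP
    have : ((LL d m).filter (fun l => Op O z l ∧ en z l = y)).card ≤ ((LL d m).filter (fun l => en z l = y)).card := by
      refine Finset.card_le_card fun l hl => ?_
      rw [Finset.mem_filter] at hl ⊢
      exact ⟨hl.1, hl.2.2⟩
    exact_mod_cast this
  have h2 := H m (hk₀.trans hm) z y
  have h3 : lg ≤ (m : ℝ) ^ ((d : ℝ) / 2) := by
    refine hlk.trans (Real.rpow_le_rpow (Nat.cast_nonneg _) ?_ (by positivity))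
    exact_mod_cast hm
  have hlg0 : 0 < lg := by linarith
  have h4 : C' * (2 * d : ℝ) ^ m / (m : ℝ) ^ ((d : ℝ) / 2) ≤ C' * (2 * d : ℝ) ^ m / lg :=
    div_le_div_of_nonneg_left (by positivity) hlg0 h3
  have h5 : C' * (2 * d : ℝ) ^ m / lg ≤ max C' 1 / lg * (2 * d : ℝ) ^ m := by
    rw [mul_div_right_comm]
    refine mul_le_mul_of_nonneg_right ?_ (by positivity)
    exact div_le_div_of_nonneg_right (le_max_left _ _) hlg0.le
  exact h1.trans (h2.trans (h4.trans h5))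

open scoped Classical in
/-- M14. PROOF. `θ` from `e_part` (with `ε/2`); `Ch ≥ 1` from `heat`, `C₄ = exp(400 C₀)`, `a = ε/(256 Ch² CB (2 C₄ + 1))`. `k₀ = kf d n`, `m ∈ {k₀, k₀ + 1}` with `m + s = 2k`, `t' = n - m - s`, `K = ⌈(log n)^16⌉`, `q = ⌈(log n)^8⌉`,
`h = C₀ (log n)^(-2/d)`, `B₁ = t'/(16 d²)`, `B = {u | θ (2d)^k₀ ≤ NP O u k₀}`. `#PR O x A t s = #{l ∈ PZ O x univ n : en x (l.take t) ∈ A}` (`card_PR`) `≤ #PZ O x Bᶜ n` (`≤ (ε/2) NP` by `e_part`) `+ #(the set of g_part)` (`≤ (ε/4) NP`)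
`+ #{l : the end point of l.take t' is bad} ≤ 2 #{P ∈ PR O x univ t' (m+s) : bt P.1 < B₁}` (`bad_le`) `≤ 2 NP/2^(t'/(48d²)) ≤ (ε/4) NP` (`few_minus`: `bt < B₁` gives `16 d² bt ≤ t'`; `params2` with `ε/4`).
`hη0`, `hη1`: `heat`, `(2k₀)^(d/2), m^(d/2) ≥ k₀^(d/2) ≥ log n`. `hB`: `en x l` is within `t' ≤ n` of `x` (`en_abs`), `bxc z (m+s) ⊆ bxc z (Lf n)`. `hsm`: `small_ratio` (with `k`, `q`) and `params2`. -/
theorem det_mid (hd : 2 ≤ d) (C₀ ε : ℝ) (hC : 0 < C₀) (hε : 0 < ε) : ∃ θ : ℝ, 0 < θ ∧ ∀ CB : ℝ, 0 < CB → ∃ a : ℝ, 0 < a ∧ ∃ n₀ : ℕ, ∀ n : ℕ, n₀ ≤ n →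
    ∀ (O : Set (V d)) (x : V d),
    (2 * d : ℝ) ^ n * Real.exp (-(C₀ * n * (Real.log n) ^ (-(2 / d : ℝ)))) ≤ NP O x n →
    (∀ z : V d, (∀ i, |z i - x i| ≤ (n : ℤ)) →
      (((bxc z (Lf n)).filter (fun u => θ * (2 * d : ℝ) ^ (kf d n) ≤ (NP O u (kf d n) : ℝ))).card : ℝ) ≤ CB * Real.log n) →
    ∀ t s : ℕ, t + s = n → 3 * (Real.log n) ^ (2 / d : ℝ) ≤ s → (s : ℝ) ≤ (Real.log n) ^ 7 → ∀ A : Finset (V d), (A.card : ℝ) ≤ a * Real.log n →
      ((PR O x (A : Set (V d)) t s).card : ℝ) ≤ ε * NP O x n := by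
  have hd1 : 1 ≤ d := by omega
  obtain ⟨θ0, hθ0, n1, H1⟩ := e_part hd C₀ (ε / 2) hC (by linarith)
  obtain ⟨Ch', hCh', Hh⟩ := heat (d := d) hd1
  obtain ⟨n2, H2⟩ := params1 d hd C₀ hC
  obtain ⟨n3, H3⟩ := params2 d hd C₀ (ε / 4) hC (by linarith)
  obtain ⟨n4, H4⟩ := M14_log_small
  refine ⟨θ0, hθ0, fun CB hCB => ?_⟩
  have hCh0 : 0 < max Ch' 1 := lt_max_of_lt_right one_pos
  have hC40 : 0 < Real.exp (400 * C₀) := Real.exp_pos _
  refine ⟨ε / (256 * max Ch' 1 ^ 2 * CB * (2 * Real.exp (400 * C₀) + 1)), by positivity, max (max n1 n2) (max n3 n4), ?_⟩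
  intro n hn O x hN hBn t s hts hs1 hs2 A hA
  have hn1 : n1 ≤ n := le_trans (le_trans (le_max_left _ _) (le_max_left _ _)) hn
  have hn2 : n2 ≤ n := le_trans (le_trans (le_max_right _ _) (le_max_left _ _)) hn
  have hn3 : n3 ≤ n := le_trans (le_trans (le_max_left _ _) (le_max_right _ _)) hn
  have hn4 : n4 ≤ n := le_trans (le_trans (le_max_right _ _) (le_max_right _ _)) hn
  -- the choice of `m`, `k`
  obtain ⟨m, k, hkm, hmk, hk2⟩ : ∃ m k : ℕ, kf d n ≤ m ∧ m ≤ kf d n + 1 ∧ m + s = 2 * k := by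
    rcases Nat.even_or_odd' (kf d n + s) with ⟨c, hc | hc⟩
    · exact ⟨kf d n, c, le_rfl, by omega, hc⟩
    · exact ⟨kf d n + 1, c + 1, by omega, le_rfl, by omega⟩
  obtain ⟨hlg, hk0, hlgk, hks, hsK, hθn, hθ1, hp1, hp2, hp3, hp4, hp5⟩ :=
    H2 n hn2 s m ⌈(Real.log n) ^ 16⌉₊ hs1 hs2 hkm hmk rfl _ rfl
  have hms : m + s ≤ n := by
    have h1 := H4 n hn4
    have h2 : ((m + s : ℕ) : ℝ) ≤ (n : ℝ) := by
      have h3 : (2 : ℝ) * (kf d n : ℝ) ≤ (s : ℝ) := by exact_mod_cast hks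
      have h4 : (m : ℝ) ≤ (kf d n : ℝ) + 1 := by exact_mod_cast hmk
      push_cast
      have h5 : (0 : ℝ) ≤ (s : ℝ) := Nat.cast_nonneg _
      linarith
    exact_mod_cast h2
  obtain ⟨t', ht'⟩ : ∃ t' : ℕ, t' + m + s = n := ⟨n - m - s, by omega⟩
  have htt : t = t' + m := by omega
  obtain ⟨hh, h80, h40, hB1, hB2, hB3, hqB, hq1, hmsq, h20, hht, hqd, hexp1, hpow⟩ :=
    H3 n hn3 s m t' ⌈(Real.log n) ^ 16⌉₊ ⌈(Real.log n) ^ 8⌉₊ hs2 hmk ht' rfl rfl _ rfl
  set lg := Real.log n with hlgdef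
  set h := C₀ * lg ^ (-(2 / d : ℝ)) with hhdef
  set K := ⌈lg ^ 16⌉₊ with hKdef
  set q := ⌈lg ^ 8⌉₊ with hqdef
  set B₁ := t' / (16 * d ^ 2) with hB₁def
  have hkR : (k : ℝ) = ((s : ℝ) + m) / 2 := by
    have : ((m + s : ℕ) : ℝ) = ((2 * k : ℕ) : ℝ) := by rw [hk2]
    push_cast at this
    linarith
  have hn2k : t' + 2 * k = n := by omega
  have hNh : (2 * d : ℝ) ^ n * Real.exp (-(h * n)) ≤ NP O x n := by
    have h1 : C₀ * n * lg ^ (-(2 / d : ℝ)) = h * n := by rw [hhdef]; ring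
    rw [← h1]
    exact hN
  -- the hypotheses of `g_part`
  have hsm : (((PZ O x Set.univ t').filter (fun l => B₁ ≤ bt l ∧ xx O x l < 1 - 40 * h)).card : ℝ) * (2 * d : ℝ) ^ (2 * k) ≤
      NP O x (t' + m + s) := by
    have h1 := small_ratio hd1 O x t' k q B₁ h hh h40 hB1 hqB hq1 (by omega) h20 hht hqd
      (by
        rw [hn2k]
        have h2 : h * ((t' : ℝ) + 2 * (k : ℝ)) = h * (n : ℝ) := by
          have : ((t' + 2 * k : ℕ) : ℝ) = (n : ℝ) := by rw [hn2k]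
          push_cast at this
          rw [this]
        rw [h2]
        exact hNh)
    rw [hn2k] at h1
    rw [ht']
    refine h1.trans ?_
    calc 4 * ((t' : ℝ) + 1) * Real.exp (-(8 * h * q)) * (NP O x n : ℝ) ≤ 1 * (NP O x n : ℝ) :=
          mul_le_mul_of_nonneg_right hexp1 (Nat.cast_nonneg _)
      _ = _ := one_mul _
  have hg := g_part hd1 O x t' m s (kf d n) K k B₁ h (max Ch' 1) CB (ε / (256 * max Ch' 1 ^ 2 * CB * (2 * Real.exp (400 * C₀) + 1))) lg
    (Real.exp (400 * C₀)) (2 * (kf d n : ℝ) + 1) _ A {u | θ0 * (2 * d : ℝ) ^ (kf d n) ≤ (NP O u (kf d n) : ℝ)} hk2 hlg (le_max_right _ _) hCB.le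
    (by positivity) hA (hk0.trans hkm) hk0 hks hsK
    (fun v => M14_heat Ch' hCh' Hh O v v (2 * kf d n) (kf d n) lg hk0 (by omega) hlg hlgk)
    (fun z y => M14_heat Ch' hCh' Hh O z y m (kf d n) lg hk0 hkm hlg hlgk)
    (by
      intro l hl
      rw [mem_PZ] at hl
      refine le_trans ?_ (hBn (en x l) fun i => ?_)
      · have : ((bxc (en x l) (m + s)).filter (fun u => u ∈ {u | θ0 * (2 * d : ℝ) ^ (kf d n) ≤ (NP O u (kf d n) : ℝ)})).card ≤
            ((bxc (en x l) (Lf n)).filter (fun u => θ0 * (2 * d : ℝ) ^ (kf d n) ≤ (NP O u (kf d n) : ℝ))).card := by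
          refine Finset.card_le_card fun u hu => ?_
          rw [Finset.mem_filter, mem_bxc] at hu ⊢
          refine ⟨fun i => (hu.1 i).trans ?_, hu.2⟩
          have : m + s ≤ Lf n := hmsq
          exact_mod_cast this
        exact_mod_cast this
      · refine (en_abs x l i).trans ?_
        rw [hl.1]
        have : t' ≤ n := by omega
        exact_mod_cast this)
    rfl hθ1 hp1 hp2 (by rw [hkR]; exact hp3) (by rw [hkR]; exact hp4) hh.le h80 hp5 hB1 hB2 hB3 hsm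
  rw [ht'] at hg
  have hg2 : 64 * (ε / (256 * max Ch' 1 ^ 2 * CB * (2 * Real.exp (400 * C₀) + 1))) * max Ch' 1 ^ 2 * CB * (2 * Real.exp (400 * C₀) + 1) = ε / 4 := by
    have h1 : (2 * Real.exp (400 * C₀) + 1) ≠ 0 := by positivity
    field_simp
    norm_num
  rw [hg2] at hg
  -- the exceptional end points
  have he := H1 n hn1 O x hN
  -- the bad places at time `t'`
  have hb1 := bad_le O x t' (m + s) B₁
  have hb2 := few_minus hd1 O x t' (m + s) (by omega)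
  rw [show t' + (m + s) = n by omega] at hb2
  have hb3 : ((PR O x Set.univ t' (m + s)).filter (fun P => bt P.1 < B₁)).card ≤
      ((PR O x Set.univ t' (m + s)).filter (fun P => 16 * d ^ 2 * bt P.1 ≤ t')).card := by
    refine Finset.card_le_card fun P hP => ?_
    rw [Finset.mem_filter] at hP ⊢
    refine ⟨hP.1, ?_⟩
    have h1 : 16 * d ^ 2 * (t' / (16 * d ^ 2)) ≤ t' := Nat.mul_div_le _ _
    exact (Nat.mul_le_mul_left _ hP.2.le).trans h1
  have hb4 : (((PR O x Set.univ t' (m + s)).filter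
      (fun P => 2 * ((PZ O x {en x P.1} t').filter (fun l' => B₁ ≤ bt l')).card < WP O x (en x P.1) t')).card : ℝ) ≤ ε / 4 * NP O x n := by
    have h1 : (((PR O x Set.univ t' (m + s)).filter
      (fun P => 2 * ((PZ O x {en x P.1} t').filter (fun l' => B₁ ≤ bt l')).card < WP O x (en x P.1) t')).card : ℝ) ≤
        2 * (((PR O x Set.univ t' (m + s)).filter (fun P => 16 * d ^ 2 * bt P.1 ≤ t')).card : ℝ) := by
      have := hb1.trans (Nat.mul_le_mul_left 2 hb3)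
      exact_mod_cast this
    refine h1.trans ?_
    have h2 : (0 : ℝ) ≤ (((PR O x Set.univ t' (m + s)).filter (fun P => 16 * d ^ 2 * bt P.1 ≤ t')).card : ℝ) := Nat.cast_nonneg _
    calc 2 * (((PR O x Set.univ t' (m + s)).filter (fun P => 16 * d ^ 2 * bt P.1 ≤ t')).card : ℝ)
        ≤ (ε / 4 * 2 ^ (t' / (48 * d ^ 2))) * (((PR O x Set.univ t' (m + s)).filter (fun P => 16 * d ^ 2 * bt P.1 ≤ t')).card : ℝ) :=
          mul_le_mul_of_nonneg_right hpow h2
      _ = ε / 4 * ((((PR O x Set.univ t' (m + s)).filter (fun P => 16 * d ^ 2 * bt P.1 ≤ t')).card : ℝ) * 2 ^ (t' / (48 * d ^ 2))) := by ring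
      _ ≤ ε / 4 * NP O x n := mul_le_mul_of_nonneg_left hb2 (by linarith)
  -- the decomposition
  have hdec : (PR O x (A : Set (V d)) t s).card ≤
      (PZ O x {u | (NP O u (kf d n) : ℝ) < θ0 * (2 * d : ℝ) ^ (kf d n)} n).card +
      ((PZ O x {u | θ0 * (2 * d : ℝ) ^ (kf d n) ≤ (NP O u (kf d n) : ℝ)} n).filter (fun l => en x (l.take (t' + m)) ∈ A ∧
        WP O x (en x (l.take t')) t' ≤ 2 * ((PZ O x {en x (l.take t')} t').filter (fun l' => B₁ ≤ bt l')).card)).card +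
      ((PR O x Set.univ t' (m + s)).filter
        (fun P => 2 * ((PZ O x {en x P.1} t').filter (fun l' => B₁ ≤ bt l')).card < WP O x (en x P.1) t')).card := by
    have h1 : ((LL d (t + s)).filter (fun l => Op O x l ∧ en x (l.take t) ∈ (A : Set (V d)))) ⊆
        (PZ O x {u | (NP O u (kf d n) : ℝ) < θ0 * (2 * d : ℝ) ^ (kf d n)} n) ∪
        ((PZ O x {u | θ0 * (2 * d : ℝ) ^ (kf d n) ≤ (NP O u (kf d n) : ℝ)} n).filter (fun l => en x (l.take (t' + m)) ∈ A ∧
          WP O x (en x (l.take t')) t' ≤ 2 * ((PZ O x {en x (l.take t')} t').filter (fun l' => B₁ ≤ bt l')).card)) ∪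
        ((LL d n).filter (fun l => Op O x l ∧
          2 * ((PZ O x {en x (l.take t')} t').filter (fun l' => B₁ ≤ bt l')).card < WP O x (en x (l.take t')) t')) := by
      intro l hl
      rw [Finset.mem_filter, mem_LL, hts] at hl
      obtain ⟨hl1, hl2, hl3⟩ := hl
      rw [Finset.mem_union, Finset.mem_union, mem_PZ, Finset.mem_filter, mem_PZ, Finset.mem_filter, mem_LL]
      by_cases c1 : (NP O (en x l) (kf d n) : ℝ) < θ0 * (2 * d : ℝ) ^ (kf d n)
      · exact Or.inl (Or.inl ⟨hl1, hl2, c1⟩)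
      · by_cases c2 : 2 * ((PZ O x {en x (l.take t')} t').filter (fun l' => B₁ ≤ bt l')).card < WP O x (en x (l.take t')) t'
        · exact Or.inr ⟨hl1, hl2, c2⟩
        · refine Or.inl (Or.inr ⟨⟨hl1, hl2, not_lt.1 c1⟩, ?_, not_lt.1 c2⟩)
          rw [← htt]
          exact hl3
    have h2 : ((LL d n).filter (fun l => Op O x l ∧
          2 * ((PZ O x {en x (l.take t')} t').filter (fun l' => B₁ ≤ bt l')).card < WP O x (en x (l.take t')) t')).card ≤
        ((PR O x Set.univ t' (m + s)).filter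
          (fun P => 2 * ((PZ O x {en x P.1} t').filter (fun l' => B₁ ≤ bt l')).card < WP O x (en x P.1) t')).card := by
      refine Finset.card_le_card_of_injOn (fun l => (l.take t', l.drop t')) ?_ ?_
      · intro l hl
        rw [Finset.mem_coe, Finset.mem_filter, mem_LL] at hl
        obtain ⟨hl1, hl2, hl3⟩ := hl
        rw [Finset.mem_coe, Finset.mem_filter, mem_PR]
        have h4 := hl2
        rw [← List.take_append_drop t' l, Op_append] at h4
        simp only [List.length_take, List.length_drop]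
        exact ⟨⟨by omega, by omega, h4.1, trivial, h4.2⟩, hl3⟩
      · intro l _ l' _ hll
        simp only [Prod.mk.injEq] at hll
        rw [← List.take_append_drop t' l, ← List.take_append_drop t' l', hll.1, hll.2]
    rw [card_PR]
    refine (Finset.card_le_card h1).trans ?_
    refine (Finset.card_union_le _ _).trans ?_
    refine Nat.add_le_add (Finset.card_union_le _ _) h2
  have hdecR : ((PR O x (A : Set (V d)) t s).card : ℝ) ≤
      ((PZ O x {u | (NP O u (kf d n) : ℝ) < θ0 * (2 * d : ℝ) ^ (kf d n)} n).card : ℝ) +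
      (((PZ O x {u | θ0 * (2 * d : ℝ) ^ (kf d n) ≤ (NP O u (kf d n) : ℝ)} n).filter (fun l => en x (l.take (t' + m)) ∈ A ∧
        WP O x (en x (l.take t')) t' ≤ 2 * ((PZ O x {en x (l.take t')} t').filter (fun l' => B₁ ≤ bt l')).card)).card : ℝ) +
      (((PR O x Set.univ t' (m + s)).filter
        (fun P => 2 * ((PZ O x {en x P.1} t').filter (fun l' => B₁ ≤ bt l')).card < WP O x (en x P.1) t')).card : ℝ) := by
    exact_mod_cast hdec
  linarith

end Pool.Agent.RWO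
end
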