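import Pool.Agent.Lib.MP_c35813_pr.Mg.G001
import Pool.Agent.Lib.MP_c35813_pr.Mg.G003

section

set_option autoImplicit false

/-! Task T3b: few backtracks after time `t` are rare. -/

namespace Pool.Agent.RWO

variable {d : ℕ}

open scoped Classical in
/-- The paths with few backtracks after time `t`. -/
noncomputable def T3b_G (O : Set (V d)) (x : V d) (t s j : ℕ) : Finset (List (Stp d) × List (Stp d)) :=
  (PR O x Set.univ t (s + 2 * j)).filter (fun P => 16 * d ^ 2 * bt P.2 ≤ s + 48 * d ^ 2 * j)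

open scoped Classical in
/-- The edges. -/
noncomputable def T3b_E (O : Set (V d)) (x : V d) (t n : ℕ) : Finset (List (Stp d) × Tr d) :=
  ((LL d t).filter (fun l => Op O x l)).biUnion fun l => ({l} : Finset (List (Stp d))) ×ˢ ed O (en x l) n

theorem T3b_mem_G {O : Set (V d)} {x : V d} {t s j : ℕ} {P : List (Stp d) × List (Stp d)} :
    P ∈ T3b_G O x t s j ↔ P.1.length = t ∧ P.2.length = s + 2 * j ∧ Op O x P.1 ∧ Op O (en x P.1) P.2 ∧
      16 * d ^ 2 * bt P.2 ≤ s + 48 * d ^ 2 * j := by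
  classical
  unfold T3b_G
  rw [Finset.mem_filter, mem_PR]
  simp only [Set.mem_univ, true_and]
  tauto

theorem T3b_mem_E {O : Set (V d)} {x : V d} {t n : ℕ} {w : List (Stp d) × Tr d} :
    w ∈ T3b_E O x t n ↔ w.1.length = t ∧ Op O x w.1 ∧ w.2 ∈ ed O (en x w.1) n := by
  classical
  unfold T3b_E
  rw [Finset.mem_biUnion]
  constructor
  · rintro ⟨l, hl, hw⟩
    rw [Finset.mem_filter, mem_LL] at hl
    rw [Finset.mem_product, Finset.mem_singleton] at hw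
    obtain ⟨h1, h2⟩ := hw
    rw [h1]
    exact ⟨hl.1, hl.2, h2⟩
  · rintro ⟨h1, h2, h3⟩
    refine ⟨w.1, ?_, ?_⟩
    · rw [Finset.mem_filter, mem_LL]
      exact ⟨h1, h2⟩
    · rw [Finset.mem_product, Finset.mem_singleton]
      exact ⟨rfl, h3⟩

/-- The in-degree. -/
theorem T3b_in [DecidableEq (List (Stp d) × List (Stp d))] (O : Set (V d)) (x : V d) (t n : ℕ) (l m : List (Stp d))
    (hl : l.length = t) (ho : Op O x l) (hm : m.length = n + 2) (hmo : Op O (en x l) m) :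
    ((T3b_E O x t n).filter (fun w => (w.1, bI w.2) = (l, m))).card = bt m := by
  classical
  rw [← ins_b O (en x l) n m hm hmo]
  refine Finset.card_bij (fun w _ => w.2) ?_ ?_ ?_
  · rintro ⟨l', u⟩ hw
    rw [Finset.mem_filter, T3b_mem_E] at hw
    obtain ⟨⟨-, -, h3⟩, h4⟩ := hw
    simp only [Prod.mk.injEq] at h4 h3 ⊢
    obtain ⟨h5, h6⟩ := h4
    rw [h5] at h3
    rw [Finset.mem_filter]
    exact ⟨h3, h6⟩
  · rintro ⟨l', u⟩ hw ⟨l'', u'⟩ hw' h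
    rw [Finset.mem_filter] at hw hw'
    have h1 := hw.2
    have h2 := hw'.2
    simp only [Prod.mk.injEq] at h1 h2 h ⊢
    exact ⟨h1.1.trans h2.1.symm, h⟩
  · intro u hu
    rw [Finset.mem_filter] at hu
    refine ⟨(l, u), ?_, rfl⟩
    rw [Finset.mem_filter, T3b_mem_E]
    refine ⟨⟨hl, ho, hu.1⟩, ?_⟩
    simp only
    rw [hu.2]

/-- The out-degree. -/
theorem T3b_out [DecidableEq (List (Stp d) × List (Stp d))] (O : Set (V d)) (x : V d) (t n : ℕ) (l m : List (Stp d))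
    (hl : l.length = t) (ho : Op O x l) (hm : m.length = n) (hmo : Op O (en x l) m) :
    ((T3b_E O x t n).filter (fun w => (w.1, aI w.2) = (l, m))).card = II O (en x l) m := by
  classical
  rw [← ins_a O (en x l) n m hm hmo]
  refine Finset.card_bij (fun w _ => w.2) ?_ ?_ ?_
  · rintro ⟨l', u⟩ hw
    rw [Finset.mem_filter, T3b_mem_E] at hw
    obtain ⟨⟨-, -, h3⟩, h4⟩ := hw
    simp only [Prod.mk.injEq] at h4 h3 ⊢
    obtain ⟨h5, h6⟩ := h4
    rw [h5] at h3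
    rw [Finset.mem_filter]
    exact ⟨h3, h6⟩
  · rintro ⟨l', u⟩ hw ⟨l'', u'⟩ hw' h
    rw [Finset.mem_filter] at hw hw'
    have h1 := hw.2
    have h2 := hw'.2
    simp only [Prod.mk.injEq] at h1 h2 h ⊢
    exact ⟨h1.1.trans h2.1.symm, h⟩
  · intro u hu
    rw [Finset.mem_filter] at hu
    refine ⟨(l, u), ?_, rfl⟩
    rw [Finset.mem_filter, T3b_mem_E]
    refine ⟨⟨hl, ho, hu.1⟩, ?_⟩
    simp only
    rw [hu.2]

theorem T3b_len_b {n : ℕ} {u : Tr d} (h : u.1.length + u.2.2.length = n) : (bI u).length = n + 2 := by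
  unfold bI
  simp only [List.length_append, List.length_cons]
  omega

theorem T3b_len_a {n : ℕ} {u : Tr d} (h : u.1.length + u.2.2.length = n) : (aI u).length = n := by
  unfold aI
  simp only [List.length_append]
  omega

/-- One insertion. -/
theorem T3b_step (hd : 1 ≤ d) (O : Set (V d)) (x : V d) (t s j : ℕ) (hs : 1 ≤ s) (hj : 48 * d ^ 2 * (j + 1) ≤ s) :
    ((T3b_G O x t s j).card : ℝ) ≤ (1 / (8 * (d : ℝ) ^ 2)) * ((T3b_G O x t s (j + 1)).card : ℝ) := by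
  classical
  have hd0 : (0 : ℝ) < d := by exact_mod_cast (by omega : 0 < d)
  have hd2 : (0 : ℝ) < 8 * (d : ℝ) ^ 2 := by positivity
  refine transport (T3b_G O x t s j) (T3b_G O x t s (j + 1)) (T3b_E O x t (s + 2 * j))
    (fun w => (w.1, aI w.2)) (fun w => (w.1, bI w.2)) (1 / (8 * (d : ℝ) ^ 2)) (by positivity) ?_ ?_ ?_
  · rintro ⟨l, m⟩ hP
    rw [T3b_mem_G] at hP
    obtain ⟨h1, h2, h3, h4, -⟩ := hP
    simp only at h1 h2 h3 h4
    have hne : m ≠ [] := by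
      rintro rfl
      simp at h2
      omega
    have h5 := II_ge O (en x l) m hne h4
    rw [← T3b_out O x t (s + 2 * j) l m h1 h3 h2 h4] at h5
    have h6 : 0 < ((T3b_E O x t (s + 2 * j)).filter (fun w => (w.1, aI w.2) = (l, m))).card := by omega
    obtain ⟨w, hw⟩ := Finset.card_pos.1 h6
    rw [Finset.mem_filter] at hw
    exact ⟨w, hw.1, hw.2⟩
  · rintro ⟨l, u⟩ hu hP
    rw [T3b_mem_E] at hu
    rw [T3b_mem_G] at hP ⊢
    obtain ⟨h1, h2, h3⟩ := hu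
    obtain ⟨-, -, -, -, h5⟩ := hP
    simp only at h1 h2 h3 h5 ⊢
    rw [mem_ed] at h3
    have h6 := (bt_ins u).2
    refine ⟨h1, ?_, h2, h3.2, ?_⟩
    · rw [T3b_len_b h3.1]
      ring
    · calc 16 * d ^ 2 * bt (bI u) ≤ 16 * d ^ 2 * (bt (aI u) + 3) := Nat.mul_le_mul_left _ h6
        _ = 16 * d ^ 2 * bt (aI u) + 48 * d ^ 2 := by ring
        _ ≤ (s + 48 * d ^ 2 * j) + 48 * d ^ 2 := by omega
        _ = s + 48 * d ^ 2 * (j + 1) := by ring
  · rintro ⟨l, u⟩ hu hP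
    rw [T3b_mem_E] at hu
    rw [T3b_mem_G] at hP
    obtain ⟨h1, h2, h3⟩ := hu
    obtain ⟨-, -, -, h4, h5⟩ := hP
    simp only at h1 h2 h3 h4 h5 ⊢
    rw [mem_ed] at h3
    have h6 := (bt_ins u).2
    have hlb := T3b_len_b h3.1
    have hla := T3b_len_a h3.1
    rw [T3b_in O x t (s + 2 * j) l (bI u) h1 h2 hlb h3.2, T3b_out O x t (s + 2 * j) l (aI u) h1 h2 hla h4]
    have hne : aI u ≠ [] := by
      intro h0
      rw [h0] at hla
      simp at hla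
      omega
    have h7 := II_ge O (en x l) (aI u) hne h4
    rw [hla] at h7
    have h8 : 16 * d ^ 2 * bt (bI u) ≤ 2 * II O (en x l) (aI u) := by
      calc 16 * d ^ 2 * bt (bI u) ≤ 16 * d ^ 2 * (bt (aI u) + 3) := Nat.mul_le_mul_left _ h6
        _ = 16 * d ^ 2 * bt (aI u) + 48 * d ^ 2 := by ring
        _ ≤ (s + 48 * d ^ 2 * j) + 48 * d ^ 2 := by omega
        _ = s + 48 * d ^ 2 * (j + 1) := by ring
        _ ≤ s + s := by omega
        _ ≤ 2 * II O (en x l) (aI u) := by omega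
    have h9 : (16 : ℝ) * (d : ℝ) ^ 2 * (bt (bI u) : ℝ) ≤ 2 * (II O (en x l) (aI u) : ℝ) := by
      exact_mod_cast h8
    rw [div_mul_eq_mul_div, le_div_iff₀ hd2]
    nlinarith

open scoped Classical in
/-- T3b. PROOF. As T3a with the insertions in the second path: `J = s/(48 d²)`, `G_j = {(l, l') ∈ PR O x univ t (s + 2j) : 16 d² bt l' ≤ s + 48 d² j}`, edges `(l, u)`, `l` open from `x`, `|l| = t`,
`u ∈ ed O (en x l) (s + 2j)`; `a = (l, aI u)`, `b = (l, bI u)`. `#G_J ≤ #PR O x univ t (s + 2J) = NP (t + s + 2J) ≤ (2d)^(2J) NP (t + s)`. -/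
theorem few_plus (hd : 1 ≤ d) (O : Set (V d)) (x : V d) (t s : ℕ) (hs : 1 ≤ s) :
    (((PR O x Set.univ t s).filter (fun P => 16 * d ^ 2 * bt P.2 ≤ s)).card : ℝ) * 2 ^ (s / (48 * d ^ 2)) ≤ NP O x (t + s) := by
  have hd0 : (0 : ℝ) < d := by exact_mod_cast (by omega : 0 < d)
  have hd2 : (0 : ℝ) < 8 * (d : ℝ) ^ 2 := by positivity
  have h48 : 0 < 48 * d ^ 2 := by positivity
  obtain ⟨J, hJ⟩ : ∃ J, J = s / (48 * d ^ 2) := ⟨_, rfl⟩
  have hJs : 48 * d ^ 2 * J ≤ s := by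
    rw [hJ]
    exact Nat.mul_div_le s (48 * d ^ 2)
  have hind : ∀ j, j ≤ J → ((T3b_G O x t s 0).card : ℝ) * (8 * (d : ℝ) ^ 2) ^ j ≤ ((T3b_G O x t s j).card : ℝ) := by
    intro j
    induction j with
    | zero => intro _; simp
    | succ j ih =>
      intro hj
      have h1 := ih (by omega)
      have h2 := T3b_step hd O x t s j hs ((Nat.mul_le_mul_left _ hj).trans hJs)
      rw [div_mul_eq_mul_div, le_div_iff₀ hd2, one_mul] at h2
      calc ((T3b_G O x t s 0).card : ℝ) * (8 * (d : ℝ) ^ 2) ^ (j + 1)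
          = (((T3b_G O x t s 0).card : ℝ) * (8 * (d : ℝ) ^ 2) ^ j) * (8 * (d : ℝ) ^ 2) := by ring
        _ ≤ ((T3b_G O x t s j).card : ℝ) * (8 * (d : ℝ) ^ 2) := mul_le_mul_of_nonneg_right h1 hd2.le
        _ ≤ _ := h2
  have h0 : T3b_G O x t s 0 = (PR O x Set.univ t s).filter (fun P => 16 * d ^ 2 * bt P.2 ≤ s) := by
    unfold T3b_G
    simp only [Nat.mul_zero, Nat.add_zero]
  have hGJ : ((T3b_G O x t s J).card : ℝ) ≤ (NP O x (t + s) : ℝ) * (4 * (d : ℝ) ^ 2) ^ J := by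
    have h1 : (T3b_G O x t s J).card ≤ NP O x (t + s) * (2 * d) ^ (2 * J) := by
      calc (T3b_G O x t s J).card ≤ (PR O x Set.univ t (s + 2 * J)).card := Finset.card_filter_le _ _
        _ = NP O x (t + (s + 2 * J)) := card_PR_univ O x t _
        _ = NP O x ((t + s) + 2 * J) := by rw [Nat.add_assoc]
        _ ≤ _ := NP_add_le O x (t + s) (2 * J)
    calc ((T3b_G O x t s J).card : ℝ) ≤ ((NP O x (t + s) * (2 * d) ^ (2 * J) : ℕ) : ℝ) := by exact_mod_cast h1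
      _ = (NP O x (t + s) : ℝ) * (4 * (d : ℝ) ^ 2) ^ J := by
        push_cast
        rw [pow_mul]
        congr 2
        ring
  rw [← h0, ← hJ]
  have h3 := (hind J le_rfl).trans hGJ
  have h4 : (8 * (d : ℝ) ^ 2) ^ J = 2 ^ J * (4 * (d : ℝ) ^ 2) ^ J := by
    rw [← mul_pow]
    congr 1
    ring
  rw [h4, ← mul_assoc] at h3
  exact le_of_mul_le_mul_right h3 (by positivity)

end Pool.Agent.RWO
end

section

set_option autoImplicit false

/-! Task T4a: one forward step. -/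

namespace Pool.Agent.RWO

variable {d : ℕ}

theorem T4a_Op_univ (x : V d) (l : List (Stp d)) : Op Set.univ x l := by
  induction l generalizing x with
  | nil => exact Set.mem_univ _
  | cons e l ih => exact ⟨Set.mem_univ _, ih _⟩

open scoped Classical in
/-- The pairs of triples: an insertion before, a removal after. -/
noncomputable def T4a_E (O : Set (V d)) (x : V d) (A : Set (V d)) (t s : ℕ) : Finset (Tr d × Tr d) :=
  ((ed O x t) ×ˢ (ed Set.univ x s)).filter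
    (fun q => q.2 ∈ ed O (en x (aI q.1)) s ∧ en x (aI q.1) ∈ A)

theorem T4a_mem {O : Set (V d)} {x : V d} {A : Set (V d)} {t s : ℕ} {q : Tr d × Tr d} :
    q ∈ T4a_E O x A t s ↔
      q.1 ∈ ed O x t ∧ q.2 ∈ ed O (en x (aI q.1)) s ∧ en x (aI q.1) ∈ A := by
  classical
  unfold T4a_E
  rw [Finset.mem_filter, Finset.mem_product]
  constructor
  · rintro ⟨⟨h1, _⟩, h2, h3⟩
    exact ⟨h1, h2, h3⟩
  · rintro ⟨h1, h2, h3⟩
    exact ⟨⟨h1, mem_ed.2 ⟨(mem_ed.1 h2).1, T4a_Op_univ _ _⟩⟩, h2, h3⟩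

theorem T4a_length_aI (u : Tr d) : (aI u).length = u.1.length + u.2.2.length := by
  unfold aI
  rw [List.length_append]

theorem T4a_length_bI (u : Tr d) : (bI u).length = u.1.length + u.2.2.length + 2 := by
  unfold bI
  rw [List.length_append, List.length_cons, List.length_cons]
  omega

/-- The out-degree. -/
theorem T4a_fib_a (O : Set (V d)) (x : V d) (A : Set (V d)) (t s : ℕ)
    (P : List (Stp d) × List (Stp d)) (hP : P ∈ PR O x A t (s + 2)) :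
    ((T4a_E O x A t s).filter (fun q => (aI q.1, bI q.2) = P)).card = II O x P.1 * bt P.2 := by
  obtain ⟨h1, h2, h3, h4, h5⟩ := mem_PR.1 hP
  rw [← ins_a O x t P.1 h1 h3, ← ins_b O (en x P.1) s P.2 h2 h5, ← Finset.card_product]
  congr 1
  ext q
  rw [Finset.mem_filter, Finset.mem_product, Finset.mem_filter, Finset.mem_filter, T4a_mem]
  constructor
  · rintro ⟨⟨k1, k2, k3⟩, rfl⟩
    exact ⟨⟨k1, rfl⟩, ⟨k2, rfl⟩⟩
  · rintro ⟨⟨k1, k2⟩, ⟨k3, k4⟩⟩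
    refine ⟨⟨k1, ?_, ?_⟩, Prod.ext k2 k4⟩
    · rw [k2]; exact k3
    · rw [k2]; exact h4

/-- The in-degree. -/
theorem T4a_fib_b (O : Set (V d)) (x : V d) (A : Set (V d)) (t s : ℕ)
    (P : List (Stp d) × List (Stp d)) (hP : P ∈ PR O x A (t + 2) s) :
    ((T4a_E O x A t s).filter (fun q => (bI q.1, aI q.2) = P)).card =
      bt P.1 * II O (en x P.1) P.2 := by
  obtain ⟨h1, h2, h3, h4, h5⟩ := mem_PR.1 hP
  rw [← ins_b O x t P.1 h1 h3, ← ins_a O (en x P.1) s P.2 h2 h5, ← Finset.card_product]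
  congr 1
  ext q
  rw [Finset.mem_filter, Finset.mem_product, Finset.mem_filter, Finset.mem_filter, T4a_mem]
  constructor
  · rintro ⟨⟨k1, k2, k3⟩, rfl⟩
    refine ⟨⟨k1, rfl⟩, ⟨?_, rfl⟩⟩
    rw [en_ins] at k2
    exact k2
  · rintro ⟨⟨k1, k2⟩, ⟨k3, k4⟩⟩
    refine ⟨⟨k1, ?_, ?_⟩, Prod.ext k2 k4⟩
    · rw [en_ins, k2]; exact k3
    · rw [en_ins, k2]; exact h4

/-- The real inequalities. `I₁, b₁`: insertions and backtracks of `aI u`, `I₂, b₂`: of `bI w`; with primes: of `bI u`, `aI w`. -/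
theorem T4a_real {B₁ B₂ ρ b₁ b₂ I₁ I₂ b₁' b₂' I₁' I₂' : ℝ} (hB₁ : 3 ≤ B₁) (hB₂ : 6 ≤ B₂) (hρ : 0 < ρ)
    (h1 : B₁ ≤ b₁) (h2 : B₂ ≤ b₂) (hI₁ : 0 ≤ I₁) (hI₂' : 0 ≤ I₂')
    (h3 : ρ * (b₁ * I₂) ≤ I₁ * b₂) (k1 : b₁ ≤ b₁') (k2 : b₁' ≤ b₁ + 3) (k3 : b₂ ≤ b₂' + 3)
    (k4 : I₁ ≤ I₁') (k5 : I₂' ≤ I₂) :
    ρ * (1 - 3 / B₁ - 3 / B₂) * (b₁' * I₂') ≤ I₁' * b₂' ∧
      b₁' * I₂' ≤ (1 + 3 / B₁) / ρ * (I₁ * b₂) := by
  have hB1 : 0 < B₁ := by linarith
  have hB2 : 0 < B₂ := by linarith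
  have hb1 : 0 < b₁ := by linarith
  have hb2 : 0 < b₂ := by linarith
  have hI₂ : 0 ≤ I₂ := hI₂'.trans k5
  have x1 : 3 ≤ 3 / B₁ * b₁ := by
    rw [div_mul_eq_mul_div, le_div_iff₀ hB1]; nlinarith
  have x2 : 3 ≤ 3 / B₂ * b₂ := by
    rw [div_mul_eq_mul_div, le_div_iff₀ hB2]; nlinarith
  have y1 : 0 < 3 / B₁ := by positivity
  have y2 : 0 < 3 / B₂ := by positivity
  have z2 : 3 / B₂ ≤ 1 / 2 := by
    rw [div_le_iff₀ hB2]; linarith
  set X := 3 / B₁ with hX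
  set Y := 3 / B₂ with hY
  -- the backward degree
  have m1 : b₁' * I₂' ≤ (1 + X) * (b₁ * I₂) := by
    have a1 : b₁' ≤ (1 + X) * b₁ := by linarith
    have a2 : b₁' * I₂' ≤ (1 + X) * b₁ * I₂' := mul_le_mul_of_nonneg_right a1 hI₂'
    have a3 : (1 + X) * b₁ * I₂' ≤ (1 + X) * b₁ * I₂ :=
      mul_le_mul_of_nonneg_left k5 (by positivity)
    linarith
  -- the forward degree
  have m2 : (1 - Y) * (I₁ * b₂) ≤ I₁' * b₂' := by
    have a1 : (1 - Y) * b₂ ≤ b₂' := by linarith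
    have a0 : 0 ≤ (1 - Y) * b₂ := mul_nonneg (by linarith) hb2.le
    have a2 : I₁ * ((1 - Y) * b₂) ≤ I₁' * b₂' := mul_le_mul k4 a1 a0 (hI₁.trans k4)
    linarith
  have hIb : 0 ≤ I₁ * b₂ := by positivity
  have hbI : 0 ≤ b₁ * I₂ := by positivity
  constructor
  · by_cases hc : 0 ≤ 1 - X - Y
    · have a1 : ρ * (1 - X - Y) * (b₁' * I₂') ≤ ρ * (1 - X - Y) * ((1 + X) * (b₁ * I₂)) :=
        mul_le_mul_of_nonneg_left m1 (by positivity)
      have a2 : (1 - X - Y) * (1 + X) ≤ 1 - Y := by nlinarith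
      have a3 : ρ * (b₁ * I₂) * ((1 - X - Y) * (1 + X)) ≤ ρ * (b₁ * I₂) * (1 - Y) :=
        mul_le_mul_of_nonneg_left a2 (by positivity)
      have a4 : (1 - Y) * (ρ * (b₁ * I₂)) ≤ (1 - Y) * (I₁ * b₂) :=
        mul_le_mul_of_nonneg_left h3 (by linarith)
      linarith
    · push Not at hc
      have hb' : 0 ≤ b₂' := by linarith
      have hI' : 0 ≤ I₁' := hI₁.trans k4
      have hs : 0 ≤ b₁' := hb1.le.trans k1
      have : ρ * (1 - X - Y) * (b₁' * I₂') ≤ 0 :=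
        mul_nonpos_of_nonpos_of_nonneg (mul_nonpos_of_nonneg_of_nonpos hρ.le hc.le) (by positivity)
      have : 0 ≤ I₁' * b₂' := by positivity
      linarith
  · have a1 : b₁ * I₂ ≤ (I₁ * b₂) / ρ := by
      rw [le_div_iff₀ hρ]; linarith
    calc b₁' * I₂' ≤ (1 + X) * (b₁ * I₂) := m1
      _ ≤ (1 + X) * ((I₁ * b₂) / ρ) := mul_le_mul_of_nonneg_left a1 (by positivity)
      _ = (1 + X) / ρ * (I₁ * b₂) := by ring

theorem T4a_target {O : Set (V d)} {x : V d} {A : Set (V d)} {t s : ℕ} {q : Tr d × Tr d}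
    (hq : q ∈ T4a_E O x A t s) : (bI q.1, aI q.2) ∈ PR O x A (t + 2) s := by
  obtain ⟨q1, q2, q3⟩ := T4a_mem.1 hq
  have m1 := mem_ed.1 q1
  have m2 := mem_ed.1 q2
  rw [mem_PR]
  refine ⟨?_, ?_, m1.2, ?_, ?_⟩
  · change (bI q.1).length = t + 2
    rw [T4a_length_bI]; omega
  · change (aI q.2).length = s
    rw [T4a_length_aI]; omega
  · change en x (bI q.1) ∈ A
    rw [← en_ins]; exact q3
  · change Op O (en x (bI q.1)) (aI q.2)
    rw [← en_ins]; exact Op_ins O _ _ m2.2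

theorem T4a_edge (O : Set (V d)) (x : V d) (A : Set (V d)) (t s : ℕ) {B₁ B₂ ρ : ℝ} {q : Tr d × Tr d}
    (hX : (aI q.1, bI q.2) ∈ GS O x A t (s + 2) B₁ B₂ ρ)
    (hB₁ : 3 ≤ B₁) (hB₂ : 6 ≤ B₂) (hρ : 0 < ρ) :
    ρ * (1 - 3 / B₁ - 3 / B₂) * Dm O x (bI q.1, aI q.2) ≤ Dp O x (bI q.1, aI q.2) ∧
      (bt (bI q.1) : ℝ) * (II O (en x (bI q.1)) (aI q.2) : ℝ) ≤
        (1 + 3 / B₁) / ρ * ((II O x (aI q.1) : ℝ) * (bt (bI q.2) : ℝ)) := by
  unfold GS at hX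
  rw [Finset.mem_filter] at hX
  obtain ⟨hP, h1, h2, h3⟩ := hX
  unfold Dm Dp at h3
  unfold Dm Dp
  simp only at h1 h2 h3 ⊢
  have k2 : (bt (bI q.1) : ℝ) ≤ bt (aI q.1) + 3 := by exact_mod_cast (bt_ins q.1).2
  have k1 : (bt (aI q.1) : ℝ) ≤ bt (bI q.1) := by exact_mod_cast (bt_ins q.1).1
  have k3 : (bt (bI q.2) : ℝ) ≤ bt (aI q.2) + 3 := by exact_mod_cast (bt_ins q.2).2
  have k4 : (II O x (aI q.1) : ℝ) ≤ II O x (bI q.1) := by exact_mod_cast (II_ins O x q.1).1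
  have k5 : (II O (en x (bI q.1)) (aI q.2) : ℝ) ≤ II O (en x (bI q.1)) (bI q.2) := by
    exact_mod_cast (II_ins O _ q.2).1
  rw [en_ins] at h3
  exact T4a_real hB₁ hB₂ hρ h1 h2 (Nat.cast_nonneg _) (Nat.cast_nonneg _) h3 k1 k2 k3 k4 k5

/-- T4a. PROOF. `transport` with the edges `(u, w)`, `u ∈ ed O x t`, `w ∈ ed O (en x (aI u)) (s - 2)`, `en x (aI u) ∈ A` (the edge set: a sigma or a product over `ed O x t` and the triples of total
length `s - 2`, filtered); `a = (aI u, bI w)`, `b = (bI u, aI w)`. Out-degree of `P`: `II O x P.1 * bt P.2 = Dp P > 0` (`ins_a`, `ins_b`, `II_ge`), in-degree of `P'`: `bt P'.1 * II _ P'.2 = Dm P'`.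
For an edge: `Dp P' ≥ II (aI u) (bt (bI w) - 3) ≥ (1 - 3/B₂) Dp P`, `Dm P' ≤ (bt (aI u) + 3) II (bI w) ≤ (1 + 3/B₁) Dm P` (`bt_ins`, `II_ins`, `en_ins`), `(1 - 3/B₁ - 3/B₂)(1 + 3/B₁) ≤ 1 - 3/B₂`,
and `Dm P' ≤ (1 + 3/B₁) Dm P ≤ (1 + 3/B₁)/ρ Dp P`. -/
theorem step_fwd (O : Set (V d)) (x : V d) (A : Set (V d)) (t s : ℕ) (ht : 1 ≤ t) (hs : 2 ≤ s) (B₁ B₂ ρ : ℝ) (hB₁ : 3 ≤ B₁) (hB₂ : 6 ≤ B₂) (hρ : 0 < ρ) :
    ((GS O x A t s B₁ B₂ ρ).card : ℝ) ≤
      (1 + 3 / B₁) / ρ * ((GS O x A (t + 2) (s - 2) B₁ (B₂ - 3) (ρ * (1 - 3 / B₁ - 3 / B₂))).card : ℝ) := by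
  obtain ⟨s, rfl⟩ : ∃ r, s = r + 2 := ⟨s - 2, by omega⟩
  rw [Nat.add_sub_cancel]
  refine transport (GS O x A t (s + 2) B₁ B₂ ρ) _ (T4a_E O x A t s) (fun q => (aI q.1, bI q.2))
    (fun q => (bI q.1, aI q.2)) ((1 + 3 / B₁) / ρ) (by positivity) ?_ ?_ ?_
  · intro P hP
    unfold GS at hP
    rw [Finset.mem_filter] at hP
    obtain ⟨hP, h1, h2, h3⟩ := hP
    have hc := T4a_fib_a O x A t s P hP
    obtain ⟨g1, g2, g3, g4, g5⟩ := mem_PR.1 hP
    have hI : P.1.length + 1 ≤ II O x P.1 := II_ge O x P.1 (by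
      intro h0
      rw [h0] at g1
      simp at g1
      omega) g3
    have hb : 0 < bt P.2 := by
      have : (0 : ℝ) < bt P.2 := by linarith
      exact_mod_cast this
    have hpos : 0 < ((T4a_E O x A t s).filter (fun q => (aI q.1, bI q.2) = P)).card := by
      rw [hc]
      exact Nat.mul_pos (by omega) hb
    obtain ⟨q, hq⟩ := Finset.card_pos.1 hpos
    rw [Finset.mem_filter] at hq
    exact ⟨q, hq.1, hq.2⟩
  · intro q hq hqX
    obtain ⟨r1, r2⟩ := T4a_edge O x A t s hqX hB₁ hB₂ hρ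
    obtain ⟨q1, q2, q3⟩ := T4a_mem.1 hq
    unfold GS
    rw [Finset.mem_filter]
    unfold GS at hqX
    rw [Finset.mem_filter] at hqX
    obtain ⟨hP, h1, h2, h3⟩ := hqX
    obtain ⟨g1, g2, g3, g4, g5⟩ := mem_PR.1 hP
    refine ⟨T4a_target hq, ?_, ?_, r1⟩
    · have := (bt_ins q.1).1
      have : (bt (aI q.1) : ℝ) ≤ bt (bI q.1) := by exact_mod_cast this
      exact h1.trans this
    · have := (bt_ins q.2).2
      have : (bt (bI q.2) : ℝ) ≤ bt (aI q.2) + 3 := by exact_mod_cast this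
      change B₂ - 3 ≤ (bt (aI q.2) : ℝ)
      linarith
  · intro q hq hqX
    obtain ⟨r1, r2⟩ := T4a_edge O x A t s hqX hB₁ hB₂ hρ
    have hP : (aI q.1, bI q.2) ∈ PR O x A t (s + 2) := by
      unfold GS at hqX
      exact (Finset.mem_filter.1 hqX).1
    rw [T4a_fib_a O x A t s _ hP, T4a_fib_b O x A t s _ (T4a_target hq)]
    push_cast
    exact r2

end Pool.Agent.RWO
end

section

set_option autoImplicit false

/-! Task T4b: one backward step. -/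

namespace Pool.Agent.RWO

variable {d : ℕ}

theorem T4b_Op_univ (x : V d) (l : List (Stp d)) : Op Set.univ x l := by
  induction l generalizing x with
  | nil => exact Set.mem_univ _
  | cons e l ih => exact ⟨Set.mem_univ _, ih _⟩

open scoped Classical in
/-- The pairs of triples: an insertion before, a removal after. -/
noncomputable def T4b_E (O : Set (V d)) (x : V d) (A : Set (V d)) (t s : ℕ) : Finset (Tr d × Tr d) :=
  ((ed O x t) ×ˢ (ed Set.univ x s)).filter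
    (fun q => q.2 ∈ ed O (en x (aI q.1)) s ∧ en x (aI q.1) ∈ A)

theorem T4b_mem {O : Set (V d)} {x : V d} {A : Set (V d)} {t s : ℕ} {q : Tr d × Tr d} :
    q ∈ T4b_E O x A t s ↔
      q.1 ∈ ed O x t ∧ q.2 ∈ ed O (en x (aI q.1)) s ∧ en x (aI q.1) ∈ A := by
  classical
  unfold T4b_E
  rw [Finset.mem_filter, Finset.mem_product]
  constructor
  · rintro ⟨⟨h1, _⟩, h2, h3⟩
    exact ⟨h1, h2, h3⟩
  · rintro ⟨h1, h2, h3⟩
    exact ⟨⟨h1, mem_ed.2 ⟨(mem_ed.1 h2).1, T4b_Op_univ _ _⟩⟩, h2, h3⟩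

theorem T4b_length_aI (u : Tr d) : (aI u).length = u.1.length + u.2.2.length := by
  unfold aI
  rw [List.length_append]

theorem T4b_length_bI (u : Tr d) : (bI u).length = u.1.length + u.2.2.length + 2 := by
  unfold bI
  rw [List.length_append, List.length_cons, List.length_cons]
  omega

/-- The out-degree. -/
theorem T4b_fib_a (O : Set (V d)) (x : V d) (A : Set (V d)) (t s : ℕ)
    (P : List (Stp d) × List (Stp d)) (hP : P ∈ PR O x A t (s + 2)) :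
    ((T4b_E O x A t s).filter (fun q => (aI q.1, bI q.2) = P)).card = II O x P.1 * bt P.2 := by
  obtain ⟨h1, h2, h3, h4, h5⟩ := mem_PR.1 hP
  rw [← ins_a O x t P.1 h1 h3, ← ins_b O (en x P.1) s P.2 h2 h5, ← Finset.card_product]
  congr 1
  ext q
  rw [Finset.mem_filter, Finset.mem_product, Finset.mem_filter, Finset.mem_filter, T4b_mem]
  constructor
  · rintro ⟨⟨k1, k2, k3⟩, rfl⟩
    exact ⟨⟨k1, rfl⟩, ⟨k2, rfl⟩⟩
  · rintro ⟨⟨k1, k2⟩, ⟨k3, k4⟩⟩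
    refine ⟨⟨k1, ?_, ?_⟩, Prod.ext k2 k4⟩
    · rw [k2]; exact k3
    · rw [k2]; exact h4

/-- The in-degree. -/
theorem T4b_fib_b (O : Set (V d)) (x : V d) (A : Set (V d)) (t s : ℕ)
    (P : List (Stp d) × List (Stp d)) (hP : P ∈ PR O x A (t + 2) s) :
    ((T4b_E O x A t s).filter (fun q => (bI q.1, aI q.2) = P)).card =
      bt P.1 * II O (en x P.1) P.2 := by
  obtain ⟨h1, h2, h3, h4, h5⟩ := mem_PR.1 hP
  rw [← ins_b O x t P.1 h1 h3, ← ins_a O (en x P.1) s P.2 h2 h5, ← Finset.card_product]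
  congr 1
  ext q
  rw [Finset.mem_filter, Finset.mem_product, Finset.mem_filter, Finset.mem_filter, T4b_mem]
  constructor
  · rintro ⟨⟨k1, k2, k3⟩, rfl⟩
    refine ⟨⟨k1, rfl⟩, ⟨?_, rfl⟩⟩
    rw [en_ins] at k2
    exact k2
  · rintro ⟨⟨k1, k2⟩, ⟨k3, k4⟩⟩
    refine ⟨⟨k1, ?_, ?_⟩, Prod.ext k2 k4⟩
    · rw [en_ins, k2]; exact k3
    · rw [en_ins, k2]; exact h4

/-- The real inequalities. `I₁, b₁`: insertions and backtracks of `aI u`, `I₂, b₂`: of `bI w`; with primes: of `bI u`, `aI w`. -/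
theorem T4b_real {B₁ B₂ ρ b₁ b₂ I₁ I₂ b₁' b₂' I₁' I₂' : ℝ} (hB₁ : 3 ≤ B₁) (hB₂ : 6 ≤ B₂) (hρ : 0 < ρ)
    (h1 : B₁ ≤ b₁) (h2 : B₂ ≤ b₂) (hI₁ : 0 ≤ I₁) (hI₂' : 0 ≤ I₂')
    (h3 : ρ * (b₁ * I₂) ≤ I₁ * b₂) (k1 : b₁ ≤ b₁') (k2 : b₁' ≤ b₁ + 3) (k3 : b₂ ≤ b₂' + 3)
    (k4 : I₁ ≤ I₁') (k5 : I₂' ≤ I₂) :
    ρ * (1 - 3 / B₁ - 3 / B₂) * (b₁' * I₂') ≤ I₁' * b₂' ∧
      b₁' * I₂' ≤ (1 + 3 / B₁) / ρ * (I₁ * b₂) := by
  have hB1 : 0 < B₁ := by linarith
  have hB2 : 0 < B₂ := by linarith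
  have hb1 : 0 < b₁ := by linarith
  have hb2 : 0 < b₂ := by linarith
  have hI₂ : 0 ≤ I₂ := hI₂'.trans k5
  have x1 : 3 ≤ 3 / B₁ * b₁ := by
    rw [div_mul_eq_mul_div, le_div_iff₀ hB1]; nlinarith
  have x2 : 3 ≤ 3 / B₂ * b₂ := by
    rw [div_mul_eq_mul_div, le_div_iff₀ hB2]; nlinarith
  have y1 : 0 < 3 / B₁ := by positivity
  have y2 : 0 < 3 / B₂ := by positivity
  have z2 : 3 / B₂ ≤ 1 / 2 := by
    rw [div_le_iff₀ hB2]; linarith
  set X := 3 / B₁ with hX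
  set Y := 3 / B₂ with hY
  -- the backward degree
  have m1 : b₁' * I₂' ≤ (1 + X) * (b₁ * I₂) := by
    have a1 : b₁' ≤ (1 + X) * b₁ := by linarith
    have a2 : b₁' * I₂' ≤ (1 + X) * b₁ * I₂' := mul_le_mul_of_nonneg_right a1 hI₂'
    have a3 : (1 + X) * b₁ * I₂' ≤ (1 + X) * b₁ * I₂ :=
      mul_le_mul_of_nonneg_left k5 (by positivity)
    linarith
  -- the forward degree
  have m2 : (1 - Y) * (I₁ * b₂) ≤ I₁' * b₂' := by
    have a1 : (1 - Y) * b₂ ≤ b₂' := by linarith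
    have a0 : 0 ≤ (1 - Y) * b₂ := mul_nonneg (by linarith) hb2.le
    have a2 : I₁ * ((1 - Y) * b₂) ≤ I₁' * b₂' := mul_le_mul k4 a1 a0 (hI₁.trans k4)
    linarith
  have hIb : 0 ≤ I₁ * b₂ := by positivity
  have hbI : 0 ≤ b₁ * I₂ := by positivity
  constructor
  · by_cases hc : 0 ≤ 1 - X - Y
    · have a1 : ρ * (1 - X - Y) * (b₁' * I₂') ≤ ρ * (1 - X - Y) * ((1 + X) * (b₁ * I₂)) :=
        mul_le_mul_of_nonneg_left m1 (by positivity)
      have a2 : (1 - X - Y) * (1 + X) ≤ 1 - Y := by nlinarith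
      have a3 : ρ * (b₁ * I₂) * ((1 - X - Y) * (1 + X)) ≤ ρ * (b₁ * I₂) * (1 - Y) :=
        mul_le_mul_of_nonneg_left a2 (by positivity)
      have a4 : (1 - Y) * (ρ * (b₁ * I₂)) ≤ (1 - Y) * (I₁ * b₂) :=
        mul_le_mul_of_nonneg_left h3 (by linarith)
      linarith
    · push Not at hc
      have hb' : 0 ≤ b₂' := by linarith
      have hI' : 0 ≤ I₁' := hI₁.trans k4
      have hs : 0 ≤ b₁' := hb1.le.trans k1
      have : ρ * (1 - X - Y) * (b₁' * I₂') ≤ 0 :=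
        mul_nonpos_of_nonpos_of_nonneg (mul_nonpos_of_nonneg_of_nonpos hρ.le hc.le) (by positivity)
      have : 0 ≤ I₁' * b₂' := by positivity
      linarith
  · have a1 : b₁ * I₂ ≤ (I₁ * b₂) / ρ := by
      rw [le_div_iff₀ hρ]; linarith
    calc b₁' * I₂' ≤ (1 + X) * (b₁ * I₂) := m1
      _ ≤ (1 + X) * ((I₁ * b₂) / ρ) := mul_le_mul_of_nonneg_left a1 (by positivity)
      _ = (1 + X) / ρ * (I₁ * b₂) := by ring

theorem T4b_target {O : Set (V d)} {x : V d} {A : Set (V d)} {t s : ℕ} {q : Tr d × Tr d}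
    (hq : q ∈ T4b_E O x A t s) : (aI q.1, bI q.2) ∈ PR O x A t (s + 2) := by
  obtain ⟨q1, q2, q3⟩ := T4b_mem.1 hq
  have m1 := mem_ed.1 q1
  have m2 := mem_ed.1 q2
  rw [mem_PR]
  refine ⟨?_, ?_, Op_ins O _ _ m1.2, q3, m2.2⟩
  · change (aI q.1).length = t
    rw [T4b_length_aI]; omega
  · change (bI q.2).length = s + 2
    rw [T4b_length_bI]; omega

theorem T4b_edge (O : Set (V d)) (x : V d) (A : Set (V d)) (t s : ℕ) {B₁ B₂ ρ : ℝ} {q : Tr d × Tr d}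
    (hX : (bI q.1, aI q.2) ∈ GT O x A (t + 2) s B₁ B₂ ρ)
    (hB₁ : 6 ≤ B₁) (hB₂ : 3 ≤ B₂) (hρ : 0 < ρ) :
    ρ * (1 - 3 / B₁ - 3 / B₂) * Dp O x (aI q.1, bI q.2) ≤ Dm O x (aI q.1, bI q.2) ∧
      (II O x (aI q.1) : ℝ) * (bt (bI q.2) : ℝ) ≤
        (1 + 3 / B₂) / ρ * ((bt (bI q.1) : ℝ) * (II O (en x (bI q.1)) (aI q.2) : ℝ)) := by
  unfold GT at hX
  rw [Finset.mem_filter] at hX
  obtain ⟨hP, h1, h2, h3⟩ := hX
  unfold Dm Dp at h3
  unfold Dm Dp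
  simp only at h1 h2 h3 ⊢
  have k2 : (bt (bI q.2) : ℝ) ≤ bt (aI q.2) + 3 := by exact_mod_cast (bt_ins q.2).2
  have k1 : (bt (aI q.2) : ℝ) ≤ bt (bI q.2) := by exact_mod_cast (bt_ins q.2).1
  have k3 : (bt (bI q.1) : ℝ) ≤ bt (aI q.1) + 3 := by exact_mod_cast (bt_ins q.1).2
  have k4 : (II O (en x (bI q.1)) (aI q.2) : ℝ) ≤ II O (en x (bI q.1)) (bI q.2) := by
    exact_mod_cast (II_ins O _ q.2).1
  have k5 : (II O x (aI q.1) : ℝ) ≤ II O x (bI q.1) := by exact_mod_cast (II_ins O x q.1).1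
  obtain ⟨r1, r2⟩ := T4b_real hB₂ hB₁ hρ h2 h1 (Nat.cast_nonneg _) (Nat.cast_nonneg _)
    (by linarith) k1 k2 k3 k4 k5
  rw [en_ins]
  constructor
  · linarith
  · linarith

/-- T4b. PROOF. As T4a with the roles exchanged: edges `(u, w)`, `u ∈ ed O x (t - 2)`, `w ∈ ed O (en x (bI u)) s`; `a = (bI u, aI w)`, `b = (aI u, bI w)`. Out-degree of `P`: `bt P.1 * II _ P.2 = Dm P > 0`,
in-degree of `P'`: `II P'.1 * bt P'.2 = Dp P'`. For an edge `Dm P' ≥ (bt P.1 - 3) II _ P.2 ≥ (1 - 3/B₁) Dm P`, `Dp P' ≤ II P.1 (bt P.2 + 3) ≤ (1 + 3/B₂) Dp P ≤ (1 + 3/B₂)/ρ Dm P`. -/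
theorem step_bwd (O : Set (V d)) (x : V d) (A : Set (V d)) (t s : ℕ) (ht : 2 ≤ t) (hs : 1 ≤ s) (B₁ B₂ ρ : ℝ) (hB₁ : 6 ≤ B₁) (hB₂ : 3 ≤ B₂) (hρ : 0 < ρ) :
    ((GT O x A t s B₁ B₂ ρ).card : ℝ) ≤
      (1 + 3 / B₂) / ρ * ((GT O x A (t - 2) (s + 2) (B₁ - 3) B₂ (ρ * (1 - 3 / B₁ - 3 / B₂))).card : ℝ) := by
  obtain ⟨t, rfl⟩ : ∃ r, t = r + 2 := ⟨t - 2, by omega⟩
  rw [Nat.add_sub_cancel]
  refine transport (GT O x A (t + 2) s B₁ B₂ ρ) _ (T4b_E O x A t s) (fun q => (bI q.1, aI q.2))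
    (fun q => (aI q.1, bI q.2)) ((1 + 3 / B₂) / ρ) (by positivity) ?_ ?_ ?_
  · intro P hP
    unfold GT at hP
    rw [Finset.mem_filter] at hP
    obtain ⟨hP, h1, h2, h3⟩ := hP
    have hc := T4b_fib_b O x A t s P hP
    obtain ⟨g1, g2, g3, g4, g5⟩ := mem_PR.1 hP
    have hI : P.2.length + 1 ≤ II O (en x P.1) P.2 := II_ge O (en x P.1) P.2 (by
      intro h0
      rw [h0] at g2
      simp at g2
      omega) g5
    have hb : 0 < bt P.1 := by
      have : (0 : ℝ) < bt P.1 := by linarith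
      exact_mod_cast this
    have hpos : 0 < ((T4b_E O x A t s).filter (fun q => (bI q.1, aI q.2) = P)).card := by
      rw [hc]
      exact Nat.mul_pos hb (by omega)
    obtain ⟨q, hq⟩ := Finset.card_pos.1 hpos
    rw [Finset.mem_filter] at hq
    exact ⟨q, hq.1, hq.2⟩
  · intro q hq hqX
    obtain ⟨r1, r2⟩ := T4b_edge O x A t s hqX hB₁ hB₂ hρ
    unfold GT
    rw [Finset.mem_filter]
    unfold GT at hqX
    rw [Finset.mem_filter] at hqX
    obtain ⟨hP, h1, h2, h3⟩ := hqX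
    refine ⟨T4b_target hq, ?_, ?_, r1⟩
    · have := (bt_ins q.1).2
      have : (bt (bI q.1) : ℝ) ≤ bt (aI q.1) + 3 := by exact_mod_cast this
      change B₁ - 3 ≤ (bt (aI q.1) : ℝ)
      simp only at h1
      linarith
    · have := (bt_ins q.2).1
      have : (bt (aI q.2) : ℝ) ≤ bt (bI q.2) := by exact_mod_cast this
      exact h2.trans this
  · intro q hq hqX
    obtain ⟨r1, r2⟩ := T4b_edge O x A t s hqX hB₁ hB₂ hρ
    have hP : (bI q.1, aI q.2) ∈ PR O x A (t + 2) s := by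
      unfold GT at hqX
      exact (Finset.mem_filter.1 hqX).1
    rw [T4b_fib_b O x A t s _ hP, T4b_fib_a O x A t s _ (T4b_target hq)]
    push_cast
    exact r2

end Pool.Agent.RWO
end

section

set_option autoImplicit false

/-! Task T4c: the law of the position at time `t` is comparable with the law at time `t + 2k` for all `k ≤ K`, or at time `t - 2k` for all `k ≤ K`. -/

namespace Pool.Agent.RWO

variable {d : ℕ}

theorem T4c_Dm_nonneg (O : Set (V d)) (x : V d) (P : List (Stp d) × List (Stp d)) : 0 ≤ Dm O x P := by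
  unfold Dm
  positivity

theorem T4c_Dp_nonneg (O : Set (V d)) (x : V d) (P : List (Stp d) × List (Stp d)) : 0 ≤ Dp O x P := by
  unfold Dp
  positivity

theorem T4c_GS_anti (O : Set (V d)) (x : V d) (A : Set (V d)) (t s : ℕ) (B₁ B₂ : ℝ) {ρ ρ' : ℝ} (h : ρ' ≤ ρ) :
    GS O x A t s B₁ B₂ ρ ⊆ GS O x A t s B₁ B₂ ρ' := by
  classical
  intro P hP
  unfold GS at *
  rw [Finset.mem_filter] at *
  exact ⟨hP.1, hP.2.1, hP.2.2.1, (mul_le_mul_of_nonneg_right h (T4c_Dm_nonneg O x P)).trans hP.2.2.2⟩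

theorem T4c_GT_anti (O : Set (V d)) (x : V d) (A : Set (V d)) (t s : ℕ) (B₁ B₂ : ℝ) {ρ ρ' : ℝ} (h : ρ' ≤ ρ) :
    GT O x A t s B₁ B₂ ρ ⊆ GT O x A t s B₁ B₂ ρ' := by
  classical
  intro P hP
  unfold GT at *
  rw [Finset.mem_filter] at *
  exact ⟨hP.1, hP.2.1, hP.2.2.1, (mul_le_mul_of_nonneg_right h (T4c_Dp_nonneg O x P)).trans hP.2.2.2⟩

theorem T4c_factor {a κ : ℝ} (h0 : 0 ≤ κ) (h1 : κ ≤ 1 / 2) (k : ℕ) :
    (1 + a) / (1 - κ) ^ k ≤ Real.exp (a + 2 * κ * k) := by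
  have h2 : 0 < 1 - κ := by linarith
  rw [div_le_iff₀ (pow_pos h2 k), Real.exp_add, mul_assoc]
  have h3 : 1 + a ≤ Real.exp a := by
    have := Real.add_one_le_exp a
    linarith
  have h4 : 1 ≤ Real.exp (2 * κ * k) * (1 - κ) ^ k := by
    have h5 : Real.exp (2 * κ * k) = Real.exp (2 * κ) ^ k := by
      rw [← Real.exp_nat_mul]
      congr 1
      ring
    rw [h5, ← mul_pow]
    apply one_le_pow₀
    have h6 := Real.add_one_le_exp (2 * κ)
    have h7 : (2 * κ + 1) * (1 - κ) ≤ Real.exp (2 * κ) * (1 - κ) := mul_le_mul_of_nonneg_right h6 h2.le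
    have h8 : (2 * κ + 1) * (1 - κ) = 1 + κ * (1 - 2 * κ) := by ring
    have h9 : 0 ≤ κ * (1 - 2 * κ) := mul_nonneg h0 (by linarith)
    linarith
  calc 1 + a ≤ Real.exp a * 1 := by rw [mul_one]; exact h3
    _ ≤ Real.exp a * (Real.exp (2 * κ * k) * (1 - κ) ^ k) := by
        exact mul_le_mul_of_nonneg_left h4 (Real.exp_pos a).le

theorem T4c_rho {b κ e : ℝ} {k : ℕ} (hk : 6 * (k : ℝ) ≤ b) (hb : 0 < b) (h1 : 6 / b + e ≤ κ) (h2 : κ ≤ 1 / 2) :
    (1 - κ) ^ (k + 1) ≤ (1 - κ) ^ k * (1 - e - 3 / (b - 3 * k)) := by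
  have h3 : 0 < b - 3 * k := by
    have : (0 : ℝ) ≤ k := Nat.cast_nonneg k
    nlinarith
  rw [pow_succ]
  refine mul_le_mul_of_nonneg_left ?_ (pow_nonneg (by linarith) k)
  have h4 : 3 / (b - 3 * k) ≤ 6 / b := by
    rw [div_le_div_iff₀ h3 hb]
    nlinarith
  linarith

theorem T4c_fwd (O : Set (V d)) (x : V d) (A : Set (V d)) (t s K : ℕ) (B₁ B₂ κ : ℝ) (ht : 1 ≤ t) (hs : 2 * K + 2 ≤ s)
    (hB₁ : 3 ≤ B₁) (hB₂ : 12 ≤ B₂) (hK : 6 * (K : ℝ) ≤ B₂) (hκ : κ = 3 / B₁ + 6 / B₂) (hκ2 : κ ≤ 1 / 2) (k : ℕ) (hk : k ≤ K) :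
    ((GS O x A t s B₁ B₂ 1).card : ℝ) ≤ Real.exp (3 / B₁ * k + 2 * κ * (k : ℝ) ^ 2) *
      ((GS O x A (t + 2 * k) (s - 2 * k) B₁ (B₂ - 3 * k) ((1 - κ) ^ k)).card : ℝ) := by
  have hκ0 : 0 ≤ κ := by rw [hκ]; positivity
  induction k with
  | zero => simp
  | succ k ih =>
    have ih' := ih (by omega)
    have hkK : (k : ℝ) + 1 ≤ K := by exact_mod_cast hk
    have hst := step_fwd O x A (t + 2 * k) (s - 2 * k) (by omega) (by omega) B₁ (B₂ - 3 * k) ((1 - κ) ^ k) hB₁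
      (by linarith) (pow_pos (by linarith) k)
    have e1 : t + 2 * k + 2 = t + 2 * (k + 1) := by ring
    have e2 : s - 2 * k - 2 = s - 2 * (k + 1) := by omega
    have e3 : B₂ - 3 * (k : ℝ) - 3 = B₂ - 3 * ((k + 1 : ℕ) : ℝ) := by push_cast; ring
    rw [e1, e2, e3] at hst
    have h1 : ((GS O x A (t + 2 * (k + 1)) (s - 2 * (k + 1)) B₁ (B₂ - 3 * ((k + 1 : ℕ) : ℝ))
        ((1 - κ) ^ k * (1 - 3 / B₁ - 3 / (B₂ - 3 * k)))).card : ℝ) ≤
        ((GS O x A (t + 2 * (k + 1)) (s - 2 * (k + 1)) B₁ (B₂ - 3 * ((k + 1 : ℕ) : ℝ)) ((1 - κ) ^ (k + 1))).card : ℝ) := by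
      exact_mod_cast Finset.card_le_card (T4c_GS_anti O x A _ _ B₁ _
        (T4c_rho (k := k) (b := B₂) (e := 3 / B₁) (by linarith) (by linarith) (by rw [hκ]; linarith) hκ2))
    refine ih'.trans ?_
    have h2 := T4c_factor (a := 3 / B₁) hκ0 hκ2 k
    have h3 := mul_le_mul h2 h1 (Nat.cast_nonneg _) (Real.exp_pos _).le
    have h4 := mul_le_mul_of_nonneg_left (hst.trans h3) (Real.exp_pos (3 / B₁ * k + 2 * κ * (k : ℝ) ^ 2)).le
    refine h4.trans ?_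
    rw [← mul_assoc, ← Real.exp_add]
    refine mul_le_mul_of_nonneg_right ?_ (Nat.cast_nonneg _)
    rw [Real.exp_le_exp]
    push_cast
    have h5 : 0 ≤ κ * k := mul_nonneg hκ0 (Nat.cast_nonneg k)
    have h6 : ∀ w : ℝ, w * ((k : ℝ) + 1) + 2 * κ * ((k : ℝ) + 1) ^ 2 - (w * k + 2 * κ * (k : ℝ) ^ 2 + (w + 2 * κ * k)) =
        2 * (κ * k) + 2 * κ := by
      intro w
      ring
    have h7 := h6 (3 / B₁)
    linarith

theorem T4c_bwd (O : Set (V d)) (x : V d) (A : Set (V d)) (t s K : ℕ) (B₁ B₂ κ : ℝ) (hs : 1 ≤ s) (ht : 2 * K + 2 ≤ t)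
    (hB₂ : 3 ≤ B₂) (hB₁ : 12 ≤ B₁) (hK : 6 * (K : ℝ) ≤ B₁) (hκ : κ = 6 / B₁ + 3 / B₂) (hκ2 : κ ≤ 1 / 2) (k : ℕ) (hk : k ≤ K) :
    ((GT O x A t s B₁ B₂ 1).card : ℝ) ≤ Real.exp (3 / B₂ * k + 2 * κ * (k : ℝ) ^ 2) *
      ((GT O x A (t - 2 * k) (s + 2 * k) (B₁ - 3 * k) B₂ ((1 - κ) ^ k)).card : ℝ) := by
  have hκ0 : 0 ≤ κ := by rw [hκ]; positivity
  induction k with
  | zero => simp
  | succ k ih =>
    have ih' := ih (by omega)
    have hkK : (k : ℝ) + 1 ≤ K := by exact_mod_cast hk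
    have hst := step_bwd O x A (t - 2 * k) (s + 2 * k) (by omega) (by omega) (B₁ - 3 * k) B₂ ((1 - κ) ^ k)
      (by linarith) hB₂ (pow_pos (by linarith) k)
    have e1 : s + 2 * k + 2 = s + 2 * (k + 1) := by ring
    have e2 : t - 2 * k - 2 = t - 2 * (k + 1) := by omega
    have e3 : B₁ - 3 * (k : ℝ) - 3 = B₁ - 3 * ((k + 1 : ℕ) : ℝ) := by push_cast; ring
    have e4 : (1 : ℝ) - 3 / (B₁ - 3 * k) - 3 / B₂ = 1 - 3 / B₂ - 3 / (B₁ - 3 * k) := by ring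
    rw [e1, e2, e3, e4] at hst
    have h1 : ((GT O x A (t - 2 * (k + 1)) (s + 2 * (k + 1)) (B₁ - 3 * ((k + 1 : ℕ) : ℝ)) B₂
        ((1 - κ) ^ k * (1 - 3 / B₂ - 3 / (B₁ - 3 * k)))).card : ℝ) ≤
        ((GT O x A (t - 2 * (k + 1)) (s + 2 * (k + 1)) (B₁ - 3 * ((k + 1 : ℕ) : ℝ)) B₂ ((1 - κ) ^ (k + 1))).card : ℝ) := by
      exact_mod_cast Finset.card_le_card (T4c_GT_anti O x A _ _ _ B₂
        (T4c_rho (k := k) (b := B₁) (e := 3 / B₂) (by linarith) (by linarith) (by rw [hκ]) hκ2))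
    refine ih'.trans ?_
    have h2 := T4c_factor (a := 3 / B₂) hκ0 hκ2 k
    have h3 := mul_le_mul h2 h1 (Nat.cast_nonneg _) (Real.exp_pos _).le
    have h4 := mul_le_mul_of_nonneg_left (hst.trans h3) (Real.exp_pos (3 / B₂ * k + 2 * κ * (k : ℝ) ^ 2)).le
    refine h4.trans ?_
    rw [← mul_assoc, ← Real.exp_add]
    refine mul_le_mul_of_nonneg_right ?_ (Nat.cast_nonneg _)
    rw [Real.exp_le_exp]
    push_cast
    have h5 : 0 ≤ κ * k := mul_nonneg hκ0 (Nat.cast_nonneg k)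
    have h6 : ∀ w : ℝ, w * ((k : ℝ) + 1) + 2 * κ * ((k : ℝ) + 1) ^ 2 - (w * k + 2 * κ * (k : ℝ) ^ 2 + (w + 2 * κ * k)) =
        2 * (κ * k) + 2 * κ := by
      intro w
      ring
    have h7 := h6 (3 / B₂)
    linarith

theorem T4c_num {d t K : ℕ} (hd : 1 ≤ d) (hT : 40000 * d ^ 4 ≤ t) (hK : K ^ 2 ≤ t) :
    12 ≤ (t : ℝ) / (16 * (d : ℝ) ^ 2) ∧ 6 * (K : ℝ) ≤ (t : ℝ) / (16 * (d : ℝ) ^ 2) ∧ 2 * K + 2 ≤ t ∧
      (K : ℝ) ^ 2 * (1 / ((t : ℝ) / (16 * (d : ℝ) ^ 2))) ≤ 16 * (d : ℝ) ^ 2 ∧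
      1 / ((t : ℝ) / (16 * (d : ℝ) ^ 2)) ≤ 1 / 100 := by
  have hd1 : (1 : ℝ) ≤ d := by exact_mod_cast hd
  have hT' : 40000 * ((d : ℝ) ^ 2) ^ 2 ≤ t := by
    have h0 : ((40000 * d ^ 4 : ℕ) : ℝ) ≤ t := by exact_mod_cast hT
    have h1 : ((40000 * d ^ 4 : ℕ) : ℝ) = 40000 * ((d : ℝ) ^ 2) ^ 2 := by push_cast; ring
    linarith
  have hK' : (K : ℝ) ^ 2 ≤ t := by exact_mod_cast hK
  have hD1 : (1 : ℝ) ≤ (d : ℝ) ^ 2 := one_le_pow₀ hd1
  generalize (d : ℝ) ^ 2 = D at hT' hD1 ⊢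
  have hD0 : 0 < D := by linarith
  have hK0 : (0 : ℝ) ≤ K := Nat.cast_nonneg K
  have hDD : D ≤ D ^ 2 := le_self_pow₀ hD1 (by norm_num)
  have hDt : 40000 * D ≤ t := by linarith
  have ht0 : (0 : ℝ) < t := by linarith
  have h200 : 200 * D * K ≤ t := by
    have h1 : (200 * D * K) ^ 2 ≤ (t : ℝ) ^ 2 := by
      have h2 : (200 * D * K) ^ 2 = (40000 * D ^ 2) * (K : ℝ) ^ 2 := by ring
      rw [h2, sq (t : ℝ)]
      exact mul_le_mul hT' hK' (by positivity) ht0.le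
    exact le_of_sq_le_sq h1 ht0.le
  have hDK : (K : ℝ) ≤ D * K := le_mul_of_one_le_left hK0 hD1
  have hq : 1 / ((t : ℝ) / (16 * D)) = 16 * D / t := by rw [one_div_div]
  refine ⟨?_, ?_, ?_, ?_, ?_⟩
  · rw [le_div_iff₀ (by positivity)]
    linarith
  · rw [le_div_iff₀ (by positivity)]
    have h1 : 6 * (K : ℝ) * (16 * D) = 96 * (D * K) := by ring
    have h2 : 200 * D * K = 200 * (D * K) := by ring
    rw [h1]
    linarith
  · have h2 : 200 * D * K = 200 * (D * K) := by ring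
    have h3 : 2 * (K : ℝ) + 2 ≤ t := by
      have h4 : 100 * (K : ℝ) ≤ t / 2 := by linarith
      linarith
    exact_mod_cast h3
  · rw [hq, mul_div_assoc', div_le_iff₀ ht0]
    have h1 := mul_le_mul_of_nonneg_left hK' (show 0 ≤ 16 * D by positivity)
    linarith
  · rw [hq, div_le_div_iff₀ ht0 (by norm_num)]
    linarith

theorem T4c_exp {D u v : ℝ} {K k : ℕ} (hk : k ≤ K) (hu : 0 ≤ u) (hv : 0 ≤ v) (h1 : (K : ℝ) ^ 2 * u ≤ 16 * D)
    (h2 : (K : ℝ) ^ 2 * v ≤ 16 * D) :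
    3 * u * k + 2 * (3 * u + 6 * v) * (k : ℝ) ^ 2 ≤ 400 * D := by
  have hkK : (k : ℝ) ≤ K := by exact_mod_cast hk
  have hk0 : (0 : ℝ) ≤ k := Nat.cast_nonneg k
  have h3 : (k : ℝ) ^ 2 ≤ (K : ℝ) ^ 2 := pow_le_pow_left₀ hk0 hkK 2
  have h4 : (k : ℝ) ≤ (k : ℝ) ^ 2 := by
    rcases Nat.eq_zero_or_pos k with h | h
    · simp [h]
    · exact le_self_pow₀ (by exact_mod_cast h) (by norm_num)
  have h5 : (k : ℝ) ^ 2 * u ≤ 16 * D := (mul_le_mul_of_nonneg_right h3 hu).trans h1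
  have h6 : (k : ℝ) ^ 2 * v ≤ 16 * D := (mul_le_mul_of_nonneg_right h3 hv).trans h2
  have h7 : (k : ℝ) * u ≤ 16 * D := (mul_le_mul_of_nonneg_right h4 hu).trans h5
  have h8 : 0 ≤ (k : ℝ) * u := mul_nonneg hk0 hu
  have h9 : 3 * u * k + 2 * (3 * u + 6 * v) * (k : ℝ) ^ 2 =
      3 * ((k : ℝ) * u) + 6 * ((k : ℝ) ^ 2 * u) + 12 * ((k : ℝ) ^ 2 * v) := by ring
  rw [h9]
  linarith

open scoped Classical in
/-- T4c. PROOF. `B₁ = t/(16 d²)`, `B₂ = s/(16 d²)`. The filtered set `G` is contained in `GS O x A t s B₁ B₂ 1 ∪ GT O x A t s B₁ B₂ 1` (`Dp ≥ Dm` or `Dm ≥ Dp`), so one of the two has `≥ #G/2`. Case `GS`: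
`step_fwd` `k ≤ K` times: with `κ = 3/B₁ + 6/B₂` (`B₂ - 3K ≥ B₂/2` as `K² ≤ s` and `s ≥ T₁ = (200 d²)²`-like), `#GS(.., t, s, B₁, B₂, 1) ≤ ∏_{j<k} (1 + 3/B₁)/(1-κ)^j #GS(.., t+2k, s-2k, B₁, B₂-3k, (1-κ)^k)`
(`GS` is antitone in `B₁, B₂, ρ`, as `Dm ≥ 0`), the product is `≤ (1+3/B₁)^K (1-κ)^(-K²) ≤ exp(48 d²) exp(2 κ K²) ≤ exp(400 d²)` as `κ K² ≤ 144 d²`, `κ ≤ 1/2`, `1/(1-κ) ≤ exp(2κ)`. `C = 2 exp(400 d²)`. Case `GT`: `step_bwd`. -/
theorem smooth (hd : 1 ≤ d) : ∃ C : ℝ, 1 ≤ C ∧ ∃ T₁ : ℕ, ∀ (O : Set (V d)) (x : V d) (A : Set (V d)) (t s K : ℕ),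
    T₁ ≤ t → T₁ ≤ s → K ^ 2 ≤ t → K ^ 2 ≤ s →
    (∀ k ≤ K, (((PR O x A t s).filter (fun P => t < 16 * d ^ 2 * bt P.1 ∧ s < 16 * d ^ 2 * bt P.2)).card : ℝ) ≤
      C * ((PR O x A (t + 2 * k) (s - 2 * k)).card : ℝ)) ∨
    (∀ k ≤ K, (((PR O x A t s).filter (fun P => t < 16 * d ^ 2 * bt P.1 ∧ s < 16 * d ^ 2 * bt P.2)).card : ℝ) ≤
      C * ((PR O x A (t - 2 * k) (s + 2 * k)).card : ℝ)) := by
  refine ⟨2 * Real.exp (400 * (d : ℝ) ^ 2), ?_, 40000 * d ^ 4, ?_⟩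
  · have : 1 ≤ Real.exp (400 * (d : ℝ) ^ 2) := Real.one_le_exp (by positivity)
    linarith
  intro O x A t s K hTt hTs hKt hKs
  obtain ⟨hb1, hk1, hKn1, hr1, hsm1⟩ := T4c_num hd hTt hKt
  obtain ⟨hb2, hk2, hKn2, hr2, hsm2⟩ := T4c_num hd hTs hKs
  have hD0 : (0 : ℝ) < (d : ℝ) ^ 2 := by
    have hd1 : (0 : ℝ) < d := by exact_mod_cast hd
    positivity
  set D : ℝ := (d : ℝ) ^ 2 with hD
  set B₁ : ℝ := t / (16 * D) with hB₁
  set B₂ : ℝ := s / (16 * D) with hB₂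
  have hi1 : 0 ≤ 1 / B₁ := by positivity
  have hi2 : 0 ≤ 1 / B₂ := by positivity
  have hexp : ∀ (k : ℕ), k ≤ K → ∀ (u v : ℝ), 0 ≤ u → 0 ≤ v → (K : ℝ) ^ 2 * u ≤ 16 * D → (K : ℝ) ^ 2 * v ≤ 16 * D →
      3 * u * k + 2 * (3 * u + 6 * v) * (k : ℝ) ^ 2 ≤ 400 * D := fun k hk u v hu hv h1 h2 =>
    T4c_exp hk hu hv h1 h2
  set G := (PR O x A t s).filter (fun P => t < 16 * d ^ 2 * bt P.1 ∧ s < 16 * d ^ 2 * bt P.2) with hG
  have hsub : G ⊆ GS O x A t s B₁ B₂ 1 ∪ GT O x A t s B₁ B₂ 1 := by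
    intro P hP
    rw [hG, Finset.mem_filter] at hP
    obtain ⟨h1, h2, h3⟩ := hP
    have h2' : (t : ℝ) ≤ 16 * D * bt P.1 := by
      have : ((t : ℕ) : ℝ) < ((16 * d ^ 2 * bt P.1 : ℕ) : ℝ) := by exact_mod_cast h2
      push_cast at this
      exact this.le
    have h3' : (s : ℝ) ≤ 16 * D * bt P.2 := by
      have : ((s : ℕ) : ℝ) < ((16 * d ^ 2 * bt P.2 : ℕ) : ℝ) := by exact_mod_cast h3
      push_cast at this
      exact this.le
    have h4 : B₁ ≤ bt P.1 := by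
      rw [hB₁, div_le_iff₀ (by positivity)]
      linarith
    have h5 : B₂ ≤ bt P.2 := by
      rw [hB₂, div_le_iff₀ (by positivity)]
      linarith
    rw [Finset.mem_union]
    unfold GS GT
    rw [Finset.mem_filter, Finset.mem_filter, one_mul, one_mul]
    rcases le_total (Dm O x P) (Dp O x P) with h | h
    · exact Or.inl ⟨h1, h4, h5, h⟩
    · exact Or.inr ⟨h1, h4, h5, h⟩
  have hcard : (G.card : ℝ) ≤ (GS O x A t s B₁ B₂ 1).card + (GT O x A t s B₁ B₂ 1).card := by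
    have := (Finset.card_le_card hsub).trans (Finset.card_union_le _ _)
    exact_mod_cast this
  rcases le_total ((GT O x A t s B₁ B₂ 1).card : ℝ) (GS O x A t s B₁ B₂ 1).card with hcase | hcase
  · left
    intro k hk
    have h1 := T4c_fwd O x A t s K B₁ B₂ (3 / B₁ + 6 / B₂) (by omega) hKn2 (by linarith) hb2 hk2 rfl (by
      have e1 : 3 / B₁ = 3 * (1 / B₁) := by ring
      have e2 : 6 / B₂ = 6 * (1 / B₂) := by ring
      rw [e1, e2]
      linarith) k hk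
    have h2 : ((GS O x A (t + 2 * k) (s - 2 * k) B₁ (B₂ - 3 * k) ((1 - (3 / B₁ + 6 / B₂)) ^ k)).card : ℝ) ≤
        ((PR O x A (t + 2 * k) (s - 2 * k)).card : ℝ) := by
      unfold GS
      exact_mod_cast Finset.card_filter_le _ _
    have h3 : Real.exp (3 / B₁ * k + 2 * (3 / B₁ + 6 / B₂) * (k : ℝ) ^ 2) ≤ Real.exp (400 * D) := by
      rw [Real.exp_le_exp]
      have := hexp k hk (1 / B₁) (1 / B₂) hi1 hi2 hr1 hr2
      have e1 : 3 / B₁ = 3 * (1 / B₁) := by ring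
      have e2 : 6 / B₂ = 6 * (1 / B₂) := by ring
      rw [e1, e2]
      exact this
    have h4 := h1.trans (mul_le_mul h3 h2 (Nat.cast_nonneg _) (Real.exp_pos _).le)
    linarith
  · right
    intro k hk
    have h1 := T4c_bwd O x A t s K B₁ B₂ (6 / B₁ + 3 / B₂) (by omega) hKn1 (by linarith) hb1 hk1 rfl (by
      have e1 : 6 / B₁ = 6 * (1 / B₁) := by ring
      have e2 : 3 / B₂ = 3 * (1 / B₂) := by ring
      rw [e1, e2]
      linarith) k hk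
    have h2 : ((GT O x A (t - 2 * k) (s + 2 * k) (B₁ - 3 * k) B₂ ((1 - (6 / B₁ + 3 / B₂)) ^ k)).card : ℝ) ≤
        ((PR O x A (t - 2 * k) (s + 2 * k)).card : ℝ) := by
      unfold GT
      exact_mod_cast Finset.card_filter_le _ _
    have h3 : Real.exp (3 / B₂ * k + 2 * (6 / B₁ + 3 / B₂) * (k : ℝ) ^ 2) ≤ Real.exp (400 * D) := by
      rw [Real.exp_le_exp]
      have := hexp k hk (1 / B₂) (1 / B₁) hi2 hi1 hr2 hr1
      have e1 : 6 / B₁ = 6 * (1 / B₁) := by ring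
      have e2 : 3 / B₂ = 3 * (1 / B₂) := by ring
      rw [e1, e2]
      linarith
    have h4 := h1.trans (mul_le_mul h3 h2 (Nat.cast_nonneg _) (Real.exp_pos _).le)
    linarith

end Pool.Agent.RWO
end

section

set_option autoImplicit false

/-! Task T12a: many visits in a window. -/

namespace Pool.Agent.RWO

variable {d : ℕ}

open scoped Classical in
/-- Double counting over the even times of a window. -/
theorem T12a_count (O : Set (V d)) (x : V d) (A : Set (V d)) (n t' L : ℕ) (κ : ℝ)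
    (h : ∀ k ≤ L, 2 * κ * NP O x n ≤
      (((LL d n).filter (fun l => Op O x l ∧ en x (l.take (t' + 2 * k)) ∈ A)).card : ℝ)) :
    κ * NP O x n ≤
      (((LL d n).filter (fun l => Op O x l ∧ κ * L ≤ (vis A (en x (l.take t')) (l.drop t') L : ℝ))).card : ℝ) := by
  set F : Finset (List (Stp d)) := (LL d n).filter (fun l => Op O x l) with hF
  have hFc : F.card = NP O x n := rfl
  have hpt : ∀ (l : List (Stp d)) (k : ℕ),
      en (en x (l.take t')) ((l.drop t').take (2 * k)) = en x (l.take (t' + 2 * k)) := by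
    intro l k
    rw [← en_append, ← List.take_add]
  -- the sum over the times is the sum over the paths
  have h1 : ∑ k ∈ Finset.range (L + 1),
      ((LL d n).filter (fun l => Op O x l ∧ en x (l.take (t' + 2 * k)) ∈ A)).card =
      ∑ l ∈ F, vis A (en x (l.take t')) (l.drop t') L := by
    have h2 : ∀ k, ((LL d n).filter (fun l => Op O x l ∧ en x (l.take (t' + 2 * k)) ∈ A)).card =
        ∑ l ∈ F, if en x (l.take (t' + 2 * k)) ∈ A then 1 else 0 := by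
      intro k
      rw [← Finset.card_filter, hF, Finset.filter_filter]
    have h3 : ∀ l : List (Stp d), vis A (en x (l.take t')) (l.drop t') L =
        ∑ k ∈ Finset.range (L + 1), if en x (l.take (t' + 2 * k)) ∈ A then 1 else 0 := by
      intro l
      unfold vis
      rw [Finset.card_filter]
      refine Finset.sum_congr rfl fun k _ => ?_
      rw [hpt]
    rw [Finset.sum_congr rfl fun k _ => h2 k, Finset.sum_comm]
    exact Finset.sum_congr rfl fun l _ => (h3 l).symm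
  have h4 : ((L : ℝ) + 1) * (2 * κ * NP O x n) ≤ ∑ l ∈ F, (vis A (en x (l.take t')) (l.drop t') L : ℝ) := by
    have h5 : ∑ _k ∈ Finset.range (L + 1), (2 * κ * NP O x n) ≤ ∑ k ∈ Finset.range (L + 1),
        (((LL d n).filter (fun l => Op O x l ∧ en x (l.take (t' + 2 * k)) ∈ A)).card : ℝ) :=
      Finset.sum_le_sum fun k hk => h k (by rw [Finset.mem_range] at hk; omega)
    rw [Finset.sum_const, Finset.card_range, nsmul_eq_mul] at h5
    push_cast at h5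
    refine h5.trans (le_of_eq ?_)
    exact_mod_cast h1
  -- the paths with many visits
  set E : Finset (List (Stp d)) :=
    F.filter (fun l => κ * L ≤ (vis A (en x (l.take t')) (l.drop t') L : ℝ)) with hE
  have hEe : (LL d n).filter (fun l => Op O x l ∧ κ * L ≤ (vis A (en x (l.take t')) (l.drop t') L : ℝ)) = E := by
    rw [hE, hF, Finset.filter_filter]
  rw [hEe]
  by_cases hκ : κ < 0
  · exact (mul_nonpos_of_nonpos_of_nonneg hκ.le (Nat.cast_nonneg _)).trans (Nat.cast_nonneg _)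
  push Not at hκ
  have h6 : ∑ l ∈ F, (vis A (en x (l.take t')) (l.drop t') L : ℝ) ≤
      ((L : ℝ) + 1) * E.card + ((L : ℝ) + 1) * (κ * NP O x n) := by
    rw [← Finset.sum_filter_add_sum_filter_not F
      (fun l => κ * L ≤ (vis A (en x (l.take t')) (l.drop t') L : ℝ))]
    refine add_le_add ?_ ?_
    · have h7 : ∑ l ∈ E, (vis A (en x (l.take t')) (l.drop t') L : ℝ) ≤ ∑ _l ∈ E, ((L : ℝ) + 1) := by
        refine Finset.sum_le_sum fun l _ => ?_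
        have h8 : vis A (en x (l.take t')) (l.drop t') L ≤ L + 1 := by
          unfold vis
          refine (Finset.card_filter_le _ _).trans ?_
          rw [Finset.card_range]
        exact_mod_cast h8
      rw [Finset.sum_const, nsmul_eq_mul, mul_comm] at h7
      exact h7
    · have h7 : ∑ l ∈ F.filter (fun l => ¬ κ * L ≤ (vis A (en x (l.take t')) (l.drop t') L : ℝ)),
          (vis A (en x (l.take t')) (l.drop t') L : ℝ) ≤
          ∑ _l ∈ F.filter (fun l => ¬ κ * L ≤ (vis A (en x (l.take t')) (l.drop t') L : ℝ)), κ * L := by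
        refine Finset.sum_le_sum fun l hl => ?_
        exact (not_le.1 (Finset.mem_filter.1 hl).2).le
      rw [Finset.sum_const, nsmul_eq_mul] at h7
      refine h7.trans ?_
      have h8 : ((F.filter (fun l => ¬ κ * L ≤ (vis A (en x (l.take t')) (l.drop t') L : ℝ))).card : ℝ) ≤
          NP O x n := by
        rw [← hFc]
        exact_mod_cast Finset.card_filter_le _ _
      have h9 : (0 : ℝ) ≤ κ * L := by positivity
      calc _ ≤ (NP O x n : ℝ) * (κ * L) := mul_le_mul_of_nonneg_right h8 h9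
        _ ≤ ((L : ℝ) + 1) * (κ * NP O x n) := by
          have h10 : (0 : ℝ) ≤ κ * NP O x n := by positivity
          nlinarith
  have h11 : (0 : ℝ) < (L : ℝ) + 1 := by positivity
  have h12 : ((L : ℝ) + 1) * (κ * NP O x n) ≤ ((L : ℝ) + 1) * E.card := by
    have h13 : ((L : ℝ) + 1) * (2 * κ * NP O x n) =
        ((L : ℝ) + 1) * (κ * NP O x n) + ((L : ℝ) + 1) * (κ * NP O x n) := by ring
    linarith [h4.trans h6]
  exact le_of_mul_le_mul_left h12 h11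

open scoped Classical in
/-- Most pairs have many backtracks. -/
theorem T12a_many (hd : 1 ≤ d) (O : Set (V d)) (x : V d) (A : Set (V d)) (t s : ℕ) (ε : ℝ) (ht : 1 ≤ t) (hs : 1 ≤ s)
    (hε : 0 < ε) (h1 : 4 / ε ≤ 2 ^ (t / (48 * d ^ 2))) (h2 : 4 / ε ≤ 2 ^ (s / (48 * d ^ 2)))
    (h : ε * NP O x (t + s) ≤ ((PR O x A t s).card : ℝ)) :
    ε / 2 * NP O x (t + s) ≤
      (((PR O x A t s).filter (fun P => t < 16 * d ^ 2 * bt P.1 ∧ s < 16 * d ^ 2 * bt P.2)).card : ℝ) := by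
  have key : ∀ (c : ℕ) (m : ℕ), 4 / ε ≤ (2 : ℝ) ^ m → (c : ℝ) * 2 ^ m ≤ NP O x (t + s) →
      (c : ℝ) ≤ ε / 4 * NP O x (t + s) := by
    intro c m hm hc
    have h3 : (c : ℝ) * (4 / ε) ≤ NP O x (t + s) :=
      (mul_le_mul_of_nonneg_left hm (Nat.cast_nonneg c)).trans hc
    have h4 : (c : ℝ) = ε / 4 * ((c : ℝ) * (4 / ε)) := by
      field_simp
    rw [h4]
    exact mul_le_mul_of_nonneg_left h3 (by positivity)
  have h3 := key _ _ h1 (few_minus hd O x t s ht)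
  have h4 := key _ _ h2 (few_plus hd O x t s hs)
  have h5 : (PR O x A t s).card ≤
      ((PR O x A t s).filter (fun P => t < 16 * d ^ 2 * bt P.1 ∧ s < 16 * d ^ 2 * bt P.2)).card +
      (((PR O x Set.univ t s).filter (fun P => 16 * d ^ 2 * bt P.1 ≤ t)).card +
      ((PR O x Set.univ t s).filter (fun P => 16 * d ^ 2 * bt P.2 ≤ s)).card) := by
    refine (Finset.card_le_card (t := ((PR O x A t s).filter
      (fun P => t < 16 * d ^ 2 * bt P.1 ∧ s < 16 * d ^ 2 * bt P.2)) ∪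
      (((PR O x Set.univ t s).filter (fun P => 16 * d ^ 2 * bt P.1 ≤ t)) ∪
      ((PR O x Set.univ t s).filter (fun P => 16 * d ^ 2 * bt P.2 ≤ s)))) ?_).trans
      ((Finset.card_union_le _ _).trans (Nat.add_le_add_left (Finset.card_union_le _ _) _))
    intro P hP
    have hU : P ∈ PR O x Set.univ t s := by
      rw [mem_PR] at hP ⊢
      exact ⟨hP.1, hP.2.1, hP.2.2.1, trivial, hP.2.2.2.2⟩
    rw [Finset.mem_union, Finset.mem_union, Finset.mem_filter, Finset.mem_filter, Finset.mem_filter]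
    by_cases h6 : t < 16 * d ^ 2 * bt P.1
    · by_cases h7 : s < 16 * d ^ 2 * bt P.2
      · exact Or.inl ⟨hP, h6, h7⟩
      · exact Or.inr (Or.inr ⟨hU, not_lt.1 h7⟩)
    · exact Or.inr (Or.inl ⟨hU, not_lt.1 h6⟩)
  have h6 : ((PR O x A t s).card : ℝ) ≤
      (((PR O x A t s).filter (fun P => t < 16 * d ^ 2 * bt P.1 ∧ s < 16 * d ^ 2 * bt P.2)).card : ℝ) +
      ((((PR O x Set.univ t s).filter (fun P => 16 * d ^ 2 * bt P.1 ≤ t)).card : ℝ) +
      (((PR O x Set.univ t s).filter (fun P => 16 * d ^ 2 * bt P.2 ≤ s)).card : ℝ)) := by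
    exact_mod_cast h5
  linarith

open scoped Classical in
/-- T12a. PROOF. `few_minus`, `few_plus`: the pairs with few backtracks are at most `2 (ε/4) NP`, so the filtered set `G` of `smooth` has `≥ (ε/2) NP` elements. `smooth` (with `K = L`): for `t' = t` or `t' = t - 2L`,
`#PR O x A (t' + 2k) (n - t' - 2k) ≥ (ε/(2C)) NP` for all `k ≤ L` (`n = t + s`; in the second case index `L - k`). Sum over `k` (`card_PR`): `∑_{l open} vis A (en x (l.take t')) (l.drop t') L ≥ (L+1)(ε/(2C)) NP`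
(`en x (l.take (t' + 2k)) = en (en x (l.take t')) ((l.drop t').take (2k))`), and `vis ≤ L + 1`. With `κ' = ε/(4C)`: `(L+1)(2κ') NP ≤ (L+1) #E + κ' L NP`. -/
theorem window (hd : 1 ≤ d) : ∃ C : ℝ, 1 ≤ C ∧ ∃ T₁ : ℕ, ∀ (O : Set (V d)) (x : V d) (A : Set (V d)) (t s L : ℕ) (ε : ℝ),
    T₁ ≤ t → T₁ ≤ s → L ^ 2 ≤ t → L ^ 2 ≤ s → 0 < ε → 4 / ε ≤ 2 ^ (t / (48 * d ^ 2)) → 4 / ε ≤ 2 ^ (s / (48 * d ^ 2)) →
    ε * NP O x (t + s) ≤ ((PR O x A t s).card : ℝ) →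
    ∃ t' : ℕ, t' + 2 * L ≤ t + s ∧ ε / (4 * C) * NP O x (t + s) ≤
      (((LL d (t + s)).filter (fun l => Op O x l ∧ ε / (4 * C) * L ≤ (vis A (en x (l.take t')) (l.drop t') L : ℝ))).card : ℝ) := by
  obtain ⟨C, hC, T₁, hT⟩ := smooth (d := d) hd
  refine ⟨C, hC, max T₁ 2, fun O x A t s L ε ht hs hLt hLs hε h1 h2 h => ?_⟩
  have hC0 : 0 < C := by linarith
  have ht2 : 2 ≤ t := (le_max_right _ _).trans ht
  have hs2 : 2 ≤ s := (le_max_right _ _).trans hs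
  have h2L : ∀ m : ℕ, 2 ≤ m → L ^ 2 ≤ m → 2 * L ≤ m := by
    intro m hm hL
    by_cases hL2 : 2 ≤ L
    · nlinarith
    · omega
  have h2Lt := h2L t ht2 hLt
  have h2Ls := h2L s hs2 hLs
  have hG := T12a_many hd O x A t s ε (by omega) (by omega) hε h1 h2 h
  -- the number of the pairs at the other times
  have key : ∀ t' s' : ℕ, t' + s' = t + s →
      (((PR O x A t s).filter (fun P => t < 16 * d ^ 2 * bt P.1 ∧ s < 16 * d ^ 2 * bt P.2)).card : ℝ) ≤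
        C * ((PR O x A t' s').card : ℝ) →
      2 * (ε / (4 * C)) * NP O x (t + s) ≤
        (((LL d (t + s)).filter (fun l => Op O x l ∧ en x (l.take t') ∈ A)).card : ℝ) := by
    intro t' s' hts hc
    have h3 := card_PR O x A t' s'
    rw [hts] at h3
    rw [← h3]
    have h4 : ε / 2 * NP O x (t + s) ≤ C * ((PR O x A t' s').card : ℝ) := hG.trans hc
    have h5 : 2 * (ε / (4 * C)) * NP O x (t + s) = (ε / 2 * NP O x (t + s)) / C := by
      field_simp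
      ring
    rw [h5, div_le_iff₀ hC0, mul_comm _ C]
    exact h4
  rcases hT O x A t s L ((le_max_left _ _).trans ht) ((le_max_left _ _).trans hs) hLt hLs with hT | hT
  · refine ⟨t, by omega, T12a_count O x A (t + s) t L _ fun k hk => ?_⟩
    exact key (t + 2 * k) (s - 2 * k) (by omega) (hT k hk)
  · refine ⟨t - 2 * L, by omega, T12a_count O x A (t + s) (t - 2 * L) L _ fun k hk => ?_⟩
    have h3 := key (t - 2 * (L - k)) (s + 2 * (L - k)) (by omega) (hT (L - k) (by omega))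
    have h4 : t - 2 * L + 2 * k = t - 2 * (L - k) := by omega
    rw [h4]
    exact h3

end Pool.Agent.RWO
end
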