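import Pool.Agent.Lib.MP_c35813_pr.Mg.G003
import Pool.Agent.Lib.MP_c35813_pr.Mg.G005
import Pool.Agent.Lib.MP_c35813_pr.Mg.G007
import Pool.Agent.Lib.MP_c35813_pr.Mg.G006
import Pool.Agent.Lib.MP_c35813_pr.Mg.G002
import Pool.Agent.Lib.MP_c35813_pr.Mg.G004

section

set_option autoImplicit false

/-! Task T12b: the deterministic theorem, in the bulk. -/

namespace Pool.Agent.RWO

variable {d : ℕ}

/-- The conditions on `y = log n`. -/
theorem T12b_ev (d : ℕ) (C₀ a κ κ' E T : ℝ) (hd : 2 ≤ d) (hC : 0 < C₀) (hκ : 0 < κ) (hκ' : 0 < κ') (hE : 0 < E) (ha : 0 < a) :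
    ∃ Y : ℝ, ∀ y : ℝ, Y ≤ y →
      1 ≤ y ∧ T ≤ y ^ 7 ∧ 16 * C₀ ≤ y ^ (2 / d : ℝ) ∧ 10 * y ^ 4 ≤ Real.exp y ∧ 2 * y ≤ C₀ * Real.exp y ∧
      (5 * y ^ 4) ^ d ≤ Real.exp (4 * y) ∧ a * y * (y ^ 2 / (2 * C₀) + 1) < κ * (y ^ (7 / 2 : ℝ) - 1) ∧
      (2 * y ^ 4) ^ 2 * (4 * Real.exp y) * (y / (16 * C₀)) * E * Real.exp (-(8 * y)) < κ' := by
  have hd0 : (0 : ℝ) < d := by exact_mod_cast (by omega : 0 < d)
  have e1 : ∀ᶠ y : ℝ in Filter.atTop, 1 ≤ y := Filter.eventually_ge_atTop 1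
  have e2 : ∀ᶠ y : ℝ in Filter.atTop, T ≤ y ^ 7 := (Filter.tendsto_pow_atTop (by norm_num : (7 : ℕ) ≠ 0)).eventually_ge_atTop T
  have e3 : ∀ᶠ y : ℝ in Filter.atTop, 16 * C₀ ≤ y ^ (2 / d : ℝ) :=
    (tendsto_rpow_atTop (by positivity : (0 : ℝ) < 2 / d)).eventually_ge_atTop _
  have hp : ∀ k : ℕ, ∀ δ : ℝ, 0 < δ → ∀ᶠ y : ℝ in Filter.atTop, y ^ k * Real.exp (-y) < δ := fun k δ hδ =>
    (Real.tendsto_pow_mul_exp_neg_atTop_nhds_zero k).eventually (gt_mem_nhds hδ)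
  have e4 := hp 4 (1 / 10) (by norm_num)
  have e5 := hp 1 (C₀ / 2) (by positivity)
  have e6 := hp (4 * d) (1 / 5 ^ d) (by positivity)
  have e7 : ∀ᶠ y : ℝ in Filter.atTop, (a * (1 / (2 * C₀) + 1) + κ) / κ + 1 ≤ y ^ (1 / 2 : ℝ) :=
    (tendsto_rpow_atTop (by norm_num : (0 : ℝ) < 1 / 2)).eventually_ge_atTop _
  have e8 := hp 9 (κ' * C₀ / E) (by positivity)
  obtain ⟨Y, hY⟩ := Filter.eventually_atTop.1 (((((((e1.and e2).and e3).and e4).and e5).and e6).and e7).and e8)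
  refine ⟨Y, fun y hy => ?_⟩
  obtain ⟨⟨⟨⟨⟨⟨⟨h1, h2⟩, h3⟩, h4⟩, h5⟩, h6⟩, h7⟩, h8⟩ := hY y hy
  have hy0 : 0 < y := by linarith
  have hexp : 0 < Real.exp y := Real.exp_pos y
  have hee : Real.exp (-y) * Real.exp y = 1 := by rw [← Real.exp_add]; simp
  refine ⟨h1, h2, h3, ?_, ?_, ?_, ?_, ?_⟩
  · have := mul_lt_mul_of_pos_right h4 hexp
    rw [mul_assoc, hee] at this
    linarith
  · have := mul_lt_mul_of_pos_right h5 hexp
    rw [mul_assoc, hee] at this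
    linarith
  · have := mul_lt_mul_of_pos_right h6 hexp
    rw [mul_assoc, hee, mul_one] at this
    have h9 : (5 * y ^ 4) ^ d = 5 ^ d * y ^ (4 * d) := by
      rw [mul_pow, ← pow_mul]
    rw [h9]
    have h10 : (5 : ℝ) ^ d * y ^ (4 * d) ≤ 5 ^ d * (1 / 5 ^ d * Real.exp y) :=
      mul_le_mul_of_nonneg_left this.le (by positivity)
    have h11 : (5 : ℝ) ^ d * (1 / 5 ^ d * Real.exp y) = Real.exp y := by
      field_simp
    rw [h11] at h10
    exact h10.trans (Real.exp_le_exp.2 (by linarith))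
  · have hy3 : (1 : ℝ) ≤ y ^ 3 := one_le_pow₀ h1
    have hsq : y ^ (7 / 2 : ℝ) = y ^ 3 * y ^ (1 / 2 : ℝ) := by
      rw [← Real.rpow_natCast y 3, ← Real.rpow_add hy0]
      norm_num
    have hA : a * y * (y ^ 2 / (2 * C₀) + 1) ≤ a * (1 / (2 * C₀) + 1) * y ^ 3 := by
      have h12 : y * (y ^ 2 / (2 * C₀) + 1) ≤ (1 / (2 * C₀) + 1) * y ^ 3 := by
        have h13 : y ≤ y ^ 3 := by
          calc y = y ^ 1 := (pow_one y).symm
            _ ≤ y ^ 3 := pow_le_pow_right₀ h1 (by norm_num)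
        have h14 : y * (y ^ 2 / (2 * C₀) + 1) = 1 / (2 * C₀) * y ^ 3 + y := by
          field_simp
        rw [h14]
        linarith
      calc a * y * (y ^ 2 / (2 * C₀) + 1) = a * (y * (y ^ 2 / (2 * C₀) + 1)) := by ring
        _ ≤ a * ((1 / (2 * C₀) + 1) * y ^ 3) := mul_le_mul_of_nonneg_left h12 ha.le
        _ = _ := by ring
    have hB : (a * (1 / (2 * C₀) + 1) + κ + κ) ≤ κ * y ^ (1 / 2 : ℝ) := by
      have := mul_le_mul_of_nonneg_left h7 hκ.le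
      have h15 : κ * ((a * (1 / (2 * C₀) + 1) + κ) / κ + 1) = a * (1 / (2 * C₀) + 1) + κ + κ := by
        field_simp
      rw [h15] at this
      exact this
    have hB2 : (a * (1 / (2 * C₀) + 1) + κ + κ) * y ^ 3 ≤ κ * y ^ (1 / 2 : ℝ) * y ^ 3 :=
      mul_le_mul_of_nonneg_right hB (by positivity)
    rw [hsq]
    have h16 : κ ≤ κ * y ^ 3 := le_mul_of_one_le_right hκ.le hy3
    have h17 : 0 < κ * y ^ 3 := mul_pos hκ (pow_pos hy0 3)
    have h18 : (a * (1 / (2 * C₀) + 1) + κ + κ) * y ^ 3 = a * (1 / (2 * C₀) + 1) * y ^ 3 + κ * y ^ 3 + κ * y ^ 3 := by ring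
    have h19 : κ * (y ^ 3 * y ^ (1 / 2 : ℝ) - 1) = κ * y ^ (1 / 2 : ℝ) * y ^ 3 - κ := by ring
    rw [h19]
    linarith
  · have h9 : (2 * y ^ 4) ^ 2 * (4 * Real.exp y) * (y / (16 * C₀)) * E * Real.exp (-(8 * y)) =
        (E / C₀) * (y ^ 9 * (Real.exp y * Real.exp (-(8 * y)))) := by
      field_simp
      ring
    rw [h9, ← Real.exp_add]
    have h10 : y ^ 9 * Real.exp (y + -(8 * y)) ≤ y ^ 9 * Real.exp (-y) :=
      mul_le_mul_of_nonneg_left (Real.exp_le_exp.2 (by linarith)) (by positivity)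
    have h11 : y ^ 9 * Real.exp (y + -(8 * y)) < κ' * C₀ / E := h10.trans_lt h8
    have h12 := mul_lt_mul_of_pos_left h11 (by positivity : 0 < E / C₀)
    have h13 : E / C₀ * (κ' * C₀ / E) = κ' := by field_simp
    rw [h13] at h12
    exact h12

/-- T12b. PROOF. `h = C₀ (log n)^(-2/d)`. `C, T₁` of `window`, `κ' = ε/(4C)`, `κ = κ'/2`, `Λ = 3/κ`, `m = ⌊1/(16h)⌋ ≥ 1/(32h)`, `lam = ⌈(log n)/(2h)⌉`, `L = ⌊(log n)^(7/2)⌋` (`L² ≤ (log n)^7 ≤ t, s`). `heat` with `2m`: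
`ρ = |A| C_h (2m)^(-d/2) ≤ a log n C_h (16 C₀)^(d/2)/log n`, choose `a` with `exp Λ ρ ≤ 1`. Suppose `#PR > ε NP`: `window` gives `t'` with `κ' NP ≤ #E`. `surgery` (`κ L + |A| lam < κ' L` for `n` large, as
`|A| lam ≤ C (log n)^(2 + 2/d) ≤ C (log n)^3`): `#E ≤ (L+1)² R` with, for `lam ≤ q ≤ L`, `#loops ≤ m exp(Λ+1) exp(-2q/m) (2d)^(2q)` (`visits_ld`, `Λκ - 1 = 2`) and `(2d)^(2q) NP(n - 2q) ≤ 2(n+1) exp(16hq) NP n` (`ratio` with
`n - 2q`; `(4q+1)^d ≤ (4L+1)^d ≤ exp(8hq)` as `8hq ≥ 4 log n`), `2q/m ≥ 32hq`: `R = 2(n+1) m exp(Λ+1) exp(-16 h lam) NP ≤ 2(n+1) m exp(Λ+1) n^(-8) NP`. For `n` large `(L+1)² R < κ' NP` (`NP > 0`). Contradiction. -/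
theorem det_bulk (hd : 2 ≤ d) (C₀ ε : ℝ) (hC : 0 < C₀) (hε : 0 < ε) : ∃ a : ℝ, 0 < a ∧ ∃ n₀ : ℕ, ∀ n : ℕ, n₀ ≤ n →
    ∀ (O : Set (V d)) (x : V d),
    (2 * d : ℝ) ^ n * Real.exp (-(C₀ * n * (Real.log n) ^ (-(2 / d : ℝ)))) ≤ NP O x n →
    ∀ t s : ℕ, t + s = n → (Real.log n) ^ 7 ≤ t → (Real.log n) ^ 7 ≤ s → ∀ A : Finset (V d), (A.card : ℝ) ≤ a * Real.log n →
      ((PR O x (A : Set (V d)) t s).card : ℝ) ≤ ε * NP O x n := by
  classical
  obtain ⟨C, hC1, T₁, hwin⟩ := window (d := d) (by omega)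
  obtain ⟨Ch, hCh, hheat⟩ := heat (d := d) (by omega)
  have hd0 : (0 : ℝ) < d := by exact_mod_cast (by omega : 0 < d)
  have hCp : 0 < C := by linarith
  set κ' : ℝ := ε / (4 * C) with hκ'def
  have hκ' : 0 < κ' := by positivity
  set κ : ℝ := κ' / 2 with hκdef
  have hκ : 0 < κ := by positivity
  set Λ : ℝ := 3 / κ with hΛdef
  have hΛ : 0 < Λ := by positivity
  have hΛκ : Λ * κ - 1 = 2 := by rw [hΛdef]; field_simp; norm_num
  set a : ℝ := Real.exp (-Λ) / (Ch * (16 * C₀) ^ (d / 2 : ℝ)) with hadef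
  have hD : 0 < (16 * C₀) ^ (d / 2 : ℝ) := Real.rpow_pos_of_pos (by positivity) _
  have ha : 0 < a := by positivity
  obtain ⟨N, hN⟩ := pow_unbounded_of_one_lt (4 / ε) (one_lt_two : (1 : ℝ) < 2)
  obtain ⟨Y, hY⟩ := T12b_ev d C₀ a κ κ' (Real.exp (Λ + 1)) (max (T₁ : ℝ) ((48 * d ^ 2 * N : ℕ) : ℝ)) hd hC hκ hκ' (Real.exp_pos _) ha
  refine ⟨a, ha, ⌈Real.exp (max Y 1)⌉₊, ?_⟩
  intro n hn O x hNP t s hts ht hs A hA
  have hn1 : Real.exp (max Y 1) ≤ n := (Nat.le_ceil _).trans (by exact_mod_cast hn)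
  have hn0 : (0 : ℝ) < n := (Real.exp_pos _).trans_le hn1
  set y : ℝ := Real.log n with hydef
  have hexpy : Real.exp y = n := Real.exp_log hn0
  have hYy : Y ≤ y := by
    have : max Y 1 ≤ y := by
      rw [hydef]
      exact (Real.le_log_iff_exp_le hn0).2 hn1
    exact (le_max_left _ _).trans this
  obtain ⟨hy1, hyT, hy16, hy10, hy2, hy5, hyκ, hylast⟩ := hY y hYy
  have hy0 : 0 < y := by linarith
  -- NP > 0
  have hNPpos : (0 : ℝ) < NP O x n := lt_of_lt_of_le (by positivity) hNP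
  by_contra hcon
  rw [not_le] at hcon
  -- powers of y
  set yd : ℝ := y ^ (2 / d : ℝ) with hyd
  have hyd0 : 0 < yd := Real.rpow_pos_of_pos hy0 _
  have hydy : yd ≤ y := by
    have h2d : (2 / d : ℝ) ≤ 1 := by
      rw [div_le_one hd0]
      exact_mod_cast hd
    calc yd ≤ y ^ (1 : ℝ) := Real.rpow_le_rpow_of_exponent_le hy1 h2d
      _ = y := Real.rpow_one y
  set h : ℝ := C₀ * y ^ (-(2 / d : ℝ)) with hhdef
  have hhyd : h = C₀ / yd := by
    show C₀ * y ^ (-(2 / d : ℝ)) = C₀ / y ^ (2 / d : ℝ)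
    rw [Real.rpow_neg hy0.le, ← div_eq_mul_inv]
  have hh0 : 0 < h := by rw [hhyd]; positivity
  have hhinv : 1 / (16 * h) = yd / (16 * C₀) := by rw [hhyd]; field_simp
  set m : ℕ := ⌊yd / (16 * C₀)⌋₊ with hmdef
  have hx1 : 1 ≤ yd / (16 * C₀) := by
    rw [le_div_iff₀ (by positivity)]; linarith
  have hm1 : 1 ≤ m := by
    rw [hmdef]
    exact (Nat.one_le_floor_iff _).2 hx1
  have hmle : (m : ℝ) ≤ yd / (16 * C₀) := Nat.floor_le (by positivity)
  have hmge : yd / (16 * C₀) ≤ 2 * m := by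
    have h1 : yd / (16 * C₀) < m + 1 := Nat.lt_floor_add_one _
    have h2 : (1 : ℝ) ≤ m := by exact_mod_cast hm1
    linarith
  have hm0 : (0 : ℝ) < m := by exact_mod_cast hm1
  set lam : ℕ := ⌈y / (2 * h)⌉₊ with hlam
  have hlam_ge : y / (2 * h) ≤ lam := Nat.le_ceil _
  have hlam_le : (lam : ℝ) ≤ y ^ 2 / (2 * C₀) + 1 := by
    have h1 : (lam : ℝ) < y / (2 * h) + 1 := Nat.ceil_lt_add_one (by positivity)
    have h2 : y / (2 * h) ≤ y ^ 2 / (2 * C₀) := by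
      have h3 : y / (2 * h) = y * yd / (2 * C₀) := by rw [hhyd]; field_simp
      rw [h3, sq]
      gcongr
    linarith
  have hlam1 : 1 ≤ lam := by
    rw [hlam]
    exact Nat.ceil_pos.2 (by positivity)
  set L : ℕ := ⌊y ^ (7 / 2 : ℝ)⌋₊ with hLdef
  have hy72 : 0 < y ^ (7 / 2 : ℝ) := Real.rpow_pos_of_pos hy0 _
  have hLle : (L : ℝ) ≤ y ^ (7 / 2 : ℝ) := Nat.floor_le hy72.le
  have hLge : y ^ (7 / 2 : ℝ) - 1 < L := by
    have := Nat.lt_floor_add_one (y ^ (7 / 2 : ℝ))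
    rw [← hLdef] at this
    linarith
  have hy724 : y ^ (7 / 2 : ℝ) ≤ y ^ 4 := by
    rw [← Real.rpow_natCast y 4]
    exact Real.rpow_le_rpow_of_exponent_le hy1 (by norm_num)
  have hL4 : (L : ℝ) ≤ y ^ 4 := hLle.trans hy724
  have hL2 : ((L ^ 2 : ℕ) : ℝ) ≤ y ^ 7 := by
    push_cast
    calc (L : ℝ) ^ 2 ≤ (y ^ (7 / 2 : ℝ)) ^ 2 := by gcongr
      _ = y ^ 7 := by
        rw [← Real.rpow_natCast (y ^ (7 / 2 : ℝ)) 2, ← Real.rpow_mul hy0.le, ← Real.rpow_natCast y 7]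
        norm_num
  have hL2t : L ^ 2 ≤ t := by exact_mod_cast hL2.trans ht
  have hL2s : L ^ 2 ≤ s := by exact_mod_cast hL2.trans hs
  have hT1 : (T₁ : ℝ) ≤ y ^ 7 := (le_max_left _ _).trans hyT
  have hT2 : ((48 * d ^ 2 * N : ℕ) : ℝ) ≤ y ^ 7 := (le_max_right _ _).trans hyT
  have hT1t : T₁ ≤ t := by exact_mod_cast hT1.trans ht
  have hT1s : T₁ ≤ s := by exact_mod_cast hT1.trans hs
  have h48 : 0 < 48 * d ^ 2 := by positivity
  have hpow : ∀ r : ℕ, y ^ 7 ≤ r → 4 / ε ≤ 2 ^ (r / (48 * d ^ 2)) := by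
    intro r hr
    have h1 : 48 * d ^ 2 * N ≤ r := by exact_mod_cast hT2.trans hr
    have h2 : N ≤ r / (48 * d ^ 2) := by
      rw [Nat.le_div_iff_mul_le h48]
      linarith
    exact hN.le.trans (pow_le_pow_right₀ (by norm_num) h2)
  obtain ⟨t', ht', hE⟩ := hwin O x (A : Set (V d)) t s L ε hT1t hT1s hL2t hL2s hε (hpow t ht) (hpow s hs) (by
    rw [hts]; exact hcon.le)
  rw [hts] at ht' hE
  have hexp4 : 10 * (L : ℝ) ≤ n := by
    rw [← hexpy]; linarith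
  -- heat bound
  have hρ : ∀ x : V d, (((LL d (2 * m)).filter (fun l => en x l ∈ (A : Set (V d)))).card : ℝ) ≤
      (a * (Ch * (16 * C₀) ^ (d / 2 : ℝ))) * (2 * d : ℝ) ^ (2 * m) := by
    intro x
    have h1 : ((LL d (2 * m)).filter (fun l => en x l ∈ (A : Set (V d)))).card ≤
        ∑ z ∈ A, ((LL d (2 * m)).filter (fun l => en x l = z)).card := by
      have h2 : (LL d (2 * m)).filter (fun l => en x l ∈ (A : Set (V d))) ⊆
          A.biUnion (fun z => (LL d (2 * m)).filter (fun l => en x l = z)) := by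
        intro l hl
        rw [Finset.mem_filter] at hl
        rw [Finset.mem_biUnion]
        exact ⟨en x l, hl.2, Finset.mem_filter.2 ⟨hl.1, rfl⟩⟩
      exact (Finset.card_le_card h2).trans Finset.card_biUnion_le
    have h3 : (((LL d (2 * m)).filter (fun l => en x l ∈ (A : Set (V d)))).card : ℝ) ≤
        ∑ z ∈ A, (((LL d (2 * m)).filter (fun l => en x l = z)).card : ℝ) := by
      exact_mod_cast h1
    have h4 : ∀ z ∈ A, (((LL d (2 * m)).filter (fun l => en x l = z)).card : ℝ) ≤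
        Ch * (2 * d : ℝ) ^ (2 * m) * ((16 * C₀) ^ (d / 2 : ℝ) / y) := by
      intro z _
      have h5 := hheat (2 * m) (by omega) x z
      have h5' : (((LL d (2 * m)).filter (fun l => en x l = z)).card : ℝ) ≤
          Ch * (2 * d : ℝ) ^ (2 * m) / ((2 * m : ℕ) : ℝ) ^ ((d : ℝ) / 2) := by
        convert h5
      refine h5'.trans ?_
      have h6 : y / (16 * C₀) ^ (d / 2 : ℝ) ≤ ((2 * m : ℕ) : ℝ) ^ ((d : ℝ) / 2) := by
        have h7 : (yd / (16 * C₀)) ^ ((d : ℝ) / 2) ≤ ((2 * m : ℕ) : ℝ) ^ ((d : ℝ) / 2) := by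
          refine Real.rpow_le_rpow (by positivity) ?_ (by positivity)
          push_cast
          exact hmge
        have h8 : (yd / (16 * C₀)) ^ ((d : ℝ) / 2) = y / (16 * C₀) ^ (d / 2 : ℝ) := by
          rw [Real.div_rpow hyd0.le (by positivity), hyd, ← Real.rpow_mul hy0.le]
          congr 1
          rw [div_mul_div_cancel₀ hd0.ne']
          norm_num
        rw [← h8]
        exact h7
      rw [div_eq_mul_inv]
      refine mul_le_mul_of_nonneg_left ?_ (by positivity)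
      rw [inv_le_comm₀ (Real.rpow_pos_of_pos (by push_cast; positivity) _) (by positivity), inv_div]
      exact h6
    calc (((LL d (2 * m)).filter (fun l => en x l ∈ (A : Set (V d)))).card : ℝ)
        ≤ ∑ z ∈ A, (((LL d (2 * m)).filter (fun l => en x l = z)).card : ℝ) := h3
      _ ≤ ∑ _z ∈ A, Ch * (2 * d : ℝ) ^ (2 * m) * ((16 * C₀) ^ (d / 2 : ℝ) / y) := Finset.sum_le_sum h4
      _ = A.card * (Ch * (2 * d : ℝ) ^ (2 * m) * ((16 * C₀) ^ (d / 2 : ℝ) / y)) := by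
        rw [Finset.sum_const, nsmul_eq_mul]
      _ ≤ (a * y) * (Ch * (2 * d : ℝ) ^ (2 * m) * ((16 * C₀) ^ (d / 2 : ℝ) / y)) :=
        mul_le_mul_of_nonneg_right hA (by positivity)
      _ = _ := by field_simp
  have hΛρ : Real.exp Λ * (a * (Ch * (16 * C₀) ^ (d / 2 : ℝ))) ≤ 1 := by
    rw [hadef, div_mul_cancel₀ _ (by positivity), ← Real.exp_add]
    simp
  -- the loops
  set R : ℝ := 2 * (n + 1) * m * Real.exp (Λ + 1) * Real.exp (-(8 * y)) * NP O x n with hRdef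
  have hR0 : 0 ≤ R := by positivity
  have hloop : ∀ q, lam ≤ q → q ≤ L → ∀ z ∈ A,
      (((LL d (2 * q)).filter (fun l => en z l = z ∧ κ * q ≤ (vis (A : Set (V d)) z l q : ℝ))).card : ℝ) * NP O x (n - 2 * q) ≤ R := by
    intro q hq1 hq2 z _
    have hq0 : 1 ≤ q := hlam1.trans hq1
    have hqL : (q : ℝ) ≤ L := by exact_mod_cast hq2
    have hqn : 10 * q ≤ n := by
      have : (10 : ℝ) * q ≤ n := by linarith
      exact_mod_cast this
    have hsub : n - 2 * q + 2 * q = n := by omega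
    have hcast : ((n - 2 * q : ℕ) : ℝ) = n - 2 * q := by
      rw [Nat.cast_sub (by omega)]; push_cast; ring
    have hhq : y / 2 ≤ h * q := by
      have h1 : y / (2 * h) ≤ q := hlam_ge.trans (by exact_mod_cast hq1)
      rw [div_le_iff₀ (by positivity)] at h1
      linarith
    -- visits
    have hv := visits_ld (A : Set (V d)) m q hm1 (a * (Ch * (16 * C₀) ^ (d / 2 : ℝ))) Λ κ (fun x => by convert hρ x) hΛ.le hΛρ hκ.le z
    rw [hΛκ] at hv
    have hv1 : (((LL d (2 * q)).filter (fun l => en z l = z ∧ κ * q ≤ (vis (A : Set (V d)) z l q : ℝ))).card : ℝ) ≤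
        m * Real.exp (Λ + 1) * Real.exp (-(32 * (h * q))) * (2 * d : ℝ) ^ (2 * q) := by
      have h1 : (((LL d (2 * q)).filter (fun l => en z l = z ∧ κ * q ≤ (vis (A : Set (V d)) z l q : ℝ))).card : ℝ) ≤
          (((LL d (2 * q)).filter (fun l => κ * q ≤ (vis (A : Set (V d)) z l q : ℝ))).card : ℝ) := by
        exact_mod_cast Finset.card_le_card (by
          intro l hl
          rw [Finset.mem_filter] at hl ⊢
          exact ⟨hl.1, hl.2.2⟩)
      refine h1.trans ?_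
      have hv' : (((LL d (2 * q)).filter (fun l => κ * q ≤ (vis (A : Set (V d)) z l q : ℝ))).card : ℝ) ≤
          m * Real.exp (Λ + 1) * Real.exp (-(2 * q / m)) * (2 * d : ℝ) ^ (2 * q) := by convert hv
      refine hv'.trans ?_
      gcongr
      rw [le_div_iff₀ hm0]
      have h3 : (m : ℝ) * (16 * h) ≤ 1 := by
        have h4 : (m : ℝ) ≤ 1 / (16 * h) := by rw [hhinv]; exact hmle
        rwa [le_div_iff₀ (by positivity)] at h4
      have hq00 : (0 : ℝ) ≤ 2 * q := by positivity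
      calc 32 * (h * q) * m = 2 * q * (m * (16 * h)) := by ring
        _ ≤ 2 * q * 1 := mul_le_mul_of_nonneg_left h3 hq00
        _ = 2 * q := mul_one _
    -- ratio
    have hr := ratio (d := d) (by omega) O x q (n - 2 * q) h hh0 hq0 (by omega) (by
      rw [hcast, hhyd]
      rw [div_mul_eq_mul_div, le_div_iff₀ hyd0, one_mul]
      have h1 : (n : ℝ) / 2 ≤ n - 2 * q := by linarith
      have h2 : C₀ * (n / 2) ≤ C₀ * (n - 2 * q) := mul_le_mul_of_nonneg_left h1 hC.le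
      rw [hexpy] at hy2
      linarith) (by
      have h1 : ((4 * q + 1 : ℝ)) ≤ 5 * y ^ 4 := by
        have h2 : (1 : ℝ) ≤ y ^ 4 := one_le_pow₀ hy1
        linarith
      have h3 : (4 * q + 1 : ℝ) ^ d ≤ (5 * y ^ 4) ^ d := by gcongr
      refine h3.trans (hy5.trans (Real.exp_le_exp.2 ?_))
      have h4 : 8 * h * q = 8 * (h * q) := by ring
      rw [h4]
      linarith) (by
      rw [hsub, hcast]
      have h1 : h * ((n : ℝ) - 2 * q + 2 * q) = C₀ * n * y ^ (-(2 / d : ℝ)) := by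
        rw [hhdef]; ring
      rw [h1]
      exact hNP)
    rw [hsub, hcast] at hr
    have hnn : (0 : ℝ) ≤ NP O x (n - 2 * q) := by positivity
    calc (((LL d (2 * q)).filter (fun l => en z l = z ∧ κ * q ≤ (vis (A : Set (V d)) z l q : ℝ))).card : ℝ) * NP O x (n - 2 * q)
        ≤ (m * Real.exp (Λ + 1) * Real.exp (-(32 * (h * q))) * (2 * d : ℝ) ^ (2 * q)) * NP O x (n - 2 * q) :=
          mul_le_mul_of_nonneg_right hv1 hnn
      _ = (m * Real.exp (Λ + 1) * Real.exp (-(32 * (h * q)))) * (NP O x (n - 2 * q) * (2 * d : ℝ) ^ (2 * q)) := by ring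
      _ ≤ (m * Real.exp (Λ + 1) * Real.exp (-(32 * (h * q)))) * (2 * ((n : ℝ) - 2 * q + 1) * Real.exp (16 * h * q) * NP O x n) :=
          mul_le_mul_of_nonneg_left hr (by positivity)
      _ = 2 * ((n : ℝ) - 2 * q + 1) * m * Real.exp (Λ + 1) * (Real.exp (-(32 * (h * q))) * Real.exp (16 * h * q)) * NP O x n := by ring
      _ ≤ R := by
        rw [hRdef, ← Real.exp_add]
        have hq00 : (0 : ℝ) ≤ q := by positivity
        have h20 : -(32 * (h * q)) + 16 * h * q = -(16 * (h * q)) := by ring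
        have h21 : Real.exp (-(16 * (h * q))) ≤ Real.exp (-(8 * y)) := Real.exp_le_exp.2 (by linarith)
        rw [h20]
        refine mul_le_mul_of_nonneg_right (mul_le_mul ?_ h21 (Real.exp_pos _).le (by positivity)) (by positivity)
        have h22 : (n : ℝ) - 2 * q + 1 ≤ n + 1 := by linarith
        gcongr
  have hbig : κ * L + (A.card : ℝ) * lam < κ' * L := by
    have h1 : (A.card : ℝ) * lam ≤ (a * y) * (y ^ 2 / (2 * C₀) + 1) :=
      mul_le_mul hA hlam_le (by positivity) (by positivity)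
    have h2 : κ * (y ^ (7 / 2 : ℝ) - 1) < κ * L := mul_lt_mul_of_pos_left hLge hκ
    have h3 : κ' * L = κ * L + κ * L := by rw [hκdef]; ring
    rw [h3]
    linarith
  have hsur := surgery O x A n t' L lam ht' κ κ' R hκ.le hR0 hbig (fun q hq1 hq2 z hz => by
    convert hloop q hq1 hq2 z hz)
  have hfin : κ' * NP O x n ≤ (L + 1 : ℝ) ^ 2 * R := by
    refine hE.trans ?_
    convert hsur
  have hlt : (L + 1 : ℝ) ^ 2 * R < κ' * NP O x n := by
    have h1 : (L + 1 : ℝ) ^ 2 * R = ((L + 1 : ℝ) ^ 2 * (2 * (n + 1)) * m * Real.exp (Λ + 1) * Real.exp (-(8 * y))) * NP O x n := by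
      rw [hRdef]; ring
    rw [h1]
    refine mul_lt_mul_of_pos_right (lt_of_le_of_lt ?_ hylast) hNPpos
    have h2 : (L + 1 : ℝ) ≤ 2 * y ^ 4 := by
      have : (1 : ℝ) ≤ y ^ 4 := one_le_pow₀ hy1
      linarith
    have h3 : 2 * ((n : ℝ) + 1) ≤ 4 * Real.exp y := by
      rw [hexpy]
      have : (1 : ℝ) ≤ n := by
        rw [← hexpy]
        exact Real.one_le_exp hy0.le
      linarith
    have h4 : (m : ℝ) ≤ y / (16 * C₀) := hmle.trans (by gcongr)
    gcongr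
  exact absurd hfin (not_le.2 hlt)

end Pool.Agent.RWO
end

section

set_option autoImplicit false

/-! Task F2: the assembly. -/

namespace Pool.Agent.RWO

open MeasureTheory Filter
open scoped NNReal ENNReal Topology

variable {d : ℕ}

/-- The law of the environment conditioned on the infinite cluster. -/
noncomputable def condEnv (d : ℕ) (p : ℝ≥0) (hp : p ≤ 1) : Measure (Env d) :=
  ProbabilityTheory.cond (PP d p hp) {ω | InfCluster ω}

/-- `L_n = d log_{1/p} n`. -/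
noncomputable def Ln (d : ℕ) (p : ℝ≥0) (n : ℕ) : ℝ := d * Real.log n / Real.log (1 / (p : ℝ))

/-- The times considered. -/
def times (d n t : ℕ) (Kc : ℝ) : Prop :=
  t ≤ n ∧ Real.log n ^ 7 ≤ t ∧ (Real.log n ^ 7 ≤ (n : ℝ) - t ∨ (n : ℝ) - t ≤ Kc * Real.log n ^ (2 / d : ℝ))

theorem Ln_pos (hd : 2 ≤ d) (p : ℝ≥0) (hp0 : 0 < p) (hp1 : p < 1) : 0 < (d : ℝ) / Real.log (1 / (p : ℝ)) := by
  have h1 : (0 : ℝ) < p := by exact_mod_cast hp0
  have h2 : (p : ℝ) < 1 := by exact_mod_cast hp1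
  have h3 : 0 < Real.log (1 / (p : ℝ)) := Real.log_pos (by rw [lt_div_iff₀ h1]; linarith)
  have h4 : (0 : ℝ) < d := by exact_mod_cast (by omega : 0 < d)
  positivity

/-- The deterministic theorem, all the times. -/
theorem det (hd : 2 ≤ d) (C₀ ε Kc : ℝ) (hC : 0 < C₀) (hε : 0 < ε) (hK : 0 < Kc) : ∃ a : ℝ, 0 < a ∧ ∃ n₀ : ℕ, ∀ n : ℕ, n₀ ≤ n →
    ∀ ω : Env d, (2 * d : ℝ) ^ n * Real.exp (-(C₀ * n * (Real.log n) ^ (-(2 / d : ℝ)))) ≤ NP (opn ω) 0 n →
    ∀ t : ℕ, times d n t Kc → ∀ A : Finset (V d), (A.card : ℝ) ≤ a * Real.log n → condProb ω n t A ≤ ε := by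
  obtain ⟨a₁, ha₁, n₁, h₁⟩ := det_bulk hd C₀ ε hC hε
  obtain ⟨a₂, ha₂, n₂, h₂⟩ := det_end (by omega : 1 ≤ d) C₀ ε Kc hC hε hK
  refine ⟨min a₁ a₂, lt_min ha₁ ha₂, max n₁ (max n₂ 1), fun n hn ω hω t ht A hA => ?_⟩
  have hn1 : n₁ ≤ n := by omega
  have hn2 : n₂ ≤ n := by omega
  have hn3 : 1 ≤ n := by omega
  have hl : 0 ≤ Real.log n := Real.log_nonneg (by exact_mod_cast hn3)
  obtain ⟨ht0, ht1, ht2⟩ := ht
  have hNP : (0 : ℝ) < NP (opn ω) 0 n := by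
    refine lt_of_lt_of_le ?_ hω
    have : (0 : ℝ) < d := by exact_mod_cast (by omega : 0 < d)
    positivity
  have hs : ((n - t : ℕ) : ℝ) = (n : ℝ) - t := by
    rw [Nat.cast_sub ht0]
  have key : ((PR (opn ω) 0 (A : Set (V d)) t (n - t)).card : ℝ) ≤ ε * NP (opn ω) 0 n := by
    rcases ht2 with h | h
    · exact h₁ n hn1 (opn ω) 0 hω t (n - t) (by omega) ht1 (by rw [hs]; exact h) A
        (hA.trans (mul_le_mul_of_nonneg_right (min_le_left _ _) hl))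
    · exact h₂ n hn2 (opn ω) 0 hω t (n - t) (by omega) (by rw [hs]; exact h) A
        (hA.trans (mul_le_mul_of_nonneg_right (min_le_right _ _) hl))
  unfold condProb
  rw [card_surv_A ω n t ht0 A, card_surv, div_le_iff₀ hNP]
  exact key

theorem F2_le (p : ℝ≥0) (hp : p ≤ 1) (B : Set (Env d)) :
    condEnv d p hp B ≤ (PP d p hp {ω | Inf ω})⁻¹ * PP d p hp {ω | Inf ω ∧ ω ∈ B} := by
  unfold condEnv
  have e : {ω : Env d | InfCluster ω} = {ω : Env d | Inf ω} := by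
    ext ω
    exact InfCluster_iff ω
  rw [e, ProbabilityTheory.cond_apply Inf_meas]
  exact le_rfl

/-- The uniform statement. -/
theorem main_uniform (hd : 2 ≤ d) (p : ℝ≥0) (hp0 : 0 < p) (hp : p ≤ 1) (hp1 : p < 1) (ε Kc : ℝ) (hε : 0 < ε) (hK : 0 < Kc) :
    ∃ a : ℝ, 0 < a ∧ Tendsto (fun n : ℕ => condEnv d p hp {ω | ∃ t : ℕ, times d n t Kc ∧
      ∃ A : Finset (V d), (A.card : ℝ) ≤ a * Ln d p n ∧ ε < condProb ω n t A}) atTop (𝓝 0) := by
  obtain ⟨C₀, hC₀, hE⟩ := env_main (by omega : 1 ≤ d) p hp0 hp hp1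
  obtain ⟨a, ha, n₀, hdet⟩ := det hd C₀ ε Kc hC₀ hε hK
  have hL := Ln_pos hd p hp0 hp1
  refine ⟨a / ((d : ℝ) / Real.log (1 / (p : ℝ))), by positivity, ?_⟩
  by_cases h0 : PP d p hp {ω | Inf ω} = 0
  · have hz : condEnv d p hp = 0 := by
      unfold condEnv
      have e : {ω : Env d | InfCluster ω} = {ω : Env d | Inf ω} := by
        ext ω
        exact InfCluster_iff ω
      rw [e]
      exact ProbabilityTheory.cond_eq_zero_of_meas_eq_zero h0
    simp only [hz, Measure.coe_zero, Pi.zero_apply]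
    exact tendsto_const_nhds
  have hT : Tendsto (fun n : ℕ => (PP d p hp {ω | Inf ω})⁻¹ * PP d p hp {ω | Inf ω ∧
      (NP (opn ω) 0 n : ℝ) < (2 * d : ℝ) ^ n * Real.exp (-(C₀ * n * (Real.log n) ^ (-(2 / d : ℝ))))}) atTop (𝓝 0) := by
    have := ENNReal.Tendsto.const_mul hE (a := (PP d p hp {ω | Inf ω})⁻¹) (Or.inr (by simp [h0]))
    rwa [mul_zero] at this
  refine tendsto_of_tendsto_of_tendsto_of_le_of_le' tendsto_const_nhds hT (Eventually.of_forall fun n => bot_le) ?_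
  filter_upwards [eventually_ge_atTop n₀] with n hn
  refine (F2_le p hp _).trans (mul_le_mul' le_rfl (measure_mono ?_))
  rintro ω ⟨h1, t, ht, A, hA, hε'⟩
  refine ⟨h1, ?_⟩
  by_contra h2
  rw [not_lt] at h2
  have hA' : (A.card : ℝ) ≤ a * Real.log n := by
    refine hA.trans (le_of_eq ?_)
    unfold Ln
    have hy : Real.log (1 / (p : ℝ)) ≠ 0 := fun h => by
      rw [h, div_zero] at hL
      exact lt_irrefl _ hL
    have hd0 : (d : ℝ) ≠ 0 := by exact_mod_cast (by omega : d ≠ 0)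
    generalize Real.log (1 / (p : ℝ)) = y at hy
    field_simp
  exact absurd (hdet n hn ω h2 t ht A hA') (not_le.2 hε')

/-- The form of Q2. -/
theorem main_Q2 (hd : 2 ≤ d) (p : ℝ≥0) (hp0 : 0 < p) (hp : p ≤ 1) (hp1 : p < 1) (Kc : ℝ) (hK : 0 < Kc) (t : ℕ → ℕ)
    (ht : ∀ᶠ n in atTop, times d n (t n) Kc) (A : ℕ → Env d → Finset (V d)) (b : ℕ → ℝ) (hb : Tendsto b atTop (𝓝 0))
    (hA : ∀ n ω, ((A n ω).card : ℝ) ≤ b n * Ln d p n) (ε : ℝ) (hε : 0 < ε) :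
    Tendsto (fun n : ℕ => condEnv d p hp {ω | ε < condProb ω n (t n) (A n ω)}) atTop (𝓝 0) := by
  obtain ⟨a, ha, hT⟩ := main_uniform hd p hp0 hp hp1 ε Kc hε hK
  refine tendsto_of_tendsto_of_tendsto_of_le_of_le' tendsto_const_nhds hT (Eventually.of_forall fun n => bot_le) ?_
  filter_upwards [ht, hb.eventually (gt_mem_nhds ha), eventually_ge_atTop 1] with n hn hbn hn1
  refine measure_mono fun ω hω => ?_
  refine ⟨t n, hn, A n ω, (hA n ω).trans ?_, hω⟩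
  refine mul_le_mul_of_nonneg_right hbn.le ?_
  unfold Ln
  have h1 := Ln_pos hd p hp0 hp1
  have h2 : 0 ≤ Real.log n := Real.log_nonneg (by exact_mod_cast hn1)
  have e : (d : ℝ) * Real.log n / Real.log (1 / (p : ℝ)) = (d : ℝ) / Real.log (1 / (p : ℝ)) * Real.log n := by ring
  rw [e]
  positivity

end Pool.Agent.RWO
end

section

set_option autoImplicit false

/-! Task M15: the deterministic theorem, all times. -/

namespace Pool.Agent.RWO

variable {d : ℕ}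

open scoped Classical in
/-- M15. PROOF. `det_bulk` (`s ≥ (log n)^7`), `det_mid` (`3 (log n)^(2/d) ≤ s ≤ (log n)^7`), `det_end` with `Kc = 3` (`s ≤ 3 (log n)^(2/d)`); `a` the minimum. -/
theorem det_all (hd : 2 ≤ d) (C₀ ε : ℝ) (hC : 0 < C₀) (hε : 0 < ε) : ∃ θ : ℝ, 0 < θ ∧ ∀ CB : ℝ, 0 < CB → ∃ a : ℝ, 0 < a ∧ ∃ n₀ : ℕ, ∀ n : ℕ, n₀ ≤ n →
    ∀ (O : Set (V d)) (x : V d),
    (2 * d : ℝ) ^ n * Real.exp (-(C₀ * n * (Real.log n) ^ (-(2 / d : ℝ)))) ≤ NP O x n →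
    (∀ z : V d, (∀ i, |z i - x i| ≤ (n : ℤ)) →
      (((bxc z (Lf n)).filter (fun u => θ * (2 * d : ℝ) ^ (kf d n) ≤ (NP O u (kf d n) : ℝ))).card : ℝ) ≤ CB * Real.log n) →
    ∀ t s : ℕ, t + s = n → (Real.log n) ^ 7 ≤ t → ∀ A : Finset (V d), (A.card : ℝ) ≤ a * Real.log n →
      ((PR O x (A : Set (V d)) t s).card : ℝ) ≤ ε * NP O x n := by
  obtain ⟨a₁, ha₁, n₁, h₁⟩ := det_bulk hd C₀ ε hC hε
  obtain ⟨a₃, ha₃, n₃, h₃⟩ := det_end (le_trans one_le_two hd) C₀ ε 3 hC hε three_pos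
  obtain ⟨θ, hθ, h₂⟩ := det_mid hd C₀ ε hC hε
  refine ⟨θ, hθ, fun CB hCB => ?_⟩
  obtain ⟨a₂, ha₂, n₂, h₂⟩ := h₂ CB hCB
  refine ⟨min a₁ (min a₂ a₃), lt_min ha₁ (lt_min ha₂ ha₃), max n₁ (max n₂ n₃), ?_⟩
  intro n hn O x hN hB t s hts ht A hA
  have hlog : 0 ≤ Real.log n := Real.log_natCast_nonneg n
  have hn₁ : n₁ ≤ n := (le_max_left _ _).trans hn
  have hn₂ : n₂ ≤ n := ((le_max_left _ _).trans (le_max_right _ _)).trans hn
  have hn₃ : n₃ ≤ n := ((le_max_right _ _).trans (le_max_right _ _)).trans hn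
  have hA₁ : (A.card : ℝ) ≤ a₁ * Real.log n :=
    hA.trans (mul_le_mul_of_nonneg_right (min_le_left _ _) hlog)
  have hA₂ : (A.card : ℝ) ≤ a₂ * Real.log n :=
    hA.trans (mul_le_mul_of_nonneg_right ((min_le_right _ _).trans (min_le_left _ _)) hlog)
  have hA₃ : (A.card : ℝ) ≤ a₃ * Real.log n :=
    hA.trans (mul_le_mul_of_nonneg_right ((min_le_right _ _).trans (min_le_right _ _)) hlog)
  rcases le_total ((Real.log n) ^ 7) (s : ℝ) with hs | hs
  · exact h₁ n hn₁ O x hN t s hts ht hs A hA₁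
  · rcases le_total (3 * (Real.log n) ^ (2 / d : ℝ)) (s : ℝ) with hs' | hs'
    · exact h₂ n hn₂ O x hN hB t s hts hs' hs A hA₂
    · exact h₃ n hn₃ O x hN t s hts hs' A hA₃

end Pool.Agent.RWO
end
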